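import Pool.Agent.MG.W.W0E
import Pool.Agent.MG.GLUM
import Pool.Agent.MG.NOD

/-!
# Smooth pointed curves of genus one are Weierstrass curves
-/

open CategoryTheory CategoryTheory.Limits AlgebraicGeometry TensorProduct TopologicalSpace

namespace Pool.Agent.MG.W

namespace W0

open Pool.Agent.MG.Two Pool.Agent.MG.GLU

section push

variable {X : Scheme.{0}} {k : Type} [Field k] {π : X ⟶ Sp k} {σ : Sp k ⟶ X} {q : Sp k}
  {G : GD (π := π) σ q} {a b : k} (H : WG G a b) (I : Inf H)

/-- Functions away from the point. -/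
noncomputable def E1 : Γ(X, G.V) ≃+* A1 k a b := (RingEquiv.ofBijective _ H.bij).symm

/-- Functions near the point. -/
noncomputable def E2 : Γ(X, I.N) ≃+* A2 k a b := (RingEquiv.ofBijective _ I.b2).symm

/-- Functions on the intersection. -/
noncomputable def E12 : Γ(X, G.V ⊓ I.N) ≃+* A12 k a b := (RingEquiv.ofBijective _ I.b12).symm

lemma E1_lift (v : A1 k a b) : E1 H (lift1 (coef π G.V) H.x H.y H.eq v) = v :=
  (RingEquiv.ofBijective _ H.bij).symm_apply_apply v

lemma lift_E1 (r : Γ(X, G.V)) : lift1 (coef π G.V) H.x H.y H.eq (E1 H r) = r :=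
  (RingEquiv.ofBijective _ H.bij).apply_symm_apply r

lemma E2_e2 (v : A2 k a b) : E2 H I (I.e2 v) = v :=
  (RingEquiv.ofBijective _ I.b2).symm_apply_apply v

lemma e2_E2 (r : Γ(X, I.N)) : I.e2 (E2 H I r) = r :=
  (RingEquiv.ofBijective _ I.b2).apply_symm_apply r

lemma E12_e12 (v : A12 k a b) : E12 H I (I.e12 v) = v :=
  (RingEquiv.ofBijective _ I.b12).symm_apply_apply v

lemma E12_1 (r : Γ(X, G.V)) : E12 H I (rs X inf_le_left r) = g1 k a b (E1 H r) := by
  conv_lhs => rw [← lift_E1 H r]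
  rw [← I.h1, E12_e12]

lemma E12_2 (r : Γ(X, I.N)) : E12 H I (rs X inf_le_right r) = g2 k a b (E2 H I r) := by
  conv_lhs => rw [← e2_E2 H I r]
  rw [← I.h2, E12_e12]

/-- The first chart. -/
noncomputable abbrev i1 : Sp (A1 k a b) ⟶ X := ww G.aV (E1 H)

/-- The second chart. -/
noncomputable abbrev i2 : Sp (A2 k a b) ⟶ X := ww I.aN (E2 H I)

variable (hVN : IsAffineOpen (G.V ⊓ I.N))

/-- The intersection. -/
noncomputable abbrev i12 : Sp (A12 k a b) ⟶ X := ww hVN (E12 H I)

theorem i12_1 : i12 H I hVN = spMap (g1 k a b) ≫ i1 H := by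
  refine ww_eq G.aV (E1 H) _ ((ww_le hVN (E12 H I)).trans fun _ hx => hx.1) _ ?_
  intro v
  have := gm_rs (i12 H I hVN) (RingHom.id (A12 k a b)) (i12 H I hVN) (spMap_id_comp _).symm
    (W := G.V) (W' := G.V ⊓ I.N) inf_le_left
    ((ww_le hVN (E12 H I)).trans fun _ hx => hx.1) (ww_le hVN (E12 H I)) v
  rw [ww_gm, E12_1] at this
  exact this.symm

theorem i12_2 : i12 H I hVN = spMap (g2 k a b) ≫ i2 H I := by
  refine ww_eq I.aN (E2 H I) _ ((ww_le hVN (E12 H I)).trans fun _ hx => hx.2) _ ?_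
  intro v
  have := gm_rs (i12 H I hVN) (RingHom.id (A12 k a b)) (i12 H I hVN) (spMap_id_comp _).symm
    (W := I.N) (W' := G.V ⊓ I.N) inf_le_right
    ((ww_le hVN (E12 H I)).trans fun _ hx => hx.2) (ww_le hVN (E12 H I)) v
  rw [ww_gm, E12_2] at this
  exact this.symm

include hVN in
/-- The curve is the push out of its charts. -/
theorem isPush : IsPushout (spMap (g1 k a b)) (spMap (g2 k a b)) (i1 H) (i2 H I) := by
  refine glue_push (by rw [← i12_1 H I hVN, ← i12_2 H I hVN]) ?_ ?_
  · intro p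
    by_cases hp : p = σ q
    · right
      have h : p ∈ (i2 H I).opensRange := by
        rw [ww_range, hp]
        exact I.mN
      exact h
    · left
      have h : p ∈ (i1 H).opensRange := by
        rw [ww_range]
        exact (G.mV p).2 hp
      exact h
  · intro x y h
    have h1 : i1 H x ∈ G.V := ww_le G.aV (E1 H) (show x ∈ ⊤ by trivial)
    have h2 : i2 H I y ∈ I.N := ww_le I.aN (E2 H I) (show y ∈ ⊤ by trivial)
    have h3 : i1 H x ∈ (i12 H I hVN).opensRange := by
      rw [ww_range]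
      exact ⟨h1, h ▸ h2⟩
    obtain ⟨w, hw⟩ := h3
    refine ⟨w, ?_, ?_⟩
    · apply (i1 H).isOpenEmbedding.injective
      rw [← Scheme.Hom.comp_apply, ← i12_1 H I hVN, hw]
    · apply (i2 H I).isOpenEmbedding.injective
      rw [← Scheme.Hom.comp_apply, ← i12_2 H I hVN, hw, h]

theorem i1_π : i1 H ≫ π = spMap (algebraMap k (A1 k a b)) := by
  unfold i1 ww
  rw [Category.assoc, NOD.fromSpec_coef, spMap_comp']
  refine congrArg (fun f => spMap f) (RingHom.ext fun c => ?_)
  change E1 H (coef π G.V c) = _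
  rw [← E1_lift H (algebraMap k _ c), lift1_b]

theorem i2_π : i2 H I ≫ π = spMap (algebraMap k (A2 k a b)) := by
  unfold i2 ww
  rw [Category.assoc, NOD.fromSpec_coef, spMap_comp']
  refine congrArg (fun f => spMap f) (RingHom.ext fun c => ?_)
  change E2 H I (coef π I.N c) = _
  rw [← E2_e2 H I (algebraMap k _ c), I.hc]

/-- A point in the first chart. -/
theorem point1 (τ : Sp k ⟶ X) (h : ⊤ ≤ τ ⁻¹ᵁ G.V) (u : A1 k a b →+* k)
    (hu : ∀ v, evs τ G.V h (lift1 (coef π G.V) H.x H.y H.eq v) = u v) :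
    τ = spMap u ≫ i1 H := by
  refine ww_eq G.aV (E1 H) τ h u fun v => ?_
  rw [← hu, lift_E1]
  rfl

/-- The point at infinity. -/
theorem point2 : σ = spMap (inf2 k a b) ≫ i2 H I := by
  refine ww_eq I.aN (E2 H I) σ I.leN _ fun v => ?_
  rw [← I.hi, e2_E2]
  rfl

end push

end W0

open W0 Pool.Agent.MG.Two Pool.Agent.MG.GLU in
/-- Smooth pointed curves of genus one are Weierstrass curves. -/
theorem t_W0 : Stmt_W0 := by
  intro m k _ _ _ C hC hs
  have hprop : IsProper C.π := hC.proper
  have hid : spMap (RingHom.id k) = 𝟙 (Sp k) := by simp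
  have hst : StableCurve 1 C := hC.fib k (RingHom.id k) C ⟨{
    f := 𝟙 C.X
    cart := by
      rw [hid]
      exact IsPullback.of_id_fst
    sec := fun i => by rw [hid, Category.comp_id, Category.id_comp] }⟩
  have hcon : ConnectedSpace C.X := hst.connected
  have hint : AlgebraicGeometry.IsIntegral C.X := isIntegral_of_smooth C.π
  have hpir := pir_stalk C.π
  let q : Sp k := (⊥ : PrimeSpectrum k)
  obtain ⟨G⟩ := exists_GD C.π hst.genus (C.σ 0) (C.sec 0) q
  obtain ⟨D, hc1, hc2, hj1, hj2, hz, hev⟩ := exists_AD hst.genus (C.sec 0) G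
  obtain ⟨a, b, x, y, hx, hy, heq⟩ := AD.exists_W (D := D)
  obtain ⟨s, hs1, hs2⟩ := id hx
  obtain ⟨t, ht1, ht2⟩ := id hy
  have heq' : y ^ 2 = x ^ 3 + coef C.π G.V a * x + coef C.π G.V b := by
    rw [← hc1]
    exact heq
  have hlift : ∀ (φ : k →+* Γ(C.X, G.V)) (_ : φ = D.c1)
      (h' : y ^ 2 = x ^ 3 + φ a * x + φ b), lift1 φ x y h' = lift1 D.c1 x y heq := by
    rintro _ rfl _
    rfl
  let H : WG G a b :=
    { x := x
      y := y
      s := s
      t := t
      hs := by
        rw [hj1, hj2, hz] at hs1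
        exact hs1
      es := by
        rw [hev] at hs2
        exact hs2
      ht := by
        rw [hj1, hj2, hz] at ht1
        exact ht1
      et := by
        rw [hev] at ht2
        exact ht2
      eq := heq'
      bij := by
        rw [hlift _ hc1.symm heq']
        exact AD.bij t_WRG hx hy heq }
  have hxy : ∀ c, H.x * H.y ≠ coef C.π G.V c := by
    intro c hc
    have h1 : D.Ord 0 (x * y) c := by
      have h2 : x * y = D.c1 c := by
        rw [hc1]
        exact hc
      rw [h2]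
      exact AD.ord_const c
    have h3 := h1.lt (hx.mul hy) (by rw [mul_one]; exact one_ne_zero)
    omega
  obtain ⟨I⟩ := exists_Inf (C.sec 0) t_WRG G H hxy
  have hVN : IsAffineOpen (G.V ⊓ I.N) := isAffineOpen_inf C.π G.aV I.aN
  have hP := isPush H I hVN
  -- the discriminant
  obtain ⟨f0, hf0⟩ := exists_transc C.π
  have hgen : C.σ 0 q ≠ genericPoint C.X := section_ne_genericPoint C.π hf0 _ (C.sec 0) q
  have hVne : Nonempty G.V := ⟨⟨genericPoint C.X, (G.mV _).2 (Ne.symm hgen)⟩⟩
  have hded : IsDedekindDomain Γ(C.X, G.V) := isDedekindDomain_sections C.π hpir G.aV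
  have hdisc : 4 * a ^ 3 + 27 * b ^ 2 ≠ 0 := AD.disc hx hy heq
  -- the other points
  have hmem : ∀ i : Fin m, C.σ i.succ q ∈ G.V := by
    intro i
    rw [G.mV]
    intro h
    exact hst.distinct i.succ 0 (Fin.succ_ne_zero i) (section_ext C.π _ _ (C.sec _) (C.sec _) q h)
  have hle : ∀ i : Fin m, ⊤ ≤ C.σ i.succ ⁻¹ᵁ G.V := fun i => top_le_of_mem _ _ q (hmem i)
  let P : WD m k :=
    { a := a
      b := b
      x := fun i => evs (C.σ i.succ) G.V (hle i) x
      y := fun i => evs (C.σ i.succ) G.V (hle i) y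
      eq := fun i => by
        have h := congrArg (evs (C.σ i.succ) G.V (hle i)) heq'
        rw [map_add, map_add, map_mul, map_pow, map_pow, evs_coef C.π _ (C.sec _),
          evs_coef C.π _ (C.sec _)] at h
        exact h }
  let e : C.X ≅ WX k a b := hP.isoPushout
  have e1 : i1 H ≫ e.hom = WX.in1 k a b := hP.inl_isoPushout_hom
  have e2 : i2 H I ≫ e.hom = WX.in2 k a b := hP.inr_isoPushout_hom
  have hπ : e.hom ≫ WX.pr k a b = C.π := by
    apply hP.hom_ext
    · rw [← Category.assoc, e1, WX.in1_pr, i1_π]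
    · rw [← Category.assoc, e2, WX.in2_pr, i2_π]
  have hiso : IsIso e.hom := e.isIso_hom
  refine ⟨P, hdisc, ⟨e.hom, ?_, ?_⟩, hiso⟩
  · have hiso' : IsIso (spMap (RingHom.id k)) := by
      rw [hid]
      infer_instance
    have hw : e.hom ≫ WX.pr k a b = C.π ≫ spMap (RingHom.id k) := by
      rw [hid, Category.comp_id]
      exact hπ
    exact IsPullback.of_horiz_isIso (fst := e.hom) (snd := C.π) (f := WX.pr k a b)
      (g := spMap (RingHom.id k)) ⟨hw⟩
  · intro i
    rw [hid, Category.id_comp]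
    refine Fin.cases ?_ (fun i => ?_) i
    · change C.σ 0 ≫ e.hom = spMap (inf2 k a b) ≫ WX.in2 k a b
      conv_lhs => rw [point2 H I]
      rw [Category.assoc, e2]
    · change C.σ i.succ ≫ e.hom = spMap (pt1 P i) ≫ WX.in1 k a b
      have h := point1 H (C.σ i.succ) (hle i) (pt1 P i) (by
        have h : (evs (C.σ i.succ) G.V (hle i)).comp (lift1 (coef C.π G.V) H.x H.y H.eq) =
            pt1 P i := by
          refine hom1_ext ?_ ?_ ?_
          · intro c
            rw [RingHom.comp_apply, lift1_b, evs_coef C.π _ (C.sec _), pt1, lift1_b]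
            rfl
          · rw [RingHom.comp_apply, lift1_x, pt1, lift1_x]
          · rw [RingHom.comp_apply, lift1_y, pt1, lift1_y]
        exact fun v => congrArg (fun f => f v) h)
      conv_lhs => rw [h]
      rw [Category.assoc, e1]

end Pool.Agent.MG.W
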