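import Pool.Agent.MG.W.Stmts

/-!
# The rings of the charts of a Weierstrass curve (module MW_WRG)
-/

open CategoryTheory CategoryTheory.Limits AlgebraicGeometry TensorProduct

namespace Pool.Agent.MG.W

namespace WRG

section

variable {B : Type} [CommRing B] {a b : B}

/-! ### `z` is a non zero divisor -/

/-- Restriction of a polynomial to `z = 0`. -/
noncomputable def ev0 : MvPolynomial (Fin 2) B →ₐ[B] Polynomial B :=
  MvPolynomial.aeval ![0, Polynomial.X]

theorem ev0_X0 : ev0 (MvPolynomial.X 0 : MvPolynomial (Fin 2) B) = 0 := by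
  simp [ev0]

theorem ev0_X1 : ev0 (MvPolynomial.X 1 : MvPolynomial (Fin 2) B) = Polynomial.X := by
  simp [ev0]

theorem dvd_of_ev0 (w : MvPolynomial (Fin 2) B) (h : ev0 w = 0) : MvPolynomial.X 0 ∣ w := by
  let inc : Polynomial B →ₐ[B] MvPolynomial (Fin 2) B := Polynomial.aeval (MvPolynomial.X 1)
  let q : MvPolynomial (Fin 2) B →ₐ[B]
      MvPolynomial (Fin 2) B ⧸ Ideal.span {(MvPolynomial.X 0 : MvPolynomial (Fin 2) B)} :=
    Ideal.Quotient.mkₐ B _
  have h1 : q = (q.comp inc).comp ev0 := by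
    refine MvPolynomial.algHom_ext fun i => ?_
    fin_cases i
    · show q (MvPolynomial.X 0) = q (inc (ev0 (MvPolynomial.X 0)))
      rw [ev0_X0, map_zero, map_zero]
      exact Ideal.Quotient.eq_zero_iff_mem.2 (Ideal.mem_span_singleton_self _)
    · show q (MvPolynomial.X 1) = q (inc (ev0 (MvPolynomial.X 1)))
      rw [ev0_X1]
      show _ = q (Polynomial.aeval (MvPolynomial.X 1) Polynomial.X)
      rw [Polynomial.aeval_X]
  have h2 : q w = 0 := by
    rw [h1]
    show q (inc (ev0 w)) = 0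
    rw [h, map_zero, map_zero]
  exact Ideal.mem_span_singleton.1 (Ideal.Quotient.eq_zero_iff_mem.1 h2)

theorem ev0_eq2 : ev0 (eq2 B a b) = Polynomial.X - Polynomial.C 1 := by
  unfold eq2
  simp only [map_sub, map_mul, map_pow, map_one, ev0_X0, ev0_X1]
  ring

theorem z_reg (v : A2 B a b) (h : z2 B a b * v = 0) : v = 0 := by
  obtain ⟨v, rfl⟩ := Ideal.Quotient.mk_surjective v
  have h1 : Ideal.Quotient.mk (Ideal.span {eq2 B a b}) (MvPolynomial.X 0 * v) = 0 := by
    rw [map_mul]
    exact h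
  obtain ⟨w, hw⟩ := Ideal.mem_span_singleton.1 (Ideal.Quotient.eq_zero_iff_mem.1 h1)
  have h2 : ev0 (eq2 B a b) * ev0 w = 0 := by
    rw [← map_mul, ← hw, map_mul, ev0_X0, zero_mul]
  rw [ev0_eq2] at h2
  have h3 : ev0 w = 0 := by
    have hm := (Polynomial.monic_X_sub_C (1 : B)).isRegular
    exact hm.left (h2.trans (mul_zero _).symm)
  obtain ⟨w', rfl⟩ := dvd_of_ev0 w h3
  have h4 : v = eq2 B a b * w' := by
    rw [← MvPolynomial.X_mul_cancel_left_iff (i := (0 : Fin 2)), hw]
    ring
  exact Ideal.Quotient.eq_zero_iff_mem.2 (Ideal.mem_span_singleton.2 ⟨w', h4⟩)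

theorem g2_inj : Function.Injective (g2 B a b) := by
  refine IsLocalization.injective (A12 B a b) (M := Submonoid.powers (z2 B a b)) ?_
  rw [Submonoid.powers_le, mem_nonZeroDivisors_iff_right]
  intro v hv
  exact z_reg v (by rw [mul_comm]; exact hv)

/-! ### The point at infinity -/

theorem inf2_z : inf2 B a b (z2 B a b) = 0 :=
  lift2_z (a := a) (b := b) (RingHom.id B) 0 1 (by simp)
theorem inf2_t : inf2 B a b (t2 B a b) = 1 :=
  lift2_t (a := a) (b := b) (RingHom.id B) 0 1 (by simp)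
theorem inf2_b (c : B) : inf2 B a b (algebraMap B _ c) = c :=
  lift2_b (a := a) (b := b) (RingHom.id B) 0 1 (by simp) c

theorem sub_mem (v : A2 B a b) : v - algebraMap B _ (inf2 B a b v) ∈ Ideal.span {z2 B a b} := by
  let q : A2 B a b →+* A2 B a b ⧸ Ideal.span {z2 B a b} := Ideal.Quotient.mk _
  have hz : q (z2 B a b) = 0 :=
    Ideal.Quotient.eq_zero_iff_mem.2 (Ideal.mem_span_singleton_self _)
  have h1 : q = (q.comp (algebraMap B (A2 B a b))).comp (inf2 B a b) := by
    refine hom2_ext (R := A2 B a b ⧸ Ideal.span {z2 B a b}) ?_ ?_ ?_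
    · intro c
      show q (algebraMap B _ c) = q (algebraMap B _ (inf2 B a b (algebraMap B _ c)))
      rw [inf2_b]
    · show q (z2 B a b) = q (algebraMap B _ (inf2 B a b (z2 B a b)))
      rw [inf2_z, map_zero, map_zero, hz]
    · show q (t2 B a b) = q (algebraMap B _ (inf2 B a b (t2 B a b)))
      rw [inf2_t, map_one, map_one, rel2]
      simp only [map_add, map_mul, map_pow, map_one, hz]
      ring
  have h2 : q v = q (algebraMap B _ (inf2 B a b v)) := by
    conv_lhs => rw [h1]
    rfl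
  exact Ideal.Quotient.eq.1 h2

theorem exists_z (v : A2 B a b) : ∃ w, v = algebraMap B _ (inf2 B a b v) + z2 B a b * w := by
  obtain ⟨w, hw⟩ := Ideal.mem_span_singleton.1 (sub_mem v)
  exact ⟨w, by rw [← hw]; ring⟩

/-! ### The inverse of `t` -/

variable (B a b) in
/-- the inverse of `t` -/
noncomputable def ti : A2 B a b := 1 - algebraMap B _ a * z2 B a b ^ 4 * t2 B a b -
    algebraMap B _ b * z2 B a b ^ 6 * t2 B a b ^ 2

theorem t_ti : t2 B a b * ti B a b = 1 := by
  have := rel2 B a b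
  unfold ti
  linear_combination this

theorem inf2_ti : inf2 B a b (ti B a b) = 1 := by
  have h := congrArg (inf2 B a b) (t_ti (B := B) (a := a) (b := b))
  rw [map_mul, inf2_t, map_one, one_mul] at h
  exact h

variable (B a b) in
/-- `z` in the ring of the intersection -/
noncomputable def Z : A12 B a b := (zu B a b).val

theorem Z_eq : Z B a b = g2 B a b (z2 B a b) := rfl

theorem Z_zi : Z B a b * ((zu B a b)⁻¹).val = 1 := Units.mul_inv _

theorem tu_inv : ((tu B a b)⁻¹).val = g2 B a b (ti B a b) := by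
  have h1 : g2 B a b (ti B a b) * (tu B a b).val = 1 := by
    rw [tu_val, ← map_mul, mul_comm, t_ti, map_one]
  exact (Units.eq_inv_of_mul_eq_one_right h1).symm

theorem Z_x : Z B a b ^ 2 * g1 B a b (x1 B a b) = g2 B a b (ti B a b) := by
  rw [g1_x, ← tu_inv, Units.val_mul, Units.val_pow_eq_pow_val, ← mul_assoc, ← mul_pow, Z_zi,
    one_pow, one_mul]

theorem Z_y : Z B a b ^ 3 * g1 B a b (y1 B a b) = g2 B a b (ti B a b) := by
  rw [g1_y, ← tu_inv, Units.val_mul, Units.val_pow_eq_pow_val, ← mul_assoc, ← mul_pow, Z_zi,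
    one_pow, one_mul]

theorem Z_xi (i : ℕ) : Z B a b ^ (2 * i) * g1 B a b (x1 B a b ^ i) = g2 B a b (ti B a b ^ i) := by
  rw [map_pow, pow_mul, ← mul_pow, Z_x, map_pow]

theorem Z_xiy (i : ℕ) : Z B a b ^ (2 * i + 3) * g1 B a b (x1 B a b ^ i * y1 B a b) =
    g2 B a b (ti B a b ^ (i + 1)) := by
  rw [map_mul, pow_add, mul_mul_mul_comm, Z_xi, Z_y, ← map_mul, pow_succ]

/-! ### Pole orders -/

variable (B a b) in
/-- functions with a pole of order at most `N` at infinity -/
noncomputable def F (N : ℕ) : Submodule B (A1 B a b) where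
  carrier := {v | ∃ w : A2 B a b, Z B a b ^ N * g1 B a b v = g2 B a b w}
  zero_mem' := ⟨0, by rw [map_zero, map_zero, mul_zero]⟩
  add_mem' := by
    rintro v v' ⟨w, hw⟩ ⟨w', hw'⟩
    exact ⟨w + w', by rw [map_add, map_add, mul_add, hw, hw']⟩
  smul_mem' := by
    rintro c v ⟨w, hw⟩
    refine ⟨algebraMap B _ c * w, ?_⟩
    refine (congrArg (fun u => Z B a b ^ N * g1 B a b u) (Algebra.smul_def c v)).trans ?_
    show Z B a b ^ N * g1 B a b (algebraMap B _ c * v) = g2 B a b (algebraMap B _ c * w)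
    rw [map_mul, map_mul, g1_b, g2_b, ← hw]
    ring

theorem mem_F {N : ℕ} {v : A1 B a b} :
    v ∈ F B a b N ↔ ∃ w : A2 B a b, Z B a b ^ N * g1 B a b v = g2 B a b w := Iff.rfl

theorem F_mono {N M : ℕ} (h : N ≤ M) {v : A1 B a b} (hv : v ∈ F B a b N) : v ∈ F B a b M := by
  obtain ⟨w, hw⟩ := mem_F.1 hv
  obtain ⟨k, rfl⟩ := Nat.exists_eq_add_of_le h
  refine mem_F.2 ⟨z2 B a b ^ k * w, ?_⟩
  rw [pow_add, map_mul, map_pow, ← Z_eq, ← hw]
  ring

theorem smul_eq (c : B) (v : A1 B a b) : c • v = algebraMap B _ c * v := Algebra.smul_def c v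

/-- `p(x) + q(x) y` -/
noncomputable def vl (p q : Polynomial B) : A1 B a b :=
  Polynomial.aeval (x1 B a b) p + Polynomial.aeval (x1 B a b) q * y1 B a b

/-- All monomials of `p(x) + q(x) y` have pole order at most `M`. -/
def Pm (M : ℕ) (p q : Polynomial B) : Prop :=
  (∀ i, M < 2 * i → p.coeff i = 0) ∧ ∀ i, M < 2 * i + 3 → q.coeff i = 0

theorem vl_mem {M : ℕ} {p q : Polynomial B} (h : Pm M p q) : (vl p q : A1 B a b) ∈ F B a b M := by
  refine Submodule.add_mem _ ?_ ?_
  · rw [Polynomial.aeval_def, Polynomial.eval₂_eq_sum, Polynomial.sum_def]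
    refine Submodule.sum_mem _ fun i hi => ?_
    rw [← smul_eq]
    refine Submodule.smul_mem _ _ ?_
    have h1 : 2 * i ≤ M := by
      by_contra h2
      exact (Polynomial.mem_support_iff.1 hi) (h.1 i (by omega))
    exact F_mono h1 (mem_F.2 ⟨_, Z_xi i⟩)
  · rw [Polynomial.aeval_def, Polynomial.eval₂_eq_sum, Polynomial.sum_def, Finset.sum_mul]
    refine Submodule.sum_mem _ fun i hi => ?_
    rw [mul_assoc, ← smul_eq]
    refine Submodule.smul_mem _ _ ?_
    have h1 : 2 * i + 3 ≤ M := by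
      by_contra h2
      exact (Polynomial.mem_support_iff.1 hi) (h.2 i (by omega))
    exact F_mono h1 (mem_F.2 ⟨_, Z_xiy i⟩)

theorem aeval_erase (p : Polynomial B) (i : ℕ) : Polynomial.aeval (x1 B a b) p =
    algebraMap B _ (p.coeff i) * x1 B a b ^ i + Polynomial.aeval (x1 B a b) (p.erase i) := by
  conv_lhs => rw [← Polynomial.monomial_add_erase p i]
  rw [map_add, Polynomial.aeval_monomial]

/-- The leading coefficient vanishes. -/
theorem lead {M k : ℕ} {c : B} {v : A1 B a b}
    (hv : Z B a b ^ (M + 1) * g1 B a b v = g2 B a b (ti B a b ^ k))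
    (h : algebraMap B _ c * v ∈ F B a b M) : c = 0 := by
  obtain ⟨w, hw⟩ := mem_F.1 h
  have h1 : g2 B a b (algebraMap B _ c * ti B a b ^ k) = g2 B a b (z2 B a b * w) := by
    rw [map_mul, ← hv, map_mul, ← hw, ← Z_eq, map_mul, g1_b, g2_b]
    ring
  have h2 := congrArg (inf2 B a b) (g2_inj h1)
  rw [map_mul, map_mul, map_pow, inf2_ti, inf2_z, inf2_b, zero_mul, one_pow, mul_one] at h2
  exact h2

theorem step {N M : ℕ} (hNM : N ≤ M) {p q : Polynomial B} (hv : (vl p q : A1 B a b) ∈ F B a b N)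
    (h : Pm (M + 1) p q) : Pm M p q := by
  have hv' := F_mono hNM hv
  constructor
  · intro i hi
    by_cases h1 : M + 1 < 2 * i
    · exact h.1 i h1
    have h2 : M + 1 = 2 * i := by omega
    have h3 : Pm M (p.erase i) q := by
      constructor
      · intro j hj
        rw [Polynomial.coeff_erase]
        split_ifs with hji
        · rfl
        · exact h.1 j (by omega)
      · intro j hj
        exact h.2 j (by omega)
    have h4 : algebraMap B _ (p.coeff i) * x1 B a b ^ i ∈ F B a b M := by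
      have h5 := Submodule.sub_mem _ hv' (vl_mem (a := a) (b := b) h3)
      have h6 : (vl p q : A1 B a b) - vl (p.erase i) q =
          algebraMap B _ (p.coeff i) * x1 B a b ^ i := by
        unfold vl
        rw [aeval_erase p i]
        ring
      rwa [h6] at h5
    exact lead (v := x1 B a b ^ i) (k := i) (by rw [h2]; exact Z_xi i) h4
  · intro i hi
    by_cases h1 : M + 1 < 2 * i + 3
    · exact h.2 i h1
    have h2 : M + 1 = 2 * i + 3 := by omega
    have h3 : Pm M p (q.erase i) := by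
      constructor
      · intro j hj
        exact h.1 j (by omega)
      · intro j hj
        rw [Polynomial.coeff_erase]
        split_ifs with hji
        · rfl
        · exact h.2 j (by omega)
    have h4 : algebraMap B _ (q.coeff i) * (x1 B a b ^ i * y1 B a b) ∈ F B a b M := by
      have h5 := Submodule.sub_mem _ hv' (vl_mem (a := a) (b := b) h3)
      have h6 : (vl p q : A1 B a b) - vl p (q.erase i) =
          algebraMap B _ (q.coeff i) * (x1 B a b ^ i * y1 B a b) := by
        unfold vl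
        rw [aeval_erase q i]
        ring
      rwa [h6] at h5
    exact lead (v := x1 B a b ^ i * y1 B a b) (k := i + 1) (by rw [h2]; exact Z_xiy i) h4

theorem key {N : ℕ} {p q : Polynomial B} (hv : (vl p q : A1 B a b) ∈ F B a b N) : Pm N p q := by
  have h0 : ∀ k, Pm (N + k) p q → Pm N p q := by
    intro k
    induction k with
    | zero => exact fun h => h
    | succ k ih => exact fun h => ih (step (Nat.le_add_right N k) hv h)
  refine h0 (2 * p.natDegree + 2 * q.natDegree + 3) ⟨fun i hi => ?_, fun i hi => ?_⟩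
  · exact Polynomial.coeff_eq_zero_of_natDegree_lt (by omega)
  · exact Polynomial.coeff_eq_zero_of_natDegree_lt (by omega)

theorem exists_vl (v : A1 B a b) : ∃ p q : Polynomial B, v = vl p q := by
  obtain ⟨v, rfl⟩ := Ideal.Quotient.mk_surjective v
  induction v using MvPolynomial.induction_on with
  | C c =>
    refine ⟨Polynomial.C c, 0, ?_⟩
    unfold vl
    rw [Polynomial.aeval_C, map_zero, zero_mul, add_zero]
    rfl
  | add v w hv hw =>
    obtain ⟨p, q, h⟩ := hv
    obtain ⟨p', q', h'⟩ := hw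
    refine ⟨p + p', q + q', ?_⟩
    rw [map_add, h, h']
    unfold vl
    rw [map_add, map_add]
    ring
  | mul_X v i hv =>
    obtain ⟨p, q, h⟩ := hv
    rw [map_mul, h]
    fin_cases i
    · refine ⟨p * Polynomial.X, q * Polynomial.X, ?_⟩
      show vl p q * x1 B a b = _
      unfold vl
      rw [map_mul, map_mul, Polynomial.aeval_X]
      ring
    · refine ⟨q * (Polynomial.X ^ 3 + Polynomial.C a * Polynomial.X + Polynomial.C b), p, ?_⟩
      show vl p q * y1 B a b = _
      unfold vl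
      have := rel1 B a b
      simp only [map_mul, map_add, map_pow, Polynomial.aeval_X, Polynomial.aeval_C]
      linear_combination (Polynomial.aeval (x1 B a b) q) * this

theorem b_inj1 {c : B} (h : algebraMap B (A1 B a b) c = 0) : c = 0 := by
  have h1 := congrArg (g1 B a b) h
  rw [g1_b, map_zero] at h1
  have h2 : g2 B a b (algebraMap B _ c) = g2 B a b 0 := by rw [g2_b, h1, map_zero]
  have h3 := congrArg (inf2 B a b) (g2_inj h2)
  rwa [inf2_b, map_zero] at h3

theorem const_of {p q : Polynomial B} {N : ℕ} (hN : N ≤ 1) (h : Pm N p q) :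
    p = Polynomial.C (p.coeff 0) ∧ q = 0 := by
  constructor
  · ext i
    rw [Polynomial.coeff_C]
    split_ifs with hi
    · rw [hi]
    · exact h.1 i (by omega)
  · ext i
    rw [Polynomial.coeff_zero]
    exact h.2 i (by omega)

theorem eq_zero_of {p q : Polynomial B} (h : (vl p q : A1 B a b) = 0) : p = 0 ∧ q = 0 := by
  have h1 : Pm 0 p q := key (by rw [h]; exact Submodule.zero_mem (F B a b 0))
  obtain ⟨h2, h3⟩ := const_of (by omega) h1
  refine ⟨?_, h3⟩
  have h4 : algebraMap B (A1 B a b) (p.coeff 0) = 0 := by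
    rw [← h]
    unfold vl
    rw [h3, h2, Polynomial.aeval_C, map_zero, zero_mul, add_zero, Polynomial.coeff_C_zero]
  rw [h2, b_inj1 h4, Polynomial.C_0]

theorem g1_inj : Function.Injective (g1 B a b) := by
  rw [injective_iff_map_eq_zero]
  intro v hv
  obtain ⟨p, q, rfl⟩ := exists_vl v
  have h1 : Pm 0 p q := key (mem_F.2 ⟨0, by rw [hv, mul_zero, map_zero]⟩)
  obtain ⟨h2, h3⟩ := const_of (by omega) h1
  have h4 : (vl p q : A1 B a b) = algebraMap B _ (p.coeff 0) := by
    unfold vl
    rw [h3, h2, Polynomial.aeval_C, map_zero, zero_mul, add_zero, Polynomial.coeff_C_zero]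
  rw [h4, g1_b] at hv
  have h5 : g2 B a b (algebraMap B _ (p.coeff 0)) = g2 B a b 0 := by rw [g2_b, hv, map_zero]
  have h6 := congrArg (inf2 B a b) (g2_inj h5)
  rw [inf2_b, map_zero] at h6
  rw [h4, h6, map_zero]

/-! ### The sum of the two rings -/

variable (B a b) in
/-- the sum of the two rings and of `B z⁻¹` -/
noncomputable def S : Submodule B (A12 B a b) where
  carrier := {v | ∃ (c : B) (v1 : A1 B a b) (v2 : A2 B a b),
    v = algebraMap B _ c * (zu B a b)⁻¹.val + g1 B a b v1 + g2 B a b v2}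
  zero_mem' := ⟨0, 0, 0, by simp⟩
  add_mem' := by
    rintro v v' ⟨c, v1, v2, rfl⟩ ⟨c', v1', v2', rfl⟩
    refine ⟨c + c', v1 + v1', v2 + v2', ?_⟩
    rw [map_add, map_add, map_add]
    ring
  smul_mem' := by
    rintro d v ⟨c, v1, v2, rfl⟩
    refine ⟨d * c, algebraMap B _ d * v1, algebraMap B _ d * v2, ?_⟩
    rw [Algebra.smul_def, map_mul, map_mul, map_mul, g1_b, g2_b]
    ring

theorem mem_S {v : A12 B a b} : v ∈ S B a b ↔ ∃ (c : B) (v1 : A1 B a b) (v2 : A2 B a b),
    v = algebraMap B _ c * (zu B a b)⁻¹.val + g1 B a b v1 + g2 B a b v2 := Iff.rfl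

theorem zi_z {m : ℕ} (w : A2 B a b) :
    (zu B a b)⁻¹.val ^ (m + 1) * g2 B a b (z2 B a b * w) = (zu B a b)⁻¹.val ^ m * g2 B a b w := by
  rw [map_mul, ← Z_eq, pow_succ]
  have := Z_zi (B := B) (a := a) (b := b)
  linear_combination ((zu B a b)⁻¹.val ^ m * g2 B a b w) * this

theorem mono_S {m k : ℕ} {v : A1 B a b} (ih : ∀ w : A2 B a b, (zu B a b)⁻¹.val ^ m * g2 B a b w ∈ S B a b)
    (hv : Z B a b ^ (m + 1) * g1 B a b v = g2 B a b (ti B a b ^ k)) :
    (zu B a b)⁻¹.val ^ (m + 1) ∈ S B a b := by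
  obtain ⟨w, hw⟩ := exists_z (ti B a b ^ k)
  rw [map_pow, inf2_ti, one_pow, map_one] at hw
  have h1 : (zu B a b)⁻¹.val ^ (m + 1) * g2 B a b (ti B a b ^ k) = g1 B a b v := by
    rw [← hv, ← mul_assoc, ← mul_pow, mul_comm _ (Z B a b), Z_zi, one_pow, one_mul]
  have h2 : (zu B a b)⁻¹.val ^ (m + 1) = g1 B a b v - (zu B a b)⁻¹.val ^ m * g2 B a b w := by
    rw [← h1, ← zi_z (m := m) w, ← mul_sub, ← map_sub]
    have h3 : ti B a b ^ k - z2 B a b * w = 1 := by
      rw [hw]
      ring
    rw [h3, map_one, mul_one]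
  rw [h2]
  refine Submodule.sub_mem _ ?_ (ih w)
  exact mem_S.2 ⟨0, v, 0, by simp⟩

theorem all_S (m : ℕ) : ∀ w : A2 B a b, (zu B a b)⁻¹.val ^ m * g2 B a b w ∈ S B a b := by
  induction m with
  | zero =>
    intro w
    exact mem_S.2 ⟨0, 0, w, by simp⟩
  | succ m ih =>
    have h1 : (zu B a b)⁻¹.val ^ (m + 1) ∈ S B a b := by
      rcases Nat.even_or_odd (m + 1) with h | h
      · obtain ⟨i, hi⟩ := h
        refine mono_S (v := x1 B a b ^ i) (k := i) ih ?_
        rw [show m + 1 = 2 * i by omega]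
        exact Z_xi i
      · obtain ⟨i, hi⟩ := h
        rcases Nat.eq_zero_or_pos i with h0 | h0
        · rw [hi, h0]
          exact mem_S.2 ⟨1, 0, 0, by simp⟩
        · refine mono_S (v := x1 B a b ^ (i - 1) * y1 B a b) (k := i - 1 + 1) ih ?_
          rw [show m + 1 = 2 * (i - 1) + 3 by omega]
          exact Z_xiy (i - 1)
    intro w
    obtain ⟨w', hw⟩ := exists_z w
    rw [hw, map_add, mul_add, zi_z, g2_b]
    refine Submodule.add_mem _ ?_ (ih w')
    rw [mul_comm, ← Algebra.smul_def]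
    exact Submodule.smul_mem _ _ h1

theorem exists_rep (v : A12 B a b) : v ∈ S B a b := by
  obtain ⟨n, w, hw⟩ := IsLocalization.Away.surj (z2 B a b) v
  have h1 : v = (zu B a b)⁻¹.val ^ n * g2 B a b w := by
    have h2 : v * Z B a b ^ n = g2 B a b w := hw
    rw [← h2, mul_comm v, ← mul_assoc, ← mul_pow, mul_comm _ (Z B a b), Z_zi, one_pow, one_mul]
  rw [h1]
  exact all_S n w

end

end WRG

open WRG in
theorem t_WRG : Stmt_WRG := by
  intro B _ a b
  refine ⟨?_, sub_mem, g2_inj, g1_inj, exists_rep, ?_, ?_, ?_⟩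
  · intro v
    obtain ⟨p, q, rfl⟩ := exists_vl v
    refine ⟨(p, q), rfl, ?_⟩
    rintro ⟨p', q'⟩ h
    have h1 : (vl (p' - p) (q' - q) : A1 B a b) = 0 := by
      have h2 : (vl p q : A1 B a b) = vl p' q' := h
      unfold vl at h2 ⊢
      rw [map_sub, map_sub]
      linear_combination -h2
    obtain ⟨h3, h4⟩ := eq_zero_of h1
    rw [sub_eq_zero.1 h3, sub_eq_zero.1 h4]
  · intro c v1 v2 h
    have hZ : Z B a b * (algebraMap B _ c * (zu B a b)⁻¹.val + g1 B a b v1 + g2 B a b v2) = 0 := by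
      rw [h, mul_zero]
    have h1 : Z B a b ^ 1 * g1 B a b v1 =
        g2 B a b (- algebraMap B _ c - z2 B a b * v2) := by
      rw [map_sub, map_neg, map_mul, g2_b, ← Z_eq]
      have := Z_zi (B := B) (a := a) (b := b)
      linear_combination hZ - algebraMap B _ c * this
    obtain ⟨p, q, rfl⟩ := exists_vl v1
    obtain ⟨h2, h3⟩ := const_of le_rfl (key (mem_F.2 ⟨_, h1⟩))
    have h4 : (vl p q : A1 B a b) = algebraMap B _ (p.coeff 0) := by
      unfold vl
      rw [h3, h2, Polynomial.aeval_C, map_zero, zero_mul, add_zero, Polynomial.coeff_C_zero]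
    have h5 : g2 B a b (z2 B a b * algebraMap B _ (p.coeff 0)) =
        g2 B a b (- algebraMap B _ c - z2 B a b * v2) := by
      rw [← h1, h4, g1_b, map_mul, g2_b, ← Z_eq, pow_one]
    have h6 := g2_inj h5
    have h7 := congrArg (inf2 B a b) h6
    simp only [map_mul, map_sub, map_neg, inf2_z, inf2_b, zero_mul, sub_zero] at h7
    have h8 : c = 0 := neg_eq_zero.1 h7.symm
    refine ⟨h8, p.coeff 0, h4, ?_⟩
    have h9 : z2 B a b * (v2 + algebraMap B _ (p.coeff 0)) = 0 := by
      rw [h8, map_zero, neg_zero, zero_sub] at h6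
      linear_combination h6
    exact eq_neg_of_add_eq_zero_left (z_reg _ h9)
  · intro v1 v2 h
    obtain ⟨p, q, rfl⟩ := exists_vl v1
    have h1 : Pm 2 p q := key (mem_F.2 ⟨v2, h⟩)
    have h2 : q = 0 := by
      ext i
      rw [Polynomial.coeff_zero]
      exact h1.2 i (by omega)
    have h3 : p = Polynomial.C (p.coeff 0) + Polynomial.C (p.coeff 1) * Polynomial.X := by
      ext i
      rcases i with _ | _ | i
      · simp
      · simp
      · rw [h1.1 _ (by omega)]
        simp
    refine ⟨p.coeff 0, p.coeff 1, ?_⟩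
    unfold vl
    rw [h2, map_zero, zero_mul, add_zero]
    conv_lhs => rw [h3]
    rw [map_add, map_mul, Polynomial.aeval_C, Polynomial.aeval_C, Polynomial.aeval_X]
  · intro v1 v2 h
    obtain ⟨p, q, rfl⟩ := exists_vl v1
    have h1 : Pm 3 p q := key (mem_F.2 ⟨v2, h⟩)
    have h2 : q = Polynomial.C (q.coeff 0) := by
      ext i
      rw [Polynomial.coeff_C]
      split_ifs with hi
      · rw [hi]
      · exact h1.2 i (by omega)
    have h3 : p = Polynomial.C (p.coeff 0) + Polynomial.C (p.coeff 1) * Polynomial.X := by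
      ext i
      rcases i with _ | _ | i
      · simp
      · simp
      · rw [h1.1 _ (by omega)]
        simp
    refine ⟨p.coeff 0, p.coeff 1, q.coeff 0, ?_⟩
    unfold vl
    conv_lhs => rw [h3, h2]
    rw [map_add, map_mul, Polynomial.aeval_C, Polynomial.aeval_C, Polynomial.aeval_X,
      Polynomial.aeval_C]

end Pool.Agent.MG.W
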