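import Pool.Agent.MG.W.Stmts

/-!
# Isomorphic thickenings of a Weierstrass curve differ by a scaling (algebra)
-/

open CategoryTheory CategoryTheory.Limits AlgebraicGeometry TensorProduct

namespace Pool.Agent.MG.W

namespace WUA

section

variable {B E J : Type} [CommRing B] [CommRing E] [Fintype J] (S : SqE B E J)

include S in
theorem sq0 {c d : E} (hc : S.p c = 0) (hd : S.p d = 0) : c * d = 0 := by
  obtain ⟨f, rfl⟩ := S.ex c hc
  obtain ⟨g, rfl⟩ := S.ex d hd
  rw [Finset.sum_mul_sum]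
  refine Finset.sum_eq_zero fun i _ => Finset.sum_eq_zero fun j _ => ?_
  rw [mul_mul_mul_comm, S.mul, zero_mul]

theorem surj : Function.Surjective S.p := fun b => ⟨S.i b, S.pi b⟩

include S in
theorem inv1 {c : E} (hc : S.p c = 1) : c * (2 - c) = 1 := by
  have h0 : S.p (c - 1) = 0 := by rw [map_sub, hc, map_one, sub_self]
  have := sq0 S h0 h0
  linear_combination -this

theorem bc2_mk {a b : B} {a' b' : E} (ha : a = S.p a') (hb : b = S.p b')
    (P : MvPolynomial (Fin 2) E) :
    bc2 S.p ha hb (Ideal.Quotient.mk _ P) = Ideal.Quotient.mk _ (MvPolynomial.map S.p P) := by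
  have : (bc2 S.p ha hb).comp (Ideal.Quotient.mk (Ideal.span {eq2 E a' b'})) =
      (Ideal.Quotient.mk (Ideal.span {eq2 B a b})).comp (MvPolynomial.map S.p) := by
    refine MvPolynomial.ringHom_ext (fun c => ?_) fun i => ?_
    · rw [RingHom.comp_apply, RingHom.comp_apply, MvPolynomial.map_C]
      exact bc2_b S.p ha hb c
    · rw [RingHom.comp_apply, RingHom.comp_apply, MvPolynomial.map_X]
      fin_cases i
      · exact bc2_z S.p ha hb
      · exact bc2_t S.p ha hb
  exact congrArg (fun f => f P) this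

theorem ker2 {a b : B} {a' b' : E} (ha : a = S.p a') (hb : b = S.p b') (v : A2 E a' b')
    (hv : bc2 S.p ha hb v = 0) : v * v = 0 := by
  obtain ⟨P, rfl⟩ := Ideal.Quotient.mk_surjective v
  rw [bc2_mk, Ideal.Quotient.eq_zero_iff_mem, Ideal.mem_span_singleton'] at hv
  obtain ⟨Q, hQ⟩ := hv
  obtain ⟨Q', rfl⟩ := MvPolynomial.map_surjective S.p (surj S) Q
  have he : MvPolynomial.map S.p (eq2 E a' b') = eq2 B a b := by
    simp [eq2, ha, hb]
  have h2 : MvPolynomial.map S.p (P - Q' * eq2 E a' b') = 0 := by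
    rw [map_sub, map_mul, he, hQ, sub_self]
  have h3 : (P - Q' * eq2 E a' b') * (P - Q' * eq2 E a' b') = 0 := by
    ext n
    rw [MvPolynomial.coeff_mul, MvPolynomial.coeff_zero]
    refine Finset.sum_eq_zero fun x _ => sq0 S ?_ ?_
    · rw [← MvPolynomial.coeff_map, h2, MvPolynomial.coeff_zero]
    · rw [← MvPolynomial.coeff_map, h2, MvPolynomial.coeff_zero]
  have h4 : Ideal.Quotient.mk (Ideal.span {eq2 E a' b'}) P =
      Ideal.Quotient.mk (Ideal.span {eq2 E a' b'}) (P - Q' * eq2 E a' b') := by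
    rw [Ideal.Quotient.eq]
    rw [sub_sub_cancel]
    exact Ideal.mul_mem_left _ _ (Ideal.subset_span rfl)
  rw [h4, ← map_mul, h3, map_zero]

end

section

variable {R : Type} [CommRing R] (a b : R)

theorem uni (h : ∀ v : A1 R a b, ∃! pq : Polynomial R × Polynomial R,
      v = Polynomial.aeval (x1 R a b) pq.1 + Polynomial.aeval (x1 R a b) pq.2 * y1 R a b)
    {P Q P' Q' : Polynomial R} (e : Polynomial.aeval (x1 R a b) P +
      Polynomial.aeval (x1 R a b) Q * y1 R a b = Polynomial.aeval (x1 R a b) P' +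
      Polynomial.aeval (x1 R a b) Q' * y1 R a b) : P = P' ∧ Q = Q' := by
  have := (h (Polynomial.aeval (x1 R a b) P +
      Polynomial.aeval (x1 R a b) Q * y1 R a b)).unique (y₁ := (P, Q)) (y₂ := (P', Q')) rfl e
  exact ⟨congrArg Prod.fst this, congrArg Prod.snd this⟩

theorem cf {c3 c1 c0 d3 d2 d1 d0 : R} (h : Polynomial.C c3 * Polynomial.X ^ 3 +
    Polynomial.C c1 * Polynomial.X + Polynomial.C c0 = Polynomial.C d3 * Polynomial.X ^ 3 +
    Polynomial.C d2 * Polynomial.X ^ 2 + Polynomial.C d1 * Polynomial.X + Polynomial.C d0) :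
    c3 = d3 ∧ 0 = d2 ∧ c1 = d1 ∧ c0 = d0 := by
  have e3 := congrArg (fun q => Polynomial.coeff q 3) h
  have e2 := congrArg (fun q => Polynomial.coeff q 2) h
  have e1 := congrArg (fun q => Polynomial.coeff q 1) h
  have e0 := congrArg (fun q => Polynomial.coeff q 0) h
  simp [Polynomial.coeff_C, Polynomial.coeff_X] at e3 e2 e1 e0
  exact ⟨e3, e2, e1, e0⟩

theorem relx : g2 R a b (z2 R a b) ^ 2 * g2 R a b (t2 R a b) * g1 R a b (x1 R a b) = 1 := by
  rw [g1_x, ← zu_val, ← tu_val]
  have : zu R a b ^ 2 * tu R a b * ((zu R a b)⁻¹ ^ 2 * (tu R a b)⁻¹) = 1 := by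
    rw [mul_mul_mul_comm, mul_inv_cancel, mul_one, inv_pow, mul_inv_cancel]
  exact congrArg Units.val this

theorem rely : g2 R a b (z2 R a b) ^ 3 * g2 R a b (t2 R a b) * g1 R a b (y1 R a b) = 1 := by
  rw [g1_y, ← zu_val, ← tu_val]
  have : zu R a b ^ 3 * tu R a b * ((zu R a b)⁻¹ ^ 3 * (tu R a b)⁻¹) = 1 := by
    rw [mul_mul_mul_comm, mul_inv_cancel, mul_one, inv_pow, mul_inv_cancel]
  exact congrArg Units.val this

end

end WUA

open WUA in
/-- WUA -/
theorem t_WUA (hWRG : Stmt_WRG) : Stmt_WUA := by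
  intro B E J _ _ _ S a b a' b' a'' b'' ha hb ha' hb' h6 h1 h2 h12 hc1 hc2 k1 k2 r1 r2 ki
  obtain ⟨W1, W2, -, -, -, -, W7, W8⟩ := hWRG E a'' b''
  obtain ⟨V1, -, V3, -, -, -, -, -⟩ := hWRG B a b
  have hZ : h2 (z2 E a' b') ∈ Ideal.span {z2 E a'' b''} := by
    have h := W2 (h2 (z2 E a' b'))
    have h0 : inf2 E a' b' (z2 E a' b') = 0 := lift2_z _ _ _ _
    rw [ki, h0, map_zero, sub_zero] at h
    exact h
  obtain ⟨w, hw⟩ := Ideal.mem_span_singleton'.1 hZ
  have hw1 : bc2 S.p ha' hb' w = 1 := by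
    have e := congrArg (bc2 S.p ha' hb') hw
    rw [map_mul, bc2_z, r2, bc2_z] at e
    refine V3 ?_
    have e2 := congrArg (g2 B a b) e
    rw [map_mul, ← zu_val] at e2
    rw [map_one]
    exact (Units.mul_left_inj (zu B a b)).1 (by rw [one_mul]; exact e2)
  have hwi : w * (2 - w) = 1 := by
    have := ker2 S ha' hb' (w - 1) (by rw [map_sub, hw1, map_one, sub_self])
    linear_combination -this
  obtain ⟨ti, hti⟩ := ((t2_unit E a' b').map h2).exists_right_inv
  -- the images of x and y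
  have hX : (zu E a'' b'').val ^ 2 * g1 E a'' b'' (h1 (x1 E a' b')) =
      g2 E a'' b'' ((2 - w) ^ 2 * ti) := by
    have e := congrArg h12 (relx a' b')
    rw [map_mul, map_mul, map_pow, k1, k2, k2, ← hw, map_one] at e
    have e1 := congrArg (g2 E a'' b'') hwi
    have e2 := congrArg (g2 E a'' b'') hti
    rw [map_mul, map_one] at e1 e2
    rw [map_mul] at e
    rw [zu_val, map_mul, map_pow]
    generalize g2 E a'' b'' (2 - w) = wi at *
    generalize g2 E a'' b'' ti = t' at *
    generalize g2 E a'' b'' w = w' at *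
    generalize g2 E a'' b'' (z2 E a'' b'') = z at *
    generalize g2 E a'' b'' (h2 (t2 E a' b')) = T at *
    generalize g1 E a'' b'' (h1 (x1 E a' b')) = X at *
    calc z ^ 2 * X = z ^ 2 * X * ((w' * wi) ^ 2 * (T * t')) := by rw [e1, e2]; ring
      _ = (w' * z) ^ 2 * T * X * (wi ^ 2 * t') := by ring
      _ = _ := by rw [e, one_mul]
  have hY : (zu E a'' b'').val ^ 3 * g1 E a'' b'' (h1 (y1 E a' b')) =
      g2 E a'' b'' ((2 - w) ^ 3 * ti) := by
    have e := congrArg h12 (rely a' b')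
    rw [map_mul, map_mul, map_pow, k1, k2, k2, ← hw, map_one] at e
    have e1 := congrArg (g2 E a'' b'') hwi
    have e2 := congrArg (g2 E a'' b'') hti
    rw [map_mul, map_one] at e1 e2
    rw [map_mul] at e
    rw [zu_val, map_mul, map_pow]
    generalize g2 E a'' b'' (2 - w) = wi at *
    generalize g2 E a'' b'' ti = t' at *
    generalize g2 E a'' b'' w = w' at *
    generalize g2 E a'' b'' (z2 E a'' b'') = z at *
    generalize g2 E a'' b'' (h2 (t2 E a' b')) = T at *
    generalize g1 E a'' b'' (h1 (y1 E a' b')) = Y at *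
    calc z ^ 3 * Y = z ^ 3 * Y * ((w' * wi) ^ 3 * (T * t')) := by rw [e1, e2]; ring
      _ = (w' * z) ^ 3 * T * Y * (wi ^ 3 * t') := by ring
      _ = _ := by rw [e, one_mul]
  obtain ⟨r, al, hX1⟩ := W7 _ _ hX
  obtain ⟨ta, si, be, hY1⟩ := W8 _ _ hY
  -- reduction
  have hXr := r1 (x1 E a' b')
  rw [hX1, map_add, map_mul, bc1_b, bc1_b, bc1_x, bc1_x] at hXr
  have hYr := r1 (y1 E a' b')
  rw [hY1, map_add, map_add, map_mul, map_mul, bc1_b, bc1_b, bc1_b, bc1_x, bc1_y, bc1_y] at hYr
  obtain ⟨hr, hal⟩ : S.p r = 0 ∧ S.p al = 1 := by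
    have h := uni a b V1 (P := Polynomial.C (S.p r) + Polynomial.C (S.p al) * Polynomial.X)
      (Q := 0) (P' := Polynomial.X) (Q' := 0) (by
        simp only [map_add, map_mul, Polynomial.aeval_C, Polynomial.aeval_X, map_zero]
        rw [hXr])
    have h0 := congrArg (fun q => Polynomial.coeff q 0) h.1
    have h1 := congrArg (fun q => Polynomial.coeff q 1) h.1
    simp [Polynomial.coeff_C] at h0 h1
    exact ⟨h0, h1⟩
  obtain ⟨hta, hsi, hbe⟩ : S.p ta = 0 ∧ S.p si = 0 ∧ S.p be = 1 := by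
    have h := uni a b V1 (P := Polynomial.C (S.p ta) + Polynomial.C (S.p si) * Polynomial.X)
      (Q := Polynomial.C (S.p be)) (P' := 0) (Q' := 1) (by
        simp only [map_add, map_mul, Polynomial.aeval_C, Polynomial.aeval_X, map_zero, map_one]
        rw [hYr]
        ring)
    have h0 := congrArg (fun q => Polynomial.coeff q 0) h.1
    have h1 := congrArg (fun q => Polynomial.coeff q 1) h.1
    have h2 := congrArg (fun q => Polynomial.coeff q 0) h.2
    simp [Polynomial.coeff_C] at h0 h1 h2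
    exact ⟨h0, h1, h2⟩
  -- the relation
  have hrel := congrArg h1 (rel1 E a' b')
  rw [map_pow, map_add, map_add, map_pow, map_mul, hc1, hc1, hX1, hY1] at hrel
  have q1 : algebraMap E (A1 E a'' b'') r * algebraMap E (A1 E a'' b'') r = 0 := by
    rw [← map_mul, sq0 S hr hr, map_zero]
  have q2 : algebraMap E (A1 E a'' b'') ta * algebraMap E (A1 E a'' b'') ta = 0 := by
    rw [← map_mul, sq0 S hta hta, map_zero]
  have q3 : algebraMap E (A1 E a'' b'') ta * algebraMap E (A1 E a'' b'') si = 0 := by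
    rw [← map_mul, sq0 S hta hsi, map_zero]
  have q4 : algebraMap E (A1 E a'' b'') si * algebraMap E (A1 E a'' b'') si = 0 := by
    rw [← map_mul, sq0 S hsi hsi, map_zero]
  have hy2 := rel1 E a'' b''
  have h := uni a'' b'' W1
    (P := Polynomial.C (be ^ 2) * Polynomial.X ^ 3 + Polynomial.C (be ^ 2 * a'') * Polynomial.X +
      Polynomial.C (be ^ 2 * b''))
    (Q := Polynomial.C (2 * be * si) * Polynomial.X + Polynomial.C (2 * be * ta))
    (P' := Polynomial.C (al ^ 3) * Polynomial.X ^ 3 + Polynomial.C (3 * r * al ^ 2) *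
      Polynomial.X ^ 2 + Polynomial.C (a' * al) * Polynomial.X + Polynomial.C (a' * r + b'))
    (Q' := 0) (by
      simp only [map_add, map_mul, Polynomial.aeval_C, Polynomial.aeval_X, map_zero, map_pow,
        map_ofNat]
      generalize algebraMap E (A1 E a'' b'') r = r' at *
      generalize algebraMap E (A1 E a'' b'') ta = ta' at *
      generalize algebraMap E (A1 E a'' b'') si = si' at *
      generalize algebraMap E (A1 E a'' b'') al = al' at *
      generalize algebraMap E (A1 E a'' b'') be = be' at *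
      generalize algebraMap E (A1 E a'' b'') a' = c1 at *
      generalize algebraMap E (A1 E a'' b'') b' = c2 at *
      generalize algebraMap E (A1 E a'' b'') a'' = c3 at *
      generalize algebraMap E (A1 E a'' b'') b'' = c4 at *
      generalize x1 E a'' b'' = x at *
      generalize y1 E a'' b'' = y at *
      linear_combination hrel - be' ^ 2 * hy2 - q2 - 2 * x * q3 - x ^ 2 * q4 +
        (r' + 3 * al' * x) * q1)
  obtain ⟨c3, c2, c1, c0⟩ := cf h.1
  have d1 := congrArg (fun q => Polynomial.coeff q 1) h.2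
  have d0 := congrArg (fun q => Polynomial.coeff q 0) h.2
  simp at d1 d0
  -- inverses
  have hai := inv1 S hal
  have hbi := inv1 S hbe
  obtain ⟨c, hc⟩ := h6.exists_right_inv
  have h6e : S.p (6 * S.i c) = 1 := by rw [map_mul, S.pi, map_ofNat, hc]
  have hs := inv1 S h6e
  generalize hS : S.i c * (2 - 6 * S.i c) = s
  have hs6 : 6 * s = 1 := by rw [← hS, ← mul_assoc]; exact hs
  have hr0 : r = 0 := by
    calc r = r * (6 * s) * (al * (2 - al)) ^ 2 := by rw [hs6, hai]; ring
      _ = 2 * s * (2 - al) ^ 2 * (3 * r * al ^ 2) := by ring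
      _ = 0 := by rw [← c2, mul_zero]
  have hsi0 : si = 0 := by
    calc si = si * (6 * s) * (be * (2 - be)) := by rw [hs6, hbi]; ring
      _ = 3 * s * (2 - be) * (2 * be * si) := by ring
      _ = 0 := by rw [d1, mul_zero]
  have hta0 : ta = 0 := by
    calc ta = ta * (6 * s) * (be * (2 - be)) := by rw [hs6, hbi]; ring
      _ = 3 * s * (2 - be) * (2 * be * ta) := by ring
      _ = 0 := by rw [d0, mul_zero]
  generalize hA : 2 - al = ai at *
  generalize hB : 2 - be = bi at *
  refine ⟨al * bi, be * ai, ?_, ?_, ?_, ?_, ?_, ?_⟩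
  · calc al * bi * (be * ai) = (al * ai) * (be * bi) := by ring
      _ = 1 := by rw [hai, hbi, mul_one]
  · rw [map_mul, hal, ← hB, map_sub, map_ofNat, hbe]
    norm_num
  · calc a'' = a'' * (be * bi) ^ 4 * (al * ai) ^ 2 := by rw [hai, hbi]; ring
      _ = (be ^ 2 * a'') * be ^ 2 * bi ^ 4 * (al * ai) ^ 2 := by ring
      _ = (a' * al) * al ^ 3 * bi ^ 4 * (al * ai) ^ 2 := by rw [c1, c3]
      _ = (al * bi) ^ 4 * a' := by rw [hai]; ring
  · calc b'' = b'' * (be * bi) ^ 6 := by rw [hbi]; ring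
      _ = (be ^ 2 * b'') * (be ^ 2) * (be ^ 2) * bi ^ 6 := by ring
      _ = (a' * r + b') * al ^ 3 * al ^ 3 * bi ^ 6 := by rw [c0, c3]
      _ = (al * bi) ^ 6 * b' := by rw [hr0]; ring
  · rw [hX1, hr0, map_zero, zero_add]
    congr 1
    rw [← map_pow]
    congr 1
    calc al = al * (al * ai) ^ 2 := by rw [hai]; ring
      _ = al ^ 3 * ai ^ 2 := by ring
      _ = (be * ai) ^ 2 := by rw [← c3]; ring
  · rw [hY1, hsi0, hta0, map_zero, zero_mul, zero_add, zero_add]
    congr 1
    rw [← map_pow]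
    congr 1
    calc be = be * (al * ai) ^ 3 := by rw [hai]; ring
      _ = be * al ^ 3 * ai ^ 3 := by ring
      _ = (be * ai) ^ 3 := by rw [← c3]; ring

end Pool.Agent.MG.W
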