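import Pool.Agent.MG.W.Stmts

/-!
# Isomorphic thickenings of Weierstrass families differ by a scaling: the scheme side
-/

open CategoryTheory CategoryTheory.Limits AlgebraicGeometry TensorProduct

namespace Pool.Agent.MG.W

namespace WUS

theorem surj_of_sec {R A : Type} [CommRing R] [CommRing A] (f : R →+* A)
    (g : A →+* R ⧸ nilradical R) (h : g.comp f = Ideal.Quotient.mk _) :
    Function.Surjective (spMap f) := by
  have h1 : Function.Surjective (PrimeSpectrum.comap (Ideal.Quotient.mk (nilradical R))) := by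
    rw [← Set.range_eq_univ, range_comap_of_surjective _ _ Ideal.Quotient.mk_surjective,
      PrimeSpectrum.zeroLocus_eq_univ_iff]
    intro a ha
    rw [Ideal.mk_ker] at ha
    exact ha
  intro q
  obtain ⟨r, hr⟩ := h1 q
  refine ⟨PrimeSpectrum.comap g r, ?_⟩
  change PrimeSpectrum.comap f (PrimeSpectrum.comap g r) = q
  rw [← PrimeSpectrum.comap_comp_apply, h, hr]

theorem spMap_inj {A B : Type} [CommRing A] [CommRing B] {f g : A →+* B}
    (h : spMap f = spMap g) : f = g :=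
  congrArg CommRingCat.Hom.hom (Spec.map_injective h)

theorem spMap_full {A B : Type} [CommRing A] [CommRing B] (l : Sp B ⟶ Sp A) :
    ∃ h : A →+* B, spMap h = l :=
  ⟨(Spec.preimage l).hom, Spec.map_preimage l⟩

section

variable {B E J : Type} [CommRing B] [CommRing E] [Fintype J] (S : SqE B E J)

theorem mk_alg {A : Type} [CommRing A] [Algebra E A] {c c' : E} (h : S.p c = S.p c') :
    Ideal.Quotient.mk (nilradical A) (algebraMap E A c) =
      Ideal.Quotient.mk (nilradical A) (algebraMap E A c') := by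
  rw [Ideal.Quotient.eq, ← map_sub]
  exact mem_nilradical.2 ((S.isNilpotent_of_p_eq_zero (by rw [map_sub, h, sub_self])).map
    (algebraMap E A))

variable {a b : B} {a' b' a'' b'' : E}

theorem bc1_surj (ha : a = S.p a') (hb : b = S.p b') :
    Function.Surjective (spMap (bc1 S.p ha hb)) := by
  have hsa : S.p (S.i a) = S.p a' := by rw [S.pi, ha]
  have hsb : S.p (S.i b) = S.p b' := by rw [S.pi, hb]
  refine surj_of_sec _ (lift1 ((Ideal.Quotient.mk (nilradical (A1 E a' b'))).comp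
    ((algebraMap E (A1 E a' b')).comp S.i)) (Ideal.Quotient.mk _ (x1 E a' b'))
    (Ideal.Quotient.mk _ (y1 E a' b')) ?_) ?_
  · simp only [RingHom.comp_apply]
    rw [mk_alg S hsa, mk_alg S hsb, ← map_pow, ← map_pow, ← map_mul, ← map_add, ← map_add, rel1]
  · refine hom1_ext ?_ ?_ ?_
    · intro c
      rw [RingHom.comp_apply, bc1_b, lift1_b]
      simp only [RingHom.comp_apply]
      exact mk_alg S (by rw [S.pi])
    · rw [RingHom.comp_apply, bc1_x, lift1_x]
    · rw [RingHom.comp_apply, bc1_y, lift1_y]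

theorem bc2_surj (ha : a = S.p a') (hb : b = S.p b') :
    Function.Surjective (spMap (bc2 S.p ha hb)) := by
  have hsa : S.p (S.i a) = S.p a' := by rw [S.pi, ha]
  have hsb : S.p (S.i b) = S.p b' := by rw [S.pi, hb]
  refine surj_of_sec _ (lift2 ((Ideal.Quotient.mk (nilradical (A2 E a' b'))).comp
    ((algebraMap E (A2 E a' b')).comp S.i)) (Ideal.Quotient.mk _ (z2 E a' b'))
    (Ideal.Quotient.mk _ (t2 E a' b')) ?_) ?_
  · simp only [RingHom.comp_apply]
    rw [mk_alg S hsa, mk_alg S hsb]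
    have h := congrArg (Ideal.Quotient.mk (nilradical (A2 E a' b'))) (rel2 E a' b')
    simpa only [map_add, map_mul, map_pow, map_one] using h
  · refine hom2_ext ?_ ?_ ?_
    · intro c
      rw [RingHom.comp_apply, bc2_b, lift2_b]
      simp only [RingHom.comp_apply]
      exact mk_alg S (by rw [S.pi])
    · rw [RingHom.comp_apply, bc2_z, lift2_z]
    · rw [RingHom.comp_apply, bc2_t, lift2_t]

variable {S} {ha' : a = S.p a'} {hb' : b = S.p b'} {ha'' : a = S.p a''} {hb'' : b = S.p b''}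
  {f : WX E a'' b'' ⟶ WX E a' b'}

theorem comp1 (hf : WX.map S.p ha'' hb'' ≫ f = WX.map S.p ha' hb') :
    spMap (bc1 S.p ha'' hb'') ≫ WX.in1 E a'' b'' ≫ f =
      spMap (bc1 S.p ha' hb') ≫ WX.in1 E a' b' := by
  rw [← WX.in1_map_assoc, hf, WX.in1_map]

theorem comp2 (hf : WX.map S.p ha'' hb'' ≫ f = WX.map S.p ha' hb') :
    spMap (bc2 S.p ha'' hb'') ≫ WX.in2 E a'' b'' ≫ f =
      spMap (bc2 S.p ha' hb') ≫ WX.in2 E a' b' := by
  rw [← WX.in2_map_assoc, hf, WX.in2_map]

theorem range1 (hf : WX.map S.p ha'' hb'' ≫ f = WX.map S.p ha' hb') :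
    Set.range (WX.in1 E a'' b'' ≫ f) ⊆ Set.range (WX.in1 E a' b') := by
  rintro _ ⟨q, rfl⟩
  obtain ⟨r, rfl⟩ := bc1_surj S ha'' hb'' q
  refine ⟨spMap (bc1 S.p ha' hb') r, ?_⟩
  rw [← Scheme.Hom.comp_apply, ← Scheme.Hom.comp_apply, comp1 hf]

theorem range2 (hf : WX.map S.p ha'' hb'' ≫ f = WX.map S.p ha' hb') :
    Set.range (WX.in2 E a'' b'' ≫ f) ⊆ Set.range (WX.in2 E a' b') := by
  rintro _ ⟨q, rfl⟩
  obtain ⟨r, rfl⟩ := bc2_surj S ha'' hb'' q
  refine ⟨spMap (bc2 S.p ha' hb') r, ?_⟩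
  rw [← Scheme.Hom.comp_apply, ← Scheme.Hom.comp_apply, comp2 hf]

/-- The inclusion of the intersection of the charts. -/
theorem in12 (B : Type) [CommRing B] (a b : B) :
    spMap (g1 B a b) ≫ WX.in1 B a b = spMap (g2 B a b) ≫ WX.in2 B a b := pushout.condition

theorem range12 (hf : WX.map S.p ha'' hb'' ≫ f = WX.map S.p ha' hb') :
    Set.range ((spMap (g1 E a'' b'') ≫ WX.in1 E a'' b'') ≫ f) ⊆
      Set.range (spMap (g1 E a' b') ≫ WX.in1 E a' b') := by
  rintro _ ⟨q, rfl⟩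
  have h1 : ((spMap (g1 E a'' b'') ≫ WX.in1 E a'' b'') ≫ f) q ∈ Set.range (WX.in1 E a' b') := by
    apply range1 hf
    rw [Category.assoc]
    exact ⟨spMap (g1 E a'' b'') q, (Scheme.Hom.comp_apply _ _ _).symm⟩
  have h2 : ((spMap (g1 E a'' b'') ≫ WX.in1 E a'' b'') ≫ f) q ∈ Set.range (WX.in2 E a' b') := by
    apply range2 hf
    rw [in12, Category.assoc]
    exact ⟨spMap (g2 E a'' b'') q, (Scheme.Hom.comp_apply _ _ _).symm⟩
  have h3 : ((spMap (g1 E a'' b'') ≫ WX.in1 E a'' b'') ≫ f) q ∈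
      ((WX.in1 E a' b').opensRange ⊓ (WX.in2 E a' b').opensRange : (WX E a' b').Opens) :=
    ⟨h1, h2⟩
  have h4 : (WX.in1 E a' b').opensRange ⊓ (WX.in2 E a' b').opensRange =
      (spMap (g1 E a' b') ≫ WX.in1 E a' b').opensRange :=
    glue2_inter (spMap (g1 E a' b')) (spMap (g2 E a' b'))
  rw [h4] at h3
  exact h3

end

end WUS

open WUS in
/-- WU: isomorphic thickenings differ by a scaling. -/
theorem t_WU (hWUA : Stmt_WUA) : Stmt_WU := by
  intro m B E J _ _ _ S P h6 P' P'' h' h'' f hf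
  have hf' : WX.map S.p h''.a h''.b ≫ f.f = WX.map S.p h'.a h'.b := hf
  obtain ⟨g, cart, sec⟩ := f
  change WX E P''.a P''.b ⟶ WX E P'.a P'.b at g
  change WX.map S.p h''.a h''.b ≫ g = WX.map S.p h'.a h'.b at hf'
  obtain ⟨h1, e1⟩ := spMap_full (IsOpenImmersion.lift (WX.in1 E P'.a P'.b)
    (WX.in1 E P''.a P''.b ≫ g) (range1 hf'))
  obtain ⟨h2, e2⟩ := spMap_full (IsOpenImmersion.lift (WX.in2 E P'.a P'.b)
    (WX.in2 E P''.a P''.b ≫ g) (range2 hf'))
  obtain ⟨h12, e12⟩ := spMap_full (IsOpenImmersion.lift (spMap (g1 E P'.a P'.b) ≫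
    WX.in1 E P'.a P'.b) ((spMap (g1 E P''.a P''.b) ≫ WX.in1 E P''.a P''.b) ≫ g) (range12 hf'))
  have f1 : spMap h1 ≫ WX.in1 E P'.a P'.b = WX.in1 E P''.a P''.b ≫ g := by
    rw [e1, IsOpenImmersion.lift_fac]
  have f2 : spMap h2 ≫ WX.in2 E P'.a P'.b = WX.in2 E P''.a P''.b ≫ g := by
    rw [e2, IsOpenImmersion.lift_fac]
  have f12 : spMap h12 ≫ spMap (g1 E P'.a P'.b) ≫ WX.in1 E P'.a P'.b =
      spMap (g1 E P''.a P''.b) ≫ WX.in1 E P''.a P''.b ≫ g := by
    rw [e12, IsOpenImmersion.lift_fac, Category.assoc]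
  have hpr : g ≫ WX.pr E P'.a P'.b = WX.pr E P''.a P''.b := by
    have h := cart.w
    change g ≫ WX.pr E P'.a P'.b = WX.pr E P''.a P''.b ≫ spMap (RingHom.id E) at h
    rw [h]
    have h0 : spMap (RingHom.id E) = 𝟙 (Sp E) := Spec.map_id _
    rw [h0, Category.comp_id]
  have k1 : h1.comp (algebraMap E _) = algebraMap E _ := by
    apply spMap_inj
    rw [← spMap_comp', ← WX.in1_pr, ← Category.assoc, f1, Category.assoc, hpr, WX.in1_pr]
  have k2 : h2.comp (algebraMap E _) = algebraMap E _ := by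
    apply spMap_inj
    rw [← spMap_comp', ← WX.in2_pr, ← Category.assoc, f2, Category.assoc, hpr, WX.in2_pr]
  have k3 : h12.comp (g1 E P'.a P'.b) = (g1 E P''.a P''.b).comp h1 := by
    apply spMap_inj
    rw [← spMap_comp', ← spMap_comp', ← cancel_mono (WX.in1 E P'.a P'.b), Category.assoc,
      Category.assoc, f12, f1]
  have k4 : h12.comp (g2 E P'.a P'.b) = (g2 E P''.a P''.b).comp h2 := by
    apply spMap_inj
    rw [← spMap_comp', ← spMap_comp', ← cancel_mono (WX.in2 E P'.a P'.b), Category.assoc,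
      Category.assoc, f2, ← in12, f12, ← Category.assoc, in12, Category.assoc]
  have k5 : (bc1 S.p h''.a h''.b).comp h1 = bc1 S.p h'.a h'.b := by
    apply spMap_inj
    rw [← spMap_comp', ← cancel_mono (WX.in1 E P'.a P'.b), Category.assoc, f1, comp1 hf']
  have k6 : (bc2 S.p h''.a h''.b).comp h2 = bc2 S.p h'.a h'.b := by
    apply spMap_inj
    rw [← spMap_comp', ← cancel_mono (WX.in2 E P'.a P'.b), Category.assoc, f2, comp2 hf']
  have hid : spMap (RingHom.id E) = 𝟙 (Sp E) := Spec.map_id _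
  have k7 : (inf2 E P''.a P''.b).comp h2 = inf2 E P'.a P'.b := by
    have h := sec 0
    change (spMap (inf2 E P''.a P''.b) ≫ WX.in2 E P''.a P''.b) ≫ g =
      spMap (RingHom.id E) ≫ spMap (inf2 E P'.a P'.b) ≫ WX.in2 E P'.a P'.b at h
    rw [hid, Category.id_comp, Category.assoc, ← f2, ← Category.assoc, cancel_mono,
      spMap_comp'] at h
    exact spMap_inj h
  have k8 : ∀ i, (pt1 P'' i).comp h1 = pt1 P' i := by
    intro i
    have h := sec i.succ
    change (spMap (pt1 P'' i) ≫ WX.in1 E P''.a P''.b) ≫ g =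
      spMap (RingHom.id E) ≫ spMap (pt1 P' i) ≫ WX.in1 E P'.a P'.b at h
    rw [hid, Category.id_comp, Category.assoc, ← f1, ← Category.assoc, cancel_mono,
      spMap_comp'] at h
    exact spMap_inj h
  obtain ⟨u, v, huv, hu, e4, e6, ex, ey⟩ := hWUA S h'.a h'.b h''.a h''.b h6 h1 h2 h12
    (fun c => congrArg (fun φ => φ c) k1) (fun c => congrArg (fun φ => φ c) k2)
    (fun w => congrArg (fun φ => φ w) k3) (fun w => congrArg (fun φ => φ w) k4)
    (fun w => congrArg (fun φ => φ w) k5) (fun w => congrArg (fun φ => φ w) k6)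
    (fun w => congrArg (fun φ => φ w) k7)
  refine ⟨u, hu, ⟨e4, e6, fun i => ?_, fun i => ?_⟩⟩
  · have h : pt1 P'' i (h1 (x1 E P'.a P'.b)) = pt1 P' i (x1 E P'.a P'.b) :=
      congrArg (fun φ => φ (x1 E P'.a P'.b)) (k8 i)
    rw [ex, map_mul, map_pow, pt1, pt1, lift1_b, lift1_x, lift1_x, RingHom.id_apply] at h
    rw [← h, ← mul_assoc, ← mul_pow, huv, one_pow, one_mul]
  · have h : pt1 P'' i (h1 (y1 E P'.a P'.b)) = pt1 P' i (y1 E P'.a P'.b) :=
      congrArg (fun φ => φ (y1 E P'.a P'.b)) (k8 i)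
    rw [ey, map_mul, map_pow, pt1, pt1, lift1_b, lift1_y, lift1_y, RingHom.id_apply] at h
    rw [← h, ← mul_assoc, ← mul_pow, huv, one_pow, one_mul]

end Pool.Agent.MG.W
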