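import Pool.Agent.MG.W.Stmts

/-!
# DEN: functions with coprime denominators which agree on a dense set are polynomials
-/

open CategoryTheory CategoryTheory.Limits AlgebraicGeometry TensorProduct

namespace Pool.Agent.MG.W

namespace DEN

variable {k : Type} [Field k] {m : ℕ}

theorem aeval_hN (σ : Option (Fin m) → k) (h : Polynomial k) :
    MvPolynomial.aeval σ (hN m h) = h.eval (σ none) := by
  unfold hN
  rw [← Polynomial.aeval_algHom_apply, MvPolynomial.aeval_X, ← Polynomial.coe_aeval_eq_eval]

theorem hN_ne_zero [Infinite k] {h : Polynomial k} (hh : h ≠ 0) : hN m h ≠ 0 := by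
  intro h0
  apply hh
  refine Polynomial.funext fun c => ?_
  rw [← aeval_hN (m := m) (fun _ => c) h, h0, map_zero, Polynomial.eval_zero]

theorem hN_coprime {h h' : Polynomial k} (hc : IsCoprime h h') :
    IsCoprime (hN m h) (hN m h') :=
  hc.map (Polynomial.aeval (MvPolynomial.X none : MvPolynomial (Option (Fin m)) k)).toRingHom

/-- Evaluation at a point where the denominator does not vanish. -/
theorem exists_ev (σ : Option (Fin m) → k) {h : Polynomial k} (hh : h.eval (σ none) ≠ 0) :
    ∃ ψ : Localization.Away (hN m h) →ₐ[k] k,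
      ∀ p : MvPolynomial (Option (Fin m)) k, ψ (algebraMap _ _ p) = MvPolynomial.aeval σ p := by
  have hu : IsUnit ((MvPolynomial.aeval σ : MvPolynomial (Option (Fin m)) k →ₐ[k] k).toRingHom
      (hN m h)) := by
    have : (MvPolynomial.aeval σ : MvPolynomial (Option (Fin m)) k →ₐ[k] k).toRingHom
      (hN m h) = h.eval (σ none) := aeval_hN σ h
    rw [this]
    exact hh.isUnit
  let g : Localization.Away (hN m h) →+* k := IsLocalization.Away.lift (hN m h) hu
  have hg : ∀ p : MvPolynomial (Option (Fin m)) k,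
      g (algebraMap _ _ p) = MvPolynomial.aeval σ p := fun p =>
    IsLocalization.Away.lift_eq (hN m h) hu p
  refine ⟨{ g with commutes' := fun c => ?_ }, hg⟩
  have h1 := hg (algebraMap k _ c)
  rw [← IsScalarTower.algebraMap_apply] at h1
  change g _ = _
  rw [h1, AlgHom.commutes]

end DEN

open DEN in
theorem t_DEN : Stmt_DEN := by
  intro k _ _ m h h' D hc hh hh' hD v v' hvv
  have hinf : Infinite k := IsAlgClosed.instInfinite
  obtain ⟨N, p, hp⟩ := IsLocalization.Away.surj (hN m h) v
  obtain ⟨N', p', hp'⟩ := IsLocalization.Away.surj (hN m h') v'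
  have hH := hN_ne_zero (m := m) hh
  have hH' := hN_ne_zero (m := m) hh'
  have hHD := hN_ne_zero (m := m) hD
  have key : p * hN m h' ^ N' = p' * hN m h ^ N := by
    have h0 : hN m h * hN m h' * hN m D * (p * hN m h' ^ N' - p' * hN m h ^ N) = 0 := by
      refine MvPolynomial.funext fun σ => ?_
      rw [map_zero, ← MvPolynomial.coe_aeval_eq_eval]
      change MvPolynomial.aeval σ _ = 0
      simp only [map_mul, map_sub, map_pow, aeval_hN]
      by_cases h1 : h.eval (σ none) = 0
      · rw [h1, zero_mul, zero_mul, zero_mul]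
      by_cases h2 : h'.eval (σ none) = 0
      · rw [h2, mul_zero, zero_mul, zero_mul]
      by_cases h3 : D.eval (σ none) = 0
      · rw [h3, mul_zero, zero_mul]
      obtain ⟨ψ, hψ⟩ := exists_ev σ h1
      obtain ⟨ψ', hψ'⟩ := exists_ev σ h2
      have h4 : ψ v = ψ' v' := by
        refine hvv ψ ψ' (fun q => by rw [hψ, hψ']) ?_
        rw [hψ, MvPolynomial.aeval_X]
        exact h3
      have h5 := congrArg ψ hp
      rw [map_mul, map_pow, hψ, hψ, aeval_hN] at h5
      have h6 := congrArg ψ' hp'
      rw [map_mul, map_pow, hψ', hψ', aeval_hN] at h6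
      rw [← h5, ← h6, h4]
      ring
    have h1 : hN m h * hN m h' * hN m D ≠ 0 := mul_ne_zero (mul_ne_zero hH hH') hHD
    exact sub_eq_zero.1 ((mul_eq_zero.1 h0).resolve_left h1)
  have hcop : IsCoprime (hN m h ^ N) (hN m h' ^ N') := (hN_coprime hc).pow
  obtain ⟨q, hq⟩ : hN m h ^ N ∣ p :=
    hcop.dvd_of_dvd_mul_right ⟨p', by rw [key, mul_comm]⟩
  have hq' : p' = hN m h' ^ N' * q := by
    rw [hq] at key
    refine mul_right_cancel₀ (pow_ne_zero N hH) ?_
    rw [← key]
    ring
  refine ⟨q, ?_, ?_⟩
  · have hu : IsUnit (algebraMap (MvPolynomial (Option (Fin m)) k) (Localization.Away (hN m h))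
        (hN m h) ^ N) := (IsLocalization.Away.algebraMap_isUnit (hN m h)).pow N
    refine hu.mul_right_cancel ?_
    rw [hp, hq, map_mul, map_pow, mul_comm]
  · have hu : IsUnit (algebraMap (MvPolynomial (Option (Fin m)) k) (Localization.Away (hN m h'))
        (hN m h') ^ N') := (IsLocalization.Away.algebraMap_isUnit (hN m h')).pow N'
    refine hu.mul_right_cancel ?_
    rw [hp', hq', map_mul, map_pow, mul_comm]

end Pool.Agent.MG.W
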