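import Pool.Agent.MG.W.Stmts

/-!
# ROOT: adjoining square roots, with a retraction
-/

open CategoryTheory CategoryTheory.Limits AlgebraicGeometry TensorProduct

namespace Pool.Agent.MG.W

namespace ROOT

/-- The homomorphism `re + im y ↦ ψ(re) + y0 ψ(im)`. -/
noncomputable def lft {k R : Type} [Field k] [CommRing R] [Algebra k R] (a : R) (ψ : R →ₐ[k] k)
    (y0 : k) (h : y0 ^ 2 = ψ a) : QuadraticAlgebra R a 0 →ₐ[k] k where
  toFun g := ψ g.re + ψ g.im * y0
  map_one' := by
    rw [QuadraticAlgebra.re_one, QuadraticAlgebra.im_one, map_one, map_zero, zero_mul, add_zero]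
  map_mul' x y := by
    rw [QuadraticAlgebra.re_mul, QuadraticAlgebra.im_mul]
    simp only [map_add, map_mul, zero_mul, add_zero]
    linear_combination (-(ψ x.im) * ψ y.im) * h
  map_zero' := by
    rw [QuadraticAlgebra.re_zero, QuadraticAlgebra.im_zero, map_zero, zero_mul, add_zero]
  map_add' x y := by
    rw [QuadraticAlgebra.re_add, QuadraticAlgebra.im_add, map_add, map_add]
    ring
  commutes' c := by
    show ψ (algebraMap k R c) + ψ 0 * y0 = _
    rw [map_zero, zero_mul, add_zero, AlgHom.commutes]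

/-- The inclusion. -/
noncomputable def inc {k R : Type} [Field k] [CommRing R] [Algebra k R] (a : R) :
    R →ₐ[k] QuadraticAlgebra R a 0 :=
  IsScalarTower.toAlgHom k R (QuadraticAlgebra R a 0)

theorem lft_inc {k R : Type} [Field k] [CommRing R] [Algebra k R] (a : R) (ψ : R →ₐ[k] k)
    (y0 : k) (h : y0 ^ 2 = ψ a) : (lft a ψ y0 h).comp (inc a) = ψ := by
  ext x
  show ψ x + ψ 0 * y0 = ψ x
  rw [map_zero, zero_mul, add_zero]

end ROOT

open ROOT in
theorem t_ROOT : Stmt_ROOT := by
  intro k _ h2 R _ _ m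
  induction m with
  | zero =>
    intro f
    refine ⟨R, inferInstance, inferInstance, AlgHom.id k R, Fin.elim0, id, fun i => i.elim0,
      fun ψ y0 _ => ⟨ψ, rfl, fun i => i.elim0⟩, fun g ψ c h _ => h ψ rfl⟩
  | succ m ih =>
    intro f
    obtain ⟨R', iR, iA, ι, y, ρ, h1, hext, hret⟩ := ih (fun i => f i.castSucc)
    letI := iR
    letI := iA
    let a : R' := ι (f (Fin.last m))
    have hω : (⟨0, 1⟩ : QuadraticAlgebra R' a 0) ^ 2 = inc (k := k) a a := by
      rw [pow_two]
      ext
      · rw [QuadraticAlgebra.re_mul]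
        show 0 * 0 + a * 1 * 1 = a
        ring
      · rw [QuadraticAlgebra.im_mul]
        show (0 : R') * 1 + 1 * 0 + 0 * 1 * 1 = 0
        ring
    refine ⟨QuadraticAlgebra R' a 0, inferInstance, inferInstance, (inc a).comp ι,
      Fin.snoc (fun i => inc (k := k) a (y i)) ⟨0, 1⟩, fun g => ρ g.re, ?_, ?_, ?_⟩
    · intro i
      refine Fin.lastCases ?_ (fun j => ?_) i
      · rw [Fin.snoc_last]
        exact hω
      · rw [Fin.snoc_castSucc, ← map_pow, h1 j]
        rfl
    · intro ψ y0 hy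
      obtain ⟨ψ', hψ, hψy⟩ := hext ψ (fun i => y0 i.castSucc) (fun i => hy i.castSucc)
      have ha : y0 (Fin.last m) ^ 2 = ψ' a := by
        rw [hy (Fin.last m), ← hψ]; rfl
      refine ⟨lft a ψ' (y0 (Fin.last m)) ha, ?_, ?_⟩
      · rw [← AlgHom.comp_assoc, lft_inc, hψ]
      · intro i
        refine Fin.lastCases ?_ (fun j => ?_) i
        · rw [Fin.snoc_last]
          show ψ' 0 + ψ' 1 * y0 (Fin.last m) = _
          rw [map_zero, map_one, zero_add, one_mul]
        · rw [Fin.snoc_castSucc]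
          have := congrArg (fun φ : R' →ₐ[k] k => φ (y j)) (lft_inc a ψ' (y0 (Fin.last m)) ha)
          exact this.trans (hψy j)
    · intro g ψ c h hy
      obtain ⟨y0, hy0⟩ := hy
      refine hret g.re ψ c ?_ ⟨fun i => y0 i.castSucc, fun i => hy0 i.castSucc⟩
      intro ψ' hψ
      have ha : y0 (Fin.last m) ^ 2 = ψ' a := by
        rw [hy0 (Fin.last m), ← hψ]; rfl
      have ha' : (-y0 (Fin.last m)) ^ 2 = ψ' a := by rw [neg_sq]; exact ha
      have e1 : ψ' g.re + ψ' g.im * y0 (Fin.last m) = c :=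
        h (lft a ψ' (y0 (Fin.last m)) ha) (by rw [← AlgHom.comp_assoc, lft_inc, hψ])
      have e2 : ψ' g.re + ψ' g.im * (-y0 (Fin.last m)) = c :=
        h (lft a ψ' (-y0 (Fin.last m)) ha') (by rw [← AlgHom.comp_assoc, lft_inc, hψ])
      apply mul_left_cancel₀ h2
      linear_combination e1 + e2

end Pool.Agent.MG.W
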