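import Pool.Agent.MG.W.Stmts
import Pool.Agent.MG.Bub.BlBC

/-!
# WBC: the base change square of Weierstrass curves
-/

open CategoryTheory CategoryTheory.Limits AlgebraicGeometry TensorProduct

namespace Pool.Agent.MG.W.WBC

open PrimeSpectrum

section

variable (B : Type) [CommRing B] (a b : B)

/-- The range of the intersection in the chart at infinity. -/
theorem range_g2 (y : Sp (A2 B a b)) :
    y ∈ Set.range (spMap (g2 B a b)) ↔ z2 B a b ∉ y.asIdeal := by
  have h : Set.range (PrimeSpectrum.comap (algebraMap (A2 B a b) (A12 B a b))) =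
      (PrimeSpectrum.basicOpen (z2 B a b) : Set _) :=
    PrimeSpectrum.localization_away_comap_range (A12 B a b) (z2 B a b)
  change y ∈ Set.range (PrimeSpectrum.comap (algebraMap (A2 B a b) (A12 B a b))) ↔ _
  rw [h]
  rfl

/-- The range of the intersection in the affine chart. -/
theorem range_g1 (x : Sp (A1 B a b)) :
    x ∈ Set.range (spMap (g1 B a b)) ↔ x1 B a b * y1 B a b ∉ x.asIdeal := by
  have h1 : g1 B a b = (cmpEquiv B a b : L1 B a b →+* A12 B a b).comp
      (algebraMap (A1 B a b) (L1 B a b)) :=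
    RingHom.ext fun v => (cmp_alg B a b v).symm
  have h : Set.range (PrimeSpectrum.comap (algebraMap (A1 B a b) (L1 B a b))) =
      (PrimeSpectrum.basicOpen (x1 B a b * y1 B a b) : Set _) :=
    PrimeSpectrum.localization_away_comap_range (L1 B a b) (x1 B a b * y1 B a b)
  have h2 : Set.range (PrimeSpectrum.comap (g1 B a b)) =
      Set.range (PrimeSpectrum.comap (algebraMap (A1 B a b) (L1 B a b))) := by
    rw [h1, PrimeSpectrum.comap_comp]
    have h3 : Function.Surjective (PrimeSpectrum.comap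
        (cmpEquiv B a b : L1 B a b →+* A12 B a b)) :=
      (PrimeSpectrum.comapEquiv (cmpEquiv B a b)).symm.surjective
    exact h3.range_comp _
  change x ∈ Set.range (PrimeSpectrum.comap (g1 B a b)) ↔ _
  rw [h2, h]
  rfl

end

section

variable {B B' : Type} [CommRing B] [CommRing B'] (φ : B →+* B') {a b : B} {a' b' : B'}

theorem sq1 (ha : a' = φ a) (hb : b' = φ b) :
    IsPullback (spMap (bc1 φ ha hb)) (spMap (algebraMap B' (A1 B' a' b')))
      (spMap (algebraMap B (A1 B a b))) (spMap φ) := by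
  apply spec_isPullback
  · exact RingHom.ext fun c => bc1_b φ ha hb c
  · intro T _ f g h
    have hc : ∀ c, f (algebraMap B _ c) = g (φ c) := fun c => congrArg (fun F => F c) h
    have hr := congrArg f (rel1 B a b)
    simp only [map_add, map_mul, map_pow, hc] at hr
    refine ⟨lift1 g (f (x1 B a b)) (f (y1 B a b)) (by rw [hr, ha, hb]), ?_, ?_⟩
    · refine hom1_ext ?_ ?_ ?_
      · intro c
        rw [RingHom.comp_apply, bc1_b, lift1_b, hc]
      · rw [RingHom.comp_apply, bc1_x, lift1_x]
      · rw [RingHom.comp_apply, bc1_y, lift1_y]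
    · refine RingHom.ext fun c => ?_
      rw [RingHom.comp_apply, lift1_b]
  · intro T _ k k' h1 h2
    refine hom1_ext ?_ ?_ ?_
    · exact fun c => congrArg (fun F => F c) h2
    · have := congrArg (fun F => F (x1 B a b)) h1
      simpa using this
    · have := congrArg (fun F => F (y1 B a b)) h1
      simpa using this

theorem sq2 (ha : a' = φ a) (hb : b' = φ b) :
    IsPullback (spMap (bc2 φ ha hb)) (spMap (algebraMap B' (A2 B' a' b')))
      (spMap (algebraMap B (A2 B a b))) (spMap φ) := by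
  apply spec_isPullback
  · exact RingHom.ext fun c => bc2_b φ ha hb c
  · intro T _ f g h
    have hc : ∀ c, f (algebraMap B _ c) = g (φ c) := fun c => congrArg (fun F => F c) h
    have hr := congrArg f (rel2 B a b)
    simp only [map_add, map_mul, map_pow, map_one, hc] at hr
    refine ⟨lift2 g (f (z2 B a b)) (f (t2 B a b)) (by rw [ha, hb]; exact hr), ?_, ?_⟩
    · refine hom2_ext ?_ ?_ ?_
      · intro c
        rw [RingHom.comp_apply, bc2_b, lift2_b, hc]
      · rw [RingHom.comp_apply, bc2_z, lift2_z]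
      · rw [RingHom.comp_apply, bc2_t, lift2_t]
    · refine RingHom.ext fun c => ?_
      rw [RingHom.comp_apply, lift2_b]
  · intro T _ k k' h1 h2
    refine hom2_ext ?_ ?_ ?_
    · exact fun c => congrArg (fun F => F c) h2
    · have := congrArg (fun F => F (z2 B a b)) h1
      simpa using this
    · have := congrArg (fun F => F (t2 B a b)) h1
      simpa using this

end

end Pool.Agent.MG.W.WBC

namespace Pool.Agent.MG.W

/-- The base change square. -/
theorem t_WBC : Stmt_WBC := by
  intro B B' _ _ φ a b a' b' ha hb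
  refine cart_two (WX.in1_map φ ha hb) (WX.in2_map φ ha hb)
    (glue2_surj (spMap (g1 B a b)) (spMap (g2 B a b)))
    (glue2_surj (spMap (g1 B' a' b')) (spMap (g2 B' a' b'))) ?_ ?_ ?_ ?_ (WX.map_pr φ ha hb)
  · intro y hy
    obtain ⟨x, hx⟩ := hy
    obtain ⟨w, -, hw⟩ := glue2_eq (spMap (g1 B a b)) (spMap (g2 B a b)) x _ hx
    have h1 := (WBC.range_g2 B a b _).1 ⟨w, hw⟩
    have h2 : z2 B' a' b' ∉ y.asIdeal := by
      intro h3
      apply h1
      change bc2 φ ha hb (z2 B a b) ∈ y.asIdeal
      rwa [bc2_z]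
    obtain ⟨w', hw'⟩ := (WBC.range_g2 B' a' b' y).2 h2
    refine ⟨spMap (g1 B' a' b') w', ?_⟩
    rw [← hw', ← Scheme.Hom.comp_apply, ← Scheme.Hom.comp_apply]
    exact congrArg (fun (ψ : Sp (A12 B' a' b') ⟶ WX B' a' b') => ψ w')
      (pushout.condition (f := spMap (g1 B' a' b')) (g := spMap (g2 B' a' b')))
  · intro x hx
    obtain ⟨y, hy⟩ := hx
    obtain ⟨w, hw, -⟩ := glue2_eq (spMap (g1 B a b)) (spMap (g2 B a b)) _ y hy.symm
    have h1 := (WBC.range_g1 B a b _).1 ⟨w, hw⟩
    have h2 : x1 B' a' b' * y1 B' a' b' ∉ x.asIdeal := by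
      intro h3
      apply h1
      change bc1 φ ha hb (x1 B a b * y1 B a b) ∈ x.asIdeal
      rwa [map_mul, bc1_x, bc1_y]
    obtain ⟨w', hw'⟩ := (WBC.range_g1 B' a' b' x).2 h2
    refine ⟨spMap (g2 B' a' b') w', ?_⟩
    rw [← hw', ← Scheme.Hom.comp_apply, ← Scheme.Hom.comp_apply]
    exact congrArg (fun (ψ : Sp (A12 B' a' b') ⟶ WX B' a' b') => ψ w')
      (pushout.condition (f := spMap (g1 B' a' b')) (g := spMap (g2 B' a' b'))).symm
  · rw [WX.in1_pr, WX.in1_pr]
    exact WBC.sq1 φ ha hb
  · rw [WX.in2_pr, WX.in2_pr]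
    exact WBC.sq2 φ ha hb

end Pool.Agent.MG.W
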