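import Pool.Agent.MG.W.Stmts

/-!
# WCV: Weierstrass classes and covectors (helper33)
-/

open CategoryTheory CategoryTheory.Limits AlgebraicGeometry TensorProduct

namespace Pool.Agent.MG.W

namespace WCV

/-! ### arrows -/

section arrows

variable {n : ℕ} {A B C : Type} [CommRing A] [CommRing B] [CommRing C]

theorem spMap_id (A : Type) [CommRing A] : spMap (RingHom.id A) = 𝟙 (Sp A) := Spec.map_id _

/-- composition of arrows -/
noncomputable def comp {φ : A →+* B} {ψ : B →+* C} {χ : A →+* C} (hχ : ψ.comp φ = χ)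
    {z : Fam n C} {y : Fam n B} {x : Fam n A} (g : Arrow ψ z y) (f : Arrow φ y x) :
    Arrow χ z x where
  f := g.f ≫ f.f
  cart := by
    rw [← hχ, ← spMap_comp']
    exact g.cart.paste_horiz f.cart
  sec i := by
    rw [← Category.assoc, g.sec i, Category.assoc, f.sec i, ← Category.assoc, spMap_comp', hχ]

theorem isIso_id {y x : Fam n A} (f : Arrow (RingHom.id A) y x) : IsIso f.f := by
  have h1 : IsIso (spMap (RingHom.id A)) := by
    rw [spMap_id]
    infer_instance
  exact f.cart.isIso_fst_of_isIso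

/-- the inverse of an arrow over the identity -/
noncomputable def inv {y x : Fam n A} (f : Arrow (RingHom.id A) y x) :
    Arrow (RingHom.id A) x y := by
  have hi : IsIso f.f := isIso_id f
  have hw : f.f ≫ x.π = y.π := by
    have := f.cart.w
    rw [spMap_id, Category.comp_id] at this
    exact this
  exact
  { f := CategoryTheory.inv f.f
    cart := by
      rw [spMap_id]
      refine IsPullback.of_horiz_isIso ⟨?_⟩
      rw [Category.comp_id, IsIso.inv_comp_eq, hw]
    sec := fun i => by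
      have := f.sec i
      rw [spMap_id, Category.id_comp] at this
      rw [spMap_id, Category.id_comp, ← this, Category.assoc, IsIso.hom_inv_id,
        Category.comp_id] }

theorem f_inv {y x : Fam n A} (f : Arrow (RingHom.id A) y x) : f.f ≫ (inv f).f = 𝟙 _ := by
  have hi : IsIso f.f := isIso_id f
  exact IsIso.hom_inv_id f.f

end arrows

/-! ### functoriality of the base change -/

section functor

variable {B B' B'' : Type} [CommRing B] [CommRing B'] [CommRing B''] (φ : B →+* B')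
  (ψ : B' →+* B'') {a b : B} {a' b' : B'} {a'' b'' : B''}

theorem map_comp (ha : a' = φ a) (hb : b' = φ b) (ha' : a'' = ψ a') (hb' : b'' = ψ b')
    {χ : B →+* B''} (hχ : ψ.comp φ = χ) (hc : a'' = χ a) (hd : b'' = χ b) :
    WX.map ψ ha' hb' ≫ WX.map φ ha hb = WX.map χ hc hd := by
  subst hχ
  refine WX.ext' ?_ ?_
  · rw [← Category.assoc, WX.in1_map, Category.assoc, WX.in1_map, ← Category.assoc, spMap_comp',
      WX.in1_map]
    congr 2
    refine hom1_ext ?_ ?_ ?_
    · intro c
      rw [RingHom.comp_apply, bc1_b, bc1_b, bc1_b]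
      rfl
    · rw [RingHom.comp_apply, bc1_x, bc1_x, bc1_x]
    · rw [RingHom.comp_apply, bc1_y, bc1_y, bc1_y]
  · rw [← Category.assoc, WX.in2_map, Category.assoc, WX.in2_map, ← Category.assoc, spMap_comp',
      WX.in2_map]
    congr 2
    refine hom2_ext ?_ ?_ ?_
    · intro c
      rw [RingHom.comp_apply, bc2_b, bc2_b, bc2_b]
      rfl
    · rw [RingHom.comp_apply, bc2_z, bc2_z, bc2_z]
    · rw [RingHom.comp_apply, bc2_t, bc2_t, bc2_t]

end functor

/-! ### Weierstrass presentations of thickenings -/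

section pres

variable {m : ℕ} {B : Type} [CommRing B] {P : WD m B}

/-- `P'` is a Weierstrass presentation of the thickening `t`. -/
def Pres {E J : Type} [CommRing E] [Fintype J] {S : SqE B E J} (t : Thk S (Wei P))
    (P' : WD m E) : Prop :=
  ∃ (h : WD.Bc S.p P' P) (f : Arrow (RingHom.id E) t.y (Wei P')), t.r.f ≫ f.f = wmap S.p h

/-- The push forward of a presentation. -/
theorem push (hWBC : Stmt_WBC) {E J E' J' : Type} [CommRing E] [Fintype J] [CommRing E']
    [Fintype J'] {S : SqE B E J} {S' : SqE B E' J'} (Φ : E →+* E')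
    (hΦ : ∀ z, S'.p (Φ z) = S.p z) (t : Thk S (Wei P)) (t' : Thk S' (Wei P))
    (g : Arrow Φ t'.y t.y) (hg : t'.r.f ≫ g.f = t.r.f) {P' : WD m E} (hP : Pres t P') :
    Pres t' (P'.map Φ) := by
  obtain ⟨h, f, hf⟩ := hP
  have h' : WD.Bc S'.p (P'.map Φ) P := by
    refine ⟨?_, ?_, ?_, ?_⟩
    · rw [h.a]; exact (hΦ _).symm
    · rw [h.b]; exact (hΦ _).symm
    · intro i; rw [h.x]; exact (hΦ _).symm
    · intro i; rw [h.y]; exact (hΦ _).symm
  -- the arrow `t' → Wei P'`
  have hc : Φ.comp (RingHom.id E) = Φ := RingHom.comp_id Φ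
  let k : Arrow Φ t'.y (Wei P') := comp hc g f
  have hk : k.f = g.f ≫ f.f := rfl
  have hpb : IsPullback (wmap Φ (WD.map_bc Φ P')) (Wei (P'.map Φ)).π (Wei P').π (spMap Φ) :=
    hWBC Φ _ _
  let e : t'.y.X ⟶ (Wei (P'.map Φ)).X := hpb.lift k.f t'.y.π k.cart.w
  have e1 : e ≫ wmap Φ (WD.map_bc Φ P') = k.f := hpb.lift_fst _ _ _
  have e2 : e ≫ (Wei (P'.map Φ)).π = t'.y.π := hpb.lift_snd _ _ _
  have hcart : IsPullback e t'.y.π (Wei (P'.map Φ)).π (spMap (RingHom.id E')) := by
    have h1 : IsPullback (e ≫ wmap Φ (WD.map_bc Φ P')) t'.y.π (Wei P').π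
        (spMap (RingHom.id E') ≫ spMap Φ) := by
      rw [e1, spMap_id, Category.id_comp]
      exact k.cart
    refine IsPullback.of_right h1 ?_ hpb
    rw [e2, spMap_id, Category.comp_id]
  refine ⟨h', ⟨e, hcart, ?_⟩, ?_⟩
  · intro i
    refine hpb.hom_ext ?_ ?_
    · rw [Category.assoc, e1, k.sec i, Category.assoc, wmap_sec, spMap_id, Category.id_comp]
    · rw [Category.assoc, e2, t'.y.sec i, Category.assoc, (Wei (P'.map Φ)).sec i, spMap_id,
        Category.comp_id]
  · refine hpb.hom_ext ?_ ?_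
    · rw [Category.assoc, e1, hk, ← Category.assoc, hg, hf]
      exact (map_comp Φ S'.p _ _ _ _ (RingHom.ext hΦ) _ _).symm
    · rw [Category.assoc, e2, t'.r.cart.w]
      exact (WX.map_pr S'.p h'.a h'.b).symm

/-- Two presentations of a thickening differ by a scaling. -/
theorem uniq (hWU : Stmt_WU) (h6 : IsUnit (6 : B)) {E J : Type} [CommRing E] [Fintype J]
    {S : SqE B E J} {t : Thk S (Wei P)} {P' P'' : WD m E} (hP : Pres t P') (hP' : Pres t P'') :
    ∃ u : E, S.p u = 1 ∧ P'.Sc u P'' := by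
  obtain ⟨h, f, hf⟩ := hP
  obtain ⟨h', f', hf'⟩ := hP'
  refine hWU S P h6 P' P'' h h' (comp (RingHom.comp_id _) (inv f') f) ?_
  show wmap S.p h' ≫ (inv f').f ≫ f.f = wmap S.p h
  rw [← hf', Category.assoc, ← Category.assoc f'.f, f_inv, Category.id_comp, hf]

/-- The value of the covector data on first order Weierstrass data. -/
noncomputable def val (W : WCov P) (P' : WD m (Eps B)) : B :=
  W.α * P'.a.snd + W.β * P'.b.snd + ∑ i, (W.γ i * (P'.x i).snd + W.ρ i * (P'.y i).snd)

theorem snd_pow (u : Eps B) (hu : u.fst = 1) (k : ℕ) : (u ^ k).snd = k * u.snd := by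
  induction k with
  | zero => simp
  | succ k ih =>
    have h1 : (u ^ k).fst = 1 := by rw [TrivSqZeroExt.fst_pow, hu, one_pow]
    rw [pow_succ, TrivSqZeroExt.snd_mul, ih, h1, hu]
    simp only [one_smul, MulOpposite.op_one, Nat.cast_add, Nat.cast_one]
    ring

theorem snd_mul_pow (u z : Eps B) (hu : u.fst = 1) (k : ℕ) :
    (u ^ k * z).snd = z.snd + k * u.snd * z.fst := by
  have h1 : (u ^ k).fst = 1 := by rw [TrivSqZeroExt.fst_pow, hu, one_pow]
  rw [TrivSqZeroExt.snd_mul, snd_pow u hu, h1, one_smul]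
  simp

theorem val_sc (W : WCov P) {P' P'' : WD m (Eps B)} (h : WD.Bc (eps0 B) P' P) {u : Eps B}
    (hu : u.fst = 1) (hs : P'.Sc u P'') : val W P'' = val W P' := by
  unfold val
  have ha : P'.a.fst = P.a := h.a.symm
  have hb : P'.b.fst = P.b := h.b.symm
  have hx : ∀ i, (P'.x i).fst = P.x i := fun i => (h.x i).symm
  have hy : ∀ i, (P'.y i).fst = P.y i := fun i => (h.y i).symm
  have e1 : ∀ i, W.γ i * (P''.x i).snd + W.ρ i * (P''.y i).snd =
      (W.γ i * (P'.x i).snd + W.ρ i * (P'.y i).snd) +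
        u.snd * (2 * P.x i * W.γ i + 3 * P.y i * W.ρ i) := by
    intro i
    rw [hs.x i, hs.y i, snd_mul_pow u _ hu, snd_mul_pow u _ hu, hx, hy]
    push_cast
    ring
  rw [Finset.sum_congr rfl fun i _ => e1 i, Finset.sum_add_distrib, ← Finset.mul_sum, hs.a, hs.b,
    snd_mul_pow u _ hu, snd_mul_pow u _ hu, ha, hb]
  have h1 := W.eul
  push_cast
  linear_combination u.snd * h1

theorem val_uniq (hWU : Stmt_WU) (h6 : IsUnit (6 : B)) (W : WCov P)
    {t : Thk (sqEps B) (Wei P)} {P' P'' : WD m (Eps B)} (hP : Pres t P') (hP' : Pres t P'') :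
    val W P'' = val W P' := by
  obtain ⟨u, hu, hs⟩ := uniq hWU h6 hP hP'
  obtain ⟨h, -⟩ := hP
  exact val_sc W h hu hs

theorem Cov_ext {n : ℕ} {A : Type} [CommRing A] {g : ℕ} {x : Fam n A} (l l' : Cov g x)
    (h : ∀ d, l.l d = l'.l d) : l = l' := by
  cases l
  cases l'
  congr
  exact funext h

theorem exists_pres (hWE : Stmt_WE) (h6 : IsUnit (6 : B)) {E J : Type} [CommRing E] [Fintype J]
    {S : SqE B E J} (t : Thk S (Wei P)) : ∃ P' : WD m E, Pres t P' :=
  hWE S P h6 t

end pres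

end WCV

open WCV in
/-- WCV: covector data give a covector, which is determined by them -/
theorem t_WCV (hWE : Stmt_WE) (hWU : Stmt_WU) (hWBC : Stmt_WBC) (_hWSC : Stmt_WSC) :
    Stmt_WCV := by
  intro m B _ P h6 W
  have hex : ∀ d : Defo 1 (Wei P), ∃ P' : WD m (Eps B), Pres d.thk P' :=
    fun d => exists_pres hWE h6 d.thk
  choose pr hpr using hex
  have key : ∀ (d : Defo 1 (Wei P)) (P' : WD m (Eps B)), Pres d.thk P' →
      val W (pr d) = val W P' := fun d P' h => val_uniq hWU h6 W h (hpr d)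
  have hpush : ∀ {E J : Type} [CommRing E] [Fintype J] {S : SqE B E J} (Φ : E →+* Eps B)
      (_ : ∀ z, (Φ z).fst = S.p z) (t : Thk S (Wei P)) (d : Defo 1 (Wei P))
      (g : Arrow Φ d.y t.y) (_ : d.r.f ≫ g.f = t.r.f) (P' : WD m E), Pres t P' →
      val W (pr d) = val W (P'.map Φ) := by
    intro E J _ _ S Φ hΦ t d g hg P' hP
    exact key d _ (push hWBC (S' := sqEps B) Φ hΦ t d.thk g hg hP)
  have hcls : ∀ (d : Defo 1 (Wei P)) (da db : B) (dx dy : Fin m → B), WCls d da db dx dy →
      ∃ P' : WD m (Eps B), Pres d.thk P' ∧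
        val W P' = W.α * da + W.β * db + ∑ i, (W.γ i * dx i + W.ρ i * dy i) := by
    rintro d da db dx dy ⟨P', h, h1, h2, h3, h4, f, hf⟩
    refine ⟨P', ⟨h, f, hf⟩, ?_⟩
    unfold val
    rw [h1, h2]
    congr 1
    exact Finset.sum_congr rfl fun i _ => by rw [h3 i, h4 i]
  have hcls' : ∀ (d : Defo 1 (Wei P)), WCls d (pr d).a.snd (pr d).b.snd
      (fun i => ((pr d).x i).snd) (fun i => ((pr d).y i).snd) := by
    intro d
    obtain ⟨h, f, hf⟩ := hpr d
    exact ⟨pr d, h, rfl, rfl, fun _ => rfl, fun _ => rfl, f, hf⟩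
  refine ⟨{ l := fun d => val W (pr d)
            iso := ?_
            scale := ?_
            add := ?_ }, ?_, ?_⟩
  · intro d d' f hf
    rw [hpush (S := sqEps B) (RingHom.id (Eps B)) (fun _ => rfl) d'.thk d f hf (pr d') (hpr d')]
    rfl
  · intro a d d' f hf
    rw [hpush (S := sqEps B) (epsScale a) (fun z => by simp [sqEps]) d.thk d' f hf (pr d) (hpr d)]
    have e : ∀ z : Eps B, (epsScale a z).snd = a * z.snd := fun z => by simp
    unfold val WD.map
    simp only [e]
    rw [mul_add, mul_add, Finset.mul_sum]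
    congr 1
    · ring
    · exact Finset.sum_congr rfl fun i _ => by ring
  · intro z hz r d₁ d₂ d f₁ f₂ f hf₁ hf₂ hf
    let t : Thk (sqEps2 B) (Wei P) := ⟨z, hz.flat, r⟩
    obtain ⟨P', hP⟩ := exists_pres hWE h6 t
    have h1 := hpush (epsPair 1 0) (fun z => by simp [sqEps2]) t d₁ f₁ hf₁ P' hP
    have h2 := hpush (epsPair 0 1) (fun z => by simp [sqEps2]) t d₂ f₂ hf₂ P' hP
    have h3 := hpush (epsPair 1 1) (fun z => by simp [sqEps2]) t d f hf P' hP
    rw [h1, h2, h3]
    have e : ∀ (a b : B) (z : Eps2 B), (epsPair a b z).snd = a * z.snd.1 + b * z.snd.2 :=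
      fun a b z => by simp
    unfold val WD.map
    simp only [e, one_mul, zero_mul, add_zero, zero_add]
    have e2 : ∑ i, (W.γ i * ((P'.x i).snd.1 + (P'.x i).snd.2) +
        W.ρ i * ((P'.y i).snd.1 + (P'.y i).snd.2)) =
        ∑ i, (W.γ i * (P'.x i).snd.1 + W.ρ i * (P'.y i).snd.1) +
        ∑ i, (W.γ i * (P'.x i).snd.2 + W.ρ i * (P'.y i).snd.2) := by
      rw [← Finset.sum_add_distrib]
      exact Finset.sum_congr rfl fun i _ => by ring
    rw [e2]
    ring
  · intro d da db dx dy hd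
    obtain ⟨P', hP, hv⟩ := hcls d da db dx dy hd
    rw [← hv]
    exact key d P' hP
  · intro l' hl'
    refine Cov_ext _ _ fun d => ?_
    rw [hl' d _ _ _ _ (hcls' d)]
    rfl

end Pool.Agent.MG.W
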