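import Pool.Agent.MG.W.Stmts

/-!
# Weierstrass curves over fields are integral (module WDM)
-/

open CategoryTheory CategoryTheory.Limits AlgebraicGeometry TensorProduct

namespace Pool.Agent.MG.W.WDM

section

variable (K : Type) [Field K] (a b : K)

/-- the Weierstrass curve of Mathlib -/
def wc : WeierstrassCurve.Affine K := ⟨0, 0, 0, a, b⟩

/-- the coordinate ring of Mathlib -/
abbrev CR : Type := (wc K a b).CoordinateRing

noncomputable def cx : CR K a b := AdjoinRoot.of _ Polynomial.X

noncomputable def cy : CR K a b := AdjoinRoot.root _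

noncomputable def cc : K →+* CR K a b := (AdjoinRoot.of (wc K a b).polynomial).comp Polynomial.C

theorem crel : cy K a b ^ 2 = cx K a b ^ 3 + cc K a b a * cx K a b + cc K a b b := by
  have h : AdjoinRoot.mk (wc K a b).polynomial (wc K a b).polynomial = 0 := AdjoinRoot.mk_self
  have e : (wc K a b).polynomial = Polynomial.X ^ 2 + Polynomial.C (Polynomial.C 0 * Polynomial.X +
    Polynomial.C 0) * Polynomial.X - Polynomial.C (Polynomial.X ^ 3 + Polynomial.C 0 *
    Polynomial.X ^ 2 + Polynomial.C a * Polynomial.X + Polynomial.C b) := rfl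
  have h2 : AdjoinRoot.mk (wc K a b).polynomial (Polynomial.X ^ 2 + Polynomial.C (Polynomial.C 0 *
    Polynomial.X + Polynomial.C 0) * Polynomial.X - Polynomial.C (Polynomial.X ^ 3 +
    Polynomial.C 0 * Polynomial.X ^ 2 + Polynomial.C a * Polynomial.X + Polynomial.C b)) = 0 := by
    rw [← e]
    exact h
  simp only [map_zero, zero_mul, add_zero, map_sub, map_add, map_mul, map_pow] at h2
  have h3 : cy K a b ^ 2 - (cx K a b ^ 3 + cc K a b a * cx K a b + cc K a b b) = 0 := h2
  linear_combination h3

/-- to the coordinate ring of Mathlib -/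
noncomputable def toC : A1 K a b →+* CR K a b :=
  lift1 (cc K a b) (cx K a b) (cy K a b) (crel K a b)

theorem back_rel : Polynomial.eval₂ (Polynomial.eval₂RingHom (algebraMap K (A1 K a b)) (x1 K a b))
    (y1 K a b) (wc K a b).polynomial = 0 := by
  have e : (wc K a b).polynomial = Polynomial.X ^ 2 + Polynomial.C (Polynomial.C 0 * Polynomial.X +
    Polynomial.C 0) * Polynomial.X - Polynomial.C (Polynomial.X ^ 3 + Polynomial.C 0 *
    Polynomial.X ^ 2 + Polynomial.C a * Polynomial.X + Polynomial.C b) := rfl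
  rw [e]
  have h := rel1 K a b
  simp only [map_zero, zero_mul, add_zero, Polynomial.eval₂_sub, Polynomial.eval₂_pow,
    Polynomial.eval₂_X, Polynomial.eval₂_C, Polynomial.coe_eval₂RingHom, Polynomial.eval₂_add,
    Polynomial.eval₂_mul]
  linear_combination h

/-- from the coordinate ring of Mathlib -/
noncomputable def back : CR K a b →+* A1 K a b :=
  AdjoinRoot.lift (Polynomial.eval₂RingHom (algebraMap K (A1 K a b)) (x1 K a b)) (y1 K a b)
    (back_rel K a b)

theorem back_to : (back K a b).comp (toC K a b) = RingHom.id _ := by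
  refine hom1_ext ?_ ?_ ?_
  · intro c
    change back K a b (toC K a b (algebraMap K _ c)) = _
    rw [toC, lift1_b]
    change back K a b (AdjoinRoot.of _ (Polynomial.C c)) = _
    rw [back, AdjoinRoot.lift_of]
    simp
  · change back K a b (toC K a b (x1 K a b)) = _
    rw [toC, lift1_x]
    change back K a b (AdjoinRoot.of _ Polynomial.X) = _
    rw [back, AdjoinRoot.lift_of]
    simp
  · change back K a b (toC K a b (y1 K a b)) = _
    rw [toC, lift1_y]
    change back K a b (AdjoinRoot.root _) = _
    rw [back, AdjoinRoot.lift_root]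
    simp

theorem to_inj : Function.Injective (toC K a b) := by
  intro u v h
  have h1 := congrArg (back K a b) h
  have h2 : ∀ w, back K a b (toC K a b w) = w := fun w => RingHom.congr_fun (back_to K a b) w
  rwa [h2, h2] at h1

theorem dom1 : IsDomain (A1 K a b) :=
  (to_inj K a b).isDomain

theorem x1_ne : x1 K a b ≠ 0 := by
  intro h
  have h1 : toC K a b (x1 K a b) = 0 := by rw [h, map_zero]
  rw [toC, lift1_x] at h1
  have h2 : (Polynomial.X : Polynomial K) • (1 : CR K a b) +
      (0 : Polynomial K) • WeierstrassCurve.Affine.CoordinateRing.mk (wc K a b) Polynomial.X = 0 := by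
    rw [zero_smul, add_zero, Algebra.smul_def, mul_one]
    exact h1
  exact Polynomial.X_ne_zero (WeierstrassCurve.Affine.CoordinateRing.smul_basis_eq_zero h2).1

theorem y1_ne : y1 K a b ≠ 0 := by
  intro h
  have h1 : toC K a b (y1 K a b) = 0 := by rw [h, map_zero]
  rw [toC, lift1_y] at h1
  have h2 : (0 : Polynomial K) • (1 : CR K a b) +
      (1 : Polynomial K) • WeierstrassCurve.Affine.CoordinateRing.mk (wc K a b) Polynomial.X = 0 := by
    rw [zero_smul, zero_add, one_smul]
    exact h1
  exact one_ne_zero (WeierstrassCurve.Affine.CoordinateRing.smul_basis_eq_zero h2).2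

theorem dom12 : IsDomain (A12 K a b) := by
  have := dom1 K a b
  have h : IsDomain (L1 K a b) := by
    refine IsLocalization.isDomain_localization ?_
    exact powers_le_nonZeroDivisors_of_noZeroDivisors (mul_ne_zero (x1_ne K a b) (y1_ne K a b))
  exact (cmpEquiv K a b).symm.injective.isDomain (cmpEquiv K a b).symm.toRingHom

/-- `z` is not a zero divisor. -/
theorem z2_reg (v : A2 K a b) (h : z2 K a b * v = 0) : v = 0 := by
  obtain ⟨p, rfl⟩ := Ideal.Quotient.mk_surjective v
  have h1 : Ideal.Quotient.mk (Ideal.span {eq2 K a b}) (MvPolynomial.X 0 * p) = 0 := by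
    rw [map_mul]
    exact h
  rw [Ideal.Quotient.eq_zero_iff_mem, Ideal.mem_span_singleton] at h1 ⊢
  obtain ⟨q, hq⟩ := h1
  have hd : (MvPolynomial.X 0 : MvPolynomial (Fin 2) K) ∣ eq2 K a b * q := ⟨p, hq.symm⟩
  rcases (MvPolynomial.X_prime (R := K) (i := (0 : Fin 2))).dvd_or_dvd hd with h2 | ⟨r, hr⟩
  · exfalso
    obtain ⟨s, hs⟩ := h2
    have h3 := congrArg (MvPolynomial.eval ![(0 : K), 0]) hs
    simp [eq2] at h3
  · refine ⟨r, ?_⟩
    have h4 : (MvPolynomial.X 0 : MvPolynomial (Fin 2) K) * p = MvPolynomial.X 0 * (eq2 K a b * r) := by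
      rw [hq, hr]
      ring
    exact mul_left_cancel₀ (MvPolynomial.X_ne_zero 0) h4

theorem g2_inj : Function.Injective (g2 K a b) := by
  refine IsLocalization.injective (A12 K a b) (M := Submonoid.powers (z2 K a b)) ?_
  rw [Submonoid.powers_le]
  refine mem_nonZeroDivisors_iff_right.2 ?_
  intro v hv
  exact z2_reg K a b v (by rw [mul_comm]; exact hv)

theorem dom2 : IsDomain (A2 K a b) := by
  have := dom12 K a b
  exact (g2_inj K a b).isDomain (g2 K a b)

theorem pre {A : Type} [CommRing A] [IsDomain A] {X : Scheme.{0}} (f : Sp A ⟶ X) :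
    _root_.IsPreconnected (Set.range f) := by
  have h1 : _root_.IsPreconnected (Set.univ : Set (Sp A)) := by
    have : IrreducibleSpace (PrimeSpectrum A) := inferInstance
    have h2 : PreconnectedSpace (PrimeSpectrum A) := inferInstance
    exact h2.isPreconnected_univ
  rw [← Set.image_univ]
  exact h1.image _ f.continuous.continuousOn

theorem conn : ConnectedSpace (WX K a b) := by
  have := dom1 K a b
  have := dom2 K a b
  have := dom12 K a b
  have w : Sp (A12 K a b) := (⊥ : PrimeSpectrum (A12 K a b))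
  have hU : Set.range (WX.in1 K a b) ∪ Set.range (WX.in2 K a b) = Set.univ := by
    rw [Set.eq_univ_iff_forall]
    intro x
    exact glue2_surj (spMap (g1 K a b)) (spMap (g2 K a b)) x
  have hcond : spMap (g1 K a b) ≫ WX.in1 K a b = spMap (g2 K a b) ≫ WX.in2 K a b :=
    pushout.condition
  have hI : (Set.range (WX.in1 K a b) ∩ Set.range (WX.in2 K a b)).Nonempty := by
    refine ⟨(spMap (g1 K a b) ≫ WX.in1 K a b) w, ⟨spMap (g1 K a b) w, ?_⟩,
      ⟨spMap (g2 K a b) w, ?_⟩⟩
    · rw [Scheme.Hom.comp_apply]
    · rw [hcond, Scheme.Hom.comp_apply]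
  have hp : _root_.IsPreconnected (Set.univ : Set (WX K a b)) := by
    rw [← hU]
    exact _root_.IsPreconnected.union' hI (pre _) (pre _)
  have : PreconnectedSpace (WX K a b) := ⟨hp⟩
  exact ⟨⟨WX.in1 K a b (spMap (g1 K a b) w)⟩⟩

end

end Pool.Agent.MG.W.WDM

namespace Pool.Agent.MG.W

theorem t_WDM : Stmt_WDM := fun K _ a b => ⟨WDM.dom1 K a b, WDM.dom2 K a b, WDM.conn K a b⟩

end Pool.Agent.MG.W
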