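import Pool.Agent.MG.W.Stmts

/-!
# WEA: ring data of thickenings of Weierstrass curves are Weierstrass curves
-/

open CategoryTheory CategoryTheory.Limits AlgebraicGeometry TensorProduct

namespace Pool.Agent.MG.W.WEA

/-! ### Square zero extensions -/

section sq

variable {B E J : Type} [CommRing B] [CommRing E] [Fintype J] (S : SqE B E J)

theorem ker_p : RingHom.ker S.p = Ideal.span (Set.range S.ε) := by
  apply le_antisymm
  · intro v hv
    obtain ⟨b, rfl⟩ := S.ex v hv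
    exact Ideal.sum_mem _ fun j _ => Ideal.mul_mem_right _ _ (Ideal.subset_span ⟨j, rfl⟩)
  · rw [Ideal.span_le]
    rintro _ ⟨j, rfl⟩
    exact S.pe j

theorem p_surj : Function.Surjective S.p := fun b => ⟨S.i b, S.pi b⟩

variable {G A : Type} [CommRing G] [CommRing A] {aG : E →+* G} {q : G →+* A}

theorem eps_kill (hk : ∀ v, q v = 0 → ∃ w : J → G, v = ∑ j, aG (S.ε j) * w j) {v : G}
    (hv : q v = 0) (j : J) : aG (S.ε j) * v = 0 := by
  obtain ⟨w, rfl⟩ := hk v hv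
  rw [Finset.mul_sum]
  refine Finset.sum_eq_zero fun k _ => ?_
  rw [← mul_assoc, ← map_mul, S.mul, map_zero, zero_mul]

theorem ker_sq (hk : ∀ v, q v = 0 → ∃ w : J → G, v = ∑ j, aG (S.ε j) * w j) {v w : G}
    (hv : q v = 0) (hw : q w = 0) : v * w = 0 := by
  obtain ⟨u, rfl⟩ := hk v hv
  rw [Finset.sum_mul]
  refine Finset.sum_eq_zero fun k _ => ?_
  rw [mul_right_comm, eps_kill S hk hw, zero_mul]

theorem unit_lift (hs : Function.Surjective q)
    (hk : ∀ v, q v = 0 → ∃ w : J → G, v = ∑ j, aG (S.ε j) * w j) {v : G} (hv : IsUnit (q v)) :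
    IsUnit v := by
  obtain ⟨u, hu⟩ := hv.exists_right_inv
  obtain ⟨w, rfl⟩ := hs u
  have h1 : q (v * w - 1) = 0 := by rw [map_sub, map_mul, hu, map_one, sub_self]
  have h2 := ker_sq S hk h1 h1
  refine IsUnit.of_mul_eq_one (w * (2 - v * w)) ?_
  linear_combination -h2

/-- A map of square zero extensions over the identity is bijective. -/
theorem bij {R : Type} [CommRing R] {aR : E →+* R} {π : R →+* A} (e : R →+* G)
    (he : ∀ c, e (aR c) = aG c) (hq : ∀ v, q (e v) = π v) (hπ : Function.Surjective π)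
    (hkR : ∀ u, π u = 0 → ∃ w : J → R, u = ∑ j, aR (S.ε j) * w j)
    (hk : ∀ v, q v = 0 → ∃ w : J → G, v = ∑ j, aG (S.ε j) * w j)
    (hun : ∀ w : J → G, ∑ j, aG (S.ε j) * w j = 0 → ∀ j, q (w j) = 0) :
    Function.Bijective e := by
  constructor
  · rw [injective_iff_map_eq_zero]
    intro u hu
    obtain ⟨w, rfl⟩ := hkR u (by rw [← hq, hu, map_zero])
    have h1 : ∑ j, aG (S.ε j) * e (w j) = 0 := by
      rw [← hu, map_sum]
      refine Finset.sum_congr rfl fun j _ => ?_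
      rw [map_mul, he]
    refine Finset.sum_eq_zero fun j _ => ?_
    refine eps_kill S hkR ?_ j
    rw [← hq]
    exact hun _ h1 j
  · intro v
    obtain ⟨u, hu⟩ := hπ (q v)
    obtain ⟨w, hw⟩ := hk (v - e u) (by rw [map_sub, hq, hu, sub_self])
    choose u' hu' using fun j => hπ (q (w j))
    refine ⟨u + ∑ j, aR (S.ε j) * u' j, ?_⟩
    have h1 : ∑ j, aG (S.ε j) * w j = e (∑ j, aR (S.ε j) * u' j) := by
      rw [map_sum]
      refine Finset.sum_congr rfl fun j _ => ?_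
      rw [map_mul, he]
      have h2 := eps_kill S hk (v := w j - e (u' j)) (by rw [map_sub, hq, hu', sub_self]) j
      linear_combination h2
    rw [map_add, ← h1, ← hw]
    ring

end sq

/-! ### Base change of quotients of polynomial rings -/

section quo

variable {B E J : Type} [CommRing B] [CommRing E] [Fintype J] (S : SqE B E J)
  {F : MvPolynomial (Fin 2) E} {F' : MvPolynomial (Fin 2) B}
  (π : (MvPolynomial (Fin 2) E ⧸ Ideal.span {F}) →+* (MvPolynomial (Fin 2) B ⧸ Ideal.span {F'}))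

theorem quo_surj (hπ : ∀ P, π (Ideal.Quotient.mk _ P) =
    Ideal.Quotient.mk _ (MvPolynomial.map S.p P)) : Function.Surjective π := by
  intro v
  obtain ⟨P, rfl⟩ := Ideal.Quotient.mk_surjective v
  obtain ⟨P', rfl⟩ := MvPolynomial.map_surjective S.p (p_surj S) P
  exact ⟨_, hπ P'⟩

theorem quo_ker (hF : MvPolynomial.map S.p F = F') (hπ : ∀ P, π (Ideal.Quotient.mk _ P) =
    Ideal.Quotient.mk _ (MvPolynomial.map S.p P)) (u : MvPolynomial (Fin 2) E ⧸ Ideal.span {F})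
    (hu : π u = 0) : ∃ w : J → (MvPolynomial (Fin 2) E ⧸ Ideal.span {F}),
      u = ∑ j, algebraMap E _ (S.ε j) * w j := by
  obtain ⟨P, rfl⟩ := Ideal.Quotient.mk_surjective u
  rw [hπ, Ideal.Quotient.eq_zero_iff_mem, Ideal.mem_span_singleton'] at hu
  obtain ⟨Q, hQ⟩ := hu
  obtain ⟨Q', rfl⟩ := MvPolynomial.map_surjective S.p (p_surj S) Q
  have h1 : P - Q' * F ∈ RingHom.ker (MvPolynomial.map (σ := Fin 2) S.p) := by
    rw [RingHom.mem_ker, map_sub, map_mul, hF, hQ, sub_self]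
  rw [MvPolynomial.ker_map, ker_p, Ideal.map_span, ← Set.range_comp,
    Ideal.mem_span_range_iff_exists_fun] at h1
  obtain ⟨c, hc⟩ := h1
  refine ⟨fun j => Ideal.Quotient.mk _ (c j), ?_⟩
  have h2 : Ideal.Quotient.mk (Ideal.span {F}) (P - Q' * F) = Ideal.Quotient.mk _ P := by
    rw [map_sub, sub_eq_self, Ideal.Quotient.eq_zero_iff_mem]
    exact Ideal.mul_mem_left _ _ (Ideal.subset_span rfl)
  rw [← h2, ← hc, map_sum]
  refine Finset.sum_congr rfl fun j _ => ?_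
  rw [map_mul, mul_comm]
  rfl

end quo

section bc

variable {B E J : Type} [CommRing B] [CommRing E] [Fintype J] (S : SqE B E J) {a b : B}
  {a' b' : E} (ha : a = S.p a') (hb : b = S.p b')

theorem bc1_mk (P : MvPolynomial (Fin 2) E) : bc1 S.p ha hb (Ideal.Quotient.mk _ P) =
    Ideal.Quotient.mk _ (MvPolynomial.map S.p P) := by
  have : (bc1 S.p ha hb).comp (Ideal.Quotient.mk (Ideal.span {eq1 E a' b'})) =
      (Ideal.Quotient.mk (Ideal.span {eq1 B a b})).comp (MvPolynomial.map S.p) := by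
    refine MvPolynomial.ringHom_ext (fun c => ?_) fun i => ?_
    · rw [RingHom.comp_apply, RingHom.comp_apply, MvPolynomial.map_C]
      exact bc1_b S.p ha hb c
    · rw [RingHom.comp_apply, RingHom.comp_apply, MvPolynomial.map_X]
      fin_cases i
      · exact bc1_x S.p ha hb
      · exact bc1_y S.p ha hb
  exact congrArg (fun f => f P) this

theorem bc2_mk (P : MvPolynomial (Fin 2) E) : bc2 S.p ha hb (Ideal.Quotient.mk _ P) =
    Ideal.Quotient.mk _ (MvPolynomial.map S.p P) := by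
  have : (bc2 S.p ha hb).comp (Ideal.Quotient.mk (Ideal.span {eq2 E a' b'})) =
      (Ideal.Quotient.mk (Ideal.span {eq2 B a b})).comp (MvPolynomial.map S.p) := by
    refine MvPolynomial.ringHom_ext (fun c => ?_) fun i => ?_
    · rw [RingHom.comp_apply, RingHom.comp_apply, MvPolynomial.map_C]
      exact bc2_b S.p ha hb c
    · rw [RingHom.comp_apply, RingHom.comp_apply, MvPolynomial.map_X]
      fin_cases i
      · exact bc2_z S.p ha hb
      · exact bc2_t S.p ha hb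
  exact congrArg (fun f => f P) this

theorem bc1_surj : Function.Surjective (bc1 S.p ha hb) := quo_surj S _ (bc1_mk S ha hb)

theorem bc2_surj : Function.Surjective (bc2 S.p ha hb) := quo_surj S _ (bc2_mk S ha hb)

theorem bc1_ker (u : A1 E a' b') (hu : bc1 S.p ha hb u = 0) :
    ∃ w : J → A1 E a' b', u = ∑ j, algebraMap E _ (S.ε j) * w j := by
  refine quo_ker S _ ?_ (bc1_mk S ha hb) u hu
  simp [eq1, ha, hb]

theorem bc2_ker (u : A2 E a' b') (hu : bc2 S.p ha hb u = 0) :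
    ∃ w : J → A2 E a' b', u = ∑ j, algebraMap E _ (S.ε j) * w j := by
  refine quo_ker S _ ?_ (bc2_mk S ha hb) u hu
  simp [eq2, ha, hb]

theorem bc12_surj : Function.Surjective (bc12 S.p ha hb) := by
  intro v
  obtain ⟨⟨w, s⟩, hw⟩ := IsLocalization.surj (Submonoid.powers (z2 B a b)) v
  obtain ⟨n, hn⟩ := s.2
  obtain ⟨w', rfl⟩ := bc2_surj S ha hb w
  simp only at hw
  have h1 : v * (zu B a b).val ^ n = g2 B a b (bc2 S.p ha hb w') := by
    have h2 : (algebraMap (A2 B a b) (A12 B a b)) (s : A2 B a b) = (zu B a b).val ^ n := by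
      rw [← hn, map_pow]
      rfl
    rw [← h2, hw]
    rfl
  refine ⟨g2 E a' b' w' * ((zu E a' b')⁻¹ ^ n : (A12 E a' b')ˣ).val, ?_⟩
  have h2 : bc12 S.p ha hb ((zu E a' b')⁻¹ ^ n : (A12 E a' b')ˣ).val =
      ((zu B a b)⁻¹ ^ n : (A12 B a b)ˣ).val := by
    have h3 : Units.map (bc12 S.p ha hb : A12 E a' b' →* A12 B a b) ((zu E a' b')⁻¹ ^ n) =
        (zu B a b)⁻¹ ^ n := by
      rw [map_pow, map_inv, bc12_zu]
    exact congrArg Units.val h3
  rw [map_mul, bc12_g2, h2, ← h1, mul_assoc, ← Units.val_pow_eq_pow_val, ← Units.val_mul,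
    inv_pow, mul_inv_cancel, Units.val_one, mul_one]

theorem bc12_ker (hg : Function.Injective (g2 B a b)) (u : A12 E a' b')
    (hu : bc12 S.p ha hb u = 0) :
    ∃ w : J → A12 E a' b', u = ∑ j, algebraMap E _ (S.ε j) * w j := by
  obtain ⟨⟨w, s⟩, hw⟩ := IsLocalization.surj (Submonoid.powers (z2 E a' b')) u
  obtain ⟨n, hn⟩ := s.2
  simp only at hw
  have h1 : u * (zu E a' b').val ^ n = g2 E a' b' w := by
    have h2 : (algebraMap (A2 E a' b') (A12 E a' b')) (s : A2 E a' b') =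
        (zu E a' b').val ^ n := by
      rw [← hn, map_pow]
      rfl
    rw [← h2, hw]
    rfl
  have h3 : bc2 S.p ha hb w = 0 := by
    apply hg
    rw [map_zero, ← bc12_g2, ← h1, map_mul, hu, zero_mul]
  obtain ⟨w', rfl⟩ := bc2_ker S ha hb w h3
  refine ⟨fun j => g2 E a' b' (w' j) * ((zu E a' b')⁻¹ ^ n : (A12 E a' b')ˣ).val, ?_⟩
  have h4 : u = g2 E a' b' (∑ j, algebraMap E _ (S.ε j) * w' j) *
      ((zu E a' b')⁻¹ ^ n : (A12 E a' b')ˣ).val := by
    rw [← h1, mul_assoc, ← Units.val_pow_eq_pow_val, ← Units.val_mul,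
      inv_pow, mul_inv_cancel, Units.val_one, mul_one]
  rw [h4, map_sum, Finset.sum_mul]
  refine Finset.sum_congr rfl fun j _ => ?_
  rw [map_mul, g2_b, mul_assoc]

end bc

/-! ### Poles at infinity -/

section pole

variable (B : Type) [CommRing B] (a b : B)

theorem inf2_b (c : B) : inf2 B a b (algebraMap B _ c) = c := lift2_b _ _ _ _ c

theorem inf2_z : inf2 B a b (z2 B a b) = 0 := lift2_z _ _ _ _

theorem inf2_t : inf2 B a b (t2 B a b) = 1 := lift2_t _ _ _ _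

theorem exists_tau : ∃ τ : A2 B a b, t2 B a b * τ = 1 ∧ inf2 B a b τ = 1 ∧
    (zu B a b).val ^ 2 * g1 B a b (x1 B a b) = g2 B a b τ ∧
    (zu B a b).val ^ 3 * g1 B a b (y1 B a b) = g2 B a b τ := by
  obtain ⟨τ, hτ⟩ := (t2_unit B a b).exists_right_inv
  have h1 : (tu B a b).val * g2 B a b τ = 1 := by rw [tu_val, ← map_mul, hτ, map_one]
  have h2 : g2 B a b τ = ((tu B a b)⁻¹ : (A12 B a b)ˣ).val :=
    (Units.inv_eq_of_mul_eq_one_right h1).symm
  refine ⟨τ, hτ, ?_, ?_, ?_⟩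
  · have := congrArg (inf2 B a b) hτ
    rw [map_mul, inf2_t, one_mul, map_one] at this
    exact this
  · rw [g1_x, h2, ← Units.val_pow_eq_pow_val, ← Units.val_mul]
    congr 1
    group
  · rw [g1_y, h2, ← Units.val_pow_eq_pow_val, ← Units.val_mul]
    congr 1
    group

variable {B a b}

theorem pole_step (h2 : ∀ v : A2 B a b, v - algebraMap B _ (inf2 B a b v) ∈ Ideal.span {z2 B a b})
    {k : ℕ} {ρ : A1 B a b} {σ : A2 B a b} (h : (zu B a b).val ^ (k + 1) * g1 B a b ρ = g2 B a b σ)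
    {m : A1 B a b} {s : A2 B a b} (hm : (zu B a b).val ^ (k + 1) * g1 B a b m = g2 B a b s)
    (hs : inf2 B a b s = 1) :
    ∃ (c : B) (σ' : A2 B a b),
      (zu B a b).val ^ k * g1 B a b (ρ - algebraMap B _ c * m) = g2 B a b σ' := by
  have h3 := h2 (σ - algebraMap B _ (inf2 B a b σ) * s)
  rw [map_sub (inf2 B a b), map_mul (inf2 B a b), inf2_b, hs, mul_one, sub_self, map_zero,
    sub_zero, Ideal.mem_span_singleton'] at h3
  obtain ⟨σ', hσ'⟩ := h3
  refine ⟨inf2 B a b σ, σ', ?_⟩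
  have h4 : (zu B a b).val * ((zu B a b).val ^ k *
      g1 B a b (ρ - algebraMap B _ (inf2 B a b σ) * m)) = (zu B a b).val * g2 B a b σ' := by
    have h5 := congrArg (g2 B a b) hσ'
    rw [map_mul, map_sub, map_mul, ← zu_val, g2_b] at h5
    rw [map_sub, map_mul, g1_b]
    rw [pow_succ] at h hm
    linear_combination h - algebraMap B (A12 B a b) (inf2 B a b σ) * hm - h5
  exact (zu B a b).isUnit.mul_left_cancel h4

/-- Functions on the affine curve with a pole of order at most `6` at infinity. -/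
theorem pole6 (hW : Stmt_WRG) {ρ : A1 B a b} {σ : A2 B a b}
    (h : (zu B a b).val ^ 6 * g1 B a b ρ = g2 B a b σ) :
    ∃ c : Fin 6 → B, ρ = algebraMap B _ (c 0) * x1 B a b ^ 3 +
      algebraMap B _ (c 1) * (x1 B a b * y1 B a b) + algebraMap B _ (c 2) * x1 B a b ^ 2 +
      algebraMap B _ (c 3) * y1 B a b + algebraMap B _ (c 4) * x1 B a b +
      algebraMap B _ (c 5) := by
  obtain ⟨-, h2, -, -, -, -, -, h8⟩ := hW B a b
  obtain ⟨τ, -, hτ, hx, hy⟩ := exists_tau B a b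
  obtain ⟨c0, σ1, e1⟩ := pole_step h2 (k := 5) h (m := x1 B a b ^ 3) (s := τ ^ 3) (by
    rw [map_pow, map_pow, ← hx]; ring) (by rw [map_pow, hτ, one_pow])
  obtain ⟨c1, σ2, e2⟩ := pole_step h2 (k := 4) e1 (m := x1 B a b * y1 B a b) (s := τ ^ 2) (by
    rw [map_mul, map_pow]
    linear_combination ((zu B a b).val ^ 3 * g1 B a b (y1 B a b)) * hx + g2 B a b τ * hy) (by rw [map_pow, hτ, one_pow])
  obtain ⟨c2, σ3, e3⟩ := pole_step h2 (k := 3) e2 (m := x1 B a b ^ 2) (s := τ ^ 2) (by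
    rw [map_pow, map_pow, ← hx]; ring) (by rw [map_pow, hτ, one_pow])
  obtain ⟨c5, c4, c3, e4⟩ := h8 _ _ e3
  refine ⟨![c0, c1, c2, c3, c4, c5], ?_⟩
  change _ = algebraMap B _ c0 * x1 B a b ^ 3 +
      algebraMap B _ c1 * (x1 B a b * y1 B a b) + algebraMap B _ c2 * x1 B a b ^ 2 +
      algebraMap B _ c3 * y1 B a b + algebraMap B _ c4 * x1 B a b +
      algebraMap B _ c5
  linear_combination e4

end pole

/-! ### Thickenings -/

section main

variable {B E J : Type} [CommRing B] [CommRing E] [Fintype J] {S : SqE B E J} {a b : B}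
  (D : WData S a b)

theorem f2_inj (hg : Function.Injective (g2 B a b)) : Function.Injective D.f2 := by
  rw [injective_iff_map_eq_zero]
  intro v hv
  have h1 : D.q2 v = 0 := by
    apply hg
    rw [map_zero, ← D.qf2, hv, map_zero]
  obtain ⟨w, rfl⟩ := D.ker2 v h1
  have h2 : ∑ j, D.a12 (S.ε j) * D.f2 (w j) = 0 := by
    rw [← hv, map_sum]
    exact Finset.sum_congr rfl fun j _ => by rw [map_mul, D.fa2]
  refine Finset.sum_eq_zero fun j _ => eps_kill S D.ker2 ?_ j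
  apply hg
  rw [map_zero, ← D.qf2]
  exact D.un12 _ h2 j

theorem qZ {Z : D.G2} (hZ : D.q2 Z = z2 B a b) : D.q12 (D.f2 Z) = (zu B a b).val := by
  rw [D.qf2, hZ]
  rfl

/-- Lifting of the relation `z ^ k g1 u = g2 w`. -/
theorem corr {k : ℕ} (hk : ∀ v : A12 B a b, ∃ (v1 : A1 B a b) (v2 : A2 B a b),
    v = (zu B a b).val ^ k * g1 B a b v1 + g2 B a b v2) {Z : D.G2} (hZ : D.q2 Z = z2 B a b)
    {u : A1 B a b} {w : A2 B a b} (h : (zu B a b).val ^ k * g1 B a b u = g2 B a b w) :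
    ∃ (X : D.G1) (W : D.G2), D.q1 X = u ∧ D.q2 W = w ∧ D.f2 Z ^ k * D.f1 X = D.f2 W := by
  obtain ⟨X0, rfl⟩ := D.sur1 u
  obtain ⟨W0, rfl⟩ := D.sur2 w
  have hqZ := qZ D hZ
  obtain ⟨d, hd⟩ := D.ker12 (D.f2 Z ^ k * D.f1 X0 - D.f2 W0) (by
    rw [map_sub, map_mul, map_pow, hqZ, D.qf1, D.qf2, h, sub_self])
  choose v1 v2 hv using fun j => hk (D.q12 (d j))
  choose u1 hu1 using fun j => D.sur1 (v1 j)
  choose u2 hu2 using fun j => D.sur2 (v2 j)
  have h1 : ∀ j, D.a12 (S.ε j) * d j =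
      D.a12 (S.ε j) * (D.f2 Z ^ k * D.f1 (u1 j) + D.f2 (u2 j)) := by
    intro j
    have h2 := eps_kill S D.ker12 (v := d j - (D.f2 Z ^ k * D.f1 (u1 j) + D.f2 (u2 j))) (by
      rw [map_sub, map_add, map_mul, map_pow, hqZ, D.qf1, D.qf2, hu1, hu2, ← hv, sub_self]) j
    linear_combination h2
  refine ⟨X0 - ∑ j, D.a1 (S.ε j) * u1 j, W0 + ∑ j, D.a2 (S.ε j) * u2 j, ?_, ?_, ?_⟩
  · rw [map_sub, map_sum, Finset.sum_eq_zero, sub_zero]
    intro j _
    rw [map_mul, D.qa1, S.pe, map_zero, zero_mul]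
  · rw [map_add, map_sum, Finset.sum_eq_zero, add_zero]
    intro j _
    rw [map_mul, D.qa2, S.pe, map_zero, zero_mul]
  · have h3 : D.f1 (∑ j, D.a1 (S.ε j) * u1 j) = ∑ j, D.a12 (S.ε j) * D.f1 (u1 j) := by
      rw [map_sum]
      exact Finset.sum_congr rfl fun j _ => by rw [map_mul, D.fa1]
    have h4 : D.f2 (∑ j, D.a2 (S.ε j) * u2 j) = ∑ j, D.a12 (S.ε j) * D.f2 (u2 j) := by
      rw [map_sum]
      exact Finset.sum_congr rfl fun j _ => by rw [map_mul, D.fa2]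
    have h5 : ∑ j, D.a12 (S.ε j) * d j = D.f2 Z ^ k * ∑ j, D.a12 (S.ε j) * D.f1 (u1 j) +
        ∑ j, D.a12 (S.ε j) * D.f2 (u2 j) := by
      rw [Finset.mul_sum, ← Finset.sum_add_distrib]
      exact Finset.sum_congr rfl fun j _ => by rw [h1]; ring
    rw [map_sub, map_add, h3, h4]
    linear_combination hd + h5

/-- The relation between the lifts of `x` and `y`. -/
theorem relation (hW : Stmt_WRG) {Z : D.G2} (hZ : D.q2 Z = z2 B a b) {X Y : D.G1} {W V : D.G2}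
    (hX : D.q1 X = x1 B a b) (hY : D.q1 Y = y1 B a b) (hXW : D.f2 Z ^ 2 * D.f1 X = D.f2 W)
    (hYV : D.f2 Z ^ 3 * D.f1 Y = D.f2 V) :
    ∃ r : Fin 6 → E, (∀ i, S.p (r i) = 0) ∧
      Y ^ 2 = X ^ 3 + D.a1 (S.i a) * X + D.a1 (S.i b) +
        (D.a1 (r 0) * X ^ 3 + D.a1 (r 1) * (X * Y) + D.a1 (r 2) * X ^ 2 + D.a1 (r 3) * Y +
          D.a1 (r 4) * X + D.a1 (r 5)) := by
  have hg : Function.Injective (g2 B a b) := (hW B a b).2.2.1
  have hqZ := qZ D hZ
  have hq1R : D.q1 (Y ^ 2 - X ^ 3 - D.a1 (S.i a) * X - D.a1 (S.i b)) = 0 := by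
    simp only [map_sub, map_mul, map_pow, hX, hY, D.qa1, S.pi]
    have := rel1 B a b
    linear_combination this
  obtain ⟨ρ, hρ⟩ := D.ker1 _ hq1R
  have hRv : D.f2 Z ^ 6 * D.f1 (Y ^ 2 - X ^ 3 - D.a1 (S.i a) * X - D.a1 (S.i b)) =
      D.f2 (V ^ 2 - W ^ 3 - D.a2 (S.i a) * Z ^ 4 * W - D.a2 (S.i b) * Z ^ 6) := by
    simp only [map_sub, map_mul, map_pow, D.fa1, D.fa2]
    rw [← hXW, ← hYV]
    ring
  obtain ⟨σ, hσ⟩ := D.ker2 (V ^ 2 - W ^ 3 - D.a2 (S.i a) * Z ^ 4 * W - D.a2 (S.i b) * Z ^ 6) (by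
    apply hg
    rw [← D.qf2, ← hRv, map_mul, D.qf1, hq1R, map_zero, mul_zero, map_zero])
  have h1 : ∀ j, D.q12 (D.f2 Z ^ 6 * D.f1 (ρ j) - D.f2 (σ j)) = 0 := by
    refine D.un12 (fun j => D.f2 Z ^ 6 * D.f1 (ρ j) - D.f2 (σ j)) ?_
    have h2 : D.f1 (∑ j, D.a1 (S.ε j) * ρ j) = ∑ j, D.a12 (S.ε j) * D.f1 (ρ j) := by
      rw [map_sum]
      exact Finset.sum_congr rfl fun j _ => by rw [map_mul, D.fa1]
    have h3 : D.f2 (∑ j, D.a2 (S.ε j) * σ j) = ∑ j, D.a12 (S.ε j) * D.f2 (σ j) := by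
      rw [map_sum]
      exact Finset.sum_congr rfl fun j _ => by rw [map_mul, D.fa2]
    rw [hρ, hσ, h2, h3, Finset.mul_sum] at hRv
    rw [← sub_eq_zero.2 hRv, ← Finset.sum_sub_distrib]
    exact Finset.sum_congr rfl fun j _ => by ring
  have h4 : ∀ j, (zu B a b).val ^ 6 * g1 B a b (D.q1 (ρ j)) = g2 B a b (D.q2 (σ j)) := by
    intro j
    have := h1 j
    rw [map_sub, map_mul, map_pow, hqZ, D.qf1, D.qf2, sub_eq_zero] at this
    exact this
  choose c hc using fun j => pole6 hW (h4 j)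
  refine ⟨fun i => ∑ j, S.ε j * S.i (c j i), fun i => ?_, ?_⟩
  · rw [map_sum]
    exact Finset.sum_eq_zero fun j _ => by rw [map_mul, S.pe, zero_mul]
  · have h5 : ∀ j, D.a1 (S.ε j) * ρ j = D.a1 (S.ε j) * (D.a1 (S.i (c j 0)) * X ^ 3 +
        D.a1 (S.i (c j 1)) * (X * Y) + D.a1 (S.i (c j 2)) * X ^ 2 + D.a1 (S.i (c j 3)) * Y +
          D.a1 (S.i (c j 4)) * X + D.a1 (S.i (c j 5))) := by
      intro j
      have h6 := eps_kill S D.ker1 (v := ρ j - (D.a1 (S.i (c j 0)) * X ^ 3 +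
        D.a1 (S.i (c j 1)) * (X * Y) + D.a1 (S.i (c j 2)) * X ^ 2 + D.a1 (S.i (c j 3)) * Y +
          D.a1 (S.i (c j 4)) * X + D.a1 (S.i (c j 5)))) (by
        rw [map_sub, hc j, sub_eq_zero]
        simp only [map_add, map_mul, map_pow, hX, hY, D.qa1, S.pi]) j
      linear_combination h6
    have h7 : ∀ i, D.a1 (∑ j, S.ε j * S.i (c j i)) = ∑ j, D.a1 (S.ε j) * D.a1 (S.i (c j i)) := by
      intro i
      rw [map_sum]
      exact Finset.sum_congr rfl fun j _ => by rw [map_mul]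
    have h8 : ∑ j, D.a1 (S.ε j) * ρ j = (∑ j, D.a1 (S.ε j) * D.a1 (S.i (c j 0))) * X ^ 3 +
        (∑ j, D.a1 (S.ε j) * D.a1 (S.i (c j 1))) * (X * Y) +
        (∑ j, D.a1 (S.ε j) * D.a1 (S.i (c j 2))) * X ^ 2 +
        (∑ j, D.a1 (S.ε j) * D.a1 (S.i (c j 3))) * Y +
        (∑ j, D.a1 (S.ε j) * D.a1 (S.i (c j 4))) * X +
        ∑ j, D.a1 (S.ε j) * D.a1 (S.i (c j 5)) := by
      simp only [Finset.sum_mul, ← Finset.sum_add_distrib]
      exact Finset.sum_congr rfl fun j _ => by rw [h5]; ring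
    simp only [h7]
    linear_combination hρ + h8

theorem hk_of (hW : Stmt_WRG) (k : ℕ) (v : A12 B a b) : ∃ (v1 : A1 B a b) (v2 : A2 B a b),
    v = (zu B a b).val ^ (k + 1) * g1 B a b v1 + g2 B a b v2 := by
  obtain ⟨-, -, -, -, h5, -⟩ := hW B a b
  obtain ⟨c, v1, v2, h⟩ := h5 (((zu B a b)⁻¹ : (A12 B a b)ˣ).val ^ (k + 1) * v)
  refine ⟨v1, algebraMap B _ c * z2 B a b ^ k + z2 B a b ^ (k + 1) * v2, ?_⟩
  have e2 : (zu B a b).val * ((zu B a b)⁻¹ : (A12 B a b)ˣ).val = 1 := Units.mul_inv _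
  have e1 : (zu B a b).val ^ (k + 1) * ((zu B a b)⁻¹ : (A12 B a b)ˣ).val ^ (k + 1) = 1 := by
    rw [← mul_pow, e2, one_pow]
  rw [map_add, map_mul, map_mul, map_pow, map_pow, ← zu_val, g2_b]
  linear_combination (-v) * e1 + (zu B a b).val ^ (k + 1) * h +
    (algebraMap B (A12 B a b) c * (zu B a b).val ^ k) * e2

/-- The normal form of the relation. -/
theorem normal (h6 : IsUnit (6 : B)) (hW : Stmt_WRG) {τ : A2 B a b}
    (hx : (zu B a b).val ^ 2 * g1 B a b (x1 B a b) = g2 B a b τ)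
    (hy : (zu B a b).val ^ 3 * g1 B a b (y1 B a b) = g2 B a b τ) :
    ∃ (a' b' : E) (Z : D.G2) (X Y : D.G1) (W V : D.G2), a = S.p a' ∧ b = S.p b' ∧
      D.q2 Z = z2 B a b ∧ D.inf Z = 0 ∧ D.q1 X = x1 B a b ∧ D.q1 Y = y1 B a b ∧
      D.q2 W = τ ∧ D.q2 V = τ ∧ D.f2 Z ^ 2 * D.f1 X = D.f2 W ∧ D.f2 Z ^ 3 * D.f1 Y = D.f2 V ∧
      Y ^ 2 = X ^ 3 + D.a1 a' * X + D.a1 b' := by
  obtain ⟨u, hu⟩ := h6.exists_right_inv
  obtain ⟨i2, hi2⟩ : ∃ i2 : E, 2 * i2 = 1 := by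
    refine ⟨S.i (3 * u), ?_⟩
    have h1 : S.i (2 * (3 * u)) = 1 := by
      rw [show (2 : B) * (3 * u) = 6 * u by ring, hu, map_one]
    rw [map_mul, map_ofNat] at h1
    exact h1
  obtain ⟨i3, hi3⟩ : ∃ i3 : E, 3 * i3 = 1 := by
    refine ⟨S.i (2 * u), ?_⟩
    have h1 : S.i (3 * (2 * u)) = 1 := by
      rw [show (3 : B) * (2 * u) = 6 * u by ring, hu, map_one]
    rw [map_mul, map_ofNat] at h1
    exact h1
  obtain ⟨Z0, hZ0⟩ := D.sur2 (z2 B a b)
  obtain ⟨Z, rfl⟩ : ∃ Z, Z = Z0 - D.a2 (D.inf Z0) := ⟨_, rfl⟩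
  have hZ : D.q2 (Z0 - D.a2 (D.inf Z0)) = z2 B a b := by
    rw [map_sub, D.qa2, D.infq, hZ0, inf2_z, map_zero, sub_zero]
  have hiZ : D.inf (Z0 - D.a2 (D.inf Z0)) = 0 := by
    rw [map_sub, D.infa, sub_self]
  generalize Z0 - D.a2 (D.inf Z0) = Z at hZ hiZ
  obtain ⟨X, W, hX, hqW, hXW⟩ := corr D (hk_of hW 1) hZ hx
  obtain ⟨Y, V, hY, hqV, hYV⟩ := corr D (hk_of hW 2) hZ hy
  obtain ⟨r, hr, hrel⟩ := relation D hW hZ hX hY hXW hYV
  obtain ⟨c, hc⟩ : ∃ c : E, c = 1 + r 0 := ⟨_, rfl⟩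
  have hpc : S.p c = 1 := by rw [hc, map_add, map_one, hr, add_zero]
  have hac : D.a1 c = 1 + D.a1 (r 0) := by rw [hc, map_add, map_one]
  have hq1r : ∀ i, D.q1 (D.a1 (r i)) = 0 := fun i => by rw [D.qa1, hr, map_zero]
  have hq2r : ∀ i, D.q2 (D.a2 (r i)) = 0 := fun i => by rw [D.qa2, hr, map_zero]
  -- the nilpotent terms
  have hN : (D.a1 (r 1) * X + D.a1 (r 3)) ^ 2 = 0 := by
    rw [pow_two]
    have : D.q1 (D.a1 (r 1) * X + D.a1 (r 3)) = 0 := by
      rw [map_add, map_mul, hq1r, hq1r, zero_mul, add_zero]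
    exact ker_sq S D.ker1 this this
  have hR : D.a1 (r 2) ^ 2 = 0 := by
    rw [pow_two]
    exact ker_sq S D.ker1 (hq1r 2) (hq1r 2)
  have h2' : (2 : D.G1) * D.a1 i2 = 1 := by
    rw [← map_ofNat D.a1, ← map_mul, hi2, map_one]
  have h3' : (3 : D.G1) * D.a1 i3 = 1 := by
    rw [← map_ofNat D.a1, ← map_mul, hi3, map_one]
  refine ⟨c * (S.i a + r 4), c ^ 2 * (S.i b + r 5) - c * (S.i a + r 4) * (i3 * r 2), Z,
    D.a1 c * X + D.a1 (i3 * r 2), D.a1 c * (Y - D.a1 i2 * (D.a1 (r 1) * X + D.a1 (r 3))),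
    D.a2 c * W + D.a2 (i3 * r 2) * Z ^ 2,
    D.a2 c * (V - D.a2 i2 * (D.a2 (r 1) * (Z * W) + D.a2 (r 3) * Z ^ 3)), ?_, ?_, hZ, hiZ,
    ?_, ?_, ?_, ?_, ?_, ?_, ?_⟩
  · rw [map_mul, map_add, hpc, S.pi, hr, add_zero, one_mul]
  · simp only [map_sub, map_mul, map_pow, map_add, hpc, S.pi, hr]
    ring
  · simp only [map_add, map_mul, D.qa1, hpc, hr, hX, map_one, map_zero, mul_zero, add_zero,
      one_mul]
  · simp only [map_add, map_sub, map_mul, D.qa1, hpc, hr, hY, map_one, map_zero, mul_zero,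
      zero_mul, add_zero, one_mul, sub_zero]
  · simp only [map_add, map_mul, D.qa2, hpc, hr, hqW, map_one, map_zero, mul_zero, zero_mul,
      add_zero, one_mul]
  · simp only [map_add, map_sub, map_mul, D.qa2, hpc, hr, hqV, map_one, map_zero, mul_zero,
      zero_mul, add_zero, one_mul, sub_zero]
  · simp only [map_add, map_mul, map_pow, D.fa1, D.fa2]
    linear_combination D.a12 c * hXW
  · simp only [map_add, map_sub, map_mul, map_pow, D.fa1, D.fa2]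
    linear_combination D.a12 c * hYV - D.a12 c * D.a12 i2 * D.a12 (r 1) * D.f2 Z * hXW
  · simp only [map_add, map_sub, map_mul, map_pow]
    linear_combination D.a1 c ^ 2 * hrel - D.a1 c ^ 2 * X ^ 3 * hac -
      D.a1 c ^ 2 * Y * (D.a1 (r 1) * X + D.a1 (r 3)) * h2' -
      D.a1 c ^ 2 * D.a1 (r 2) * X ^ 2 * h3' + D.a1 c ^ 2 * D.a1 i2 ^ 2 * hN -
      (3 * D.a1 c * X * D.a1 i3 ^ 2 + D.a1 i3 ^ 3 * D.a1 (r 2)) * hR

end main

end Pool.Agent.MG.W.WEA

namespace Pool.Agent.MG.W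

open Pool.Agent.MG.W.WEA

/-- WEA -/
theorem t_WEA (hWRG : Stmt_WRG) : Stmt_WEA := by
  intro B E J _ _ _ S a b h6 D
  have hg : Function.Injective (g2 B a b) := (hWRG B a b).2.2.1
  obtain ⟨τ, hτ, -, hx, hy⟩ := exists_tau B a b
  obtain ⟨a', b', Z, X, Y, W, V, ha, hb, hZ, hiZ, hX, hY, hqW, hqV, hXW, hYV, hrel⟩ :=
    normal D h6 hWRG hx hy
  have hτu : IsUnit τ := IsUnit.of_mul_eq_one (t2 B a b) (by rw [mul_comm]; exact hτ)
  obtain ⟨Wi, hWi⟩ := (unit_lift S D.sur2 D.ker2 (v := W) (by rw [hqW]; exact hτu)).exists_right_inv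
  obtain ⟨Vi, hVi⟩ := (unit_lift S D.sur2 D.ker2 (v := V) (by rw [hqV]; exact hτu)).exists_right_inv
  -- the relation near infinity
  have hrel2 : V ^ 2 = W ^ 3 + D.a2 a' * Z ^ 4 * W + D.a2 b' * Z ^ 6 := by
    apply f2_inj D hg
    have h1 := congrArg D.f1 hrel
    simp only [map_add, map_mul, map_pow, D.fa1, D.fa2] at h1 ⊢
    rw [← hXW, ← hYV]
    linear_combination D.f2 Z ^ 6 * h1
  obtain ⟨Z3, hZ3⟩ : ∃ Z3, Z3 = Z * W * Vi := ⟨_, rfl⟩
  obtain ⟨T3, hT3⟩ : ∃ T3, T3 = V ^ 2 * Wi ^ 3 := ⟨_, rfl⟩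
  have hT : T3 = 1 + D.a2 a' * Z3 ^ 4 * T3 ^ 2 + D.a2 b' * Z3 ^ 6 * T3 ^ 3 := by
    have k1 : Z3 ^ 4 * T3 ^ 2 = Z ^ 4 * Wi ^ 2 := by
      calc Z3 ^ 4 * T3 ^ 2 = Z ^ 4 * Wi ^ 2 * ((W * Wi) ^ 4 * (V * Vi) ^ 4) := by
            rw [hZ3, hT3]; ring
        _ = _ := by rw [hWi, hVi]; ring
    have k2 : Z3 ^ 6 * T3 ^ 3 = Z ^ 6 * Wi ^ 3 := by
      calc Z3 ^ 6 * T3 ^ 3 = Z ^ 6 * Wi ^ 3 * ((W * Wi) ^ 6 * (V * Vi) ^ 6) := by
            rw [hZ3, hT3]; ring
        _ = _ := by rw [hWi, hVi]; ring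
    have k3 : T3 = 1 + D.a2 a' * (Z ^ 4 * Wi ^ 2) + D.a2 b' * (Z ^ 6 * Wi ^ 3) := by
      calc T3 = (W ^ 3 + D.a2 a' * Z ^ 4 * W + D.a2 b' * Z ^ 6) * Wi ^ 3 := by rw [hT3, hrel2]
        _ = (W * Wi) ^ 3 + D.a2 a' * (Z ^ 4 * Wi ^ 2) * (W * Wi) +
            D.a2 b' * (Z ^ 6 * Wi ^ 3) := by ring
        _ = _ := by rw [hWi]; ring
    rw [mul_assoc (D.a2 a'), k1, mul_assoc (D.a2 b'), k2]
    exact k3
  have hZu : IsUnit (D.f2 Z) := by
    refine unit_lift S D.sur12 D.ker12 ?_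
    rw [qZ D hZ]
    exact (zu B a b).isUnit
  have hZ3u : IsUnit (D.f2 Z3) := by
    rw [hZ3, map_mul, map_mul]
    exact (hZu.mul ((IsUnit.of_mul_eq_one _ hWi).map D.f2)).mul
      ((IsUnit.of_mul_eq_one V (by rw [mul_comm]; exact hVi)).map D.f2)
  -- the three homomorphisms
  obtain ⟨e1, he1⟩ : ∃ e1 : A1 E a' b' →+* D.G1, e1 = lift1 D.a1 X Y hrel := ⟨_, rfl⟩
  obtain ⟨e2, he2⟩ : ∃ e2 : A2 E a' b' →+* D.G2, e2 = lift2 D.a2 Z3 T3 hT := ⟨_, rfl⟩
  have e1b : ∀ c, e1 (algebraMap E _ c) = D.a1 c := fun c => by rw [he1, lift1_b]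
  have e1x : e1 (x1 E a' b') = X := by rw [he1, lift1_x]
  have e1y : e1 (y1 E a' b') = Y := by rw [he1, lift1_y]
  have e2b : ∀ c, e2 (algebraMap E _ c) = D.a2 c := fun c => by rw [he2, lift2_b]
  have e2z : e2 (z2 E a' b') = Z3 := by rw [he2, lift2_z]
  have e2t : e2 (t2 E a' b') = T3 := by rw [he2, lift2_t]
  have hu : IsUnit ((D.f2.comp e2) (z2 E a' b')) := by
    rw [RingHom.comp_apply, e2z]
    exact hZ3u
  obtain ⟨e12, he12⟩ : ∃ e12 : A12 E a' b' →+* D.G12,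
      e12 = IsLocalization.Away.lift (z2 E a' b') (g := D.f2.comp e2) hu := ⟨_, rfl⟩
  have e12g : ∀ v, e12 (g2 E a' b' v) = D.f2 (e2 v) := fun v => by
    rw [he12]
    exact IsLocalization.Away.lift_eq _ _ _
  have e12b : ∀ c, e12 (algebraMap E _ c) = D.a12 c := fun c => by
    rw [← g2_b, e12g, e2b, D.fa2]
  have e12z : e12 (zu E a' b').val = D.f2 Z3 := by rw [zu_val, e12g, e2z]
  have e12t : e12 (tu E a' b').val = D.f2 T3 := by rw [tu_val, e12g, e2t]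
  have hcan : ∀ F G U : D.G12, F * U = 1 → G * U = 1 → F = G := fun F G U h1 h2 => by
    linear_combination G * h1 - F * h2
  have hVi' : D.f2 V * D.f2 Vi = 1 := by rw [← map_mul, hVi, map_one]
  have hWi' : D.f2 W * D.f2 Wi = 1 := by rw [← map_mul, hWi, map_one]
  have e12g1 : ∀ v, D.f1 (e1 v) = e12 (g1 E a' b' v) := by
    have : D.f1.comp e1 = e12.comp (g1 E a' b') := by
      refine hom1_ext (fun c => ?_) ?_ ?_
      · rw [RingHom.comp_apply, RingHom.comp_apply, e1b, g1_b, e12b, D.fa1]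
      · rw [RingHom.comp_apply, RingHom.comp_apply, e1x]
        refine hcan _ _ (D.f2 Z3 ^ 2 * D.f2 T3) ?_ ?_
        · calc D.f1 X * (D.f2 Z3 ^ 2 * D.f2 T3)
              = (D.f2 Z ^ 2 * D.f1 X) * D.f2 W ^ 2 * D.f2 Wi ^ 3 * (D.f2 V * D.f2 Vi) ^ 2 := by
                rw [hZ3, hT3]; simp only [map_mul, map_pow]; ring
            _ = (D.f2 W * D.f2 Wi) ^ 3 * (D.f2 V * D.f2 Vi) ^ 2 := by rw [hXW]; ring
            _ = 1 := by rw [hVi', hWi']; ring
        · rw [← e12z, ← e12t, ← map_pow, ← map_mul, ← map_mul, g1_x]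
          rw [← Units.val_pow_eq_pow_val, ← Units.val_mul, ← Units.val_mul]
          have : (zu E a' b')⁻¹ ^ 2 * (tu E a' b')⁻¹ * (zu E a' b' ^ 2 * tu E a' b') = 1 := by
            rw [mul_mul_mul_comm, inv_pow, inv_mul_cancel, inv_mul_cancel, one_mul]
          rw [this, Units.val_one, map_one]
      · rw [RingHom.comp_apply, RingHom.comp_apply, e1y]
        refine hcan _ _ (D.f2 Z3 ^ 3 * D.f2 T3) ?_ ?_
        · calc D.f1 Y * (D.f2 Z3 ^ 3 * D.f2 T3)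
              = (D.f2 Z ^ 3 * D.f1 Y) * (D.f2 W * D.f2 Wi) ^ 3 * D.f2 V ^ 2 * D.f2 Vi ^ 3 := by
                rw [hZ3, hT3]; simp only [map_mul, map_pow]; ring
            _ = (D.f2 W * D.f2 Wi) ^ 3 * (D.f2 V * D.f2 Vi) ^ 3 := by rw [hYV]; ring
            _ = 1 := by rw [hVi', hWi']; ring
        · rw [← e12z, ← e12t, ← map_pow, ← map_mul, ← map_mul, g1_y]
          rw [← Units.val_pow_eq_pow_val, ← Units.val_mul, ← Units.val_mul]
          have : (zu E a' b')⁻¹ ^ 3 * (tu E a' b')⁻¹ * (zu E a' b' ^ 3 * tu E a' b') = 1 := by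
            rw [mul_mul_mul_comm, inv_pow, inv_mul_cancel, inv_mul_cancel, one_mul]
          rw [this, Units.val_one, map_one]
    exact fun v => congrArg (fun f => f v) this
  -- reductions
  have hq1 : ∀ v, D.q1 (e1 v) = bc1 S.p ha hb v := by
    have : D.q1.comp e1 = bc1 S.p ha hb := by
      refine hom1_ext (fun c => ?_) ?_ ?_
      · rw [RingHom.comp_apply, e1b, D.qa1, bc1_b]
      · rw [RingHom.comp_apply, e1x, hX, bc1_x]
      · rw [RingHom.comp_apply, e1y, hY, bc1_y]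
    exact fun v => congrArg (fun f => f v) this
  have hqVi : τ * D.q2 Vi = 1 := by rw [← hqV, ← map_mul, hVi, map_one]
  have hqWi : τ * D.q2 Wi = 1 := by rw [← hqW, ← map_mul, hWi, map_one]
  have hq2 : ∀ v, D.q2 (e2 v) = bc2 S.p ha hb v := by
    have : D.q2.comp e2 = bc2 S.p ha hb := by
      refine hom2_ext (fun c => ?_) ?_ ?_
      · rw [RingHom.comp_apply, e2b, D.qa2, bc2_b]
      · rw [RingHom.comp_apply, e2z, bc2_z, hZ3, map_mul, map_mul, hZ, hqW, mul_assoc, hqVi,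
          mul_one]
      · rw [RingHom.comp_apply, e2t, bc2_t, hT3, map_mul, map_pow, map_pow, hqV]
        linear_combination (t2 B a b * τ ^ 2 * D.q2 Wi ^ 2 + t2 B a b * τ * D.q2 Wi +
          t2 B a b) * hqWi - τ ^ 2 * D.q2 Wi ^ 3 * hτ
    exact fun v => congrArg (fun f => f v) this
  have hq12 : ∀ v, D.q12 (e12 v) = bc12 S.p ha hb v := by
    have : D.q12.comp e12 = bc12 S.p ha hb := by
      refine IsLocalization.ringHom_ext (Submonoid.powers (z2 E a' b')) ?_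
      refine RingHom.ext fun v => ?_
      change D.q12 (e12 (g2 E a' b' v)) = bc12 S.p ha hb (g2 E a' b' v)
      rw [e12g, D.qf2, hq2, bc12_g2]
    exact fun v => congrArg (fun f => f v) this
  have hb1 := bij S e1 e1b hq1 (bc1_surj S ha hb) (bc1_ker S ha hb) D.ker1 D.un1
  have hb2 := bij S e2 e2b hq2 (bc2_surj S ha hb) (bc2_ker S ha hb) D.ker2 D.un2
  have hb12 := bij S e12 e12b hq12 (bc12_surj S ha hb) (bc12_ker S ha hb hg) D.ker12 D.un12
  refine ⟨a', b', ha, hb, RingEquiv.ofBijective e1 hb1, RingEquiv.ofBijective e2 hb2,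
    RingEquiv.ofBijective e12 hb12, e1b, e2b, e12g1, fun v => (e12g v).symm, hq1, hq2, ?_⟩
  have : D.inf.comp e2 = inf2 E a' b' := by
    have hi3 : D.inf Z3 = 0 := by rw [hZ3, map_mul, map_mul, hiZ, zero_mul, zero_mul]
    refine hom2_ext (fun c => ?_) ?_ ?_
    · rw [RingHom.comp_apply, e2b, D.infa, inf2_b]
    · rw [RingHom.comp_apply, e2z, inf2_z, hi3]
    · rw [RingHom.comp_apply, e2t, inf2_t]
      have h1 := congrArg D.inf hT
      simp only [map_add, map_mul, map_pow, hi3, map_one] at h1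
      rw [h1]
      ring
  exact fun v => congrArg (fun f => f v) this

end Pool.Agent.MG.W
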