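import Pool.Agent.MG.W.Stmts

/-!
# WFI: the geometric fibres of Weierstrass families without cusps are stable
-/

open CategoryTheory CategoryTheory.Limits AlgebraicGeometry TensorProduct

namespace Pool.Agent.MG.W

namespace WFI

variable {m : ℕ} {K : Type} [Field K] (P : WD m K)

theorem sig0 : (Wei P).σ 0 = spMap (inf2 K P.a P.b) ≫ WX.in2 K P.a P.b := rfl

theorem sigS (i : Fin m) : (Wei P).σ i.succ = spMap (pt1 P i) ≫ WX.in1 K P.a P.b := rfl

theorem spMap_inj' {A B : Type} [CommRing A] [CommRing B] {φ ψ : A →+* B}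
    (h : spMap φ = spMap ψ) : φ = ψ := by
  have h1 := Spec.map_injective h
  exact RingHom.ext fun a => congrArg (fun t => t.hom a) h1

/-- The section at infinity is not an affine point. -/
theorem inf_ne (i : Fin m) : (Wei P).σ 0 ≠ (Wei P).σ i.succ := by
  intro h0
  have h : spMap (inf2 K P.a P.b) ≫ WX.in2 K P.a P.b = spMap (pt1 P i) ≫ WX.in1 K P.a P.b := h0
  let s : Sp K := (PrimeSpectrum.comap (RingHom.id K)) ⊥
  have h1 : WX.in1 K P.a P.b (spMap (pt1 P i) s) = WX.in2 K P.a P.b (spMap (inf2 K P.a P.b) s) := by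
    rw [← Scheme.Hom.comp_apply, ← Scheme.Hom.comp_apply, h]
  obtain ⟨w, -, hw⟩ := glue2_eq (spMap (g1 K P.a P.b)) (spMap (g2 K P.a P.b)) _ _ h1
  have hu : IsUnit (g2 K P.a P.b (z2 K P.a P.b)) := (zu K P.a P.b).isUnit
  have hz : z2 K P.a P.b ∈ (spMap (inf2 K P.a P.b) s).asIdeal := by
    change inf2 K P.a P.b (z2 K P.a P.b) ∈ s.asIdeal
    have h2 : inf2 K P.a P.b (z2 K P.a P.b) = 0 := lift2_z _ _ _ _
    rw [h2]
    exact s.asIdeal.zero_mem
  rw [← hw] at hz
  exact w.2.ne_top (Ideal.eq_top_of_isUnit_mem _ hz hu)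

/-- Affine points with different coordinates are different. -/
theorem aff_ne (i j : Fin m) (h : P.x i ≠ P.x j ∨ P.y i ≠ P.y j) :
    (Wei P).σ i.succ ≠ (Wei P).σ j.succ := by
  intro he
  have he' : spMap (pt1 P i) ≫ WX.in1 K P.a P.b = spMap (pt1 P j) ≫ WX.in1 K P.a P.b := he
  have h1 := spMap_inj' ((cancel_mono (WX.in1 K P.a P.b)).1 he')
  rcases h with h | h
  · apply h
    have h2 := congrArg (fun t => t (x1 K P.a P.b)) h1
    have e1 : pt1 P i (x1 K P.a P.b) = P.x i := lift1_x _ _ _ _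
    have e2 : pt1 P j (x1 K P.a P.b) = P.x j := lift1_x _ _ _ _
    rw [← e1, ← e2]
    exact h2
  · apply h
    have h2 := congrArg (fun t => t (y1 K P.a P.b)) h1
    have e1 : pt1 P i (y1 K P.a P.b) = P.y i := lift1_y _ _ _ _
    have e2 : pt1 P j (y1 K P.a P.b) = P.y j := lift1_y _ _ _ _
    rw [← e1, ← e2]
    exact h2

end WFI

open WFI in
/-- WFI. -/
theorem t_WFI (hWDM : Stmt_WDM) (hWND : Stmt_WND) (hWGN : Stmt_WGN) (hWRI : Stmt_WRI)
    (hWSM : Stmt_WSM) : Stmt_WFI := by
  intro m K _ _ P h6 hab hsm hne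
  refine ⟨(hWDM K P.a P.b).2.2, hWND K P.a P.b h6 hab, hWGN K P.a P.b, ?_, ?_,
    hWRI P h6 hab⟩
  · intro i j
    refine Fin.cases ?_ (fun i => ?_) i
    · refine Fin.cases ?_ (fun j => ?_) j
      · intro h
        exact absurd rfl h
      · intro _
        exact inf_ne P j
    · refine Fin.cases ?_ (fun j => ?_) j
      · intro _
        exact (inf_ne P i).symm
      · intro h
        exact aff_ne P i j (hne i j (fun he => h (by rw [he])))
  · intro i
    refine Fin.cases ?_ (fun i => ?_) i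
    · exact (hWSM.2 P h6).1
    · rcases hsm with hd | hy
      · intro s
        have h1 : SmoothOfRelativeDimension 1 (Wei P).π := hWSM.1 K P.a P.b h6 hd
        have h2 : Smooth (Wei P).π := SmoothOfRelativeDimension.smooth 1 (Wei P).π
        exact ⟨⊤, trivial, inferInstance⟩
      · exact (hWSM.2 P h6).2 i (hy i)

end Pool.Agent.MG.W
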