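import Pool.Agent.MG.W.WFLa

/-!
# The vector field on a smooth Weierstrass curve (module WFL)
-/

open CategoryTheory CategoryTheory.Limits AlgebraicGeometry TensorProduct

namespace Pool.Agent.MG.W

namespace WFL

section

variable {k : Type} [Field k] (a b : k)

/-- Base change of the affine chart. -/
noncomputable def b1 : A1 k a b →+* A1 (Eps k) (cst a) (cst b) :=
  bc1 cst (rfl : cst a = cst a) (rfl : cst b = cst b)

/-- Base change of the chart at infinity. -/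
noncomputable def b2 : A2 k a b →+* A2 (Eps k) (cst a) (cst b) :=
  bc2 cst (rfl : cst a = cst a) (rfl : cst b = cst b)

/-- The base change morphism. -/
noncomputable def mp : WX (Eps k) (cst a) (cst b) ⟶ WX k a b :=
  WX.map cst (rfl : cst a = cst a) (rfl : cst b = cst b)

theorem in1_mp : WX.in1 _ _ _ ≫ mp a b = spMap (b1 a b) ≫ WX.in1 k a b :=
  @WX.in1_map k (Eps k) _ _ cst a b (cst a) (cst b) rfl rfl

theorem in2_mp : WX.in2 _ _ _ ≫ mp a b = spMap (b2 a b) ≫ WX.in2 k a b :=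
  @WX.in2_map k (Eps k) _ _ cst a b (cst a) (cst b) rfl rfl

theorem zs_mp : zs a b ≫ mp a b = 𝟙 (WX k a b) := zs_map a b

theorem wbc (hWBC : Stmt_WBC) : IsPullback (mp a b)
    (WX.pr (Eps k) (cst a) (cst b)) (WX.pr k a b) (spMap cst) := by
  have h := @hWBC k (Eps k) _ _ cst a b (cst a) (cst b) rfl rfl
  exact h

/-- The comparison with `X[ε]`. -/
noncomputable def iso (hWBC : Stmt_WBC) : WX (Eps k) (cst a) (cst b) ≅ XE (WX.pr k a b) :=
  (wbc a b hWBC).isoPullback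

theorem iso_fst (hWBC : Stmt_WBC) : (iso a b hWBC).hom ≫ pullback.fst _ _ = mp a b :=
  (wbc a b hWBC).isoPullback_hom_fst

theorem iso_snd (hWBC : Stmt_WBC) : (iso a b hWBC).hom ≫ pullback.snd _ _ =
    WX.pr (Eps k) (cst a) (cst b) := (wbc a b hWBC).isoPullback_hom_snd

/-- The flow. -/
noncomputable def flow (hWBC : Stmt_WBC) : Flow (WX.pr k a b) where
  θ := (iso a b hWBC).inv ≫ th a b
  hπ := by
    rw [Category.assoc, th_pr, ← iso_snd a b hWBC, Category.assoc, Iso.inv_hom_id_assoc]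
  h0 z hz1 hz2 := by
    have h1 : z = zs a b ≫ (iso a b hWBC).hom := by
      apply pullback.hom_ext
      · rw [hz1, Category.assoc, iso_fst, zs_mp]
      · rw [hz2, Category.assoc, iso_snd, zs_pr]
    rw [h1, Category.assoc, Iso.hom_inv_id_assoc, zs_th]

/-- The affine chart of `X[ε]`. -/
noncomputable def j1 (hWBC : Stmt_WBC) : Sp (A1 (Eps k) (cst a) (cst b)) ⟶ XE (WX.pr k a b) :=
  WX.in1 _ _ _ ≫ (iso a b hWBC).hom

/-- The chart at infinity of `X[ε]`. -/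
noncomputable def j2 (hWBC : Stmt_WBC) : Sp (A2 (Eps k) (cst a) (cst b)) ⟶ XE (WX.pr k a b) :=
  WX.in2 _ _ _ ≫ (iso a b hWBC).hom

instance (hWBC : Stmt_WBC) : IsOpenImmersion (j1 a b hWBC) := by
  unfold j1
  infer_instance

instance (hWBC : Stmt_WBC) : IsOpenImmersion (j2 a b hWBC) := by
  unfold j2
  infer_instance

theorem j1_fst (hWBC : Stmt_WBC) : j1 a b hWBC ≫ pullback.fst _ _ =
    spMap (b1 a b) ≫ WX.in1 k a b := by
  unfold j1
  rw [Category.assoc, iso_fst, in1_mp]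

theorem j1_snd (hWBC : Stmt_WBC) : j1 a b hWBC ≫ pullback.snd _ _ =
    spMap (algebraMap (Eps k) _) := by
  unfold j1
  rw [Category.assoc, iso_snd, WX.in1_pr]

theorem j1_th (hWBC : Stmt_WBC) : j1 a b hWBC ≫ (flow a b hWBC).θ =
    spMap (h1 a b) ≫ WX.in1 k a b := by
  change (WX.in1 _ _ _ ≫ (iso a b hWBC).hom) ≫ (iso a b hWBC).inv ≫ th a b = _
  rw [Category.assoc, Iso.hom_inv_id_assoc, in1_th]

theorem j2_fst (hWBC : Stmt_WBC) : j2 a b hWBC ≫ pullback.fst _ _ =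
    spMap (b2 a b) ≫ WX.in2 k a b := by
  unfold j2
  rw [Category.assoc, iso_fst, in2_mp]

theorem j2_snd (hWBC : Stmt_WBC) : j2 a b hWBC ≫ pullback.snd _ _ =
    spMap (algebraMap (Eps k) _) := by
  unfold j2
  rw [Category.assoc, iso_snd, WX.in2_pr]

theorem j2_th (hWBC : Stmt_WBC) : j2 a b hWBC ≫ (flow a b hWBC).θ =
    spMap (h2 a b) ≫ WX.in2 k a b := by
  change (WX.in2 _ _ _ ≫ (iso a b hWBC).hom) ≫ (iso a b hWBC).inv ≫ th a b = _
  rw [Category.assoc, Iso.hom_inv_id_assoc, in2_th]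

theorem isWF (hWBC : Stmt_WBC) : IsWF (flow a b hWBC) := by
  refine ⟨h1 a b, h1_b a b, h1_x a b, h1_y a b, ?_⟩
  intro e he1 he2
  have h : e = j1 a b hWBC := by
    apply pullback.hom_ext
    · exact he1.trans (j1_fst a b hWBC).symm
    · rw [he2, j1_snd]
  rw [h, j1_th]


theorem z0_eq (hWBC : Stmt_WBC) : VFE.z0 (WX.pr k a b) = zs a b ≫ (iso a b hWBC).hom := by
  apply pullback.hom_ext
  · rw [VFE.z0_fst, Category.assoc, iso_fst, zs_mp]
  · rw [VFE.z0_snd, Category.assoc, iso_snd, zs_pr]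

theorem P_le {X : Scheme.{0}} {π : X ⟶ Sp k} {A A' : Type} [CommRing A] [CommRing A']
    (i : Sp A ⟶ X) [IsOpenImmersion i] (j : Sp A' ⟶ XE π) [IsOpenImmersion j]
    (zc : Sp A ⟶ Sp A') (h : i ≫ VFE.z0 π = zc ≫ j) :
    VFE.P π i.opensRange ≤ j.opensRange := by
  intro x hx
  obtain ⟨y, rfl⟩ := (VFE.thk π).r.f.surjective x
  have h1 : (VFE.z0 π ≫ pullback.fst π (spMap (algebraMap k (Eps k)))) y ∈ i.opensRange := hx
  rw [VFE.z0_fst] at h1
  obtain ⟨q, hq⟩ := h1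
  have hq' : i q = y := hq
  refine ⟨zc q, ?_⟩
  change j (zc q) = VFE.z0 π y
  rw [← hq', ← Scheme.Hom.comp_apply, ← Scheme.Hom.comp_apply, h]

theorem le1 (hWBC : Stmt_WBC) : VFE.P (WX.pr k a b) (WX.in1 k a b).opensRange ≤
    (j1 a b hWBC).opensRange := by
  refine P_le (WX.in1 k a b) (j1 a b hWBC)
    (spMap (bc1 (eps0 k) (eps0_cst' a) (eps0_cst' b))) ?_
  rw [z0_eq a b hWBC]
  unfold zs j1
  rw [WX.in1_map_assoc]

theorem le2 (hWBC : Stmt_WBC) : VFE.P (WX.pr k a b) (WX.in2 k a b).opensRange ≤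
    (j2 a b hWBC).opensRange := by
  refine P_le (WX.in2 k a b) (j2 a b hWBC)
    (spMap (bc2 (eps0 k) (eps0_cst' a) (eps0_cst' b))) ?_
  rw [z0_eq a b hWBC]
  unfold zs j2
  rw [WX.in2_map_assoc]

theorem has1 (hWBC : Stmt_WBC) (v w : A1 k a b)
    (h : h1 a b v = b1 a b v + e1 a b * b1 a b w) (q : PrimeSpectrum (A1 k a b))
    (hq : w ∉ q.asIdeal) : ∃ (U : (WX k a b).Opens) (s w : Γ(WX k a b, U)),
      WX.in1 k a b q ∈ U ∧ IsUnit w ∧ (flow a b hWBC).Has U s w := by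
  obtain ⟨s, hs⟩ := (ev_bij (WX.in1 k a b) _ (top_le _) le_rfl).2 v
  obtain ⟨t, ht⟩ := (ev_bij (WX.in1 k a b) _ (top_le _) le_rfl).2 w
  refine nv_chart (flow a b hWBC) (WX.in1 k a b) s t ?_ q (by rwa [ht])
  refine has_chart (flow a b hWBC) (WX.in1 k a b) (j1 a b hWBC) (b1 a b) (h1 a b)
    (algebraMap (Eps k) _) (j1_fst a b hWBC) (j1_snd a b hWBC) (j1_th a b hWBC)
    (le1 a b hWBC) s t ?_
  rw [hs, ht]
  exact h

theorem has2 (hWBC : Stmt_WBC) (v w : A2 k a b)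
    (h : h2 a b v = b2 a b v + e2 a b * b2 a b w) (q : PrimeSpectrum (A2 k a b))
    (hq : w ∉ q.asIdeal) : ∃ (U : (WX k a b).Opens) (s w : Γ(WX k a b, U)),
      WX.in2 k a b q ∈ U ∧ IsUnit w ∧ (flow a b hWBC).Has U s w := by
  obtain ⟨s, hs⟩ := (ev_bij (WX.in2 k a b) _ (top_le _) le_rfl).2 v
  obtain ⟨t, ht⟩ := (ev_bij (WX.in2 k a b) _ (top_le _) le_rfl).2 w
  refine nv_chart (flow a b hWBC) (WX.in2 k a b) s t ?_ q (by rwa [ht])
  refine has_chart (flow a b hWBC) (WX.in2 k a b) (j2 a b hWBC) (b2 a b) (h2 a b)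
    (algebraMap (Eps k) _) (j2_fst a b hWBC) (j2_snd a b hWBC) (j2_th a b hWBC)
    (le2 a b hWBC) s t ?_
  rw [hs, ht]
  exact h

theorem b1_x : b1 a b (x1 k a b) = x1 _ _ _ := bc1_x _ _ _

theorem b1_y : b1 a b (y1 k a b) = y1 _ _ _ := bc1_y _ _ _

theorem b1_b (c : k) : b1 a b (algebraMap k _ c) = algebraMap (Eps k) _ (cst c) := bc1_b _ _ _ _

theorem b2_z : b2 a b (z2 k a b) = z2 _ _ _ := bc2_z _ _ _

theorem b2_t : b2 a b (t2 k a b) = t2 _ _ _ := bc2_t _ _ _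

theorem b2_b (c : k) : b2 a b (algebraMap k _ c) = algebraMap (Eps k) _ (cst c) := bc2_b _ _ _ _

theorem at_x : h1 a b (x1 k a b) = b1 a b (x1 k a b) + e1 a b * b1 a b (2 * y1 k a b) := by
  rw [h1_x, b1_x, map_mul, b1_y, map_ofNat]

theorem at_y : h1 a b (y1 k a b) = b1 a b (y1 k a b) +
    e1 a b * b1 a b (3 * x1 k a b ^ 2 + algebraMap k _ a) := by
  rw [h1_y, b1_y, map_add, map_mul, map_pow, b1_x, map_ofNat, b1_b]

theorem at_z : h2 a b (z2 k a b) = b2 a b (z2 k a b) + e2 a b * b2 a b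
    (dz (algebraMap k _ a) (algebraMap k _ b) (z2 k a b) (t2 k a b)) := by
  rw [h2_z, b2_z]
  unfold dz
  simp only [map_add, map_mul, map_pow, map_neg, map_one, map_ofNat, b2_b, b2_z, b2_t]

/-- The vector field does not vanish on the affine chart. -/
theorem aff_nv (h6 : (6 : k) ≠ 0) (hD : 4 * a ^ 3 + 27 * b ^ 2 ≠ 0)
    (q : PrimeSpectrum (A1 k a b)) :
    2 * y1 k a b ∉ q.asIdeal ∨ 3 * x1 k a b ^ 2 + algebraMap k _ a ∉ q.asIdeal := by
  by_contra hcon
  push Not at hcon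
  obtain ⟨hy, hx⟩ := hcon
  have hu : ∀ c : k, c ≠ 0 → algebraMap k (A1 k a b) c ∉ q.asIdeal := fun c hc hm =>
    q.2.ne_top (Ideal.eq_top_of_isUnit_mem _ hm ((IsUnit.mk0 c hc).map _))
  have h2 : (2 : k) ≠ 0 := by
    intro h
    apply h6
    linear_combination 3 * h
  have h2' : (2 : A1 k a b) ∉ q.asIdeal := by
    have := hu 2 h2
    rwa [map_ofNat] at this
  have hy' : y1 k a b ∈ q.asIdeal := (q.2.mem_or_mem hy).resolve_left h2'
  have hrel := rel1 k a b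
  apply hu _ hD
  have e : algebraMap k (A1 k a b) (4 * a ^ 3 + 27 * b ^ 2) =
      4 * algebraMap k _ a ^ 3 + 27 * algebraMap k _ b ^ 2 := by
    simp only [map_add, map_mul, map_pow, map_ofNat]
  rw [e]
  have e2 : 4 * algebraMap k (A1 k a b) a ^ 3 + 27 * algebraMap k _ b ^ 2 =
      (4 * algebraMap k _ a ^ 2 + (6 * algebraMap k _ a * x1 k a b - 9 * algebraMap k _ b) *
        x1 k a b) * (3 * x1 k a b ^ 2 + algebraMap k _ a) +
      (-3 * (6 * algebraMap k _ a * x1 k a b - 9 * algebraMap k _ b) * y1 k a b) * y1 k a b := by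
    linear_combination (3 * (6 * algebraMap k _ a * x1 k a b - 9 * algebraMap k _ b)) * hrel
  rw [e2]
  exact q.asIdeal.add_mem (q.asIdeal.mul_mem_left _ hx) (q.asIdeal.mul_mem_left _ hy')

theorem nv_in1 (hWBC : Stmt_WBC) (h6 : (6 : k) ≠ 0) (hD : 4 * a ^ 3 + 27 * b ^ 2 ≠ 0)
    (q : PrimeSpectrum (A1 k a b)) : ∃ (U : (WX k a b).Opens) (s w : Γ(WX k a b, U)),
      WX.in1 k a b q ∈ U ∧ IsUnit w ∧ (flow a b hWBC).Has U s w := by
  rcases aff_nv a b h6 hD q with h | h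
  · exact has1 a b hWBC _ _ (at_x a b) q h
  · exact has1 a b hWBC _ _ (at_y a b) q h

theorem nv (hWBC : Stmt_WBC) (h6 : (6 : k) ≠ 0) (hD : 4 * a ^ 3 + 27 * b ^ 2 ≠ 0) :
    (flow a b hWBC).NV := by
  intro p
  rcases glue2_surj (spMap (g1 k a b)) (spMap (g2 k a b)) p with ⟨q, hq⟩ | ⟨q, hq⟩
  · have hq' : WX.in1 k a b q = p := hq
    rw [← hq']
    exact nv_in1 a b hWBC h6 hD q
  · have hq' : WX.in2 k a b q = p := hq
    rw [← hq']
    by_cases hz : z2 k a b ∈ (show PrimeSpectrum (A2 k a b) from q).asIdeal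
    · refine has2 a b hWBC _ _ (at_z a b) q ?_
      intro hd
      have h1 : (1 : A2 k a b) = -dz (algebraMap k _ a) (algebraMap k _ b) (z2 k a b)
          (t2 k a b) + (2 * algebraMap k _ a * z2 k a b ^ 3 * t2 k a b +
            3 * algebraMap k _ b * z2 k a b ^ 5 * t2 k a b ^ 2) * z2 k a b := by
        unfold dz
        ring
      have h2 : (1 : A2 k a b) ∈ (show PrimeSpectrum (A2 k a b) from q).asIdeal := by
        rw [h1]
        exact Ideal.add_mem _ (neg_mem hd) (Ideal.mul_mem_left _ _ hz)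
      exact (show PrimeSpectrum (A2 k a b) from q).2.ne_top ((Ideal.eq_top_iff_one _).2 h2)
    · have h1 : (show PrimeSpectrum (A2 k a b) from q) ∈ Set.range (PrimeSpectrum.comap
          (algebraMap (A2 k a b) (A12 k a b))) := by
        rw [PrimeSpectrum.localization_away_comap_range (A12 k a b) (z2 k a b)]
        exact hz
      obtain ⟨r, hr⟩ := h1
      have h2 : (spMap (g2 k a b)) r = q := hr
      have h3 : WX.in2 k a b q = WX.in1 k a b (spMap (g1 k a b) r) := by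
        rw [← h2, ← Scheme.Hom.comp_apply, ← Scheme.Hom.comp_apply]
        have h4 : spMap (g2 k a b) ≫ WX.in2 k a b = spMap (g1 k a b) ≫ WX.in1 k a b :=
          (pushout.condition (f := spMap (g1 k a b)) (g := spMap (g2 k a b))).symm
        rw [h4]
      rw [h3]
      exact nv_in1 a b hWBC h6 hD _

end

end WFL

/-- WFL: the vector field on a smooth Weierstrass curve vanishes nowhere. -/
theorem t_WFL (hWBC : Stmt_WBC) : Stmt_WFL := by
  intro k _ a b h6 hD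
  exact ⟨WFL.flow a b hWBC, WFL.isWF a b hWBC, WFL.nv a b hWBC h6 hD⟩

end Pool.Agent.MG.W
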