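import Pool.Agent.MG.W.Stmts
import Pool.Agent.MG.Bub.Open

/-!
# WGN: Weierstrass curves have genus one
-/

set_option linter.unusedSectionVars false

open CategoryTheory CategoryTheory.Limits AlgebraicGeometry TensorProduct

namespace Pool.Agent.MG.W

namespace WGN

theorem evO_eq {A : Type} [CommRing A] {X : Scheme.{0}} {i i' : Sp A ⟶ X} (e : i = i')
    {U : X.Opens} (h : ⊤ ≤ i ⁻¹ᵁ U) (h' : ⊤ ≤ i' ⁻¹ᵁ U) (a : Γ(X, U)) :
    evO i U h a = evO i' U h' a := by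
  subst e
  rfl

section Two

variable {K R1 R2 M : Type} [Field K] [CommRing R1] [CommRing R2] [CommRing M] {X : Scheme.{0}}
  (π : X ⟶ Sp K) (i1 : Sp R1 ⟶ X) (i2 : Sp R2 ⟶ X) [IsOpenImmersion i1] [IsOpenImmersion i2]
  (φ1 : R1 →+* M) (φ2 : R2 →+* M)

/-- The genus of a curve with two affine charts. -/
theorem genus_two (hM : spMap φ1 ≫ i1 = spMap φ2 ≫ i2) (oM : IsOpenImmersion (spMap φ1 ≫ i1))
    (h12 : ∀ x y, i1 x = i2 y → i1 x ∈ Set.range (spMap φ1 ≫ i1))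
    (cov : ∀ x : X, x ∈ Set.range i1 ∨ x ∈ Set.range i2)
    (κ : K →+* M) (hκ : (spMap φ1 ≫ i1) ≫ π = spMap κ)
    (g : ℕ) (L : M →+ (Fin g → K)) (hs : Function.Surjective L)
    (hl : ∀ c t, L (κ c * t) = c • L t) (hk : ∀ t, L t = 0 ↔ ∃ p q, t = φ1 p + φ2 q) :
    HasGenus π g := by
  obtain ⟨U, hU⟩ : ∃ U, U = i1.opensRange := ⟨_, rfl⟩
  obtain ⟨V, hV⟩ : ∃ V, V = i2.opensRange := ⟨_, rfl⟩
  have mU : ∀ x, x ∈ U ↔ x ∈ Set.range i1 := by
    intro x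
    rw [hU]
    exact Iff.rfl
  have mV : ∀ x, x ∈ V ↔ x ∈ Set.range i2 := by
    intro x
    rw [hV]
    exact Iff.rfl
  have aU : IsAffineOpen U := by
    rw [hU]
    exact isAffineOpen_opensRange i1
  have aV : IsAffineOpen V := by
    rw [hV]
    exact isAffineOpen_opensRange i2
  have eM : ∀ p, (spMap φ1 ≫ i1) p = i2 (spMap φ2 p) := by
    intro p
    rw [hM, Scheme.Hom.comp_apply]
  have hMU : ⊤ ≤ (spMap φ1 ≫ i1) ⁻¹ᵁ U := le_of_range _ fun p => (mU _).2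
    ⟨spMap φ1 p, (Scheme.Hom.comp_apply _ _ _).symm⟩
  have hMV : ⊤ ≤ (spMap φ1 ≫ i1) ⁻¹ᵁ V := le_of_range _ fun p => (mV _).2 ⟨_, (eM p).symm⟩
  have hMUV : ⊤ ≤ (spMap φ1 ≫ i1) ⁻¹ᵁ (U ⊓ V) := fun p hp => ⟨hMU hp, hMV hp⟩
  have h1U : ⊤ ≤ i1 ⁻¹ᵁ U := le_of_range _ fun p => (mU _).2 ⟨p, rfl⟩
  have h2V : ⊤ ≤ i2 ⁻¹ᵁ V := le_of_range _ fun p => (mV _).2 ⟨p, rfl⟩
  have hUV : ∀ x ∈ U ⊓ V, x ∈ Set.range (spMap φ1 ≫ i1) := by
    rintro x ⟨hx1, hx2⟩
    obtain ⟨p, rfl⟩ := (mU x).1 hx1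
    obtain ⟨q, hq⟩ := (mV _).1 hx2
    exact h12 p q hq.symm
  have bij := evO_bij (spMap φ1 ≫ i1) hMUV hUV
  -- evaluation of restrictions
  have r1 : ∀ b : Γ(X, U), evO (spMap φ1 ≫ i1) (U ⊓ V) hMUV (rs X inf_le_left b) =
      φ1 (evO i1 U h1U b) := by
    intro b
    rw [evO_rs _ inf_le_left hMUV hMU, evO_spMap i1 φ1 h1U hMU]
  have r2 : ∀ b : Γ(X, V), evO (spMap φ1 ≫ i1) (U ⊓ V) hMUV (rs X inf_le_right b) =
      φ2 (evO i2 V h2V b) := by
    intro b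
    have h' : ⊤ ≤ (spMap φ2 ≫ i2) ⁻¹ᵁ V := hM ▸ hMV
    rw [evO_rs _ inf_le_right hMUV hMV, evO_eq hM hMV h', evO_spMap i2 φ2 h2V h']
  refine ⟨U, V, aU, aV, ?_, L.comp (evO (spMap φ1 ≫ i1) (U ⊓ V) hMUV).toAddMonoidHom,
    ?_, ?_, ?_⟩
  · ext x
    simp only [TopologicalSpace.Opens.coe_sup, Set.mem_union, TopologicalSpace.Opens.coe_top,
      Set.mem_univ, iff_true, SetLike.mem_coe]
    rw [mU, mV]
    exact cov x
  · intro v
    obtain ⟨t, ht⟩ := hs v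
    obtain ⟨s, hs2⟩ := bij.2 t
    refine ⟨s, ?_⟩
    change L (evO (spMap φ1 ≫ i1) (U ⊓ V) hMUV s) = v
    rw [hs2, ht]
  · intro c s
    change L (evO (spMap φ1 ≫ i1) (U ⊓ V) hMUV (coef π (U ⊓ V) c * s)) =
      c • L (evO (spMap φ1 ≫ i1) (U ⊓ V) hMUV s)
    rw [map_mul, evO_coef _ π κ hκ, hl]
  · intro s
    change L (evO (spMap φ1 ≫ i1) (U ⊓ V) hMUV s) = 0 ↔ ∃ (a : Γ(X, U)) (b : Γ(X, V)),
      s = rs X inf_le_left a + rs X inf_le_right b
    constructor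
    · intro h0
      obtain ⟨p, q, hpq⟩ := (hk _).1 h0
      obtain ⟨a, ha⟩ := (evO_bij i1 h1U (fun x hx => (mU x).1 hx)).2 p
      obtain ⟨b, hb⟩ := (evO_bij i2 h2V (fun x hx => (mV x).1 hx)).2 q
      refine ⟨a, b, bij.1 ?_⟩
      rw [map_add, r1, r2, ha, hb, hpq]
    · rintro ⟨a, b, rfl⟩
      rw [hk]
      exact ⟨evO i1 U h1U a, evO i2 V h2V b, by rw [map_add, r1, r2]⟩

end Two

section Alg

variable {K : Type} [Field K] (a b : K)

theorem uniq (hWRG : Stmt_WRG) {c c' : K} {v1 v1' : A1 K a b} {v2 v2' : A2 K a b}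
    (h : algebraMap K _ c * (zu K a b)⁻¹.val + g1 K a b v1 + g2 K a b v2 =
      algebraMap K _ c' * (zu K a b)⁻¹.val + g1 K a b v1' + g2 K a b v2') : c = c' := by
  have h1 := ((hWRG K a b).2.2.2.2.2.1 (c - c') (v1 - v1') (v2 - v2') (by
    rw [map_sub, map_sub, map_sub]
    linear_combination h)).1
  exact sub_eq_zero.1 h1

/-- The first cohomology of the Weierstrass curve. -/
theorem exists_L (hWRG : Stmt_WRG) : ∃ L : A12 K a b →+ (Fin 1 → K), Function.Surjective L ∧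
    (∀ c t, L (algebraMap K (A12 K a b) c * t) = c • L t) ∧
    ∀ t, L t = 0 ↔ ∃ p q, t = g1 K a b p + g2 K a b q := by
  have hex := (hWRG K a b).2.2.2.2.1
  choose cc v1 v2 hcc using hex
  have hu : ∀ (t : A12 K a b) (c : K) (w1 : A1 K a b) (w2 : A2 K a b),
      t = algebraMap K _ c * (zu K a b)⁻¹.val + g1 K a b w1 + g2 K a b w2 → cc t = c := by
    intro t c w1 w2 h
    exact uniq a b hWRG ((hcc t).symm.trans h)
  refine ⟨AddMonoidHom.mk' (fun t _ => cc t) ?_, ?_, ?_, ?_⟩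
  · intro s t
    funext _
    change cc (s + t) = cc s + cc t
    refine hu _ _ (v1 s + v1 t) (v2 s + v2 t) ?_
    rw [map_add, map_add, map_add]
    linear_combination hcc s + hcc t
  · intro v
    refine ⟨algebraMap K _ (v 0) * (zu K a b)⁻¹.val, ?_⟩
    funext i
    change cc _ = v i
    rw [Subsingleton.elim i 0]
    refine hu _ _ 0 0 ?_
    rw [map_zero, map_zero, add_zero, add_zero]
  · intro c t
    funext _
    change cc _ = c * cc t
    refine hu _ _ (algebraMap K _ c * v1 t) (algebraMap K _ c * v2 t) ?_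
    rw [map_mul, map_mul, map_mul, g1_b, g2_b]
    linear_combination (algebraMap K (A12 K a b) c) * hcc t
  · intro t
    constructor
    · intro h
      have h0 : cc t = 0 := congrFun h 0
      refine ⟨v1 t, v2 t, ?_⟩
      have := hcc t
      rw [h0, map_zero, zero_mul, zero_add] at this
      exact this
    · rintro ⟨p, q, h⟩
      funext _
      change cc t = 0
      refine hu _ _ p q ?_
      rw [map_zero, zero_mul, zero_add]
      exact h

end Alg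

end WGN

/-- WGN: the genus. -/
theorem t_WGN (hWRG : Stmt_WRG) : Stmt_WGN := by
  intro K _ a b
  obtain ⟨L, h1, h2, h3⟩ := WGN.exists_L a b hWRG
  have hM : spMap (g1 K a b) ≫ WX.in1 K a b = spMap (g2 K a b) ≫ WX.in2 K a b :=
    pushout.condition
  refine WGN.genus_two (WX.pr K a b) (WX.in1 K a b) (WX.in2 K a b) (g1 K a b) (g2 K a b) hM
    inferInstance ?_ ?_ (algebraMap K (A12 K a b)) ?_ 1 L h1 h2 h3
  · intro x y h
    obtain ⟨w, hw, -⟩ := glue2_eq (spMap (g1 K a b)) (spMap (g2 K a b)) x y h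
    refine ⟨w, ?_⟩
    rw [Scheme.Hom.comp_apply, hw]
  · intro x
    exact glue2_surj (spMap (g1 K a b)) (spMap (g2 K a b)) x
  · rw [Category.assoc, WX.in1_pr, spMap_comp']
    exact congrArg (fun f => spMap f) (RingHom.ext fun c => g1_b K a b c)

end Pool.Agent.MG.W
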