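import Pool.Agent.MG.W.Stmts

/-!
# WMV: the value of a covector at the deformation which moves an affine point
-/

open CategoryTheory CategoryTheory.Limits AlgebraicGeometry TensorProduct

namespace Pool.Agent.MG.W

namespace WMV

variable {m : ℕ} {k : Type} [Field k]

theorem spMap_id' (A : Type) [CommRing A] : spMap (RingHom.id A) = 𝟙 (Sp A) := by
  change Spec.map (CommRingCat.ofHom (RingHom.id A)) = _
  rw [CommRingCat.ofHom_id, Spec.map_id]

theorem al_inl (c : k) : algebraMap k (Eps k) c = TrivSqZeroExt.inl c := rfl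

theorem e0 (c : k) : eps0 k (algebraMap k (Eps k) c) = c := by simp [al_inl]

theorem inr_al (v : k) : (TrivSqZeroExt.inr 1 : Eps k) * algebraMap k (Eps k) v =
    TrivSqZeroExt.inr v := by
  rw [al_inl]
  ext <;> simp

theorem al_inr (u v : k) : algebraMap k (Eps k) u * (TrivSqZeroExt.inr v : Eps k) =
    TrivSqZeroExt.inr (u * v) := by
  rw [al_inl]
  ext
  · simp
  · simp [mul_comm]

/-- the first coordinates of the tangent vector -/
def dx (P : WD m k) (i j : Fin m) : k := if j = i then 2 * P.y i else 0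

/-- the second coordinates of the tangent vector -/
def dy (P : WD m k) (i j : Fin m) : k := if j = i then 3 * P.x i ^ 2 + P.a else 0

theorem dxdy (P : WD m k) (i j : Fin m) :
    2 * P.y j * dy P i j = (3 * P.x j ^ 2 + P.a) * dx P i j := by
  unfold dx dy
  by_cases h : j = i
  · subst h
    simp only [if_true]
    ring
  · simp only [h, if_false, mul_zero]

/-- the moved data -/
noncomputable def mv (P : WD m k) (i : Fin m) : WD m (Eps k) where
  a := algebraMap k (Eps k) P.a
  b := algebraMap k (Eps k) P.b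
  x j := algebraMap k (Eps k) (P.x j) + TrivSqZeroExt.inr (dx P i j)
  y j := algebraMap k (Eps k) (P.y j) + TrivSqZeroExt.inr (dy P i j)
  eq j := by
    have h := P.eq j
    have h2 := dxdy P i j
    have sq : ∀ u v : k, (TrivSqZeroExt.inr u : Eps k) * TrivSqZeroExt.inr v = 0 := fun u v =>
      TrivSqZeroExt.inr_mul_inr k u v
    have e1 : algebraMap k (Eps k) (P.y j) ^ 2 = algebraMap k (Eps k) (P.x j) ^ 3 +
        algebraMap k (Eps k) P.a * algebraMap k (Eps k) (P.x j) + algebraMap k (Eps k) P.b := by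
      rw [← map_pow, h]
      simp only [map_add, map_mul, map_pow]
    have e2 : 2 * algebraMap k (Eps k) (P.y j) * (TrivSqZeroExt.inr (dy P i j) : Eps k) =
        (3 * algebraMap k (Eps k) (P.x j) ^ 2 + algebraMap k (Eps k) P.a) *
          TrivSqZeroExt.inr (dx P i j) := by
      have e3 := congrArg (fun c : k => (TrivSqZeroExt.inr c : Eps k)) h2
      have e4 : (TrivSqZeroExt.inr (2 * P.y j * dy P i j) : Eps k) =
        TrivSqZeroExt.inr ((3 * P.x j ^ 2 + P.a) * dx P i j) := e3
      rw [← al_inr, ← al_inr] at e4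
      simpa only [map_mul, map_add, map_pow, map_ofNat] using e4
    have s1 := sq (dx P i j) (dx P i j)
    have s2 := sq (dy P i j) (dy P i j)
    generalize (TrivSqZeroExt.inr (dx P i j) : Eps k) = u at *
    generalize (TrivSqZeroExt.inr (dy P i j) : Eps k) = v at *
    generalize algebraMap k (Eps k) (P.x j) = x at *
    generalize algebraMap k (Eps k) (P.y j) = y at *
    linear_combination e1 + e2 + s2 - (3 * x + u) * s1

theorem mv_a (P : WD m k) (i : Fin m) : (mv P i).a = algebraMap k (Eps k) P.a := rfl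
theorem mv_b (P : WD m k) (i : Fin m) : (mv P i).b = algebraMap k (Eps k) P.b := rfl
theorem mv_x (P : WD m k) (i j : Fin m) : (mv P i).x j =
    algebraMap k (Eps k) (P.x j) + TrivSqZeroExt.inr (dx P i j) := rfl
theorem mv_y (P : WD m k) (i j : Fin m) : (mv P i).y j =
    algebraMap k (Eps k) (P.y j) + TrivSqZeroExt.inr (dy P i j) := rfl

theorem mv_bc (P : WD m k) (i : Fin m) : WD.Bc (eps0 k) (mv P i) P where
  a := by rw [mv_a, e0]
  b := by rw [mv_b, e0]
  x j := by
    rw [mv_x, map_add, e0]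
    simp
  y j := by
    rw [mv_y, map_add, e0]
    simp

section

variable {a b : k} {a' b' : Eps k}

/-- restriction of the constant extension -/
theorem map_eps0 (ha : a' = algebraMap k (Eps k) a) (hb : b' = algebraMap k (Eps k) b)
    (ha2 : a = eps0 k a') (hb2 : b = eps0 k b') :
    WX.map (eps0 k) ha2 hb2 ≫ WX.map (algebraMap k (Eps k)) ha hb = 𝟙 (WX k a b) := by
  refine WX.ext' ?_ ?_
  · rw [← Category.assoc, WX.in1_map, Category.assoc, WX.in1_map, ← Category.assoc, spMap_comp',
      Category.comp_id]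
    have h1 : (bc1 (eps0 k) ha2 hb2).comp (bc1 (algebraMap k (Eps k)) ha hb) =
        RingHom.id _ := by
      refine hom1_ext ?_ ?_ ?_
      · intro c
        rw [RingHom.comp_apply, bc1_b, bc1_b, e0]
        rfl
      · rw [RingHom.comp_apply, bc1_x, bc1_x]
        rfl
      · rw [RingHom.comp_apply, bc1_y, bc1_y]
        rfl
    rw [h1, spMap_id', Category.id_comp]
  · rw [← Category.assoc, WX.in2_map, Category.assoc, WX.in2_map, ← Category.assoc, spMap_comp',
      Category.comp_id]
    have h1 : (bc2 (eps0 k) ha2 hb2).comp (bc2 (algebraMap k (Eps k)) ha hb) =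
        RingHom.id _ := by
      refine hom2_ext ?_ ?_ ?_
      · intro c
        rw [RingHom.comp_apply, bc2_b, bc2_b, e0]
        rfl
      · rw [RingHom.comp_apply, bc2_z, bc2_z]
        rfl
      · rw [RingHom.comp_apply, bc2_t, bc2_t]
        rfl
    rw [h1, spMap_id', Category.id_comp]

/-- the section at infinity -/
theorem sec0 (ha : a' = algebraMap k (Eps k) a) (hb : b' = algebraMap k (Eps k) b) :
    (spMap (inf2 (Eps k) a' b') ≫ WX.in2 (Eps k) a' b') ≫ WX.map (algebraMap k (Eps k)) ha hb =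
      spMap (algebraMap k (Eps k)) ≫ spMap (inf2 k a b) ≫ WX.in2 k a b := by
  rw [Category.assoc, WX.in2_map, ← Category.assoc, ← Category.assoc, spMap_comp', spMap_comp']
  congr 2
  refine hom2_ext ?_ ?_ ?_
  · intro c
    rw [RingHom.comp_apply, RingHom.comp_apply, bc2_b, inf2, lift2_b, inf2, lift2_b]
    rfl
  · rw [RingHom.comp_apply, RingHom.comp_apply, bc2_z, inf2, lift2_z, inf2, lift2_z, map_zero]
  · rw [RingHom.comp_apply, RingHom.comp_apply, bc2_t, inf2, lift2_t, inf2, lift2_t, map_one]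

/-- affine sections -/
theorem secS (ha : a' = algebraMap k (Eps k) a) (hb : b' = algebraMap k (Eps k) b)
    (φ : A1 k a b →+* k) (φ' : A1 (Eps k) a' b' →+* Eps k)
    (h : φ'.comp (bc1 (algebraMap k (Eps k)) ha hb) = (algebraMap k (Eps k)).comp φ) :
    (spMap φ' ≫ WX.in1 (Eps k) a' b') ≫ WX.map (algebraMap k (Eps k)) ha hb =
      spMap (algebraMap k (Eps k)) ≫ spMap φ ≫ WX.in1 k a b := by
  rw [Category.assoc, WX.in1_map, ← Category.assoc, ← Category.assoc, spMap_comp', spMap_comp', h]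

/-- the moved point -/
theorem mov_eq {Φ : Flow (WX.pr k a b)} (hΦ : IsWF Φ)
    (ha : a' = algebraMap k (Eps k) a) (hb : b' = algebraMap k (Eps k) b)
    (φ : A1 k a b →+* k) (hφ : ∀ c, φ (algebraMap k _ c) = c)
    (hσ : (spMap φ ≫ WX.in1 k a b) ≫ WX.pr k a b = 𝟙 _)
    (φ' : A1 (Eps k) a' b' →+* Eps k) (hφ' : ∀ c, φ' (algebraMap (Eps k) _ c) = c)
    (hx' : φ' (x1 (Eps k) a' b') = algebraMap k (Eps k) (φ (x1 k a b)) +
      TrivSqZeroExt.inr (2 * φ (y1 k a b)))
    (hy' : φ' (y1 (Eps k) a' b') = algebraMap k (Eps k) (φ (y1 k a b)) +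
      TrivSqZeroExt.inr (3 * φ (x1 k a b) ^ 2 + a)) :
    Φ.mov (spMap φ ≫ WX.in1 k a b) hσ =
      (spMap φ' ≫ WX.in1 (Eps k) a' b') ≫ WX.map (algebraMap k (Eps k)) ha hb := by
  obtain ⟨h, hc, hx, hy, hθ⟩ := hΦ
  have hrel := congrArg φ (rel1 k a b)
  rw [map_pow, map_add, map_add, map_mul, map_pow, hφ, hφ] at hrel
  let c : A1 (Eps k) (algebraMap k (Eps k) a) (algebraMap k (Eps k) b) →+* Eps k :=
    lift1 (RingHom.id _) (algebraMap k (Eps k) (φ (x1 k a b)))
      (algebraMap k (Eps k) (φ (y1 k a b))) (by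
        rw [← map_pow, hrel]
        simp only [map_add, map_mul, map_pow, RingHom.id_apply])
  have hcc : ∀ z, c (algebraMap (Eps k) _ z) = z := fun z => lift1_b _ _ _ _ z
  have hcx : c (x1 (Eps k) (algebraMap k (Eps k) a) (algebraMap k (Eps k) b)) =
    algebraMap k (Eps k) (φ (x1 k a b)) := lift1_x _ _ _ _
  have hcy : c (y1 (Eps k) (algebraMap k (Eps k) a) (algebraMap k (Eps k) b)) =
    algebraMap k (Eps k) (φ (y1 k a b)) := lift1_y _ _ _ _
  have hcomm : (spMap (bc1 (algebraMap k (Eps k)) (a := a) (b := b) rfl rfl) ≫ WX.in1 k a b) ≫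
      WX.pr k a b =
      spMap (algebraMap (Eps k) (A1 (Eps k) (algebraMap k (Eps k) a)
        (algebraMap k (Eps k) b))) ≫ spMap (algebraMap k (Eps k)) := by
    rw [Category.assoc, WX.in1_pr, spMap_comp', spMap_comp']
    have h9 : (bc1 (algebraMap k (Eps k)) (a := a) (b := b) rfl rfl).comp
        (algebraMap k (A1 k a b)) = (algebraMap (Eps k) (A1 (Eps k) (algebraMap k (Eps k) a)
        (algebraMap k (Eps k) b))).comp (algebraMap k (Eps k)) :=
      RingHom.ext fun z => bc1_b _ rfl rfl z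
    rw [h9]
  let e : Sp (A1 (Eps k) (algebraMap k (Eps k) a) (algebraMap k (Eps k) b)) ⟶
      XE (WX.pr k a b) :=
    pullback.lift (spMap (bc1 (algebraMap k (Eps k)) (a := a) (b := b) rfl rfl) ≫ WX.in1 k a b)
      (spMap (algebraMap (Eps k) _)) hcomm
  have e1 : e ≫ pullback.fst _ _ = spMap (bc1 (algebraMap k (Eps k)) (a := a) (b := b) rfl rfl) ≫
    WX.in1 k a b := pullback.lift_fst _ _ _
  have e2 : e ≫ pullback.snd _ _ = spMap (algebraMap (Eps k) _) := pullback.lift_snd _ _ _
  have e3 := hθ e e1 e2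
  have hL : pullback.lift (f := WX.pr k a b) (g := spMap (algebraMap k (Eps k)))
      (spMap (algebraMap k (Eps k)) ≫ spMap φ ≫ WX.in1 k a b)
      (𝟙 _) (by rw [Category.assoc, hσ, Category.comp_id, Category.id_comp]) = spMap c ≫ e := by
    apply pullback.hom_ext
    · rw [pullback.lift_fst, Category.assoc, e1, ← Category.assoc, ← Category.assoc, spMap_comp',
        spMap_comp']
      congr 2
      refine hom1_ext ?_ ?_ ?_
      · intro z
        rw [RingHom.comp_apply, RingHom.comp_apply, bc1_b, hφ, hcc]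
      · rw [RingHom.comp_apply, RingHom.comp_apply, bc1_x, hcx]
      · rw [RingHom.comp_apply, RingHom.comp_apply, bc1_y, hcy]
    · rw [pullback.lift_snd, Category.assoc, e2, spMap_comp']
      have h6 : c.comp (algebraMap (Eps k) _) = RingHom.id _ := RingHom.ext hcc
      rw [h6, spMap_id']
  have hmov : Φ.mov (spMap φ ≫ WX.in1 k a b) hσ =
      spMap (c.comp h) ≫ WX.in1 k a b := by
    unfold Flow.mov
    rw [hL, Category.assoc, e3, ← Category.assoc, spMap_comp']
  rw [hmov, Category.assoc, WX.in1_map, ← Category.assoc, spMap_comp']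
  congr 2
  refine hom1_ext ?_ ?_ ?_
  · intro z
    rw [RingHom.comp_apply, RingHom.comp_apply, hc, hcc, bc1_b, hφ']
  · rw [RingHom.comp_apply, RingHom.comp_apply, hx, bc1_x, hx', map_add, map_mul, map_mul, hcc,
      hcx, hcy, ← inr_al (2 * φ (y1 k a b)), map_mul, map_ofNat, map_ofNat]
  · rw [RingHom.comp_apply, RingHom.comp_apply, hy, bc1_y, hy', map_add, map_mul, map_add,
      map_mul, map_pow, hcc, hcc, hcx, hcy, ← inr_al (3 * φ (x1 k a b) ^ 2 + a), map_add,
      map_mul, map_pow, map_ofNat, map_ofNat]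

end

/-- the class of the deformation -/
theorem cls (hWBC : Stmt_WBC) (P : WD m k) {Φ : Flow (WX.pr k P.a P.b)} (hΦ : IsWF Φ)
    (i : Fin m) (d : Defo 1 (Wei P)) (hd : IsMv (C := Wei P) Φ i.succ d) :
    WCls d 0 0 (dx P i) (dy P i) := by
  obtain ⟨f0, hf0, hr, hs, hsi⟩ := hd
  have hb := hWBC (algebraMap k (Eps k)) (mv_a P i) (mv_b P i)
  have hf0' : IsPullback f0 d.y.π (WX.pr k P.a P.b) (spMap (algebraMap k (Eps k))) := hf0
  let F : d.y.X ⟶ WX (Eps k) (mv P i).a (mv P i).b := hb.lift f0 d.y.π hf0'.w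
  have F1 : F ≫ WX.map (algebraMap k (Eps k)) (mv_a P i) (mv_b P i) = f0 := hb.lift_fst _ _ _
  have F2 : F ≫ WX.pr (Eps k) (mv P i).a (mv P i).b = d.y.π := hb.lift_snd _ _ _
  have hcart : IsPullback F d.y.π (WX.pr (Eps k) (mv P i).a (mv P i).b)
      (spMap (RingHom.id (Eps k))) := by
    refine IsPullback.of_right (h₁₂ := WX.map (algebraMap k (Eps k)) (mv_a P i) (mv_b P i))
      (v₁₃ := WX.pr k P.a P.b) (h₂₂ := spMap (algebraMap k (Eps k))) ?_ ?_ hb
    · rw [F1, spMap_id', Category.id_comp]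
      exact hf0'
    · rw [F2, spMap_id', Category.comp_id]
  have hsec' : ∀ j, d.y.σ j ≫ F = (Wei (mv P i)).σ j := by
    intro j
    refine hb.hom_ext ?_ ?_
    · rw [Category.assoc, F1]
      revert j
      refine fun j => Fin.cases ?_ (fun j => ?_) j
      · refine (hs 0 (Fin.succ_ne_zero i).symm).trans ?_
        exact (sec0 (mv_a P i) (mv_b P i)).symm
      · by_cases hj : j = i
        · subst hj
          refine hsi.trans ?_
          refine mov_eq hΦ (mv_a P j) (mv_b P j) (pt1 P j) (fun c => lift1_b _ _ _ _ c)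
            ((Wei P).sec j.succ) (pt1 (mv P j) j) (fun c => lift1_b _ _ _ _ c) ?_ ?_
          · rw [pt1, lift1_x, pt1, lift1_x, lift1_y, mv_x, dx, if_pos rfl]
          · rw [pt1, lift1_y, pt1, lift1_x, lift1_y, mv_y, dy, if_pos rfl]
        · refine (hs j.succ (fun h => hj (Fin.succ_injective _ h))).trans ?_
          refine (secS (mv_a P i) (mv_b P i) (pt1 P j) (pt1 (mv P i) j) ?_).symm
          refine hom1_ext ?_ ?_ ?_
          · intro c
            rw [RingHom.comp_apply, RingHom.comp_apply, bc1_b, pt1, lift1_b, pt1, lift1_b]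
            rfl
          · rw [RingHom.comp_apply, RingHom.comp_apply, bc1_x, pt1, lift1_x, pt1, lift1_x, mv_x,
              dx, if_neg hj, TrivSqZeroExt.inr_zero, add_zero]
          · rw [RingHom.comp_apply, RingHom.comp_apply, bc1_y, pt1, lift1_y, pt1, lift1_y, mv_y,
              dy, if_neg hj, TrivSqZeroExt.inr_zero, add_zero]
    · rw [Category.assoc, F2, d.y.sec]
      exact ((Wei (mv P i)).sec j).symm
  have hsec : ∀ j, d.y.σ j ≫ F = spMap (RingHom.id (Eps k)) ≫ (Wei (mv P i)).σ j := by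
    intro j
    rw [spMap_id', Category.id_comp]
    exact hsec' j
  refine ⟨mv P i, mv_bc P i, ?_, ?_, ?_, ?_, ⟨F, hcart, hsec⟩, ?_⟩
  · rw [mv_a, al_inl]
    simp
  · rw [mv_b, al_inl]
    simp
  · intro j
    rw [mv_x, al_inl]
    simp
  · intro j
    rw [mv_y, al_inl]
    simp
  · refine hb.hom_ext ?_ ?_
    · refine (Category.assoc _ _ _).trans ?_
      refine (congrArg (fun g => d.r.f ≫ g) F1).trans ?_
      exact hr.trans (map_eps0 (mv_a P i) (mv_b P i) (mv_bc P i).a (mv_bc P i).b).symm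
    · refine (Category.assoc _ _ _).trans ?_
      refine (congrArg (fun g => d.r.f ≫ g) F2).trans ?_
      exact d.r.cart.w.trans (WX.map_pr (eps0 k) (mv_bc P i).a (mv_bc P i).b).symm

end WMV

/-- WMV -/
theorem t_WMV (hWBC : Stmt_WBC) : Stmt_WMV := by
  intro m k _ P _ Φ hΦ W l hl i d hd
  rw [hl d 0 0 _ _ (WMV.cls hWBC P hΦ i d hd), mul_zero, mul_zero, zero_add, zero_add,
    Finset.sum_eq_single i]
  · unfold WMV.dx WMV.dy
    rw [if_pos rfl, if_pos rfl]
  · intro j _ hj
    unfold WMV.dx WMV.dy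
    rw [if_neg hj, if_neg hj, mul_zero, mul_zero, add_zero]
  · intro h
    exact absurd (Finset.mem_univ i) h

end Pool.Agent.MG.W
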