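import Pool.Agent.MG.W.Stmts

/-!
# Weierstrass curves are proper, flat and of finite presentation
-/

open CategoryTheory CategoryTheory.Limits AlgebraicGeometry TensorProduct IsLocalRing

namespace Pool.Agent.MG.W

namespace WPR

/-! ## Flatness of the charts -/

section flat

variable (B : Type) [CommRing B] (a b : B)

/-- The monic equation of the affine chart over `B[x]`. -/
noncomputable def F1 : Polynomial (Polynomial B) :=
  Polynomial.X ^ 2 - Polynomial.C
    (Polynomial.X ^ 3 + Polynomial.C a * Polynomial.X + Polynomial.C b)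

theorem F1_monic : (F1 B a b).Monic := Polynomial.monic_X_pow_sub_C _ two_ne_zero

/-- The monic equation of the chart at infinity over `B[z]`, in `s = 1/t`. -/
noncomputable def F2 : Polynomial (Polynomial B) :=
  Polynomial.X ^ 3 + (- Polynomial.X ^ 2 +
    Polynomial.C (Polynomial.C a * Polynomial.X ^ 4) * Polynomial.X +
    Polynomial.C (Polynomial.C b * Polynomial.X ^ 6))

theorem F2_monic : (F2 B a b).Monic := by
  refine Polynomial.monic_X_pow_add ?_
  have h : (- Polynomial.X ^ 2 +
    Polynomial.C (Polynomial.C a * Polynomial.X ^ 4) * Polynomial.X +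
    Polynomial.C (Polynomial.C b * Polynomial.X ^ 6) : Polynomial (Polynomial B)).degree ≤ 2 := by
    compute_degree
  exact lt_of_le_of_lt h (by norm_num)

/-- The free algebra of the affine chart. -/
abbrev M1 : Type := AdjoinRoot (F1 B a b)

/-- The free algebra of the chart at infinity. -/
abbrev M2 : Type := AdjoinRoot (F2 B a b)

theorem flatM1 : (algebraMap B (M1 B a b)).Flat := by
  have h1 : Module.Free (Polynomial B) (M1 B a b) := (F1_monic B a b).free_adjoinRoot
  have h2 : Module.Flat B (M1 B a b) := Module.Flat.trans B (Polynomial B) (M1 B a b)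
  exact (RingHom.flat_algebraMap_iff).2 h2

theorem flatM2 : (algebraMap B (M2 B a b)).Flat := by
  have h1 : Module.Free (Polynomial B) (M2 B a b) := (F2_monic B a b).free_adjoinRoot
  have h2 : Module.Flat B (M2 B a b) := Module.Flat.trans B (Polynomial B) (M2 B a b)
  exact (RingHom.flat_algebraMap_iff).2 h2

theorem ev1 {R : Type} [CommRing R] (f : Polynomial B →+* R) (r : R) :
    Polynomial.eval₂ f r (F1 B a b) = r ^ 2 - (f Polynomial.X ^ 3 +
      f (Polynomial.C a) * f Polynomial.X + f (Polynomial.C b)) := by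
  simp only [F1, Polynomial.eval₂_sub, Polynomial.eval₂_X_pow, Polynomial.eval₂_C]
  simp only [map_add, map_mul, map_pow]

theorem ev2 {R : Type} [CommRing R] (f : Polynomial B →+* R) (r : R) :
    Polynomial.eval₂ f r (F2 B a b) = r ^ 3 + (- r ^ 2 +
      f (Polynomial.C a) * f Polynomial.X ^ 4 * r + f (Polynomial.C b) * f Polynomial.X ^ 6) := by
  simp only [F2, Polynomial.eval₂_add, Polynomial.eval₂_neg, Polynomial.eval₂_mul,
    Polynomial.eval₂_X_pow, Polynomial.eval₂_C, Polynomial.eval₂_X]
  simp only [map_mul, map_pow]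

theorem relM1 : AdjoinRoot.root (F1 B a b) ^ 2 = algebraMap (Polynomial B) (M1 B a b) Polynomial.X ^ 3 +
    algebraMap B (M1 B a b) a * algebraMap (Polynomial B) (M1 B a b) Polynomial.X +
    algebraMap B (M1 B a b) b := by
  have h := AdjoinRoot.eval₂_root (F1 B a b)
  rw [ev1] at h
  have ha : algebraMap B (M1 B a b) a = AdjoinRoot.of (F1 B a b) (Polynomial.C a) := rfl
  have hb : algebraMap B (M1 B a b) b = AdjoinRoot.of (F1 B a b) (Polynomial.C b) := rfl
  have hX : algebraMap (Polynomial B) (M1 B a b) Polynomial.X =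
    AdjoinRoot.of (F1 B a b) Polynomial.X := rfl
  rw [ha, hb, hX]
  linear_combination h

/-- The comparison with the free algebra. -/
noncomputable def c1 : A1 B a b →+* M1 B a b :=
  lift1 (algebraMap B (M1 B a b)) (algebraMap (Polynomial B) (M1 B a b) Polynomial.X)
    (AdjoinRoot.root (F1 B a b)) (relM1 B a b)

/-- The inverse comparison. -/
noncomputable def d1 : M1 B a b →+* A1 B a b :=
  AdjoinRoot.lift (Polynomial.aeval (x1 B a b)).toRingHom (y1 B a b) (by
    have h := rel1 B a b
    rw [ev1]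
    simp only [AlgHom.toRingHom_eq_coe, RingHom.coe_coe, Polynomial.aeval_X, Polynomial.aeval_C]
    linear_combination h)

theorem d1_c1 : (d1 B a b).comp (c1 B a b) = RingHom.id _ := by
  refine hom1_ext ?_ ?_ ?_
  · intro c
    simp only [RingHom.comp_apply, c1, lift1_b, RingHom.id_apply]
    change d1 B a b (AdjoinRoot.of (F1 B a b) (Polynomial.C c)) = _
    rw [d1, AdjoinRoot.lift_of]
    simp
  · simp only [RingHom.comp_apply, c1, lift1_x, RingHom.id_apply]
    change d1 B a b (AdjoinRoot.of (F1 B a b) Polynomial.X) = _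
    rw [d1, AdjoinRoot.lift_of]
    simp
  · simp only [RingHom.comp_apply, c1, lift1_y, RingHom.id_apply]
    rw [d1, AdjoinRoot.lift_root]

theorem c1_d1 : (c1 B a b).comp (d1 B a b) = RingHom.id _ := by
  refine Ideal.Quotient.ringHom_ext ?_
  refine Polynomial.ringHom_ext' (Polynomial.ringHom_ext ?_ ?_) ?_
  · intro c
    change c1 B a b (d1 B a b (AdjoinRoot.of (F1 B a b) (Polynomial.C c))) = _
    rw [d1, AdjoinRoot.lift_of]
    simp only [AlgHom.toRingHom_eq_coe, RingHom.coe_coe, Polynomial.aeval_C, c1, lift1_b]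
    rfl
  · change c1 B a b (d1 B a b (AdjoinRoot.of (F1 B a b) Polynomial.X)) = _
    rw [d1, AdjoinRoot.lift_of]
    simp only [AlgHom.toRingHom_eq_coe, RingHom.coe_coe, Polynomial.aeval_X, c1, lift1_x]
    rfl
  · change c1 B a b (d1 B a b (AdjoinRoot.root (F1 B a b))) = _
    rw [d1, AdjoinRoot.lift_root, c1, lift1_y]
    rfl

theorem flat1 : (algebraMap B (A1 B a b)).Flat := by
  have h1 : algebraMap B (A1 B a b) = (d1 B a b).comp (algebraMap B (M1 B a b)) := by
    ext c
    change _ = d1 B a b (AdjoinRoot.of (F1 B a b) (Polynomial.C c))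
    rw [d1, AdjoinRoot.lift_of]
    simp
  have h2 : Function.Bijective (d1 B a b) :=
    ⟨Function.LeftInverse.injective (g := c1 B a b) fun v => RingHom.congr_fun (c1_d1 B a b) v,
      Function.RightInverse.surjective (g := c1 B a b) fun v => RingHom.congr_fun (d1_c1 B a b) v⟩
  rw [h1]
  exact RingHom.Flat.comp (flatM1 B a b) (RingHom.Flat.of_bijective h2)

/-- The localisation of the free algebra of the chart at infinity. -/
abbrev L2 : Type := Localization.Away (AdjoinRoot.root (F2 B a b))

/-- `s` as a unit. -/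
noncomputable def su : (L2 B a b)ˣ :=
  (IsLocalization.Away.algebraMap_isUnit (S := L2 B a b) (AdjoinRoot.root (F2 B a b))).unit

/-- `z` -/
noncomputable def zM : L2 B a b := algebraMap (M2 B a b) (L2 B a b)
  (AdjoinRoot.of (F2 B a b) Polynomial.X)

/-- the structure map -/
noncomputable def bM : B →+* L2 B a b := (algebraMap (M2 B a b) (L2 B a b)).comp
  (algebraMap B (M2 B a b))

theorem relM2 : (su B a b)⁻¹.val = 1 + bM B a b a * zM B a b ^ 4 * (su B a b)⁻¹.val ^ 2 +
    bM B a b b * zM B a b ^ 6 * (su B a b)⁻¹.val ^ 3 := by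
  have h := congrArg (algebraMap (M2 B a b) (L2 B a b)) (AdjoinRoot.eval₂_root (F2 B a b))
  rw [ev2] at h
  simp only [map_add, map_neg, map_mul, map_pow, map_zero] at h
  have hs : algebraMap (M2 B a b) (L2 B a b) (AdjoinRoot.root (F2 B a b)) = (su B a b).val := rfl
  have hz : algebraMap (M2 B a b) (L2 B a b) (AdjoinRoot.of (F2 B a b) Polynomial.X) =
    zM B a b := rfl
  have ha : algebraMap (M2 B a b) (L2 B a b) (AdjoinRoot.of (F2 B a b) (Polynomial.C a)) =
    bM B a b a := rfl
  have hb : algebraMap (M2 B a b) (L2 B a b) (AdjoinRoot.of (F2 B a b) (Polynomial.C b)) =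
    bM B a b b := rfl
  rw [hs, hz, ha, hb] at h
  have hi : (su B a b).val * (su B a b)⁻¹.val = 1 := Units.mul_inv _
  generalize (su B a b).val = s at *
  generalize (su B a b)⁻¹.val = t at *
  have h2 : s ^ 2 * t ^ 2 = 1 := by rw [← mul_pow, hi, one_pow]
  have h3 : s ^ 3 * t ^ 3 = 1 := by rw [← mul_pow, hi, one_pow]
  linear_combination (- t ^ 3) * h + h3 - t * h2 + bM B a b a * zM B a b ^ 4 * t ^ 2 * hi

/-- The comparison with the localised free algebra. -/
noncomputable def c2 : A2 B a b →+* L2 B a b :=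
  lift2 (bM B a b) (zM B a b) (su B a b)⁻¹.val (relM2 B a b)

/-- `t` as a unit of `A₂`. -/
noncomputable def t2u : (A2 B a b)ˣ := (t2_unit B a b).unit

theorem relS : (t2u B a b)⁻¹.val ^ 3 + (- (t2u B a b)⁻¹.val ^ 2 +
    algebraMap B (A2 B a b) a * z2 B a b ^ 4 * (t2u B a b)⁻¹.val +
    algebraMap B (A2 B a b) b * z2 B a b ^ 6) = 0 := by
  have h := rel2 B a b
  have ht : t2 B a b = (t2u B a b).val := rfl
  rw [ht] at h
  have hi : (t2u B a b).val * (t2u B a b)⁻¹.val = 1 := Units.mul_inv _
  generalize (t2u B a b).val = t at *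
  generalize (t2u B a b)⁻¹.val = s at *
  have h2 : t ^ 2 * s ^ 2 = 1 := by rw [← mul_pow, hi, one_pow]
  have h3 : t ^ 3 * s ^ 3 = 1 := by rw [← mul_pow, hi, one_pow]
  linear_combination (- s ^ 3) * h + s ^ 2 * hi -
    algebraMap B (A2 B a b) a * z2 B a b ^ 4 * s * h2 -
    algebraMap B (A2 B a b) b * z2 B a b ^ 6 * h3

/-- Map from the free algebra. -/
noncomputable def e2 : M2 B a b →+* A2 B a b :=
  AdjoinRoot.lift (Polynomial.aeval (z2 B a b)).toRingHom (t2u B a b)⁻¹.val (by
    have h := relS B a b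
    rw [ev2]
    simp only [AlgHom.toRingHom_eq_coe, RingHom.coe_coe, Polynomial.aeval_X, Polynomial.aeval_C]
    linear_combination h)

theorem e2_root : e2 B a b (AdjoinRoot.root (F2 B a b)) = (t2u B a b)⁻¹.val := by
  rw [e2, AdjoinRoot.lift_root]

theorem e2_z : e2 B a b (AdjoinRoot.of (F2 B a b) Polynomial.X) = z2 B a b := by
  rw [e2, AdjoinRoot.lift_of]
  simp

theorem e2_b (c : B) : e2 B a b (AdjoinRoot.of (F2 B a b) (Polynomial.C c)) =
    algebraMap B _ c := by
  rw [e2, AdjoinRoot.lift_of]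
  simp

/-- The inverse comparison. -/
noncomputable def d2 : L2 B a b →+* A2 B a b :=
  IsLocalization.Away.lift (AdjoinRoot.root (F2 B a b)) (g := e2 B a b) (by
    rw [e2_root]
    exact Units.isUnit _)

theorem d2_alg (v : M2 B a b) : d2 B a b (algebraMap _ _ v) = e2 B a b v :=
  IsLocalization.Away.lift_eq _ _ _

theorem d2_su : Units.map (d2 B a b : L2 B a b →* A2 B a b) (su B a b) = (t2u B a b)⁻¹ := by
  ext1
  change d2 B a b (algebraMap _ _ (AdjoinRoot.root (F2 B a b))) = _
  rw [d2_alg, e2_root]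

theorem d2_c2 : (d2 B a b).comp (c2 B a b) = RingHom.id _ := by
  refine hom2_ext ?_ ?_ ?_
  · intro c
    simp only [RingHom.comp_apply, c2, lift2_b, RingHom.id_apply]
    change d2 B a b (algebraMap _ _ (AdjoinRoot.of (F2 B a b) (Polynomial.C c))) = _
    rw [d2_alg, e2_b]
  · simp only [RingHom.comp_apply, c2, lift2_z, RingHom.id_apply]
    change d2 B a b (algebraMap _ _ (AdjoinRoot.of (F2 B a b) Polynomial.X)) = _
    rw [d2_alg, e2_z]
  · simp only [RingHom.comp_apply, c2, lift2_t, RingHom.id_apply]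
    have h : Units.map (d2 B a b : L2 B a b →* A2 B a b) (su B a b)⁻¹ = t2u B a b := by
      rw [map_inv, d2_su, inv_inv]
    exact congrArg Units.val h

theorem c2_d2 : (c2 B a b).comp (d2 B a b) = RingHom.id _ := by
  refine IsLocalization.ringHom_ext (Submonoid.powers (AdjoinRoot.root (F2 B a b))) ?_
  refine Ideal.Quotient.ringHom_ext ?_
  refine Polynomial.ringHom_ext' (Polynomial.ringHom_ext ?_ ?_) ?_
  · intro c
    change c2 B a b (d2 B a b (algebraMap _ _ (AdjoinRoot.of (F2 B a b) (Polynomial.C c)))) = _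
    rw [d2_alg, e2_b, c2, lift2_b]
    rfl
  · change c2 B a b (d2 B a b (algebraMap _ _ (AdjoinRoot.of (F2 B a b) Polynomial.X))) = _
    rw [d2_alg, e2_z, c2, lift2_z]
    rfl
  · change c2 B a b (d2 B a b (algebraMap _ _ (AdjoinRoot.root (F2 B a b)))) = _
    rw [d2_alg, e2_root]
    have h : Units.map (c2 B a b : A2 B a b →* L2 B a b) (t2u B a b) = (su B a b)⁻¹ := by
      ext1
      change c2 B a b (t2 B a b) = _
      rw [c2, lift2_t]
    have h2 : Units.map (c2 B a b : A2 B a b →* L2 B a b) (t2u B a b)⁻¹ = su B a b := by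
      rw [map_inv, h, inv_inv]
    exact congrArg Units.val h2

theorem flat2 : (algebraMap B (A2 B a b)).Flat := by
  have h1 : algebraMap B (A2 B a b) = (d2 B a b).comp
      ((algebraMap (M2 B a b) (L2 B a b)).comp (algebraMap B (M2 B a b))) := by
    ext c
    change _ = d2 B a b (algebraMap _ _ (AdjoinRoot.of (F2 B a b) (Polynomial.C c)))
    rw [d2_alg, e2_b]
  have h2 : Function.Bijective (d2 B a b) :=
    ⟨Function.LeftInverse.injective (g := c2 B a b) fun v => RingHom.congr_fun (c2_d2 B a b) v,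
      Function.RightInverse.surjective (g := c2 B a b) fun v => RingHom.congr_fun (d2_c2 B a b) v⟩
  have h3 : (algebraMap (M2 B a b) (L2 B a b)).Flat :=
    (RingHom.flat_algebraMap_iff).2 (IsLocalization.flat (L2 B a b)
      (Submonoid.powers (AdjoinRoot.root (F2 B a b))))
  rw [h1]
  exact RingHom.Flat.comp (RingHom.Flat.comp (flatM2 B a b) h3) (RingHom.Flat.of_bijective h2)

theorem fp1 : (algebraMap B (A1 B a b)).FinitePresentation := by
  rw [RingHom.finitePresentation_algebraMap]
  exact Algebra.FinitePresentation.quotient ⟨{eq1 B a b}, by simp⟩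

theorem fp2 : (algebraMap B (A2 B a b)).FinitePresentation := by
  rw [RingHom.finitePresentation_algebraMap]
  exact Algebra.FinitePresentation.quotient ⟨{eq2 B a b}, by simp⟩

end flat

/-! ## Local properties and topology -/

section sch

variable (B : Type) [CommRing B] (a b : B)

theorem loc2 (P : MorphismProperty Scheme.{0}) [IsZariskiLocalAtSource P]
    (h1 : P (spMap (algebraMap B (A1 B a b)))) (h2 : P (spMap (algebraMap B (A2 B a b)))) :
    P (WX.pr B a b) := by
  refine IsZariskiLocalAtSource.of_iSup_eq_top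
    (fun i : Bool => if i then (WX.in1 B a b).opensRange else (WX.in2 B a b).opensRange) ?_ ?_
  · rw [iSup_bool_eq]
    exact glue2_range (spMap (g1 B a b)) (spMap (g2 B a b))
  · intro i
    cases i
    · change P ((WX.in2 B a b).opensRange.ι ≫ WX.pr B a b)
      rw [← IsOpenImmersion.isoOfRangeEq_inv_fac (WX.in2 B a b) (Scheme.Opens.ι _)
        (congr_arg TopologicalSpace.Opens.carrier (WX.in2 B a b).opensRange.opensRange_ι.symm),
        Category.assoc, P.cancel_left_of_respectsIso, WX.in2_pr]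
      exact h2
    · change P ((WX.in1 B a b).opensRange.ι ≫ WX.pr B a b)
      rw [← IsOpenImmersion.isoOfRangeEq_inv_fac (WX.in1 B a b) (Scheme.Opens.ι _)
        (congr_arg TopologicalSpace.Opens.carrier (WX.in1 B a b).opensRange.opensRange_ι.symm),
        Category.assoc, P.cancel_left_of_respectsIso, WX.in1_pr]
      exact h1

theorem cpt : CompactSpace (WX B a b) := by
  constructor
  have h : (Set.univ : Set (WX B a b)) = Set.range (WX.in1 B a b) ∪ Set.range (WX.in2 B a b) := by
    ext x
    simp only [Set.mem_univ, Set.mem_union, true_iff]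
    exact glue2_surj (spMap (g1 B a b)) (spMap (g2 B a b)) x
  rw [h]
  exact (isCompact_range (WX.in1 B a b).continuous).union
    (isCompact_range (WX.in2 B a b).continuous)

theorem inter : ((WX.in1 B a b).opensRange : Set (WX B a b)) ∩ (WX.in2 B a b).opensRange =
    Set.range (spMap (g1 B a b) ≫ WX.in1 B a b) := by
  have h := congrArg (fun U : (WX B a b).Opens => (U : Set (WX B a b)))
    (glue2_inter (spMap (g1 B a b)) (spMap (g2 B a b)))
  exact h

theorem qsep : QuasiSeparatedSpace (WX B a b) := by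
  refine Scheme.quasiSeparatedSpace_of_isOpenCover
    (fun i : Bool => if i then (WX.in1 B a b).opensRange else (WX.in2 B a b).opensRange) ?_ ?_ ?_
  · change iSup _ = _
    rw [iSup_bool_eq]
    exact glue2_range (spMap (g1 B a b)) (spMap (g2 B a b))
  · intro i
    cases i
    · exact isAffineOpen_opensRange (WX.in2 B a b)
    · exact isAffineOpen_opensRange (WX.in1 B a b)
  · have hc : IsCompact (Set.range (spMap (g1 B a b) ≫ WX.in1 B a b)) :=
      isCompact_range (spMap (g1 B a b) ≫ WX.in1 B a b).continuous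
    intro i j
    cases i <;> cases j
    · change IsCompact (((WX.in2 B a b).opensRange : Set (WX B a b)) ∩ (WX.in2 B a b).opensRange)
      rw [Set.inter_self]
      exact isCompact_range (WX.in2 B a b).continuous
    · change IsCompact (((WX.in2 B a b).opensRange : Set (WX B a b)) ∩ (WX.in1 B a b).opensRange)
      rw [Set.inter_comm, inter]
      exact hc
    · change IsCompact (((WX.in1 B a b).opensRange : Set (WX B a b)) ∩ (WX.in2 B a b).opensRange)
      rw [inter]
      exact hc
    · change IsCompact (((WX.in1 B a b).opensRange : Set (WX B a b)) ∩ (WX.in1 B a b).opensRange)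
      rw [Set.inter_self]
      exact isCompact_range (WX.in1 B a b).continuous

/-! ## Points with values in local rings -/

theorem mem_of_closed {X : Scheme.{0}} {R : Type} [CommRing R] [IsLocalRing R]
    (l : Sp R ⟶ X) (V : X.Opens) (h : l (closedPoint R) ∈ V) (y : Sp R) : l y ∈ V :=
  ((specializes_closedPoint (R := R) y).map l.continuous).mem_open V.isOpen h

variable {B a b}

theorem fac {R : Type} [CommRing R] [IsLocalRing R] (l : Sp R ⟶ WX B a b) :
    (∃ h : A1 B a b →+* R, l = spMap h ≫ WX.in1 B a b) ∨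
    (∃ h : A2 B a b →+* R, l = spMap h ≫ WX.in2 B a b) := by
  rcases glue2_surj (spMap (g1 B a b)) (spMap (g2 B a b)) (l (closedPoint R)) with h | h
  · left
    have hr : Set.range l ⊆ Set.range (WX.in1 B a b) := by
      rintro _ ⟨y, rfl⟩
      exact mem_of_closed l (WX.in1 B a b).opensRange h y
    obtain ⟨φ, hφ⟩ := Spec.map_surjective (IsOpenImmersion.lift (WX.in1 B a b) l hr)
    refine ⟨φ.hom, ?_⟩
    have h2 : spMap φ.hom = IsOpenImmersion.lift (WX.in1 B a b) l hr := hφ
    rw [h2, IsOpenImmersion.lift_fac]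
  · right
    have hr : Set.range l ⊆ Set.range (WX.in2 B a b) := by
      rintro _ ⟨y, rfl⟩
      exact mem_of_closed l (WX.in2 B a b).opensRange h y
    obtain ⟨φ, hφ⟩ := Spec.map_surjective (IsOpenImmersion.lift (WX.in2 B a b) l hr)
    refine ⟨φ.hom, ?_⟩
    have h2 : spMap φ.hom = IsOpenImmersion.lift (WX.in2 B a b) l hr := hφ
    rw [h2, IsOpenImmersion.lift_fac]

theorem spMap_comp {A C D : Type} [CommRing A] [CommRing C] [CommRing D] (φ : A →+* C)
    (ψ : C →+* D) : spMap ψ ≫ spMap φ = spMap (ψ.comp φ) :=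
  (Spec.map_comp (CommRingCat.ofHom φ) (CommRingCat.ofHom ψ)).symm

theorem spMap_inj {A C : Type} [CommRing A] [CommRing C] {φ ψ : A →+* C}
    (h : spMap φ = spMap ψ) : φ = ψ := by
  have h2 := Spec.map_injective h
  exact congrArg CommRingCat.Hom.hom h2

theorem swap {R : Type} [CommRing R] (h : A12 B a b →+* R) :
    spMap (h.comp (g1 B a b)) ≫ WX.in1 B a b = spMap (h.comp (g2 B a b)) ≫ WX.in2 B a b := by
  rw [← spMap_comp, ← spMap_comp, Category.assoc, Category.assoc]
  have h2 : spMap (g1 B a b) ≫ WX.in1 B a b = spMap (g2 B a b) ≫ WX.in2 B a b :=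
    pushout.condition
  rw [h2]

/-- Extension of a point of the chart at infinity. -/
theorem ext12 {R : Type} [CommRing R] (h : A2 B a b →+* R) (hz : IsUnit (h (z2 B a b))) :
    ∃ h12 : A12 B a b →+* R, h12.comp (g2 B a b) = h := by
  refine ⟨IsLocalization.Away.lift (z2 B a b) hz, ?_⟩
  exact RingHom.ext fun v => IsLocalization.Away.lift_eq (z2 B a b) hz v

theorem rel_xzt {R : Type} [CommRing R] (h : A12 B a b →+* R) :
    h (g1 B a b (x1 B a b)) * (h (g2 B a b (z2 B a b)) ^ 2 * h (g2 B a b (t2 B a b))) = 1 := by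
  rw [g1_x, ← zu_val, ← tu_val, ← map_pow, ← map_mul, ← map_mul]
  have : ((zu B a b)⁻¹ ^ 2 * (tu B a b)⁻¹ : (A12 B a b)ˣ).val *
      ((zu B a b).val ^ 2 * (tu B a b).val) = 1 := by
    rw [← Units.val_pow_eq_pow_val, ← Units.val_mul, ← Units.val_mul]
    have h3 : ((zu B a b)⁻¹ ^ 2 * (tu B a b)⁻¹) * ((zu B a b) ^ 2 * (tu B a b)) = 1 := by
      rw [mul_mul_mul_comm, inv_mul_cancel, mul_one, ← mul_pow, inv_mul_cancel, one_pow]
    rw [h3, Units.val_one]
  rw [this, map_one]

theorem rel_yzt {R : Type} [CommRing R] (h : A12 B a b →+* R) :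
    h (g1 B a b (y1 B a b)) * (h (g2 B a b (z2 B a b)) ^ 3 * h (g2 B a b (t2 B a b))) = 1 := by
  rw [g1_y, ← zu_val, ← tu_val, ← map_pow, ← map_mul, ← map_mul]
  have : ((zu B a b)⁻¹ ^ 3 * (tu B a b)⁻¹ : (A12 B a b)ˣ).val *
      ((zu B a b).val ^ 3 * (tu B a b).val) = 1 := by
    rw [← Units.val_pow_eq_pow_val, ← Units.val_mul, ← Units.val_mul]
    have h3 : ((zu B a b)⁻¹ ^ 3 * (tu B a b)⁻¹) * ((zu B a b) ^ 3 * (tu B a b)) = 1 := by
      rw [mul_mul_mul_comm, inv_mul_cancel, mul_one, ← mul_pow, inv_mul_cancel, one_pow]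
    rw [h3, Units.val_one]
  rw [this, map_one]

section uniq

variable {R K : Type} [CommRing R] [IsLocalRing R] [Field K] [Algebra R K]
  (hinj : Function.Injective (algebraMap R K))

include hinj in
omit [IsLocalRing R] in
theorem cancel_inj {A : Type} [CommRing A] {h h' : A →+* R}
    (H : spMap (algebraMap R K) ≫ spMap h = spMap (algebraMap R K) ≫ spMap h') : h = h' := by
  rw [spMap_comp, spMap_comp] at H
  have h2 := spMap_inj H
  ext v
  exact hinj (RingHom.congr_fun h2 v)

include hinj in
theorem mixed (h : A1 B a b →+* R) (h' : A2 B a b →+* R)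
    (H : spMap (algebraMap R K) ≫ spMap h ≫ WX.in1 B a b =
      spMap (algebraMap R K) ≫ spMap h' ≫ WX.in2 B a b) :
    spMap h ≫ WX.in1 B a b = spMap h' ≫ WX.in2 B a b := by
  have hp := glue2_isPullback (spMap (g1 B a b)) (spMap (g2 B a b))
  have H' : (spMap (algebraMap R K) ≫ spMap h) ≫ WX.in1 B a b =
      (spMap (algebraMap R K) ≫ spMap h') ≫ WX.in2 B a b := by
    rw [Category.assoc, Category.assoc, H]
  obtain ⟨m, hm⟩ := Spec.map_surjective (hp.lift _ _ H')
  have hm1 : spMap m.hom ≫ spMap (g1 B a b) = spMap (algebraMap R K) ≫ spMap h := by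
    have : spMap m.hom = hp.lift _ _ H' := hm
    rw [this]
    exact hp.lift_fst _ _ H'
  have hm2 : spMap m.hom ≫ spMap (g2 B a b) = spMap (algebraMap R K) ≫ spMap h' := by
    have : spMap m.hom = hp.lift _ _ H' := hm
    rw [this]
    exact hp.lift_snd _ _ H'
  rw [spMap_comp, spMap_comp] at hm1 hm2
  have e1 := fun v => RingHom.congr_fun (spMap_inj hm1) v
  have e2 := fun v => RingHom.congr_fun (spMap_inj hm2) v
  simp only [RingHom.comp_apply] at e1 e2
  have h3 := rel_xzt m.hom
  rw [e1, e2, e2, ← map_pow, ← map_mul, ← map_mul] at h3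
  have h4 : h (x1 B a b) * (h' (z2 B a b) ^ 2 * h' (t2 B a b)) = 1 :=
    hinj (h3.trans (map_one _).symm)
  have h5 : IsUnit (h' (z2 B a b)) := by
    refine IsUnit.of_mul_eq_one (h' (z2 B a b) * h' (t2 B a b) * h (x1 B a b)) ?_
    linear_combination h4
  obtain ⟨h12, hh⟩ := ext12 h' h5
  rw [← hh, ← swap]
  congr 2
  refine cancel_inj hinj ?_
  rw [← cancel_mono (WX.in1 B a b), Category.assoc, Category.assoc, H, swap, hh]

include hinj in
theorem uniq (l l' : Sp R ⟶ WX B a b)
    (H : spMap (algebraMap R K) ≫ l = spMap (algebraMap R K) ≫ l') : l = l' := by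
  rcases fac l with ⟨h, rfl⟩ | ⟨h, rfl⟩ <;> rcases fac l' with ⟨h', rfl⟩ | ⟨h', rfl⟩
  · congr 2
    refine cancel_inj hinj ?_
    rw [← cancel_mono (WX.in1 B a b), Category.assoc, Category.assoc, H]
  · exact mixed hinj h h' H
  · exact (mixed hinj h' h H.symm).symm
  · congr 2
    refine cancel_inj hinj ?_
    rw [← cancel_mono (WX.in2 B a b), Category.assoc, Category.assoc, H]

end uniq

/-! ## Points with values in valuation rings -/

section val

variable {R K : Type} [CommRing R] [IsDomain R] [ValuationRing R] [Field K] [Algebra R K]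
  [IsFractionRing R K]

theorem sq_int {y : K} {r : R} (h : y ^ 2 = algebraMap R K r) : ∃ s : R, y = algebraMap R K s := by
  rcases ValuationRing.isInteger_or_isInteger R y with ⟨s, hs⟩ | ⟨s, hs⟩
  · exact ⟨s, hs.symm⟩
  · by_cases hy : y = 0
    · exact ⟨0, by rw [hy, map_zero]⟩
    · refine ⟨r * s, ?_⟩
      rw [map_mul, ← h, hs]
      field_simp

/-- The valuative criterion for the points of the affine chart. -/
theorem ex1 (β : B →+* R) (h : A1 B a b →+* K)
    (hβ : ∀ c, h (algebraMap B _ c) = algebraMap R K (β c)) :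
    (∃ h' : A1 B a b →+* R, (algebraMap R K).comp h' = h ∧ h'.comp (algebraMap B _) = β) ∨
    (∃ (h' : A2 B a b →+* R) (h12 : A12 B a b →+* K), h12.comp (g1 B a b) = h ∧
      h12.comp (g2 B a b) = (algebraMap R K).comp h' ∧ h'.comp (algebraMap B _) = β) := by
  have hr := congrArg h (rel1 B a b)
  simp only [map_add, map_mul, map_pow, hβ] at hr
  by_cases hx : ∃ s : R, h (x1 B a b) = algebraMap R K s
  · left
    obtain ⟨s, hs⟩ := hx
    have hr2 : h (y1 B a b) ^ 2 = algebraMap R K (s ^ 3 + β a * s + β b) := by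
      rw [hr, hs]
      simp only [map_add, map_mul, map_pow]
    obtain ⟨r, hy⟩ := sq_int hr2
    have hrel : r ^ 2 = s ^ 3 + β a * s + β b := by
      apply IsFractionRing.injective R K
      rw [← hr2, hy, map_pow]
    refine ⟨lift1 β s r hrel, ?_, ?_⟩
    · refine hom1_ext (fun c => ?_) ?_ ?_
      · rw [RingHom.comp_apply, lift1_b, hβ]
      · rw [RingHom.comp_apply, lift1_x, hs]
      · rw [RingHom.comp_apply, lift1_y, hy]
    · exact RingHom.ext fun c => lift1_b (a := a) (b := b) β s r hrel c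
  · right
    obtain ⟨w, hw⟩ : ∃ w : R, algebraMap R K w = (h (x1 B a b))⁻¹ := by
      rcases ValuationRing.isInteger_or_isInteger R (h (x1 B a b)) with ⟨s, hs⟩ | ⟨s, hs⟩
      · exact absurd ⟨s, hs.symm⟩ hx
      · exact ⟨s, hs⟩
    have hx0 : h (x1 B a b) ≠ 0 := fun h0 => hx ⟨0, by rw [h0, map_zero]⟩
    have hwn : w ∈ nonunits R := by
      intro hu
      apply hx
      obtain ⟨u, rfl⟩ := hu
      refine ⟨(u⁻¹ : Rˣ).val, ?_⟩
      have h1 : algebraMap R K u.val * algebraMap R K (u⁻¹ : Rˣ).val = 1 := by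
        rw [← map_mul, Units.mul_inv, map_one]
      rw [hw] at h1
      field_simp at h1
      exact h1.symm
    set u : R := 1 + β a * w ^ 2 + β b * w ^ 3 with hu
    have huu : IsUnit u := by
      refine isUnit_of_mem_nonunits_one_sub_self u ?_
      have : 1 - u = w * (- (β a * w + β b * w ^ 2)) := by rw [hu]; ring
      rw [this]
      intro hcon
      exact hwn (isUnit_of_mul_isUnit_left hcon)
    obtain ⟨v, hv⟩ := huu
    set x : K := h (x1 B a b) with hxd
    set y : K := h (y1 B a b) with hyd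
    have hux : x ^ 3 * algebraMap R K u = y ^ 2 := by
      rw [hr, hu]
      simp only [map_add, map_mul, map_pow, map_one, hw]
      field_simp
    have hu0 : algebraMap R K u ≠ 0 := by
      rw [← hv]
      intro h0
      exact v.ne_zero ((map_eq_zero_iff _ (IsFractionRing.injective R K)).1 h0)
    have hy0 : y ≠ 0 := by
      intro h0
      rw [h0] at hux
      have : x ^ 3 * algebraMap R K u ≠ 0 := mul_ne_zero (pow_ne_zero 3 hx0) hu0
      exact this (hux.trans (by norm_num))
    have hvi : algebraMap R K (v⁻¹ : Rˣ).val = (algebraMap R K u)⁻¹ := by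
      have h1 : algebraMap R K v.val * algebraMap R K (v⁻¹ : Rˣ).val = 1 := by
        rw [← map_mul, Units.mul_inv, map_one]
      rw [hv] at h1
      exact eq_inv_of_mul_eq_one_right h1
    have hz2 : (x / y) ^ 2 = algebraMap R K (w * (v⁻¹ : Rˣ).val) := by
      rw [map_mul, hw, hvi, div_pow, ← hux]
      field_simp
    obtain ⟨ζ, hζ⟩ := sq_int hz2
    have hζ2 : ζ ^ 2 = w * (v⁻¹ : Rˣ).val := by
      apply IsFractionRing.injective R K
      rw [← hz2, hζ, map_pow]
    have hζu : ζ ^ 2 * u = w := by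
      rw [hζ2, ← hv, mul_assoc, Units.inv_mul, mul_one]
    have hrel : u = 1 + β a * ζ ^ 4 * u ^ 2 + β b * ζ ^ 6 * u ^ 3 := by
      have e1 : ζ ^ 4 * u ^ 2 = w ^ 2 := by rw [← hζu]; ring
      have e2 : ζ ^ 6 * u ^ 3 = w ^ 3 := by rw [← hζu]; ring
      rw [mul_assoc, mul_assoc, e1, e2, hu]
    have hunit : IsUnit (((algebraMap R K).comp (lift2 β ζ u hrel)) (z2 B a b)) := by
      rw [RingHom.comp_apply, lift2_z, ← hζ]
      exact IsUnit.mk0 _ (div_ne_zero hx0 hy0)
    obtain ⟨h12, hh⟩ := ext12 _ hunit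
    have hz : h12 (g2 B a b (z2 B a b)) = x / y := by
      rw [hζ]
      refine (RingHom.congr_fun hh (z2 B a b)).trans ?_
      rw [RingHom.comp_apply, lift2_z]
    have ht : h12 (g2 B a b (t2 B a b)) = algebraMap R K u := by
      refine (RingHom.congr_fun hh (t2 B a b)).trans ?_
      rw [RingHom.comp_apply, lift2_t]
    have hu' : algebraMap R K u = y ^ 2 / x ^ 3 := by
      rw [← hux]
      field_simp
    refine ⟨lift2 β ζ u hrel, h12, ?_, hh, ?_⟩
    · refine hom1_ext (fun c => ?_) ?_ ?_
      · rw [RingHom.comp_apply, g1_b, hβ]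
        refine (RingHom.congr_fun hh (algebraMap B _ c)).trans ?_
        rw [RingHom.comp_apply, lift2_b]
      · have h3 := rel_xzt h12
        rw [hz, ht, hu'] at h3
        rw [RingHom.comp_apply]
        change _ = x
        have h4 : (x / y) ^ 2 * (y ^ 2 / x ^ 3) = x⁻¹ := by field_simp
        rw [h4] at h3
        exact eq_of_mul_inv_eq_one h3
      · have h3 := rel_yzt h12
        rw [hz, ht, hu'] at h3
        rw [RingHom.comp_apply]
        change _ = y
        have h4 : (x / y) ^ 3 * (y ^ 2 / x ^ 3) = y⁻¹ := by field_simp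
        rw [h4] at h3
        exact eq_of_mul_inv_eq_one h3
    · exact RingHom.ext fun c => lift2_b (a := a) (b := b) β ζ u hrel c

/-- The existence part of the valuative criterion, affine chart. -/
theorem exA (β : B →+* R) (h : A1 B a b →+* K)
    (hβ : h.comp (algebraMap B _) = (algebraMap R K).comp β) :
    ∃ l : Sp R ⟶ WX B a b, spMap (algebraMap R K) ≫ l = spMap h ≫ WX.in1 B a b ∧
      l ≫ WX.pr B a b = spMap β := by
  rcases ex1 β h (fun c => RingHom.congr_fun hβ c) with ⟨h', e1, e2⟩ | ⟨h', h12, e1, e2, e3⟩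
  · refine ⟨spMap h' ≫ WX.in1 B a b, ?_, ?_⟩
    · rw [← Category.assoc, spMap_comp, e1]
    · rw [Category.assoc, WX.in1_pr, spMap_comp, e2]
  · refine ⟨spMap h' ≫ WX.in2 B a b, ?_, ?_⟩
    · rw [← Category.assoc, spMap_comp, ← e2, ← swap, e1]
    · rw [Category.assoc, WX.in2_pr, spMap_comp, e3]

/-- The existence part of the valuative criterion, chart at infinity. -/
theorem exB (β : B →+* R) (h : A2 B a b →+* K)
    (hβ : h.comp (algebraMap B _) = (algebraMap R K).comp β) :
    ∃ l : Sp R ⟶ WX B a b, spMap (algebraMap R K) ≫ l = spMap h ≫ WX.in2 B a b ∧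
      l ≫ WX.pr B a b = spMap β := by
  by_cases hz : h (z2 B a b) = 0
  · have ht : h (t2 B a b) = 1 := by
      have h1 := congrArg h (rel2 B a b)
      simp only [map_add, map_mul, map_pow, map_one, hz] at h1
      rw [h1]
      ring
    have hrel : (1 : R) = 1 + β a * 0 ^ 4 * 1 ^ 2 + β b * 0 ^ 6 * 1 ^ 3 := by ring
    have e1 : (algebraMap R K).comp (lift2 β 0 1 hrel) = h := by
      refine hom2_ext (fun c => ?_) ?_ ?_
      · rw [RingHom.comp_apply, lift2_b]
        exact (RingHom.congr_fun hβ c).symm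
      · rw [RingHom.comp_apply, lift2_z, hz, map_zero]
      · rw [RingHom.comp_apply, lift2_t, ht, map_one]
    have e2 : (lift2 β 0 1 hrel : A2 B a b →+* R).comp (algebraMap B _) = β :=
      RingHom.ext fun c => lift2_b (a := a) (b := b) β 0 1 hrel c
    refine ⟨spMap (lift2 β 0 1 hrel) ≫ WX.in2 B a b, ?_, ?_⟩
    · rw [← Category.assoc, spMap_comp, e1]
    · rw [Category.assoc, WX.in2_pr, spMap_comp, e2]
  · obtain ⟨h12, hh⟩ := ext12 h (IsUnit.mk0 _ hz)
    have hβ' : (h12.comp (g1 B a b)).comp (algebraMap B _) = (algebraMap R K).comp β := by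
      rw [← hβ, ← hh]
      refine RingHom.ext fun c => ?_
      rw [RingHom.comp_apply, RingHom.comp_apply, g1_b]
      rfl
    obtain ⟨l, e1, e2⟩ := exA β (h12.comp (g1 B a b)) hβ'
    refine ⟨l, ?_, e2⟩
    rw [e1, swap, hh]

end val

variable (B a b)

theorem valu : ValuativeCriterion (WX.pr B a b) := by
  rw [ValuativeCriterion.iff]
  constructor
  · intro S
    obtain ⟨β, hβ⟩ := Spec.map_surjective S.i₂
    have hβ' : spMap β.hom = S.i₂ := hβ
    have hw := S.commSq.w
    rcases fac S.i₁ with ⟨h, hh⟩ | ⟨h, hh⟩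
    · have h1 : h.comp (algebraMap B _) = (algebraMap S.R S.K).comp β.hom := by
        apply spMap_inj
        rw [hh, Category.assoc, WX.in1_pr, ← hβ'] at hw
        exact (spMap_comp _ _).symm.trans (hw.trans (spMap_comp _ _))
      obtain ⟨l, e1, e2⟩ := exA β.hom h h1
      exact ⟨⟨l, e1.trans hh.symm, e2.trans hβ'⟩⟩
    · have h1 : h.comp (algebraMap B _) = (algebraMap S.R S.K).comp β.hom := by
        apply spMap_inj
        rw [hh, Category.assoc, WX.in2_pr, ← hβ'] at hw
        exact (spMap_comp _ _).symm.trans (hw.trans (spMap_comp _ _))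
      obtain ⟨l, e1, e2⟩ := exB β.hom h h1
      exact ⟨⟨l, e1.trans hh.symm, e2.trans hβ'⟩⟩
  · intro S
    constructor
    intro l l'
    have h := uniq (B := B) (a := a) (b := b) (IsFractionRing.injective S.R S.K) l.l l'.l
      (l.fac_left.trans l'.fac_left.symm)
    exact CommSq.LiftStruct.ext h

end sch

end WPR

/-- **WPR**: Weierstrass curves are proper, flat and of finite presentation. -/
theorem t_WPR : Stmt_WPR := by
  intro B _ a b
  have h1 : Flat (WX.pr B a b) := by
    refine WPR.loc2 B a b @Flat ?_ ?_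
    · rw [Flat.SpecMap_iff]
      exact WPR.flat1 B a b
    · rw [Flat.SpecMap_iff]
      exact WPR.flat2 B a b
  have h2 : LocallyOfFinitePresentation (WX.pr B a b) := by
    refine WPR.loc2 B a b @LocallyOfFinitePresentation ?_ ?_
    · rw [LocallyOfFinitePresentation.SpecMap_iff]
      exact WPR.fp1 B a b
    · rw [LocallyOfFinitePresentation.SpecMap_iff]
      exact WPR.fp2 B a b
  have h3 : QuasiCompact (WX.pr B a b) := HasAffineProperty.iff_of_isAffine.mpr (WPR.cpt B a b)
  have h4 : QuasiSeparated (WX.pr B a b) := HasAffineProperty.iff_of_isAffine.mpr (WPR.qsep B a b)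
  exact ⟨IsProper.of_valuativeCriterion _ (WPR.valu B a b), h1, h2⟩

end Pool.Agent.MG.W
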