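import Pool.Agent.MG.W.Stmts
import Pool.Agent.MG.RIG
import Pool.Agent.MG.Bub.Open

/-!
# WRI: Weierstrass families without cusps have no vector fields
-/

open CategoryTheory CategoryTheory.Limits AlgebraicGeometry TensorProduct

namespace Pool.Agent.MG.W

namespace WRI

/-- A derivation which kills the constants and both coordinates is zero. -/
theorem der_zero {B : Type} [CommRing B] (I : Ideal (MvPolynomial (Fin 2) B))
    (D : (MvPolynomial (Fin 2) B ⧸ I) →+ (MvPolynomial (Fin 2) B ⧸ I))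
    (hD : ∀ u v, D (u * v) = u * D v + v * D u)
    (hc : ∀ c : B, D (algebraMap B _ c) = 0)
    (h0 : D (Ideal.Quotient.mk I (MvPolynomial.X 0)) = 0)
    (h1 : D (Ideal.Quotient.mk I (MvPolynomial.X 1)) = 0)
    (v : MvPolynomial (Fin 2) B ⧸ I) : D v = 0 := by
  obtain ⟨p, rfl⟩ := Ideal.Quotient.mk_surjective v
  induction p using MvPolynomial.induction_on with
  | C c => exact hc c
  | add p q hp hq => rw [map_add, map_add, hp, hq, add_zero]
  | mul_X p i hp =>
    rw [map_mul, hD, hp, mul_zero, add_zero]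
    fin_cases i
    · exact (congrArg (fun t => Ideal.Quotient.mk I p * t) h0).trans (mul_zero _)
    · exact (congrArg (fun t => Ideal.Quotient.mk I p * t) h1).trans (mul_zero _)

/-- The coefficients. -/
theorem coeffs {K : Type} [Field K] {a b c d c' d' e' : K} (h6 : (6 : K) ≠ 0)
    (hab : a ≠ 0 ∨ b ≠ 0) (h3 : 2 * e' - 3 * d = 0) (h2 : 3 * c = 0)
    (h1 : 2 * e' * a - a * d = 0) (h0 : 2 * e' * b - a * c = 0) (q0 : 2 * c' = 0)
    (q1 : 2 * d' = 0) : c = 0 ∧ d = 0 ∧ c' = 0 ∧ d' = 0 ∧ e' = 0 := by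
  have n2 : (2 : K) ≠ 0 := fun h => h6 (by
    have : (6 : K) = 2 * 3 := by norm_num
    rw [this, h, zero_mul])
  have n3 : (3 : K) ≠ 0 := fun h => h6 (by
    have : (6 : K) = 2 * 3 := by norm_num
    rw [this, h, mul_zero])
  have hc : c = 0 := (mul_eq_zero.1 h2).resolve_left n3
  have hc' : c' = 0 := (mul_eq_zero.1 q0).resolve_left n2
  have hd' : d' = 0 := (mul_eq_zero.1 q1).resolve_left n2
  have had : 2 * (a * d) = 0 := by linear_combination h1 - a * h3
  have had' : a * d = 0 := (mul_eq_zero.1 had).resolve_left n2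
  have hbd : 3 * (b * d) = 0 := by
    rw [hc] at h0
    linear_combination h0 - b * h3
  have hbd' : b * d = 0 := (mul_eq_zero.1 hbd).resolve_left n3
  have hd : d = 0 := by
    rcases hab with h | h
    · exact (mul_eq_zero.1 had').resolve_left h
    · exact (mul_eq_zero.1 hbd').resolve_left h
  have he : e' = 0 := by
    have : 2 * e' = 0 := by
      rw [hd] at h3
      linear_combination h3
    exact (mul_eq_zero.1 this).resolve_left n2
  exact ⟨hc, hd, hc', hd', he⟩

theorem cubic {K : Type} [Field K] (p3 p2 p1 p0 : K)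
    (h : (0 : Polynomial K) = Polynomial.C p3 * Polynomial.X ^ 3 +
      Polynomial.C p2 * Polynomial.X ^ 2 + Polynomial.C p1 * Polynomial.X + Polynomial.C p0) :
    p3 = 0 ∧ p2 = 0 ∧ p1 = 0 ∧ p0 = 0 := by
  have k3 := congrArg (fun p => Polynomial.coeff p 3) h
  have k2 := congrArg (fun p => Polynomial.coeff p 2) h
  have k1 := congrArg (fun p => Polynomial.coeff p 1) h
  have k0 := congrArg (fun p => Polynomial.coeff p 0) h
  simp [Polynomial.coeff_X, Polynomial.coeff_C, Polynomial.coeff_X_pow] at k3 k2 k1 k0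
  exact ⟨k3.symm, k2.symm, k1.symm, k0.symm⟩

theorem linear {K : Type} [Field K] (p1 p0 : K)
    (h : (0 : Polynomial K) = Polynomial.C p1 * Polynomial.X + Polynomial.C p0) :
    p1 = 0 ∧ p0 = 0 := by
  have k1 := congrArg (fun p => Polynomial.coeff p 1) h
  have k0 := congrArg (fun p => Polynomial.coeff p 0) h
  simp [Polynomial.coeff_X, Polynomial.coeff_C] at k1 k0
  exact ⟨k1.symm, k0.symm⟩

/-- Compatible derivations of the three rings vanish. -/
theorem alg {K : Type} [Field K] (a b : K) (h6 : (6 : K) ≠ 0) (hab : a ≠ 0 ∨ b ≠ 0)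
    (hW : Stmt_WRG) (D1 : A1 K a b →+ A1 K a b) (D2 : A2 K a b →+ A2 K a b)
    (D12 : A12 K a b →+ A12 K a b)
    (l1 : ∀ u v, D1 (u * v) = u * D1 v + v * D1 u)
    (c1 : ∀ c : K, D1 (algebraMap K _ c) = 0)
    (l2 : ∀ u v, D2 (u * v) = u * D2 v + v * D2 u)
    (c2 : ∀ c : K, D2 (algebraMap K _ c) = 0)
    (l12 : ∀ u v, D12 (u * v) = u * D12 v + v * D12 u)
    (r1 : ∀ v, D12 (g1 K a b v) = g1 K a b (D1 v))
    (r2 : ∀ v, D12 (g2 K a b v) = g2 K a b (D2 v))
    (s2 : ∀ v, inf2 K a b (D2 v) = 0) : (∀ v, D1 v = 0) ∧ ∀ v, D2 v = 0 := by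
  obtain ⟨w1, w2, w3, w4, -, -, w7, w8⟩ := hW K a b
  have mem : ∀ v, D2 v ∈ Ideal.span {z2 K a b} := by
    intro v
    have h := w2 (D2 v)
    rwa [s2, map_zero, sub_zero] at h
  obtain ⟨r, hr⟩ := Ideal.mem_span_singleton'.1 (mem (z2 K a b))
  obtain ⟨s, hs⟩ := Ideal.mem_span_singleton'.1 (mem (t2 K a b))
  obtain ⟨ti, hti⟩ := (t2_unit K a b).exists_right_inv
  have hX := g1_x K a b
  have hY := g1_y K a b
  push_cast at hX hY
  have hz : (zu K a b : A12 K a b) * ((zu K a b)⁻¹ : (A12 K a b)ˣ).val = 1 := Units.mul_inv _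
  have ht : (tu K a b : A12 K a b) * ((tu K a b)⁻¹ : (A12 K a b)ˣ).val = 1 := Units.mul_inv _
  have hzv := zu_val K a b
  have htv := tu_val K a b
  have hTi : (tu K a b : A12 K a b) * g2 K a b ti = 1 := by
    rw [htv, ← map_mul, hti, map_one]
  have hZ : D12 (zu K a b : A12 K a b) = g2 K a b r * (zu K a b : A12 K a b) := by
    rw [hzv, r2, ← hr, map_mul]
  have hT : D12 (tu K a b : A12 K a b) = g2 K a b s * (zu K a b : A12 K a b) := by
    rw [htv, hzv, r2, ← hs, map_mul]
  have hone : D12 1 = 0 := by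
    have h := l12 1 1
    rw [one_mul, one_mul] at h
    linear_combination -h
  generalize ((zu K a b)⁻¹ : (A12 K a b)ˣ).val = zi at *
  generalize ((tu K a b)⁻¹ : (A12 K a b)ˣ).val = tj at *
  have hXt : g1 K a b (x1 K a b) * (zu K a b : A12 K a b) ^ 2 * (tu K a b : A12 K a b) = 1 := by
    rw [hX]
    have : zi ^ 2 * tj * (zu K a b : A12 K a b) ^ 2 * (tu K a b : A12 K a b) =
      ((zu K a b : A12 K a b) * zi) ^ 2 * ((tu K a b : A12 K a b) * tj) := by ring
    rw [this, hz, ht]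
    ring
  have hYt : g1 K a b (y1 K a b) * (zu K a b : A12 K a b) ^ 3 * (tu K a b : A12 K a b) = 1 := by
    rw [hY]
    have : zi ^ 3 * tj * (zu K a b : A12 K a b) ^ 3 * (tu K a b : A12 K a b) =
      ((zu K a b : A12 K a b) * zi) ^ 3 * ((tu K a b : A12 K a b) * tj) := by ring
    rw [this, hz, ht]
    ring
  have hYX : g1 K a b (y1 K a b) * (zu K a b : A12 K a b) = g1 K a b (x1 K a b) := by
    rw [hY, hX]
    have : zi ^ 3 * tj * (zu K a b : A12 K a b) =
      ((zu K a b : A12 K a b) * zi) * (zi ^ 2 * tj) := by ring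
    rw [this, hz, one_mul]
  have hD2 : D12 ((zu K a b : A12 K a b) ^ 2) =
      2 * (zu K a b : A12 K a b) * D12 (zu K a b : A12 K a b) := by
    rw [pow_two, l12]
    ring
  have hD3 : D12 ((zu K a b : A12 K a b) ^ 3) =
      3 * (zu K a b : A12 K a b) ^ 2 * D12 (zu K a b : A12 K a b) := by
    rw [pow_succ, l12, hD2]
    ring
  have eX := congrArg D12 hXt
  rw [hone, l12, l12, hD2, r1] at eX
  have eY := congrArg D12 hYt
  rw [hone, l12, l12, hD3, r1] at eY
  have eXZ : g1 K a b (x1 K a b) * (zu K a b : A12 K a b) ^ 2 = g2 K a b ti := by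
    linear_combination g2 K a b ti * hXt -
      g1 K a b (x1 K a b) * (zu K a b : A12 K a b) ^ 2 * hTi
  have eYZ : g1 K a b (y1 K a b) * (zu K a b : A12 K a b) ^ 3 = g2 K a b ti := by
    linear_combination g2 K a b ti * hYt -
      g1 K a b (y1 K a b) * (zu K a b : A12 K a b) ^ 3 * hTi
  have fX : (zu K a b : A12 K a b) ^ 2 * g1 K a b (D1 (x1 K a b)) =
      g2 K a b (-(ti * (ti * (s * z2 K a b) + 2 * r))) := by
    have e : g2 K a b (-(ti * (ti * (s * z2 K a b) + 2 * r))) = -(g2 K a b ti *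
      (g2 K a b ti * (g2 K a b s * (zu K a b : A12 K a b)) + 2 * g2 K a b r)) := by
      rw [hzv]
      simp only [map_neg, map_mul, map_add, map_ofNat]
    rw [e]
    rw [hZ, hT] at eX
    linear_combination g2 K a b ti * eX -
      (zu K a b : A12 K a b) ^ 2 * g1 K a b (D1 (x1 K a b)) * hTi -
      g2 K a b ti * g2 K a b s * (zu K a b : A12 K a b) * eXZ -
      2 * g2 K a b r * (g1 K a b (x1 K a b) * (zu K a b : A12 K a b) ^ 2 * hTi + eXZ)
  have fY : (zu K a b : A12 K a b) ^ 3 * g1 K a b (D1 (y1 K a b)) =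
      g2 K a b (-(ti * (ti * (s * z2 K a b) + 3 * r))) := by
    have e : g2 K a b (-(ti * (ti * (s * z2 K a b) + 3 * r))) = -(g2 K a b ti *
      (g2 K a b ti * (g2 K a b s * (zu K a b : A12 K a b)) + 3 * g2 K a b r)) := by
      rw [hzv]
      simp only [map_neg, map_mul, map_add, map_ofNat]
    rw [e]
    rw [hZ, hT] at eY
    linear_combination g2 K a b ti * eY -
      (zu K a b : A12 K a b) ^ 3 * g1 K a b (D1 (y1 K a b)) * hTi -
      g2 K a b ti * g2 K a b s * (zu K a b : A12 K a b) * eYZ -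
      3 * g2 K a b r * (g1 K a b (y1 K a b) * (zu K a b : A12 K a b) ^ 3 * hTi + eYZ)
  obtain ⟨c, d, hx⟩ := w7 _ _ fX
  obtain ⟨c', d', e', hy⟩ := w8 _ _ fY
  have hrel := congrArg D1 (rel1 K a b)
  have hx2 : D1 (x1 K a b ^ 2) = 2 * x1 K a b * D1 (x1 K a b) := by
    rw [pow_two, l1]
    ring
  have hx3 : D1 (x1 K a b ^ 3) = 3 * x1 K a b ^ 2 * D1 (x1 K a b) := by
    rw [pow_succ, l1, hx2]
    ring
  have hy2 : D1 (y1 K a b ^ 2) = 2 * y1 K a b * D1 (y1 K a b) := by
    rw [pow_two, l1]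
    ring
  rw [map_add, map_add, c1, hx3, hy2, l1, c1, mul_zero, add_zero, add_zero, hx, hy] at hrel
  have hr1 := rel1 K a b
  have hpq := w1 0
  have h00 : (0 : A1 K a b) = Polynomial.aeval (x1 K a b) (0 : Polynomial K) +
      Polynomial.aeval (x1 K a b) (0 : Polynomial K) * y1 K a b := by simp
  have hpq2 : (0 : A1 K a b) = Polynomial.aeval (x1 K a b)
      (Polynomial.C (2 * e' - 3 * d) * Polynomial.X ^ 3 +
        Polynomial.C (-(3 * c)) * Polynomial.X ^ 2 +
        Polynomial.C (2 * e' * a - a * d) * Polynomial.X +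
        Polynomial.C (2 * e' * b - a * c)) +
      Polynomial.aeval (x1 K a b) (Polynomial.C (2 * d') * Polynomial.X +
        Polynomial.C (2 * c')) * y1 K a b := by
    simp only [map_add, map_sub, map_mul, map_pow, map_neg, Polynomial.aeval_X,
      Polynomial.aeval_C, map_ofNat]
    linear_combination -hrel + 2 * algebraMap K (A1 K a b) e' * hr1
  have huniq := hpq.unique (y₁ := (0, 0)) (y₂ := (_, _)) h00 hpq2
  have hp : (0 : Polynomial K) = Polynomial.C (2 * e' - 3 * d) * Polynomial.X ^ 3 +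
        Polynomial.C (-(3 * c)) * Polynomial.X ^ 2 +
        Polynomial.C (2 * e' * a - a * d) * Polynomial.X +
        Polynomial.C (2 * e' * b - a * c) := congrArg Prod.fst huniq
  have hq : (0 : Polynomial K) = Polynomial.C (2 * d') * Polynomial.X +
        Polynomial.C (2 * c') := congrArg Prod.snd huniq
  obtain ⟨k3, k2, k1, k0⟩ := cubic _ _ _ _ hp
  obtain ⟨m1, m0⟩ := linear _ _ hq
  obtain ⟨zc, zd, zc', zd', ze'⟩ := coeffs h6 hab k3 (neg_eq_zero.1 k2) k1 k0 m0 m1
  have hx0 : D1 (x1 K a b) = 0 := by rw [hx, zc, zd, map_zero, zero_mul, add_zero]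
  have hy0 : D1 (y1 K a b) = 0 := by
    rw [hy, zc', zd', ze', map_zero, zero_mul, zero_mul, add_zero, add_zero]
  have hDX : D12 (g1 K a b (x1 K a b)) = 0 := by rw [r1, hx0, map_zero]
  have hDY : D12 (g1 K a b (y1 K a b)) = 0 := by rw [r1, hy0, map_zero]
  have hDZ : D12 (zu K a b : A12 K a b) = 0 := by
    have h := congrArg D12 hYX
    rw [l12, hDX, hDY, mul_zero, add_zero] at h
    linear_combination (zu K a b : A12 K a b) ^ 3 * (tu K a b : A12 K a b) * h -
      D12 (zu K a b : A12 K a b) * hYt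
  have hDT : D12 (tu K a b : A12 K a b) = 0 := by
    rw [hx0, map_zero, hDZ] at eX
    linear_combination (tu K a b : A12 K a b) * eX - D12 (tu K a b : A12 K a b) * hXt
  refine ⟨der_zero _ D1 l1 c1 hx0 hy0, der_zero _ D2 l2 c2 ?_ ?_⟩
  · apply w3
    rw [map_zero, ← hDZ, hzv]
    exact (r2 (z2 K a b)).symm
  · apply w3
    rw [map_zero, ← hDT, htv]
    exact (r2 (t2 K a b)).symm

section geo

variable {A : Type} [CommRing A] {n : ℕ} {K : Type} [Field K] {F : Fam n K} (v : VField F)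
  (i : Sp A ⟶ F.X) [IsOpenImmersion i]

/-- Functions on the range of an affine chart. -/
noncomputable def ev : Γ(F.X, i.opensRange) ≃+* A :=
  RingEquiv.ofBijective (evO i i.opensRange (range_pre i))
    (evO_bij i (range_pre i) (fun _ hx => hx))

theorem ev_apply (f : Γ(F.X, i.opensRange)) :
    ev i f = evO i i.opensRange (range_pre i) f := rfl

/-- The derivation of an affine chart. -/
noncomputable def der : A →+ A :=
  (ev i).toAddEquiv.toAddMonoidHom.comp
    ((v.D i.opensRange).comp (ev i).symm.toAddEquiv.toAddMonoidHom)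

theorem der_apply (f : A) : der v i f = ev i (v.D i.opensRange ((ev i).symm f)) := rfl

theorem der_mul (f g : A) : der v i (f * g) = f * der v i g + g * der v i f := by
  rw [der_apply, der_apply, der_apply, map_mul, v.mul, map_add, map_mul, map_mul,
    RingEquiv.apply_symm_apply, RingEquiv.apply_symm_apply]

theorem der_const (ψ : K →+* A) (hψ : i ≫ F.π = spMap ψ) (c : K) : der v i (ψ c) = 0 := by
  have h : (ev i).symm (ψ c) = coef F.π i.opensRange c := by
    rw [RingEquiv.symm_apply_eq, ev_apply]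
    exact (evO_coef i F.π ψ hψ (range_pre i) c).symm
  rw [der_apply, h, v.const, map_zero]

/-- Compatibility with restriction. -/
theorem der_res {A' : Type} [CommRing A'] (g : A →+* A') (j : Sp A' ⟶ F.X)
    [IsOpenImmersion j] (hj : j = spMap g ≫ i) (f : A) : der v j (g f) = g (der v i f) := by
  subst hj
  have hle : (spMap g ≫ i).opensRange ≤ i.opensRange := by
    rintro _ ⟨p, rfl⟩
    exact ⟨spMap g p, by simp⟩
  have hr : ∀ u : Γ(F.X, i.opensRange), ev (spMap g ≫ i) (rs F.X hle u) = g (ev i u) := by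
    intro u
    have h' : ⊤ ≤ (spMap g ≫ i) ⁻¹ᵁ i.opensRange := by
      intro p _
      exact ⟨spMap g p, by simp⟩
    rw [ev_apply, ev_apply, evO_rs (spMap g ≫ i) hle (range_pre _) h' u]
    exact evO_spMap i g (range_pre i) h' u
  have h1 : (ev (spMap g ≫ i)).symm (g f) = rs F.X hle ((ev i).symm f) := by
    rw [RingEquiv.symm_apply_eq, hr, RingEquiv.apply_symm_apply]
  rw [der_apply, h1, RIG.dres, hr, ← der_apply]

/-- Values at a section. -/
theorem der_sec (l : Fin n) (g : A →+* K) (hl : F.σ l = spMap g ≫ i) (f : A) :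
    g (der v i f) = 0 := by
  have h' : ⊤ ≤ (spMap g ≫ i) ⁻¹ᵁ i.opensRange := by
    intro p _
    exact ⟨spMap g p, by simp⟩
  have h := v.sec i.opensRange l ((ev i).symm f)
  rw [hl] at h
  have h2 : evO (spMap g ≫ i) i.opensRange h' (v.D i.opensRange ((ev i).symm f)) = 0 := by
    have h3 : ((spMap g ≫ i).appLE i.opensRange ⊤ h').hom
        (v.D i.opensRange ((ev i).symm f)) = 0 :=
      (congrArg ((Sp K).presheaf.map (homOfLE h').op).hom h).trans (map_zero _)
    unfold evO
    rw [RingHom.comp_apply, h3, map_zero]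
  rw [der_apply, ev_apply, ← evO_spMap i g (range_pre i) h', h2]

theorem der_zero_iff (h : ∀ f, der v i f = 0) : v.D i.opensRange = 0 := by
  ext s
  have h1 := h (ev i s)
  rw [der_apply, RingEquiv.symm_apply_apply] at h1
  exact (map_eq_zero_iff _ (ev i).injective).1 h1

end geo

end WRI

open WRI in
theorem t_WRI (hWRG : Stmt_WRG) : Stmt_WRI := by
  intro m K _ P h6 hab v U
  let i1 : Sp (A1 K P.a P.b) ⟶ (Wei P).X := WX.in1 K P.a P.b
  let i2 : Sp (A2 K P.a P.b) ⟶ (Wei P).X := WX.in2 K P.a P.b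
  have o1 : IsOpenImmersion i1 := inferInstanceAs (IsOpenImmersion (WX.in1 K P.a P.b))
  have o2 : IsOpenImmersion i2 := inferInstanceAs (IsOpenImmersion (WX.in2 K P.a P.b))
  have hcond : spMap (g1 K P.a P.b) ≫ i1 = spMap (g2 K P.a P.b) ≫ i2 := pushout.condition
  have o12 : IsOpenImmersion (spMap (g1 K P.a P.b) ≫ i1) := inferInstance
  have hπ1 : i1 ≫ (Wei P).π = spMap (algebraMap K _) := WX.in1_pr K P.a P.b
  have hπ2 : i2 ≫ (Wei P).π = spMap (algebraMap K _) := WX.in2_pr K P.a P.b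
  obtain ⟨z1, z2⟩ := alg P.a P.b h6 hab hWRG (der v i1) (der v i2)
    (der v (spMap (g1 K P.a P.b) ≫ i1)) (der_mul v i1) (der_const v i1 _ hπ1) (der_mul v i2)
    (der_const v i2 _ hπ2) (der_mul v _) (der_res v i1 (g1 K P.a P.b) _ rfl)
    (der_res v i2 (g2 K P.a P.b) _ hcond) (der_sec v i2 0 (inf2 K P.a P.b) rfl)
  exact RIG.all0 v (glue2_range (spMap (g1 K P.a P.b)) (spMap (g2 K P.a P.b)))
    (isAffineOpen_opensRange i1) (isAffineOpen_opensRange i2) (der_zero_iff v i1 z1)
    (der_zero_iff v i2 z2) U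

end Pool.Agent.MG.W
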