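import Pool.Agent.MG.W.Stmts

/-!
# WSC: scaling of Weierstrass families
-/

open CategoryTheory CategoryTheory.Limits AlgebraicGeometry TensorProduct

namespace Pool.Agent.MG.W

namespace WSC

section

variable {B : Type} [CommRing B] {a b a' b' u v : B}

theorem pow_cancel {R : Type} [CommRing R] {p q : R} (h : p * q = 1) (n : ℕ) (x : R) :
    p ^ n * (q ^ n * x) = x := by
  rw [← mul_assoc, ← mul_pow, h, one_pow, one_mul]

theorem alg_mul {R : Type} [CommRing R] [Algebra B R] (huv : u * v = 1) :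
    algebraMap B R u * algebraMap B R v = 1 := by
  rw [← map_mul, huv, map_one]

theorem sc1_sc1 (huv : u * v = 1) (ha : a' = u ^ 4 * a) (hb : b' = u ^ 6 * b)
    (hvu : v * u = 1) (ha' : a = v ^ 4 * a') (hb' : b = v ^ 6 * b') :
    (sc1 huv ha hb).comp (sc1 hvu ha' hb') = RingHom.id (A1 B a' b') := by
  refine hom1_ext ?_ ?_ ?_
  · intro c
    rw [RingHom.comp_apply, sc1_b, sc1_b]
    rfl
  · rw [RingHom.comp_apply, sc1_x, map_mul, map_pow, sc1_b, sc1_x]
    exact pow_cancel (alg_mul huv) 2 _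
  · rw [RingHom.comp_apply, sc1_y, map_mul, map_pow, sc1_b, sc1_y]
    exact pow_cancel (alg_mul huv) 3 _

theorem sc2_sc2 (huv : u * v = 1) (ha : a' = u ^ 4 * a) (hb : b' = u ^ 6 * b)
    (ha' : a = v ^ 4 * a') (hb' : b = v ^ 6 * b') :
    (sc2 ha hb).comp (sc2 ha' hb') = RingHom.id (A2 B a' b') := by
  refine hom2_ext ?_ ?_ ?_
  · intro c
    rw [RingHom.comp_apply, sc2_b, sc2_b]
    rfl
  · rw [RingHom.comp_apply, sc2_z, map_mul, sc2_b, sc2_z, ← mul_assoc, mul_comm (algebraMap B _ v),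
      alg_mul huv, one_mul]
    rfl
  · rw [RingHom.comp_apply, sc2_t, sc2_t]
    rfl

theorem spMap_id (A : Type) [CommRing A] : spMap (RingHom.id A) = 𝟙 (Sp A) :=
  Spec.map_id (CommRingCat.of A)

theorem sc_sc (huv : u * v = 1) (ha : a' = u ^ 4 * a) (hb : b' = u ^ 6 * b)
    (hvu : v * u = 1) (ha' : a = v ^ 4 * a') (hb' : b = v ^ 6 * b') :
    WX.sc huv ha hb ≫ WX.sc hvu ha' hb' = 𝟙 (WX B a' b') := by
  refine WX.ext' ?_ ?_
  · rw [WX.in1_sc_assoc, WX.in1_sc, ← Category.assoc, spMap_comp', sc1_sc1, spMap_id,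
      Category.id_comp, Category.comp_id]
  · rw [WX.in2_sc_assoc, WX.in2_sc, ← Category.assoc, spMap_comp', sc2_sc2 huv, spMap_id,
      Category.id_comp, Category.comp_id]

theorem inv_eq (huv : u * v = 1) {n : ℕ} {p q : B} (h : q = u ^ n * p) : p = v ^ n * q := by
  rw [h, ← mul_assoc, ← mul_pow, mul_comm v, huv, one_pow, one_mul]

theorem isIso (huv : u * v = 1) (ha : a' = u ^ 4 * a) (hb : b' = u ^ 6 * b) :
    IsIso (WX.sc huv ha hb) := by
  have hvu : v * u = 1 := by rw [mul_comm, huv]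
  exact ⟨WX.sc hvu (inv_eq huv ha) (inv_eq huv hb), sc_sc _ _ _ _ _ _, sc_sc _ _ _ _ _ _⟩

end

theorem sec {m : ℕ} {B : Type} [CommRing B] {u v : B} (huv : u * v = 1) (P P' : WD m B)
    (h : P.Sc u P') (i : Fin (m + 1)) :
    (Wei P').σ i ≫ WX.sc huv h.a h.b = (Wei P).σ i := by
  refine Fin.cases ?_ (fun i => ?_) i
  · change (spMap (inf2 B P'.a P'.b) ≫ WX.in2 B P'.a P'.b) ≫ WX.sc huv h.a h.b =
      spMap (inf2 B P.a P.b) ≫ WX.in2 B P.a P.b
    rw [Category.assoc, WX.in2_sc, ← Category.assoc, spMap_comp']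
    congr 2
    refine hom2_ext ?_ ?_ ?_
    · intro c
      rw [RingHom.comp_apply, sc2_b, inf2, lift2_b, inf2, lift2_b]
    · rw [RingHom.comp_apply, sc2_z, map_mul, inf2, lift2_z, inf2, lift2_z, mul_zero]
    · rw [RingHom.comp_apply, sc2_t, inf2, lift2_t, inf2, lift2_t]
  · change (spMap (pt1 P' i) ≫ WX.in1 B P'.a P'.b) ≫ WX.sc huv h.a h.b =
      spMap (pt1 P i) ≫ WX.in1 B P.a P.b
    rw [Category.assoc, WX.in1_sc, ← Category.assoc, spMap_comp']
    have hvu : v * u = 1 := by rw [mul_comm, huv]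
    congr 2
    refine hom1_ext ?_ ?_ ?_
    · intro c
      rw [RingHom.comp_apply, sc1_b, pt1, lift1_b, pt1, lift1_b]
    · rw [RingHom.comp_apply, sc1_x, map_mul, map_pow, pt1, lift1_b, lift1_x, pt1, lift1_x, h.x]
      exact pow_cancel hvu 2 _
    · rw [RingHom.comp_apply, sc1_y, map_mul, map_pow, pt1, lift1_b, lift1_y, pt1, lift1_y, h.y]
      exact pow_cancel hvu 3 _

theorem base {B B' : Type} [CommRing B] [CommRing B'] (φ : B →+* B') {a b a' b' u v : B}
    (huv : u * v = 1) (ha : a' = u ^ 4 * a) (hb : b' = u ^ 6 * b) {c d c' d' w s : B'}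
    (hws : w * s = 1) (hc : c' = w ^ 4 * c) (hd : d' = w ^ 6 * d) (h1 : c = φ a) (h2 : d = φ b)
    (h3 : c' = φ a') (h4 : d' = φ b') (hw : w = φ u) :
    WX.sc hws hc hd ≫ WX.map φ h1 h2 = WX.map φ h3 h4 ≫ WX.sc huv ha hb := by
  have hs : φ v = s := by
    have h5 : w * φ v = 1 := by rw [hw, ← map_mul, huv, map_one]
    calc φ v = (w * s) * φ v := by rw [hws, one_mul]
      _ = s * (w * φ v) := by ring
      _ = s := by rw [h5, mul_one]
  refine WX.ext' ?_ ?_
  · rw [WX.in1_sc_assoc, WX.in1_map, WX.in1_map_assoc, WX.in1_sc, ← Category.assoc,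
      ← Category.assoc, spMap_comp', spMap_comp']
    congr 2
    refine hom1_ext ?_ ?_ ?_
    · intro c
      rw [RingHom.comp_apply, RingHom.comp_apply, bc1_b, sc1_b, sc1_b, bc1_b]
    · rw [RingHom.comp_apply, RingHom.comp_apply, bc1_x, sc1_x, sc1_x, map_mul, map_pow, bc1_b,
        bc1_x, hs]
    · rw [RingHom.comp_apply, RingHom.comp_apply, bc1_y, sc1_y, sc1_y, map_mul, map_pow, bc1_b,
        bc1_y, hs]
  · rw [WX.in2_sc_assoc, WX.in2_map, WX.in2_map_assoc, WX.in2_sc, ← Category.assoc,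
      ← Category.assoc, spMap_comp', spMap_comp']
    congr 2
    refine hom2_ext ?_ ?_ ?_
    · intro c
      rw [RingHom.comp_apply, RingHom.comp_apply, bc2_b, sc2_b, sc2_b, bc2_b]
    · rw [RingHom.comp_apply, RingHom.comp_apply, bc2_z, sc2_z, sc2_z, map_mul, bc2_b,
        bc2_z, hw]
    · rw [RingHom.comp_apply, RingHom.comp_apply, bc2_t, sc2_t, sc2_t, bc2_t]

end WSC

theorem t_WSC : Stmt_WSC :=
  ⟨fun huv ha hb => WSC.isIso huv ha hb, fun huv P P' h i => WSC.sec huv P P' h i,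
    fun φ _ _ _ _ _ _ huv ha hb _ _ _ _ _ _ hws hc hd h1 h2 h3 h4 hw =>
      WSC.base φ huv ha hb hws hc hd h1 h2 h3 h4 hw⟩

end Pool.Agent.MG.W
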