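import Pool.Agent.MG.W.Stmts
import Pool.Agent.MG.Local2

/-!
# WSM: smoothness of Weierstrass curves
-/

open CategoryTheory CategoryTheory.Limits AlgebraicGeometry TensorProduct

namespace Pool.Agent.MG.W

namespace WSM

section alg

variable {K : Type} [CommRing K]

/-- The presentation of a plane curve. -/
noncomputable def pre (F : MvPolynomial (Fin 2) K) (j : Fin 2) :
    Algebra.PreSubmersivePresentation K (MvPolynomial (Fin 2) K ⧸ Ideal.span {F}) (Fin 2) Unit where
  __ := Algebra.Generators.naive (I := Ideal.span {F})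
  relation := fun _ => F
  span_range_relation_eq_ker := by
    rw [Set.range_const]
    exact (Algebra.Generators.ker_naive _ _).symm
  map := fun _ => j
  map_inj := fun _ _ _ => rfl

theorem pre_jacobian (F : MvPolynomial (Fin 2) K) (j : Fin 2) :
    (pre F j).jacobian = Ideal.Quotient.mk (Ideal.span {F}) (MvPolynomial.pderiv j F) := by
  rw [Algebra.PreSubmersivePresentation.jacobian_eq_jacobiMatrix_det, Matrix.det_unique,
    Algebra.PreSubmersivePresentation.jacobiMatrix_apply]
  rfl

/-- Plane curves are standard smooth of relative dimension one where a derivative is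
invertible. -/
theorem std (F : MvPolynomial (Fin 2) K) (j : Fin 2) (T : Type) [CommRing T]
    [Algebra (MvPolynomial (Fin 2) K ⧸ Ideal.span {F}) T] [Algebra K T]
    [IsScalarTower K (MvPolynomial (Fin 2) K ⧸ Ideal.span {F}) T]
    [IsLocalization.Away
      (Ideal.Quotient.mk (Ideal.span {F}) (MvPolynomial.pderiv j F)) T] :
    Algebra.IsStandardSmoothOfRelativeDimension 1 K T := by
  set g := Ideal.Quotient.mk (Ideal.span {F}) (MvPolynomial.pderiv j F) with hg
  have hΔ : IsUnit (algebraMap (MvPolynomial (Fin 2) K ⧸ Ideal.span {F}) T g) :=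
    IsLocalization.Away.algebraMap_isUnit _
  let P : Algebra.SubmersivePresentation K T _ _ :=
    { toPreSubmersivePresentation :=
        .comp (.localizationAway T g) (pre F j),
      jacobian_isUnit := by
        rw [Algebra.PreSubmersivePresentation.comp_jacobian_eq_jacobian_smul_jacobian,
          Algebra.PreSubmersivePresentation.localizationAway_jacobian, pre_jacobian, ← hg,
          Algebra.smul_def]
        exact hΔ.mul hΔ }
  exact ⟨_, _, _, inferInstance, P, by
      simp only [Algebra.PreSubmersivePresentation.dimension_comp_eq_dimension_add_dimension, P]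
      simp [Algebra.Presentation.dimension]⟩

theorem loc (F : MvPolynomial (Fin 2) K)
    (h : Ideal.span {Ideal.Quotient.mk (Ideal.span {F}) (MvPolynomial.pderiv 0 F),
      Ideal.Quotient.mk (Ideal.span {F}) (MvPolynomial.pderiv 1 F)} = ⊤) :
    SmoothOfRelativeDimension 1
      (spMap (algebraMap K (MvPolynomial (Fin 2) K ⧸ Ideal.span {F}))) := by
  refine (HasRingHomProperty.Spec_iff (P := @SmoothOfRelativeDimension 1)).2
    ⟨_, h, fun t ht => ?_⟩
  have key : ∀ j : Fin 2, t = Ideal.Quotient.mk (Ideal.span {F}) (MvPolynomial.pderiv j F) →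
      RingHom.IsStandardSmoothOfRelativeDimension 1
        ((algebraMap (MvPolynomial (Fin 2) K ⧸ Ideal.span {F}) (Localization.Away t)).comp
          (algebraMap K (MvPolynomial (Fin 2) K ⧸ Ideal.span {F}))) := by
    rintro j rfl
    rw [← IsScalarTower.algebraMap_eq, RingHom.isStandardSmoothOfRelativeDimension_algebraMap]
    exact std F j _
  rcases ht with rfl | ht
  · exact key 0 rfl
  · exact key 1 ht

theorem smooth_away (F : MvPolynomial (Fin 2) K) (j : Fin 2) :
    Smooth (spMap (algebraMap K (Localization.Away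
      (Ideal.Quotient.mk (Ideal.span {F}) (MvPolynomial.pderiv j F))))) := by
  refine (HasRingHomProperty.Spec_iff (P := @Smooth)).2 ?_
  have h := std F j (Localization.Away
    (Ideal.Quotient.mk (Ideal.span {F}) (MvPolynomial.pderiv j F)))
  rw [← RingHom.isStandardSmoothOfRelativeDimension_algebraMap] at h
  exact h.isStandardSmooth.smooth

end alg

section eqs

variable {K : Type} [CommRing K] (a b : K)

theorem d10 : Ideal.Quotient.mk (Ideal.span {eq1 K a b}) (MvPolynomial.pderiv 0 (eq1 K a b)) =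
    -(3 * x1 K a b ^ 2 + algebraMap K _ a) := by
  have h : MvPolynomial.pderiv 0 (eq1 K a b) =
      -(3 * MvPolynomial.X 0 ^ 2 + MvPolynomial.C a) := by
    simp [eq1, MvPolynomial.pderiv_X]
    ring
  rw [h, map_neg, map_add, map_mul, map_pow]
  rfl

theorem d11 : Ideal.Quotient.mk (Ideal.span {eq1 K a b}) (MvPolynomial.pderiv 1 (eq1 K a b)) =
    2 * y1 K a b := by
  have h : MvPolynomial.pderiv 1 (eq1 K a b) = 2 * MvPolynomial.X 1 := by
    simp [eq1, MvPolynomial.pderiv_X]
  rw [h, map_mul]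
  rfl

theorem d20 : Ideal.Quotient.mk (Ideal.span {eq2 K a b}) (MvPolynomial.pderiv 0 (eq2 K a b)) =
    -(4 * algebraMap K _ a * z2 K a b ^ 3 * t2 K a b ^ 2 +
      6 * algebraMap K _ b * z2 K a b ^ 5 * t2 K a b ^ 3) := by
  have h : MvPolynomial.pderiv 0 (eq2 K a b) =
      -(4 * MvPolynomial.C a * MvPolynomial.X 0 ^ 3 * MvPolynomial.X 1 ^ 2 +
        6 * MvPolynomial.C b * MvPolynomial.X 0 ^ 5 * MvPolynomial.X 1 ^ 3) := by
    simp [eq2, MvPolynomial.pderiv_X]
    ring
  rw [h]
  simp only [map_neg, map_add, map_mul, map_pow]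
  rfl

theorem d21 : Ideal.Quotient.mk (Ideal.span {eq2 K a b}) (MvPolynomial.pderiv 1 (eq2 K a b)) =
    1 - 2 * algebraMap K _ a * z2 K a b ^ 4 * t2 K a b -
      3 * algebraMap K _ b * z2 K a b ^ 6 * t2 K a b ^ 2 := by
  have h : MvPolynomial.pderiv 1 (eq2 K a b) =
      1 - 2 * MvPolynomial.C a * MvPolynomial.X 0 ^ 4 * MvPolynomial.X 1 -
        3 * MvPolynomial.C b * MvPolynomial.X 0 ^ 6 * MvPolynomial.X 1 ^ 2 := by
    simp [eq2, MvPolynomial.pderiv_X]
    ring
  rw [h]
  simp only [map_sub, map_mul, map_pow, map_one]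
  rfl

end eqs

section field

variable {K : Type} [Field K] (a b : K)

theorem span1 (h6 : (6 : K) ≠ 0) (hD : 4 * a ^ 3 + 27 * b ^ 2 ≠ 0) :
    Ideal.span {Ideal.Quotient.mk (Ideal.span {eq1 K a b}) (MvPolynomial.pderiv 0 (eq1 K a b)),
      Ideal.Quotient.mk (Ideal.span {eq1 K a b}) (MvPolynomial.pderiv 1 (eq1 K a b))} = ⊤ := by
  rw [Ideal.eq_top_iff_one, Ideal.mem_span_pair, d10, d11]
  have h2 : (2 : K) ≠ 0 := by
    intro h
    apply h6
    rw [show (6 : K) = 2 * 3 by norm_num, h, zero_mul]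
  have h := rel1 K a b
  have hi : algebraMap K (A1 K a b) ((2 * (4 * a ^ 3 + 27 * b ^ 2))⁻¹) *
      (2 * (4 * algebraMap K (A1 K a b) a ^ 3 + 27 * algebraMap K (A1 K a b) b ^ 2)) = 1 := by
    have h3 : (2 * (4 * algebraMap K (A1 K a b) a ^ 3 + 27 * algebraMap K (A1 K a b) b ^ 2)) =
        algebraMap K (A1 K a b) (2 * (4 * a ^ 3 + 27 * b ^ 2)) := by
      simp only [map_mul, map_add, map_pow, map_ofNat]
    rw [h3, ← map_mul, inv_mul_cancel₀ (mul_ne_zero h2 hD), map_one]
  generalize algebraMap K (A1 K a b) ((2 * (4 * a ^ 3 + 27 * b ^ 2))⁻¹) = i at *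
  generalize algebraMap K (A1 K a b) a = α at *
  generalize algebraMap K (A1 K a b) b = β at *
  generalize x1 K a b = x at *
  generalize y1 K a b = y at *
  refine ⟨-(2 * (6 * α * x ^ 2 - 9 * β * x + 4 * α ^ 2) * i), -((18 * α * x - 27 * β) * y * i), ?_⟩
  linear_combination (-2 * i * (18 * α * x - 27 * β)) * h + hi

theorem span2 (h6 : (6 : K) ≠ 0) (hD : 4 * a ^ 3 + 27 * b ^ 2 ≠ 0) :
    Ideal.span {Ideal.Quotient.mk (Ideal.span {eq2 K a b}) (MvPolynomial.pderiv 0 (eq2 K a b)),
      Ideal.Quotient.mk (Ideal.span {eq2 K a b}) (MvPolynomial.pderiv 1 (eq2 K a b))} = ⊤ := by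
  rw [Ideal.eq_top_iff_one, Ideal.mem_span_pair, d20, d21]
  have h2 : (2 : K) ≠ 0 := by
    intro h
    apply h6
    rw [show (6 : K) = 2 * 3 by norm_num, h, zero_mul]
  have h := rel2 K a b
  have hi : algebraMap K (A2 K a b) ((2 * (4 * a ^ 3 + 27 * b ^ 2))⁻¹) *
      (2 * (4 * algebraMap K (A2 K a b) a ^ 3 + 27 * algebraMap K (A2 K a b) b ^ 2)) = 1 := by
    have h3 : (2 * (4 * algebraMap K (A2 K a b) a ^ 3 + 27 * algebraMap K (A2 K a b) b ^ 2)) =
        algebraMap K (A2 K a b) (2 * (4 * a ^ 3 + 27 * b ^ 2)) := by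
      simp only [map_mul, map_add, map_pow, map_ofNat]
    rw [h3, ← map_mul, inv_mul_cancel₀ (mul_ne_zero h2 hD), map_one]
  generalize algebraMap K (A2 K a b) ((2 * (4 * a ^ 3 + 27 * b ^ 2))⁻¹) = i at *
  generalize algebraMap K (A2 K a b) a = α at *
  generalize algebraMap K (A2 K a b) b = β at *
  generalize z2 K a b = z at *
  generalize t2 K a b = t at *
  refine ⟨-(i * z * (18 * β ^ 2 * (z ^ 2 * t) ^ 2 - 3 * α * β * (z ^ 2 * t) + 2 * α ^ 2) *
    (α + 2 * β * (z ^ 2 * t))),
    2 * i * (4 * α ^ 3 + 27 * β ^ 2 + 27 * β ^ 2 * (z ^ 2 * t) ^ 2 * (α + 2 * β * (z ^ 2 * t))) * t,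
    ?_⟩
  linear_combination (2 * i * (4 * α ^ 3 + 27 * β ^ 2 +
    27 * β ^ 2 * (z ^ 2 * t) ^ 2 * (α + 2 * β * (z ^ 2 * t)))) * h + hi

end field

/-- A smooth open neighbourhood of a section. -/
theorem exists_open {K R : Type} [CommRing K] [CommRing R] [Algebra K R] {X : Scheme.{0}}
    (π : X ⟶ Sp K) (j : Sp R ⟶ X) [IsOpenImmersion j] (hj : j ≫ π = spMap (algebraMap K R))
    (g : R) (hg : Smooth (spMap (algebraMap K (Localization.Away g)))) (φ : R →+* K)
    (hφ : IsUnit (φ g)) (s : Sp K) : ∃ U : X.Opens, (spMap φ ≫ j) s ∈ U ∧ Smooth (U.ι ≫ π) := by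
  let l : Localization.Away g →+* K := IsLocalization.Away.lift g hφ
  have hl : l.comp (algebraMap R (Localization.Away g)) = φ :=
    IsLocalization.Away.lift_comp (x := g) hφ
  let i : Sp (Localization.Away g) ⟶ X := spMap (algebraMap R (Localization.Away g)) ≫ j
  have hi : IsOpenImmersion i := inferInstance
  have h1 : spMap φ ≫ j = spMap l ≫ i := by
    have : spMap φ = spMap l ≫ spMap (algebraMap R (Localization.Away g)) := by
      rw [← Spec.map_comp]
      congr 1
      rw [← hl]
      rfl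
    rw [this, Category.assoc]
  refine ⟨i.opensRange, ⟨(spMap l) s, ?_⟩, ?_⟩
  · rw [h1]
    rfl
  · rw [← IsOpenImmersion.isoOfRangeEq_inv_fac i (Scheme.Opens.ι _)
        (congr_arg TopologicalSpace.Opens.carrier i.opensRange.opensRange_ι.symm), Category.assoc,
        MorphismProperty.cancel_left_of_respectsIso @Smooth]
    have h2 : i ≫ π = spMap (algebraMap K (Localization.Away g)) := by
      change (spMap (algebraMap R (Localization.Away g)) ≫ j) ≫ π = _
      rw [Category.assoc, hj, ← Spec.map_comp]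
      rfl
    rw [h2]
    exact hg

end WSM

open WSM

theorem t_WSM : Stmt_WSM := by
  refine ⟨?_, ?_⟩
  · intro K _ a b h6 hD
    refine two_source (@SmoothOfRelativeDimension 1) (WX.in1 K a b) (WX.in2 K a b)
      (glue2_surj _ _) _ ?_ ?_
    · rw [WX.in1_pr]
      exact loc _ (span1 a b h6 hD)
    · rw [WX.in2_pr]
      exact loc _ (span2 a b h6 hD)
  · intro m K _ P h6
    refine ⟨fun s => ?_, fun i hy s => ?_⟩
    · exact exists_open (WX.pr K P.a P.b) (WX.in2 K P.a P.b) (WX.in2_pr K P.a P.b) _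
        (smooth_away (eq2 K P.a P.b) 1) (inf2 K P.a P.b) (by
          rw [d21]
          simp only [map_sub, map_mul, map_pow, map_one]
          unfold inf2
          rw [lift2_z]
          simp) s
    · exact exists_open (WX.pr K P.a P.b) (WX.in1 K P.a P.b) (WX.in1_pr K P.a P.b) _
        (smooth_away (eq1 K P.a P.b) 1) (pt1 P i) (by
          rw [d11, map_mul]
          unfold pt1
          rw [lift1_y, map_ofNat]
          refine (mul_ne_zero ?_ hy).isUnit
          intro h
          apply h6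
          rw [show (6 : K) = 2 * 3 by norm_num, h, zero_mul]) s

end Pool.Agent.MG.W
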