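import Pool.Agent.MG.W.Stmts
import Pool.Agent.MG.FIS

/-!
# Stable Weierstrass families (module MW_WST)
-/

set_option autoImplicit false

open CategoryTheory CategoryTheory.Limits AlgebraicGeometry TensorProduct

namespace Pool.Agent.MG.W

namespace WST

variable {m : ℕ} {B K : Type} [CommRing B] [Field K]

/-- A fibre of a Weierstrass family is isomorphic to the Weierstrass curve with the images of the
coefficients. -/
theorem fibre (hWBC : Stmt_WBC) (P : WD m B) (s : B →+* K) (z : Fam (m + 1) K)
    (a : Arrow s z (Wei P)) : ∃ f : Arrow (RingHom.id K) z (Wei (P.map s)), IsIso f.f := by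
  have hbc := WD.map_bc s P
  have h1 : IsPullback (wmap s hbc) (Wei (P.map s)).π (Wei P).π (spMap s) := hWBC s hbc.a hbc.b
  let e : z.X ≅ (Wei (P.map s)).X := a.cart.isoIsPullback _ _ h1
  have e1 : e.hom ≫ wmap s hbc = a.f := a.cart.isoIsPullback_hom_fst _ _ h1
  have e2 : e.hom ≫ (Wei (P.map s)).π = z.π := a.cart.isoIsPullback_hom_snd _ _ h1
  refine ⟨⟨e.hom, ?_, ?_⟩, ?_⟩
  · have : IsIso (spMap (RingHom.id K)) := by
      rw [FIS.spMap_id]
      infer_instance
    refine IsPullback.of_horiz_isIso ⟨?_⟩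
    rw [e2, FIS.spMap_id, Category.comp_id]
  · intro i
    rw [FIS.spMap_id, Category.id_comp]
    refine h1.hom_ext ?_ ?_
    · rw [Category.assoc, e1, a.sec i, wmap_sec]
    · rw [Category.assoc, e2, z.sec i, (Wei (P.map s)).sec i]
  · show IsIso e.hom
    infer_instance

/-- Stability of a fibre. -/
theorem fib (hWBC : Stmt_WBC) (P : WD m B) (s : B →+* K) (z : Fam (m + 1) K)
    (a : Arrow s z (Wei P)) (h : StableCurve 1 (Wei (P.map s))) : StableCurve 1 z := by
  obtain ⟨f, hf⟩ := fibre hWBC P s z a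
  exact t_FIS.2 1 z (Wei (P.map s)) f hf h

end WST

theorem t_WST (hWPR : Stmt_WPR) (hWBC : Stmt_WBC) (hWFI : Stmt_WFI) : Stmt_WST := by
  constructor
  · intro m B _ P hP
    obtain ⟨p1, p2, p3⟩ := hWPR B P.a P.b
    refine ⟨p1, p2, p3, ?_⟩
    rintro K _ _ s z ⟨a⟩
    refine WST.fib hWBC P s z a (hWFI (P.map s) ?_ ?_ (Or.inr ?_) ?_)
    · have h6 := (hP.six.map s).ne_zero
      rwa [map_ofNat] at h6
    · by_contra hcon
      push Not at hcon
      obtain ⟨ha, hb⟩ := hcon
      have ha' : s P.a = 0 := ha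
      have hb' : s P.b = 0 := hb
      have h1 : (1 : B) ∈ Ideal.span {P.a, P.b} := by rw [hP.ab]; exact Submodule.mem_top
      obtain ⟨c, d, hcd⟩ := Ideal.mem_span_pair.1 h1
      have h2 := congrArg s hcd
      rw [map_add, map_mul, map_mul, ha', hb', mul_zero, mul_zero, add_zero, map_one] at h2
      exact zero_ne_one h2
    · intro i
      exact ((hP.y i).map s).ne_zero
    · intro i j hij
      left
      have h1 := ((hP.x i j hij).map s).ne_zero
      rw [map_sub] at h1
      exact sub_ne_zero.1 h1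
  · intro m K' _ P h6 hdisc hdist
    obtain ⟨p1, p2, p3⟩ := hWPR K' P.a P.b
    refine ⟨p1, p2, p3, ?_⟩
    rintro K _ _ s z ⟨a⟩
    have hinj : Function.Injective s := s.injective
    refine WST.fib hWBC P s z a (hWFI (P.map s) ?_ ?_ (Or.inl ?_) ?_)
    · have h := (map_ne_zero_iff s hinj).2 h6
      rwa [map_ofNat] at h
    · by_contra hcon
      push Not at hcon
      obtain ⟨ha, hb⟩ := hcon
      have ha' : P.a = 0 := (map_eq_zero_iff s hinj).1 ha
      have hb' : P.b = 0 := (map_eq_zero_iff s hinj).1 hb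
      apply hdisc
      rw [ha', hb']
      ring
    · have h := (map_ne_zero_iff s hinj).2 hdisc
      rw [map_add, map_mul, map_mul, map_pow, map_pow, map_ofNat, map_ofNat] at h
      exact h
    · intro i j hij
      rcases hdist i j hij with h | h
      · exact Or.inl fun he => h (hinj he)
      · exact Or.inr fun he => h (hinj he)

end Pool.Agent.MG.W
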