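import Pool.Agent.MG.W.Stmts

/-!
# WTS: the weights
-/

open CategoryTheory CategoryTheory.Limits AlgebraicGeometry TensorProduct

namespace Pool.Agent.MG.W

namespace WTS

variable {k : Type} [Field k] [IsAlgClosed k]

/-- Polynomials which agree at almost all points are equal. -/
theorem eq_of_eval (D : Polynomial k) (hD : D ≠ 0) (A B : Polynomial k)
    (h : ∀ u : k, u ≠ 0 → D.eval u ≠ 0 → A.eval u = B.eval u) : A = B := by
  have h1 : (A - B) * (Polynomial.X * D) = 0 := by
    apply Polynomial.funext
    intro u
    rw [Polynomial.eval_mul, Polynomial.eval_sub, Polynomial.eval_mul, Polynomial.eval_X,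
      Polynomial.eval_zero]
    by_cases hu : u = 0
    · rw [hu]
      ring
    by_cases hd : D.eval u = 0
    · rw [hd]
      ring
    · rw [h u hu hd]
      ring
  have h2 : (Polynomial.X * D : Polynomial k) ≠ 0 := mul_ne_zero Polynomial.X_ne_zero hD
  exact sub_eq_zero.1 ((mul_eq_zero.1 h1).resolve_right h2)

/-- One variable: `p(u⁻¹ ^ 6) = p'(u)` for almost all `u` forces both sides to be constant. -/
theorem one_var (D : Polynomial k) (hD : D ≠ 0) (p p' : Polynomial k)
    (h : ∀ u : k, u ≠ 0 → D.eval u ≠ 0 → p.eval (u⁻¹ ^ 6) = p'.eval u) :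
    p = Polynomial.C (p'.eval 0) ∧ p' = Polynomial.C (p'.eval 0) := by
  have h1 : Polynomial.expand k 6 p.reverse = Polynomial.X ^ (6 * p.natDegree) * p' := by
    apply eq_of_eval D hD
    intro u hu hd
    have hx : (u⁻¹ ^ 6 : k) ≠ 0 := pow_ne_zero _ (inv_ne_zero hu)
    let _ : Invertible (u⁻¹ ^ 6 : k) := invertibleOfNonzero hx
    have h2 := Polynomial.eval₂_reverse_mul_pow (RingHom.id k) (u⁻¹ ^ 6 : k) p
    rw [invOf_eq_inv, ← inv_pow, inv_inv] at h2
    have h3 : Polynomial.eval (u ^ 6) p.reverse * (u⁻¹ ^ 6) ^ p.natDegree = p'.eval u := by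
      rw [← h u hu hd]
      exact h2
    rw [Polynomial.expand_eval, Polynomial.eval_mul, Polynomial.eval_pow, Polynomial.eval_X,
      ← h3, inv_pow, inv_pow, pow_mul]
    have h4 : ((u ^ 6) ^ p.natDegree : k) ≠ 0 := pow_ne_zero _ (pow_ne_zero _ hu)
    field_simp
  have h2 : p.natDegree = 0 := by
    by_contra hn
    have h3 := congrArg (Polynomial.eval 0) h1
    rw [Polynomial.expand_eval, Polynomial.eval_mul, Polynomial.eval_pow, Polynomial.eval_X,
      zero_pow (by norm_num : (6 : ℕ) ≠ 0), zero_pow (by omega : 6 * p.natDegree ≠ 0), zero_mul,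
      ← Polynomial.coeff_zero_eq_eval_zero, Polynomial.coeff_zero_reverse,
      Polynomial.leadingCoeff_eq_zero] at h3
    rw [h3] at hn
    exact hn Polynomial.natDegree_zero
  obtain ⟨c, hc⟩ : ∃ c, p = Polynomial.C c := ⟨_, Polynomial.eq_C_of_natDegree_eq_zero h2⟩
  subst hc
  have h3 : p' = Polynomial.C c := by
    symm
    apply eq_of_eval D hD
    intro u hu hd
    rw [← h u hu hd, Polynomial.eval_C, Polynomial.eval_C]
  subst h3
  simp

omit [IsAlgClosed k] in
theorem eval_aeval {σ : Type} (f : σ → Polynomial k) (q : MvPolynomial σ k) (t : k) :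
    Polynomial.eval t (MvPolynomial.aeval f q) =
      MvPolynomial.eval (fun o => Polynomial.eval t (f o)) q := by
  have h1 := MvPolynomial.comp_aeval_apply (f := f) (Polynomial.aeval (R := k) t) q
  have h2 : ∀ r : Polynomial k, Polynomial.aeval t r = Polynomial.eval t r := fun r => by
    rw [Polynomial.coe_aeval_eq_eval]
  simp only [h2] at h1
  rw [h1]
  rfl

end WTS

open WTS in
/-- WTS: the weights. -/
theorem t_WTS : Stmt_WTS := by
  intro k _ _ m q q' D hD h
  set c : k := MvPolynomial.eval (fun o : Option (Fin m) => o.elim (0 : k) (fun _ => 0)) q' with hc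
  have key : ∀ (ν : Fin m → k), (∀ t : k, MvPolynomial.eval (fun o => o.elim t ν) q = c) ∧
      ∀ u : k, MvPolynomial.eval (fun o => o.elim (u ^ 4) (fun i => u * ν i)) q' = c := by
    intro ν
    set p : Polynomial k := MvPolynomial.aeval
      (fun o : Option (Fin m) => o.elim (Polynomial.X : Polynomial k)
        (fun i => Polynomial.C (ν i))) q with hp
    set p' : Polynomial k := MvPolynomial.aeval
      (fun o : Option (Fin m) => o.elim (Polynomial.X ^ 4 : Polynomial k)
        (fun i => Polynomial.X * Polynomial.C (ν i))) q' with hp'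
    have e1 : ∀ t : k, p.eval t = MvPolynomial.eval (fun o => o.elim t ν) q := by
      intro t
      rw [hp, eval_aeval]
      congr 2
      funext o
      cases o <;> simp
    have e2 : ∀ t : k, p'.eval t =
        MvPolynomial.eval (fun o => o.elim (t ^ 4) (fun i => t * ν i)) q' := by
      intro t
      rw [hp', eval_aeval]
      congr 2
      funext o
      cases o with
      | none =>
        show Polynomial.eval t (Polynomial.X ^ 4) = t ^ 4
        rw [Polynomial.eval_pow, Polynomial.eval_X]
      | some i =>
        show Polynomial.eval t (Polynomial.X * Polynomial.C (ν i)) = t * ν i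
        rw [Polynomial.eval_mul, Polynomial.eval_X, Polynomial.eval_C]
    have e3 : p'.eval 0 = c := by
      rw [e2, hc]
      congr 2
      funext o
      cases o <;> simp
    obtain ⟨h1, h2⟩ := one_var D hD p p' (fun u hu hd => by rw [e1, e2]; exact h u ν hu hd)
    rw [e3] at h1 h2
    constructor
    · intro t
      rw [← e1, h1, Polynomial.eval_C]
    · intro u
      rw [← e2, h2, Polynomial.eval_C]
  refine ⟨c, ?_, ?_⟩
  · apply MvPolynomial.funext
    intro x
    rw [MvPolynomial.eval_C, ← (key (fun i => x (some i))).1 (x none)]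
    congr 2
    funext o
    cases o <;> rfl
  · have h1 : (q' - MvPolynomial.C c) * MvPolynomial.X none = 0 := by
      apply MvPolynomial.funext
      intro x
      rw [map_mul, map_sub, MvPolynomial.eval_C, MvPolynomial.eval_X, map_zero]
      by_cases hx : x none = 0
      · rw [hx, mul_zero]
      obtain ⟨u, hu⟩ := IsAlgClosed.exists_pow_nat_eq (x none) (n := 4) (by norm_num)
      have hu0 : u ≠ 0 := by
        rintro rfl
        exact hx (by rw [← hu]; norm_num)
      have h2 := (key (fun i => u⁻¹ * x (some i))).2 u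
      have h3 : (fun o : Option (Fin m) => o.elim (u ^ 4) (fun i => u * (u⁻¹ * x (some i)))) =
          x := by
        funext o
        cases o with
        | none => exact hu
        | some i =>
          show u * (u⁻¹ * x (some i)) = x (some i)
          rw [← mul_assoc, mul_inv_cancel₀ hu0, one_mul]
      rw [h3] at h2
      rw [h2, sub_self, zero_mul]
    have h2 := (mul_eq_zero.1 h1).resolve_right (MvPolynomial.X_ne_zero _)
    exact sub_eq_zero.1 h2

end Pool.Agent.MG.W
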