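import Pool.Agent.MG.W.WRG
import Pool.Agent.MG.W.WPR
import Pool.Agent.MG.W.WBC
import Pool.Agent.MG.W.WSC
import Pool.Agent.MG.W.WDM
import Pool.Agent.MG.W.WND
import Pool.Agent.MG.W.WGN
import Pool.Agent.MG.W.WRI
import Pool.Agent.MG.W.WSM
import Pool.Agent.MG.W.WFI
import Pool.Agent.MG.W.WST
import Pool.Agent.MG.W.WEA
import Pool.Agent.MG.W.WES
import Pool.Agent.MG.W.WUA
import Pool.Agent.MG.W.WUS
import Pool.Agent.MG.W.WCV
import Pool.Agent.MG.W.WNA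
import Pool.Agent.MG.W.WFL
import Pool.Agent.MG.W.WMV
import Pool.Agent.MG.W.W0
import Pool.Agent.MG.W.ROOT
import Pool.Agent.MG.W.DEN
import Pool.Agent.MG.W.WTS

/-!
# The blocks on Weierstrass curves together
-/

namespace Pool.Agent.MG.W

theorem wst : Stmt_WST := t_WST t_WPR t_WBC (t_WFI t_WDM t_WND (t_WGN t_WRG) (t_WRI t_WRG) t_WSM)

theorem we : Stmt_WE := t_WE (t_WEA t_WRG) t_WBC

theorem wu : Stmt_WU := t_WU (t_WUA t_WRG)

theorem wcv : Stmt_WCV := t_WCV we wu t_WBC t_WSC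

theorem wna : Stmt_WNA := t_WNA we wu t_WBC t_WSC

theorem wfl : Stmt_WFL := t_WFL t_WBC

theorem wmv : Stmt_WMV := t_WMV t_WBC

end Pool.Agent.MG.W
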