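import Pool.Agent.MG.W.W0C

/-!
# Smooth curves of genus one: the ring data
-/

open CategoryTheory CategoryTheory.Limits AlgebraicGeometry TensorProduct TopologicalSpace

namespace Pool.Agent.MG.W.W0

open Pool.Agent.MG.Two

variable {X : Scheme.{0}} {k : Type} [Field k] {π : X ⟶ Sp k} {σ : Sp k ⟶ X} {q : Sp k}

lemma GD.cover (G : GD (π := π) σ q) : G.V ⊔ G.U = ⊤ := by
  rw [eq_top_iff]
  intro x _
  by_cases h : x = σ q
  · exact Or.inr (h ▸ G.mU)
  · exact Or.inl ((G.mV x).2 h)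

lemma GD.leU (G : GD (π := π) σ q) : ⊤ ≤ σ ⁻¹ᵁ G.U := top_le_of_mem σ _ q G.mU

lemma loc_aux {U W : X.Opens} (hU : IsAffineOpen U) (z : Γ(X, U)) (h : W ≤ U)
    (hW : W = X.basicOpen z) (r : Γ(X, W)) :
    ∃ (n : ℕ) (s : Γ(X, U)), rs X h z ^ n * r = rs X h s := by
  subst hW
  have hloc : IsLocalization.Away z Γ(X, X.basicOpen z) := hU.isLocalization_basicOpen z
  obtain ⟨⟨a, ⟨_, n, rfl⟩⟩, ha⟩ := IsLocalization.surj (Submonoid.powers z) r
  refine ⟨n, a, ?_⟩
  have ha' : r * rs X h (z ^ n) = rs X h a := ha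
  rw [← ha', map_pow, mul_comm]

/-- The ring data of a curve of genus one. -/
theorem exists_AD [IsIntegral X] [IsAlgClosed k] [IsProper π] [SmoothOfRelativeDimension 1 π]
    (hg : HasGenus π 1) (hσ : σ ≫ π = 𝟙 _) (G : GD (π := π) σ q) :
    ∃ D : AD k Γ(X, G.V) Γ(X, G.U) Γ(X, G.V ⊓ G.U), D.c1 = coef π G.V ∧ D.c2 = coef π G.U ∧
      D.j1 = rs X inf_le_left ∧ D.j2 = rs X inf_le_right ∧ D.z = G.z ∧
      D.ev = evs σ G.U G.leU := by
  have hpir := pir_stalk π
  obtain ⟨f0, hf0⟩ := exists_transc π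
  have hgen : σ q ≠ genericPoint X := section_ne_genericPoint π hf0 σ hσ q
  have hV : Nonempty G.V := ⟨⟨genericPoint X, (G.mV _).2 (Ne.symm hgen)⟩⟩
  have hU : Nonempty G.U := ⟨⟨σ q, G.mU⟩⟩
  have hW : Nonempty (G.V ⊓ G.U : X.Opens) := nonempty_inf hV hU
  have hpV : σ q ∉ G.V := fun h => (G.mV _).1 h rfl
  have hu : IsUnit (rs X (inf_le_right : G.V ⊓ G.U ≤ G.U) G.z) :=
    isUnit_sub hpir G.aU G.z (σ q) G.mU hgen G.gz (G.V ⊓ G.U) inf_le_right (fun h => hpV h.1)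
  obtain ⟨zi, hzi⟩ := hu.exists_right_inv
  obtain ⟨L, hLs, hLc, hL0⟩ := t_COVI π 1 hg G.V G.U G.aV G.aU G.cover
  have hWb : G.V ⊓ G.U = X.basicOpen G.z := by
    apply le_antisymm
    · intro x hx
      exact mem_basicOpen_of_ne hpir G.aU G.z (σ q) G.mU hgen G.gz x hx.2 ((G.mV x).1 hx.1)
    · intro x hx
      refine ⟨(G.mV x).2 ?_, X.basicOpen_le _ hx⟩
      rintro rfl
      exact (G.gz G.z).2 ⟨1, (mul_one _).symm⟩ hx
  exact ⟨{
    c1 := coef π G.V
    c2 := coef π G.U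
    c12 := coef π (G.V ⊓ G.U)
    j1 := rs X inf_le_left
    j2 := rs X inf_le_right
    jc1 := coef_rs π _
    jc2 := coef_rs π _
    inj1 := map_injective_of_isIntegral X (homOfLE (inf_le_left : G.V ⊓ G.U ≤ G.V))
    inj2 := map_injective_of_isIntegral X (homOfLE (inf_le_right : G.V ⊓ G.U ≤ G.U))
    z := G.z
    zi := zi
    hz := hzi
    ev := evs σ G.U G.leU
    evc := evs_coef π σ hσ G.U G.leU
    evz := by
      rw [evs_eq_zero_iff _ _ _ _ q]
      exact (G.gz G.z).2 ⟨1, (mul_one _).symm⟩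
    evk := fun r hr => by
      rw [evs_eq_zero_iff _ _ _ _ q] at hr
      exact (G.gz r).1 hr
    loc := loc_aux G.aU G.z inf_le_right hWb
    h0 := fun a b hab => const_of_agree π G.cover a b hab
    L := fun r => L r 0
    Ladd := fun r s => by rw [map_add]; rfl
    Lc := fun c r => by rw [hLc]; rfl
    L0 := fun r => by
      rw [← hL0]
      constructor
      · intro h
        ext i
        rw [Subsingleton.elim i 0, h]
        rfl
      · intro h
        rw [h]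
        rfl
    Ls := by
      obtain ⟨r, hr⟩ := hLs 1
      refine ⟨r, ?_⟩
      rw [hr]
      exact one_ne_zero }, rfl, rfl, rfl, rfl, rfl, rfl⟩

end Pool.Agent.MG.W.W0
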