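import Pool.Agent.MG.W.W0B
import Pool.Agent.MG.TWO
import Pool.Agent.MG.COVI

/-!
# Smooth curves of genus one: the complement of a point is affine
-/

open CategoryTheory CategoryTheory.Limits AlgebraicGeometry TensorProduct TopologicalSpace

namespace Pool.Agent.MG.W.W0

open Pool.Agent.MG.Two

variable {X : Scheme.{0}} {k : Type} [Field k] (π : X ⟶ Sp k)

lemma evs_rs (σ : Sp k ⟶ X) {U V : X.Opens} (h : U ≤ V) (hU : ⊤ ≤ σ ⁻¹ᵁ U) (hV : ⊤ ≤ σ ⁻¹ᵁ V)
    (r : Γ(X, V)) : evs σ U hU (rs X h r) = evs σ V hV r := by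
  have h1 : X.presheaf.map (homOfLE h).op ≫ σ.appLE U ⊤ hU = σ.appLE V ⊤ hV :=
    Scheme.Hom.map_appLE _ _ _
  have h2 := ConcreteCategory.congr_hom h1 r
  exact congrArg (Scheme.ΓSpecIso (.of k)).hom.hom h2

lemma evs_coef (σ : Sp k ⟶ X) (hσ : σ ≫ π = 𝟙 _) (U : X.Opens) (h : ⊤ ≤ σ ⁻¹ᵁ U) (c : k) :
    evs σ U h (coef π U c) = c := evs_kmap π σ hσ U h c

variable [IsIntegral X]

lemma transc_of [IsAlgClosed k] (f : X.functionField) (h : ∀ c, f ≠ kfun π c) : Transc π f := by
  let _ : Algebra k X.functionField := (kfun π).toAlgebra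
  have h1 : Transcendental k f := by
    intro halg
    obtain ⟨c, hc⟩ := exists_algebraMap_eq_of_isAlgebraic f halg
    exact h c hc.symm
  have h2 := transcendental_iff_injective.1 h1
  intro p q hpq
  apply h2
  exact hpq

lemma mem_basicOpen_of_ne (hpir : ∀ x : X, IsPrincipalIdealRing (X.presheaf.stalk x))
    {V : X.Opens} (hV : IsAffineOpen V) (z : Γ(X, V)) (p : X) (hp : p ∈ V)
    (hgen : p ≠ genericPoint X) (hz : ∀ r : Γ(X, V), p ∉ X.basicOpen r ↔ ∃ s, r = z * s)
    (q : X) (hq : q ∈ V) (hne : q ≠ p) : q ∈ X.basicOpen z := by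
  by_contra hqz
  have hMp : (hV.primeIdealOf ⟨p, hp⟩).asIdeal.IsMaximal := isMaximal_primeIdealOf hpir hV p hp hgen
  have hle : (hV.primeIdealOf ⟨p, hp⟩).asIdeal ≤ (hV.primeIdealOf ⟨q, hq⟩).asIdeal := by
    intro r hr
    rw [mem_primeIdealOf_iff] at hr
    obtain ⟨s, rfl⟩ := (hz r).mp hr
    rw [mem_primeIdealOf_iff, X.basicOpen_mul]
    exact fun h => hqz h.1
  have h2 := hMp.eq_of_le (hV.primeIdealOf ⟨q, hq⟩).isPrime.ne_top hle
  have h3 := primeIdealOf_injective hV (PrimeSpectrum.ext h2)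
  have h4 : p = q := congrArg Subtype.val h3
  exact hne h4.symm

/-- Geometric data: the complement of the point `σ q` is affine, and there is an affine
neighbourhood of this point with a coordinate. -/
structure GD {π : X ⟶ Sp k} (σ : Sp k ⟶ X) (q : Sp k) where
  V : X.Opens
  U : X.Opens
  aV : IsAffineOpen V
  aU : IsAffineOpen U
  mV : ∀ x, x ∈ V ↔ x ≠ σ q
  mU : σ q ∈ U
  z : Γ(X, U)
  gz : ∀ r : Γ(X, U), σ q ∉ X.basicOpen r ↔ ∃ s, r = z * s

/-- A unit and its inverse in the function field. -/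
lemma germ_inv {V : X.Opens} [Nonempty V] {u v : Γ(X, V)} (h : u * v = 1) :
    X.germToFunctionField V v = (X.germToFunctionField V u)⁻¹ := by
  have h1 := congrArg (X.germToFunctionField V) h
  rw [map_mul, map_one] at h1
  exact eq_inv_of_mul_eq_one_right h1

lemma germ_coef (U : X.Opens) [Nonempty U] (a : k) :
    X.germToFunctionField U (coef π U a) = kfun π a := germ_kmap π U a

lemma germ_rs {U V : X.Opens} (h : U ≤ V) [Nonempty U] [Nonempty V] (s : Γ(X, V)) :
    X.germToFunctionField U (rs X h s) = X.germToFunctionField V s :=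
  germToFunctionField_res h s

theorem exists_GD [IsAlgClosed k] [IsProper π] [SmoothOfRelativeDimension 1 π]
    (hg : HasGenus π 1) (σ : Sp k ⟶ X) (hσ : σ ≫ π = 𝟙 _) (q : Sp k) :
    Nonempty (GD (π := π) σ q) := by
  have hpir := pir_stalk π
  obtain ⟨f0, hf0⟩ := exists_transc π
  have hgen : σ q ≠ genericPoint X := section_ne_genericPoint π hf0 σ hσ q
  obtain ⟨U, V', x, y, c, hU, hV', hcov, hpU, hpV', -, -, -, hz, hV'ne⟩ :=
    exists_two_charts π (fun _ : Unit => σ q) (fun _ _ _ => rfl) (fun _ => hgen)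
  set z : Γ(X, U) := x - kmap π U (c ()) with hzdef
  have hz' : ∀ r : Γ(X, U), σ q ∉ X.basicOpen r ↔ ∃ s, r = z * s := hz ()
  have hpU' : σ q ∈ U := hpU ()
  have hpV'' : σ q ∉ V' := hpV' ()
  have hUne : Nonempty U := ⟨⟨σ q, hpU'⟩⟩
  have hW : IsAffineOpen (U ⊓ V') := isAffineOpen_inf π hU hV'
  have hWne : Nonempty (U ⊓ V' : X.Opens) := nonempty_inf hUne hV'ne
  obtain ⟨L, hLs, hLc, hL0⟩ := t_COVI π 1 hg U V' hU hV' hcov
  have hu : IsUnit (rs X (inf_le_left : U ⊓ V' ≤ U) z) :=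
    isUnit_sub hpir hU z (σ q) hpU' hgen hz' (U ⊓ V') inf_le_left (fun h => hpV'' h.2)
  obtain ⟨zi, hzi⟩ := hu.exists_right_inv
  have hZ : X.germToFunctionField (U ⊓ V') zi = (X.germToFunctionField U z)⁻¹ := by
    rw [germ_inv hzi, germ_rs]
  set Z := X.germToFunctionField U z with hZdef
  have hZ0 : Z ≠ 0 := by
    intro h
    rw [h, inv_zero] at hZ
    have h1 := congrArg (X.germToFunctionField (U ⊓ V')) hzi
    rw [map_mul, hZ, mul_zero, map_one] at h1
    exact zero_ne_one h1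
  obtain ⟨α, β, hne, hαβ⟩ : ∃ α β : k, (α ≠ 0 ∨ β ≠ 0) ∧
      L (coef π (U ⊓ V') α * zi + coef π (U ⊓ V') β * zi ^ 2) = 0 := by
    by_cases h1 : L zi 0 = 0
    · refine ⟨1, 0, Or.inl one_ne_zero, ?_⟩
      ext i
      rw [Subsingleton.elim i 0, map_add, hLc, hLc]
      simp [h1]
    · refine ⟨-(L (zi ^ 2) 0 / L zi 0), 1, Or.inr one_ne_zero, ?_⟩
      ext i
      rw [Subsingleton.elim i 0, map_add, hLc, hLc]
      simp only [Pi.add_apply, Pi.smul_apply, smul_eq_mul, Pi.zero_apply]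
      field_simp
      ring
  obtain ⟨a, b, hab⟩ := (hL0 _).1 hαβ
  set f : X.functionField := X.germToFunctionField V' b with hf
  set A := X.germToFunctionField U a with hA
  have hfe : f = kfun π α * Z⁻¹ + kfun π β * (Z⁻¹) ^ 2 - A := by
    have h1 := congrArg (X.germToFunctionField (U ⊓ V')) hab
    rw [map_add, map_mul, map_mul, map_pow, hZ, germ_coef, germ_coef, map_add, germ_rs, germ_rs] at h1
    rw [hf, h1]
    ring
  have hdom1 : ∀ p, p ≠ σ q → p ∈ dom f := by
    intro p hp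
    have hpt : p ∈ U ⊔ V' := by rw [hcov]; trivial
    rcases hpt with hpU1 | hpV1
    · have hpb := mem_basicOpen_of_ne hpir hU z (σ q) hpU' hgen hz' p hpU1 hp
      have hBne : Nonempty (X.basicOpen z) := ⟨⟨p, hpb⟩⟩
      have hub : IsUnit (rs X (X.basicOpen_le z) z) := X.toRingedSpace.isUnit_res_basicOpen z
      obtain ⟨ζ, hζ⟩ := hub.exists_right_inv
      have hζ' : X.germToFunctionField (X.basicOpen z) ζ = Z⁻¹ := by
        rw [germ_inv hζ, germ_rs]
      refine (mem_dom_iff' f p).mpr ⟨X.basicOpen z, hpb, hBne, coef π _ α * ζ + coef π _ β * ζ ^ 2 -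
        rs X (X.basicOpen_le z) a, ?_⟩
      rw [map_sub, map_add, map_mul, map_mul, map_pow, hζ', germ_coef, germ_coef, germ_rs, hfe]
    · exact (mem_dom_iff' f p).mpr ⟨V', hpV1, hV'ne, b, rfl⟩
  have hdom2 : σ q ∉ dom f := by
    intro h
    obtain ⟨N, hN, hNne, s, hs⟩ := (mem_dom_iff' f (σ q)).mp h
    have hNU : Nonempty (N ⊓ U : X.Opens) := nonempty_inf hNne hUne
    have hle : ⊤ ≤ σ ⁻¹ᵁ (N ⊓ U) := top_le_of_mem σ _ q ⟨hN, hpU'⟩
    have hleU : ⊤ ≤ σ ⁻¹ᵁ U := top_le_of_mem σ _ q hpU'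
    set z' := rs X (inf_le_right : N ⊓ U ≤ U) z with hz'def
    set s' := rs X (inf_le_left : N ⊓ U ≤ N) s with hs'def
    set a' := rs X (inf_le_right : N ⊓ U ≤ U) a with ha'def
    have hez : evs σ _ hle z' = 0 := by
      rw [evs_rs σ inf_le_right hle hleU, evs_eq_zero_iff _ _ _ _ q]
      exact (hz' z).2 ⟨1, (mul_one _).symm⟩
    have gz : X.germToFunctionField (N ⊓ U) z' = Z := germ_rs _ _
    have gs : X.germToFunctionField (N ⊓ U) s' = f := by rw [hs'def, germ_rs, hs]
    have ga : X.germToFunctionField (N ⊓ U) a' = A := germ_rs _ _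
    have e1 : z' ^ 2 * s' = coef π _ α * z' + coef π _ β - z' ^ 2 * a' := by
      apply X.germToFunctionField_injective (N ⊓ U)
      rw [map_sub, map_add, map_mul, map_mul, map_mul, map_pow, gz, gs, ga, germ_coef, germ_coef,
        hfe]
      field_simp
    have hβ : β = 0 := by
      have h1 := congrArg (evs σ _ hle) e1
      rw [map_sub, map_add, map_mul, map_mul, map_mul, map_pow, hez, evs_coef π σ hσ,
        evs_coef π σ hσ] at h1
      simpa using h1.symm
    have e2 : z' * s' = coef π _ α - z' * a' := by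
      apply X.germToFunctionField_injective (N ⊓ U)
      rw [map_sub, map_mul, map_mul, gz, gs, ga, germ_coef, hfe, hβ, map_zero]
      field_simp
      ring
    have hα : α = 0 := by
      have h1 := congrArg (evs σ _ hle) e2
      rw [map_sub, map_mul, map_mul, hez, evs_coef π σ hσ] at h1
      simpa using h1.symm
    rcases hne with h | h
    · exact h hα
    · exact h hβ
  have htr : Transc π f := by
    apply transc_of
    intro c hc
    apply hdom2
    have : Nonempty (⊤ : X.Opens) := ⟨⟨σ q, trivial⟩⟩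
    exact (mem_dom_iff' f (σ q)).mpr ⟨⊤, trivial, this, coef π ⊤ c, by rw [germ_coef, hc]⟩
  exact ⟨{
    V := dom f
    U := U
    aV := isAffineOpen_dom π hpir htr
    aU := hU
    mV := fun x => ⟨fun h hx => hdom2 (hx ▸ h), hdom1 x⟩
    mU := hpU'
    z := z
    gz := hz' }⟩

end Pool.Agent.MG.W.W0
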