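import Pool.Agent.MG.W.Defs

/-!
# Base change of Weierstrass curves: the morphisms
-/

open CategoryTheory CategoryTheory.Limits AlgebraicGeometry TensorProduct

namespace Pool.Agent.MG.W

section

variable {B B' : Type} [CommRing B] [CommRing B'] (φ : B →+* B') {a b : B} {a' b' : B'}

/-- Base change of the affine chart. -/
noncomputable def bc1 (ha : a' = φ a) (hb : b' = φ b) : A1 B a b →+* A1 B' a' b' :=
  lift1 ((algebraMap B' (A1 B' a' b')).comp φ) (x1 B' a' b') (y1 B' a' b') (by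
    rw [rel1, ha, hb]
    rfl)

/-- Base change of the chart at infinity. -/
noncomputable def bc2 (ha : a' = φ a) (hb : b' = φ b) : A2 B a b →+* A2 B' a' b' :=
  lift2 ((algebraMap B' (A2 B' a' b')).comp φ) (z2 B' a' b') (t2 B' a' b') (by
    have h := rel2 B' a' b'
    conv_lhs => rw [h]
    rw [ha, hb]
    rfl)

@[simp]
theorem bc1_x (ha : a' = φ a) (hb : b' = φ b) : bc1 φ ha hb (x1 B a b) = x1 B' a' b' :=
  lift1_x _ _ _ _

@[simp]
theorem bc1_y (ha : a' = φ a) (hb : b' = φ b) : bc1 φ ha hb (y1 B a b) = y1 B' a' b' :=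
  lift1_y _ _ _ _

@[simp]
theorem bc1_b (ha : a' = φ a) (hb : b' = φ b) (c : B) :
    bc1 φ ha hb (algebraMap B _ c) = algebraMap B' _ (φ c) :=
  lift1_b _ _ _ _ _

@[simp]
theorem bc2_z (ha : a' = φ a) (hb : b' = φ b) : bc2 φ ha hb (z2 B a b) = z2 B' a' b' :=
  lift2_z _ _ _ _

@[simp]
theorem bc2_t (ha : a' = φ a) (hb : b' = φ b) : bc2 φ ha hb (t2 B a b) = t2 B' a' b' :=
  lift2_t _ _ _ _

@[simp]
theorem bc2_b (ha : a' = φ a) (hb : b' = φ b) (c : B) :
    bc2 φ ha hb (algebraMap B _ c) = algebraMap B' _ (φ c) :=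
  lift2_b _ _ _ _ _

/-- Base change of the intersection. -/
noncomputable def bc12 (ha : a' = φ a) (hb : b' = φ b) : A12 B a b →+* A12 B' a' b' :=
  IsLocalization.Away.lift (z2 B a b) (g := (g2 B' a' b').comp (bc2 φ ha hb)) (by
    rw [RingHom.comp_apply, bc2_z]
    exact (zu B' a' b').isUnit)

theorem bc12_g2 (ha : a' = φ a) (hb : b' = φ b) (v : A2 B a b) :
    bc12 φ ha hb (g2 B a b v) = g2 B' a' b' (bc2 φ ha hb v) :=
  IsLocalization.Away.lift_eq _ _ _

theorem bc12_b (ha : a' = φ a) (hb : b' = φ b) (c : B) :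
    bc12 φ ha hb (algebraMap B _ c) = algebraMap B' _ (φ c) := by
  rw [← g2_b B a b c, bc12_g2, bc2_b, g2_b]

theorem bc12_zu (ha : a' = φ a) (hb : b' = φ b) :
    Units.map (bc12 φ ha hb : A12 B a b →* A12 B' a' b') (zu B a b) = zu B' a' b' := by
  ext1
  change bc12 φ ha hb (g2 B a b (z2 B a b)) = g2 B' a' b' (z2 B' a' b')
  rw [bc12_g2, bc2_z]

theorem bc12_tu (ha : a' = φ a) (hb : b' = φ b) :
    Units.map (bc12 φ ha hb : A12 B a b →* A12 B' a' b') (tu B a b) = tu B' a' b' := by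
  ext1
  change bc12 φ ha hb (g2 B a b (t2 B a b)) = g2 B' a' b' (t2 B' a' b')
  rw [bc12_g2, bc2_t]

theorem bc12_g1 (ha : a' = φ a) (hb : b' = φ b) (v : A1 B a b) :
    bc12 φ ha hb (g1 B a b v) = g1 B' a' b' (bc1 φ ha hb v) := by
  have : (bc12 φ ha hb).comp (g1 B a b) = (g1 B' a' b').comp (bc1 φ ha hb) := by
    refine hom1_ext ?_ ?_ ?_
    · intro c
      rw [RingHom.comp_apply, RingHom.comp_apply, g1_b, bc12_b, bc1_b, g1_b]
    · rw [RingHom.comp_apply, RingHom.comp_apply, bc1_x, g1_x, g1_x]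
      have h := congrArg Units.val (show Units.map (bc12 φ ha hb : A12 B a b →* A12 B' a' b')
        ((zu B a b)⁻¹ ^ 2 * (tu B a b)⁻¹) = (zu B' a' b')⁻¹ ^ 2 * (tu B' a' b')⁻¹ by
          rw [map_mul, map_pow, map_inv, map_inv, bc12_zu, bc12_tu])
      exact h
    · rw [RingHom.comp_apply, RingHom.comp_apply, bc1_y, g1_y, g1_y]
      have h := congrArg Units.val (show Units.map (bc12 φ ha hb : A12 B a b →* A12 B' a' b')
        ((zu B a b)⁻¹ ^ 3 * (tu B a b)⁻¹) = (zu B' a' b')⁻¹ ^ 3 * (tu B' a' b')⁻¹ by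
          rw [map_mul, map_pow, map_inv, map_inv, bc12_zu, bc12_tu])
      exact h
  exact congrArg (fun f => f v) this

theorem spMap_comp' {A B C : Type} [CommRing A] [CommRing B] [CommRing C] (f : A →+* B)
    (g : B →+* C) : spMap g ≫ spMap f = spMap (g.comp f) := by
  change _ = Spec.map (CommRingCat.ofHom (g.comp f))
  rw [CommRingCat.ofHom_comp, Spec.map_comp]

/-- The base change morphism. -/
noncomputable def WX.map (ha : a' = φ a) (hb : b' = φ b) : WX B' a' b' ⟶ WX B a b :=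
  pushout.desc (spMap (bc1 φ ha hb) ≫ WX.in1 B a b) (spMap (bc2 φ ha hb) ≫ WX.in2 B a b) (by
    have h1 : (g1 B' a' b').comp (bc1 φ ha hb) = (bc12 φ ha hb).comp (g1 B a b) :=
      RingHom.ext fun v => (bc12_g1 φ ha hb v).symm
    have h2 : (g2 B' a' b').comp (bc2 φ ha hb) = (bc12 φ ha hb).comp (g2 B a b) :=
      RingHom.ext fun v => (bc12_g2 φ ha hb v).symm
    rw [← Category.assoc, ← Category.assoc, spMap_comp', spMap_comp', h1, h2, ← spMap_comp',
      ← spMap_comp', Category.assoc, Category.assoc]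
    congr 1
    exact pushout.condition)

@[reassoc]
theorem WX.in1_map (ha : a' = φ a) (hb : b' = φ b) :
    WX.in1 B' a' b' ≫ WX.map φ ha hb = spMap (bc1 φ ha hb) ≫ WX.in1 B a b :=
  pushout.inl_desc _ _ _

@[reassoc]
theorem WX.in2_map (ha : a' = φ a) (hb : b' = φ b) :
    WX.in2 B' a' b' ≫ WX.map φ ha hb = spMap (bc2 φ ha hb) ≫ WX.in2 B a b :=
  pushout.inr_desc _ _ _

theorem WX.ext' {B : Type} [CommRing B] {a b : B} {Y : Scheme.{0}} {f g : WX B a b ⟶ Y}
    (h1 : WX.in1 B a b ≫ f = WX.in1 B a b ≫ g) (h2 : WX.in2 B a b ≫ f = WX.in2 B a b ≫ g) :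
    f = g :=
  pushout.hom_ext h1 h2

@[reassoc]
theorem WX.map_pr (ha : a' = φ a) (hb : b' = φ b) :
    WX.map φ ha hb ≫ WX.pr B a b = WX.pr B' a' b' ≫ spMap φ := by
  refine WX.ext' ?_ ?_
  · rw [← Category.assoc, WX.in1_map, Category.assoc, WX.in1_pr, ← Category.assoc, WX.in1_pr,
      spMap_comp', spMap_comp']
    exact congrArg (fun f => spMap f) (RingHom.ext fun c => bc1_b φ ha hb c)
  · rw [← Category.assoc, WX.in2_map, Category.assoc, WX.in2_pr, ← Category.assoc, WX.in2_pr,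
      spMap_comp', spMap_comp']
    exact congrArg (fun f => spMap f) (RingHom.ext fun c => bc2_b φ ha hb c)

/-- `P'` is the base change of `P`. -/
structure WD.Bc {m : ℕ} (P : WD m B) (P' : WD m B') : Prop where
  a : P'.a = φ P.a
  b : P'.b = φ P.b
  x : ∀ i, P'.x i = φ (P.x i)
  y : ∀ i, P'.y i = φ (P.y i)

/-- The base change of `P`. -/
def WD.map {m : ℕ} (P : WD m B) : WD m B' where
  a := φ P.a
  b := φ P.b
  x i := φ (P.x i)
  y i := φ (P.y i)
  eq i := by rw [← map_pow, P.eq i]; simp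

theorem WD.map_bc {m : ℕ} (P : WD m B) : WD.Bc φ P (P.map φ) :=
  ⟨rfl, rfl, fun _ => rfl, fun _ => rfl⟩

/-- The base change morphism of Weierstrass families. -/
noncomputable def wmap {m : ℕ} {P : WD m B} {P' : WD m B'} (h : WD.Bc φ P P') :
    (Wei P').X ⟶ (Wei P).X :=
  WX.map φ h.a h.b

/-- The base change morphism respects the sections. -/
theorem wmap_sec {m : ℕ} {P : WD m B} {P' : WD m B'} (h : WD.Bc φ P P') (i : Fin (m + 1)) :
    (Wei P').σ i ≫ wmap φ h = spMap φ ≫ (Wei P).σ i := by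
  refine Fin.cases ?_ (fun i => ?_) i
  · change (spMap (inf2 B' P'.a P'.b) ≫ WX.in2 B' P'.a P'.b) ≫ WX.map φ h.a h.b =
      spMap φ ≫ spMap (inf2 B P.a P.b) ≫ WX.in2 B P.a P.b
    rw [Category.assoc, WX.in2_map, ← Category.assoc, ← Category.assoc, spMap_comp', spMap_comp']
    congr 2
    refine hom2_ext ?_ ?_ ?_
    · intro c
      rw [RingHom.comp_apply, RingHom.comp_apply, bc2_b, inf2, lift2_b, inf2, lift2_b]
      rfl
    · rw [RingHom.comp_apply, RingHom.comp_apply, bc2_z, inf2, lift2_z, inf2, lift2_z, map_zero]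
    · rw [RingHom.comp_apply, RingHom.comp_apply, bc2_t, inf2, lift2_t, inf2, lift2_t, map_one]
  · change (spMap (pt1 P' i) ≫ WX.in1 B' P'.a P'.b) ≫ WX.map φ h.a h.b =
      spMap φ ≫ spMap (pt1 P i) ≫ WX.in1 B P.a P.b
    rw [Category.assoc, WX.in1_map, ← Category.assoc, ← Category.assoc, spMap_comp', spMap_comp']
    congr 2
    refine hom1_ext ?_ ?_ ?_
    · intro c
      rw [RingHom.comp_apply, RingHom.comp_apply, bc1_b, pt1, lift1_b, pt1, lift1_b]
      rfl
    · rw [RingHom.comp_apply, RingHom.comp_apply, bc1_x, pt1, lift1_x, pt1, lift1_x, h.x]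
    · rw [RingHom.comp_apply, RingHom.comp_apply, bc1_y, pt1, lift1_y, pt1, lift1_y, h.y]

end

/-! ## Scaling -/

section

variable {B : Type} [CommRing B] {a b a' b' u v : B}

/-- Scaling on the affine chart: `x ↦ v² x`, `y ↦ v³ y`, `v = 1/u`. -/
noncomputable def sc1 (huv : u * v = 1) (ha : a' = u ^ 4 * a) (hb : b' = u ^ 6 * b) :
    A1 B a b →+* A1 B a' b' :=
  lift1 (algebraMap B (A1 B a' b')) (algebraMap B _ v ^ 2 * x1 B a' b')
    (algebraMap B _ v ^ 3 * y1 B a' b') (by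
    have h := rel1 B a' b'
    have h4 : algebraMap B (A1 B a' b') a' = algebraMap B _ u ^ 4 * algebraMap B _ a := by
      rw [ha, map_mul, map_pow]
    have h6 : algebraMap B (A1 B a' b') b' = algebraMap B _ u ^ 6 * algebraMap B _ b := by
      rw [hb, map_mul, map_pow]
    have huv' : algebraMap B (A1 B a' b') u * algebraMap B _ v = 1 := by
      rw [← map_mul, huv, map_one]
    rw [h4, h6] at h
    generalize algebraMap B (A1 B a' b') u = U at *
    generalize algebraMap B (A1 B a' b') v = V at *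
    generalize algebraMap B (A1 B a' b') a = A at *
    generalize algebraMap B (A1 B a' b') b = C at *
    generalize x1 B a' b' = x at *
    generalize y1 B a' b' = y at *
    have e4 : V ^ 6 * U ^ 4 = V ^ 2 := by
      calc V ^ 6 * U ^ 4 = V ^ 2 * (U * V) ^ 4 := by ring
        _ = V ^ 2 := by rw [huv', one_pow, mul_one]
    have e6 : V ^ 6 * U ^ 6 = 1 := by
      calc V ^ 6 * U ^ 6 = (U * V) ^ 6 := by ring
        _ = 1 := by rw [huv', one_pow]
    calc (V ^ 3 * y) ^ 2 = V ^ 6 * y ^ 2 := by ring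
      _ = V ^ 6 * x ^ 3 + (V ^ 6 * U ^ 4) * A * x + (V ^ 6 * U ^ 6) * C := by rw [h]; ring
      _ = (V ^ 2 * x) ^ 3 + A * (V ^ 2 * x) + C := by rw [e4, e6]; ring)

/-- Scaling on the chart at infinity: `z ↦ u z`, `t ↦ t`. -/
noncomputable def sc2 (ha : a' = u ^ 4 * a) (hb : b' = u ^ 6 * b) :
    A2 B a b →+* A2 B a' b' :=
  lift2 (algebraMap B (A2 B a' b')) (algebraMap B _ u * z2 B a' b') (t2 B a' b') (by
    have h := rel2 B a' b'
    have h4 : algebraMap B (A2 B a' b') a' = algebraMap B _ u ^ 4 * algebraMap B _ a := by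
      rw [ha, map_mul, map_pow]
    have h6 : algebraMap B (A2 B a' b') b' = algebraMap B _ u ^ 6 * algebraMap B _ b := by
      rw [hb, map_mul, map_pow]
    rw [h4, h6] at h
    conv_lhs => rw [h]
    ring)

@[simp]
theorem sc1_x (huv : u * v = 1) (ha : a' = u ^ 4 * a) (hb : b' = u ^ 6 * b) :
    sc1 huv ha hb (x1 B a b) = algebraMap B _ v ^ 2 * x1 B a' b' := lift1_x _ _ _ _

@[simp]
theorem sc1_y (huv : u * v = 1) (ha : a' = u ^ 4 * a) (hb : b' = u ^ 6 * b) :
    sc1 huv ha hb (y1 B a b) = algebraMap B _ v ^ 3 * y1 B a' b' := lift1_y _ _ _ _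

@[simp]
theorem sc1_b (huv : u * v = 1) (ha : a' = u ^ 4 * a) (hb : b' = u ^ 6 * b) (c : B) :
    sc1 huv ha hb (algebraMap B _ c) = algebraMap B _ c := lift1_b _ _ _ _ _

@[simp]
theorem sc2_z (ha : a' = u ^ 4 * a) (hb : b' = u ^ 6 * b) :
    sc2 ha hb (z2 B a b) = algebraMap B _ u * z2 B a' b' := lift2_z _ _ _ _

@[simp]
theorem sc2_t (ha : a' = u ^ 4 * a) (hb : b' = u ^ 6 * b) :
    sc2 ha hb (t2 B a b) = t2 B a' b' := lift2_t _ _ _ _

@[simp]
theorem sc2_b (ha : a' = u ^ 4 * a) (hb : b' = u ^ 6 * b) (c : B) :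
    sc2 ha hb (algebraMap B _ c) = algebraMap B _ c := lift2_b _ _ _ _ _

/-- Scaling on the intersection. -/
noncomputable def sc12 (huv : u * v = 1) (ha : a' = u ^ 4 * a) (hb : b' = u ^ 6 * b) :
    A12 B a b →+* A12 B a' b' :=
  IsLocalization.Away.lift (z2 B a b) (g := (g2 B a' b').comp (sc2 ha hb)) (by
    rw [RingHom.comp_apply, sc2_z, map_mul]
    refine IsUnit.mul ?_ (zu B a' b').isUnit
    rw [g2_b]
    exact (IsUnit.of_mul_eq_one v huv).map _)

theorem sc12_g2 (huv : u * v = 1) (ha : a' = u ^ 4 * a) (hb : b' = u ^ 6 * b) (w : A2 B a b) :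
    sc12 huv ha hb (g2 B a b w) = g2 B a' b' (sc2 ha hb w) :=
  IsLocalization.Away.lift_eq _ _ _

theorem sc12_b (huv : u * v = 1) (ha : a' = u ^ 4 * a) (hb : b' = u ^ 6 * b) (c : B) :
    sc12 huv ha hb (algebraMap B _ c) = algebraMap B _ c := by
  rw [← g2_b B a b c, sc12_g2, sc2_b, g2_b]

/-- `u` as a unit of `A₁₂`. -/
noncomputable def u12 (a' b' : B) (huv : u * v = 1) : (A12 B a' b')ˣ where
  val := algebraMap B _ u
  inv := algebraMap B _ v
  val_inv := by rw [← map_mul, huv, map_one]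
  inv_val := by rw [← map_mul, mul_comm, huv, map_one]

theorem sc12_zu (huv : u * v = 1) (ha : a' = u ^ 4 * a) (hb : b' = u ^ 6 * b) :
    Units.map (sc12 huv ha hb : A12 B a b →* A12 B a' b') (zu B a b) =
      u12 a' b' huv * zu B a' b' := by
  ext1
  change sc12 huv ha hb (g2 B a b (z2 B a b)) = algebraMap B _ u * g2 B a' b' (z2 B a' b')
  rw [sc12_g2, sc2_z, map_mul, g2_b]

theorem sc12_tu (huv : u * v = 1) (ha : a' = u ^ 4 * a) (hb : b' = u ^ 6 * b) :
    Units.map (sc12 huv ha hb : A12 B a b →* A12 B a' b') (tu B a b) = tu B a' b' := by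
  ext1
  change sc12 huv ha hb (g2 B a b (t2 B a b)) = g2 B a' b' (t2 B a' b')
  rw [sc12_g2, sc2_t]

theorem sc12_g1 (huv : u * v = 1) (ha : a' = u ^ 4 * a) (hb : b' = u ^ 6 * b) (w : A1 B a b) :
    sc12 huv ha hb (g1 B a b w) = g1 B a' b' (sc1 huv ha hb w) := by
  have : (sc12 huv ha hb).comp (g1 B a b) = (g1 B a' b').comp (sc1 huv ha hb) := by
    refine hom1_ext ?_ ?_ ?_
    · intro c
      rw [RingHom.comp_apply, RingHom.comp_apply, g1_b, sc12_b, sc1_b, g1_b]
    · rw [RingHom.comp_apply, RingHom.comp_apply, sc1_x, g1_x, map_mul, map_pow, g1_b, g1_x]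
      have h := congrArg Units.val (show Units.map (sc12 huv ha hb : A12 B a b →* A12 B a' b')
        ((zu B a b)⁻¹ ^ 2 * (tu B a b)⁻¹) =
          (u12 a' b' huv)⁻¹ ^ 2 * ((zu B a' b')⁻¹ ^ 2 * (tu B a' b')⁻¹) by
          rw [map_mul, map_pow, map_inv, map_inv, sc12_zu, sc12_tu, mul_inv, mul_pow, mul_assoc])
      exact h
    · rw [RingHom.comp_apply, RingHom.comp_apply, sc1_y, g1_y, map_mul, map_pow, g1_b, g1_y]
      have h := congrArg Units.val (show Units.map (sc12 huv ha hb : A12 B a b →* A12 B a' b')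
        ((zu B a b)⁻¹ ^ 3 * (tu B a b)⁻¹) =
          (u12 a' b' huv)⁻¹ ^ 3 * ((zu B a' b')⁻¹ ^ 3 * (tu B a' b')⁻¹) by
          rw [map_mul, map_pow, map_inv, map_inv, sc12_zu, sc12_tu, mul_inv, mul_pow, mul_assoc])
      exact h
  exact congrArg (fun f => f w) this

/-- The scaling morphism. -/
noncomputable def WX.sc (huv : u * v = 1) (ha : a' = u ^ 4 * a) (hb : b' = u ^ 6 * b) :
    WX B a' b' ⟶ WX B a b :=
  pushout.desc (spMap (sc1 huv ha hb) ≫ WX.in1 B a b) (spMap (sc2 ha hb) ≫ WX.in2 B a b) (by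
    have h1 : (g1 B a' b').comp (sc1 huv ha hb) = (sc12 huv ha hb).comp (g1 B a b) :=
      RingHom.ext fun v => (sc12_g1 huv ha hb v).symm
    have h2 : (g2 B a' b').comp (sc2 ha hb) = (sc12 huv ha hb).comp (g2 B a b) :=
      RingHom.ext fun v => (sc12_g2 huv ha hb v).symm
    rw [← Category.assoc, ← Category.assoc, spMap_comp', spMap_comp', h1, h2, ← spMap_comp',
      ← spMap_comp', Category.assoc, Category.assoc]
    congr 1
    exact pushout.condition)

@[reassoc]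
theorem WX.in1_sc (huv : u * v = 1) (ha : a' = u ^ 4 * a) (hb : b' = u ^ 6 * b) :
    WX.in1 B a' b' ≫ WX.sc huv ha hb = spMap (sc1 huv ha hb) ≫ WX.in1 B a b :=
  pushout.inl_desc _ _ _

@[reassoc]
theorem WX.in2_sc (huv : u * v = 1) (ha : a' = u ^ 4 * a) (hb : b' = u ^ 6 * b) :
    WX.in2 B a' b' ≫ WX.sc huv ha hb = spMap (sc2 ha hb) ≫ WX.in2 B a b :=
  pushout.inr_desc _ _ _

@[reassoc]
theorem WX.sc_pr (huv : u * v = 1) (ha : a' = u ^ 4 * a) (hb : b' = u ^ 6 * b) :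
    WX.sc huv ha hb ≫ WX.pr B a b = WX.pr B a' b' := by
  refine WX.ext' ?_ ?_
  · rw [← Category.assoc, WX.in1_sc, Category.assoc, WX.in1_pr, WX.in1_pr, spMap_comp']
    exact congrArg (fun f => spMap f) (RingHom.ext fun c => sc1_b huv ha hb c)
  · rw [← Category.assoc, WX.in2_sc, Category.assoc, WX.in2_pr, WX.in2_pr, spMap_comp']
    exact congrArg (fun f => spMap f) (RingHom.ext fun c => sc2_b ha hb c)

/-- `P'` is the transform of `P` by the scaling `x ↦ u² x`, `y ↦ u³ y`. -/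
structure WD.Sc {m : ℕ} (u : B) (P P' : WD m B) : Prop where
  a : P'.a = u ^ 4 * P.a
  b : P'.b = u ^ 6 * P.b
  x : ∀ i, P'.x i = u ^ 2 * P.x i
  y : ∀ i, P'.y i = u ^ 3 * P.y i

end

end Pool.Agent.MG.W
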