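import Pool.Agent.MG.StmtsB
import Pool.Agent.MG.Glue2

/-!
# Weierstrass curves `y² = x³ + a x + b` with sections, over any ring

Charts: `A₁ = B[x, y]/(y² - x³ - a x - b)`, and near infinity, with `z = x/y`, `t = y²/x³`,
`A₂ = B[z, t]/(t - 1 - a z⁴ t² - b z⁶ t³)`; on the intersection `x = 1/(z² t)`, `y = 1/(z³ t)`.
-/

open CategoryTheory CategoryTheory.Limits AlgebraicGeometry TensorProduct

namespace Pool.Agent.MG.W

section rings

variable (B : Type) [CommRing B] (a b : B)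

/-- The equation of the affine curve. -/
noncomputable abbrev eq1 : MvPolynomial (Fin 2) B :=
  MvPolynomial.X 1 ^ 2 - MvPolynomial.X 0 ^ 3 - MvPolynomial.C a * MvPolynomial.X 0 -
    MvPolynomial.C b

/-- The equation near infinity. -/
noncomputable abbrev eq2 : MvPolynomial (Fin 2) B :=
  MvPolynomial.X 1 - 1 - MvPolynomial.C a * MvPolynomial.X 0 ^ 4 * MvPolynomial.X 1 ^ 2 -
    MvPolynomial.C b * MvPolynomial.X 0 ^ 6 * MvPolynomial.X 1 ^ 3

/-- `B[x, y]/(y² - x³ - a x - b)`. -/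
abbrev A1 : Type := MvPolynomial (Fin 2) B ⧸ Ideal.span {eq1 B a b}

/-- `B[z, t]/(t - 1 - a z⁴ t² - b z⁶ t³)`. -/
abbrev A2 : Type := MvPolynomial (Fin 2) B ⧸ Ideal.span {eq2 B a b}

/-- `x` -/
noncomputable def x1 : A1 B a b := Ideal.Quotient.mk _ (MvPolynomial.X 0)
/-- `y` -/
noncomputable def y1 : A1 B a b := Ideal.Quotient.mk _ (MvPolynomial.X 1)
/-- `z = x/y` -/
noncomputable def z2 : A2 B a b := Ideal.Quotient.mk _ (MvPolynomial.X 0)
/-- `t = y²/x³` -/
noncomputable def t2 : A2 B a b := Ideal.Quotient.mk _ (MvPolynomial.X 1)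

theorem rel1 : y1 B a b ^ 2 = x1 B a b ^ 3 + algebraMap B _ a * x1 B a b + algebraMap B _ b := by
  have h : Ideal.Quotient.mk (Ideal.span {eq1 B a b}) (eq1 B a b) = 0 :=
    Ideal.Quotient.eq_zero_iff_mem.2 (Ideal.subset_span rfl)
  have h2 : y1 B a b ^ 2 - x1 B a b ^ 3 - algebraMap B _ a * x1 B a b - algebraMap B _ b = 0 := by
    rw [← h]
    simp only [eq1, map_sub, map_mul, map_pow]
    rfl
  linear_combination h2

theorem rel2 : t2 B a b = 1 + algebraMap B _ a * z2 B a b ^ 4 * t2 B a b ^ 2 +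
    algebraMap B _ b * z2 B a b ^ 6 * t2 B a b ^ 3 := by
  have h : Ideal.Quotient.mk (Ideal.span {eq2 B a b}) (eq2 B a b) = 0 :=
    Ideal.Quotient.eq_zero_iff_mem.2 (Ideal.subset_span rfl)
  have h2 : t2 B a b - 1 - algebraMap B _ a * z2 B a b ^ 4 * t2 B a b ^ 2 -
      algebraMap B _ b * z2 B a b ^ 6 * t2 B a b ^ 3 = 0 := by
    rw [← h]
    simp only [eq2, map_sub, map_mul, map_pow, map_one]
    rfl
  linear_combination h2

theorem t2_unit : IsUnit (t2 B a b) := by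
  refine IsUnit.of_mul_eq_one (1 - algebraMap B _ a * z2 B a b ^ 4 * t2 B a b -
    algebraMap B _ b * z2 B a b ^ 6 * t2 B a b ^ 2) ?_
  have := rel2 B a b
  linear_combination this

variable {B a b}

theorem kill1 {R : Type} [CommRing R] (φ : B →+* R) (x y : R)
    (h : y ^ 2 = x ^ 3 + φ a * x + φ b) (p : MvPolynomial (Fin 2) B)
    (hp : p ∈ Ideal.span {eq1 B a b}) : MvPolynomial.eval₂Hom φ ![x, y] p = 0 := by
  have : Ideal.span {eq1 B a b} ≤ RingHom.ker (MvPolynomial.eval₂Hom φ ![x, y]) := by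
    rw [Ideal.span_le, Set.singleton_subset_iff]
    change MvPolynomial.eval₂Hom φ ![x, y] (eq1 B a b) = 0
    simp [eq1]
    linear_combination h
  exact this hp

theorem kill2 {R : Type} [CommRing R] (φ : B →+* R) (z t : R)
    (h : t = 1 + φ a * z ^ 4 * t ^ 2 + φ b * z ^ 6 * t ^ 3) (p : MvPolynomial (Fin 2) B)
    (hp : p ∈ Ideal.span {eq2 B a b}) : MvPolynomial.eval₂Hom φ ![z, t] p = 0 := by
  have : Ideal.span {eq2 B a b} ≤ RingHom.ker (MvPolynomial.eval₂Hom φ ![z, t]) := by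
    rw [Ideal.span_le, Set.singleton_subset_iff]
    change MvPolynomial.eval₂Hom φ ![z, t] (eq2 B a b) = 0
    simp [eq2]
    linear_combination h
  exact this hp

/-- Homomorphisms from `A₁`. -/
noncomputable def lift1 {R : Type} [CommRing R] (φ : B →+* R) (x y : R)
    (h : y ^ 2 = x ^ 3 + φ a * x + φ b) : A1 B a b →+* R :=
  Ideal.Quotient.lift _ (MvPolynomial.eval₂Hom φ ![x, y]) (kill1 φ x y h)

/-- Homomorphisms from `A₂`. -/
noncomputable def lift2 {R : Type} [CommRing R] (φ : B →+* R) (z t : R)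
    (h : t = 1 + φ a * z ^ 4 * t ^ 2 + φ b * z ^ 6 * t ^ 3) : A2 B a b →+* R :=
  Ideal.Quotient.lift _ (MvPolynomial.eval₂Hom φ ![z, t]) (kill2 φ z t h)

section

variable {R : Type} [CommRing R] (φ : B →+* R)

@[simp]
theorem lift1_x (x y : R) (h : y ^ 2 = x ^ 3 + φ a * x + φ b) :
    lift1 φ x y h (x1 B a b) = x :=
  (Ideal.Quotient.lift_mk _ _ _).trans (by simp)

@[simp]
theorem lift1_y (x y : R) (h : y ^ 2 = x ^ 3 + φ a * x + φ b) :
    lift1 φ x y h (y1 B a b) = y :=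
  (Ideal.Quotient.lift_mk _ _ _).trans (by simp)

@[simp]
theorem lift1_b (x y : R) (h : y ^ 2 = x ^ 3 + φ a * x + φ b) (c : B) :
    lift1 φ x y h (algebraMap B _ c) = φ c :=
  (Ideal.Quotient.lift_mk (Ideal.span {eq1 B a b}) (MvPolynomial.eval₂Hom φ ![x, y])
    (kill1 φ x y h) (a := MvPolynomial.C c)).trans (by simp)

@[simp]
theorem lift2_z (z t : R) (h : t = 1 + φ a * z ^ 4 * t ^ 2 + φ b * z ^ 6 * t ^ 3) :
    lift2 φ z t h (z2 B a b) = z :=
  (Ideal.Quotient.lift_mk _ _ _).trans (by simp)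

@[simp]
theorem lift2_t (z t : R) (h : t = 1 + φ a * z ^ 4 * t ^ 2 + φ b * z ^ 6 * t ^ 3) :
    lift2 φ z t h (t2 B a b) = t :=
  (Ideal.Quotient.lift_mk _ _ _).trans (by simp)

@[simp]
theorem lift2_b (z t : R) (h : t = 1 + φ a * z ^ 4 * t ^ 2 + φ b * z ^ 6 * t ^ 3) (c : B) :
    lift2 φ z t h (algebraMap B _ c) = φ c :=
  (Ideal.Quotient.lift_mk (Ideal.span {eq2 B a b}) (MvPolynomial.eval₂Hom φ ![z, t])
    (kill2 φ z t h) (a := MvPolynomial.C c)).trans (by simp)

theorem hom1_ext {f g : A1 B a b →+* R} (h : ∀ c, f (algebraMap B _ c) = g (algebraMap B _ c))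
    (hx : f (x1 B a b) = g (x1 B a b)) (hy : f (y1 B a b) = g (y1 B a b)) : f = g := by
  refine Ideal.Quotient.ringHom_ext ?_
  refine MvPolynomial.ringHom_ext (fun c => h c) fun i => ?_
  fin_cases i
  · exact hx
  · exact hy

theorem hom2_ext {f g : A2 B a b →+* R} (h : ∀ c, f (algebraMap B _ c) = g (algebraMap B _ c))
    (hz : f (z2 B a b) = g (z2 B a b)) (ht : f (t2 B a b) = g (t2 B a b)) : f = g := by
  refine Ideal.Quotient.ringHom_ext ?_
  refine MvPolynomial.ringHom_ext (fun c => h c) fun i => ?_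
  fin_cases i
  · exact hz
  · exact ht

end

variable (B a b)

/-- The ring of the intersection of the charts. -/
abbrev A12 : Type := Localization.Away (z2 B a b)

/-- Restriction from the chart at infinity. -/
noncomputable def g2 : A2 B a b →+* A12 B a b := algebraMap _ _

/-- `z` as a unit. -/
noncomputable def zu : (A12 B a b)ˣ :=
  (IsLocalization.Away.algebraMap_isUnit (S := A12 B a b) (z2 B a b)).unit

/-- `t` as a unit. -/
noncomputable def tu : (A12 B a b)ˣ := ((t2_unit B a b).map (algebraMap _ (A12 B a b))).unit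

theorem zu_val : (zu B a b : A12 B a b) = g2 B a b (z2 B a b) := rfl

theorem tu_val : (tu B a b : A12 B a b) = g2 B a b (t2 B a b) := rfl

theorem rel12 : ((zu B a b)⁻¹ ^ 3 * (tu B a b)⁻¹ : (A12 B a b)ˣ).val ^ 2 =
    ((zu B a b)⁻¹ ^ 2 * (tu B a b)⁻¹ : (A12 B a b)ˣ).val ^ 3 +
    algebraMap B (A12 B a b) a * ((zu B a b)⁻¹ ^ 2 * (tu B a b)⁻¹ : (A12 B a b)ˣ).val +
    algebraMap B (A12 B a b) b := by
  have h := congrArg (g2 B a b) (rel2 B a b)
  simp only [map_add, map_mul, map_pow, map_one, ← zu_val, ← tu_val] at h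
  have ha : g2 B a b (algebraMap B _ a) = algebraMap B (A12 B a b) a := rfl
  have hb : g2 B a b (algebraMap B _ b) = algebraMap B (A12 B a b) b := rfl
  rw [ha, hb] at h
  have hz : (zu B a b : A12 B a b) * ((zu B a b)⁻¹ : (A12 B a b)ˣ).val = 1 := Units.mul_inv _
  have ht : (tu B a b : A12 B a b) * ((tu B a b)⁻¹ : (A12 B a b)ˣ).val = 1 := Units.mul_inv _
  push_cast
  generalize ((zu B a b)⁻¹ : (A12 B a b)ˣ).val = zi at *
  generalize ((tu B a b)⁻¹ : (A12 B a b)ˣ).val = ti at *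
  generalize (zu B a b : A12 B a b) = z at *
  generalize (tu B a b : A12 B a b) = t at *
  generalize algebraMap B (A12 B a b) a = a' at *
  generalize algebraMap B (A12 B a b) b = b' at *
  have hz4 : z ^ 4 * zi ^ 4 = 1 := by rw [← mul_pow, hz, one_pow]
  have hz6 : z ^ 6 * zi ^ 6 = 1 := by rw [← mul_pow, hz, one_pow]
  have ht2 : t ^ 2 * ti ^ 2 = 1 := by rw [← mul_pow, ht, one_pow]
  have ht3 : t ^ 3 * ti ^ 3 = 1 := by rw [← mul_pow, ht, one_pow]
  have h2 : t * (zi ^ 6 * ti ^ 3) = (1 + a' * z ^ 4 * t ^ 2 + b' * z ^ 6 * t ^ 3) *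
    (zi ^ 6 * ti ^ 3) := by rw [← h]
  have e1 : t * (zi ^ 6 * ti ^ 3) = zi ^ 6 * ti ^ 2 := by
    calc t * (zi ^ 6 * ti ^ 3) = (t * ti) * (zi ^ 6 * ti ^ 2) := by ring
      _ = _ := by rw [ht, one_mul]
  have e2 : (1 + a' * z ^ 4 * t ^ 2 + b' * z ^ 6 * t ^ 3) * (zi ^ 6 * ti ^ 3) =
      zi ^ 6 * ti ^ 3 + a' * (zi ^ 2 * ti) + b' := by
    calc (1 + a' * z ^ 4 * t ^ 2 + b' * z ^ 6 * t ^ 3) * (zi ^ 6 * ti ^ 3) =
        zi ^ 6 * ti ^ 3 + a' * (zi ^ 2 * ti) * ((z ^ 4 * zi ^ 4) * (t ^ 2 * ti ^ 2)) +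
          b' * ((z ^ 6 * zi ^ 6) * (t ^ 3 * ti ^ 3)) := by ring
      _ = _ := by rw [hz4, hz6, ht2, ht3]; ring
  rw [e1, e2] at h2
  calc (zi ^ 3 * ti) ^ 2 = zi ^ 6 * ti ^ 2 := by ring
    _ = _ := h2
    _ = _ := by ring

/-- Restriction from the affine chart. -/
noncomputable def g1 : A1 B a b →+* A12 B a b :=
  lift1 (algebraMap B (A12 B a b)) ((zu B a b)⁻¹ ^ 2 * (tu B a b)⁻¹ : (A12 B a b)ˣ).val
    ((zu B a b)⁻¹ ^ 3 * (tu B a b)⁻¹ : (A12 B a b)ˣ).val (rel12 B a b)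

theorem g1_x : g1 B a b (x1 B a b) = ((zu B a b)⁻¹ ^ 2 * (tu B a b)⁻¹ : (A12 B a b)ˣ).val :=
  lift1_x _ _ _ _

theorem g1_y : g1 B a b (y1 B a b) = ((zu B a b)⁻¹ ^ 3 * (tu B a b)⁻¹ : (A12 B a b)ˣ).val :=
  lift1_y _ _ _ _

theorem g1_b (c : B) : g1 B a b (algebraMap B _ c) = algebraMap B _ c := lift1_b _ _ _ _ _

theorem g2_b (c : B) : g2 B a b (algebraMap B _ c) = algebraMap B _ c := rfl

/-- The localisation of `A₁` at `x y`. -/
abbrev L1 : Type := Localization.Away (x1 B a b * y1 B a b)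

/-- `x` as a unit. -/
noncomputable def xu : (L1 B a b)ˣ :=
  (isUnit_of_mul_isUnit_left (by
    have := IsLocalization.Away.algebraMap_isUnit (S := L1 B a b) (x1 B a b * y1 B a b)
    rwa [map_mul] at this) : IsUnit (algebraMap (A1 B a b) (L1 B a b) (x1 B a b))).unit

/-- `y` as a unit. -/
noncomputable def yu : (L1 B a b)ˣ :=
  (isUnit_of_mul_isUnit_right (by
    have := IsLocalization.Away.algebraMap_isUnit (S := L1 B a b) (x1 B a b * y1 B a b)
    rwa [map_mul] at this) : IsUnit (algebraMap (A1 B a b) (L1 B a b) (y1 B a b))).unit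

theorem xu_val : (xu B a b : L1 B a b) = algebraMap (A1 B a b) (L1 B a b) (x1 B a b) := rfl

theorem yu_val : (yu B a b : L1 B a b) = algebraMap (A1 B a b) (L1 B a b) (y1 B a b) := rfl

theorem relL : ((yu B a b) ^ 2 * (xu B a b)⁻¹ ^ 3 : (L1 B a b)ˣ).val =
    1 + algebraMap B (L1 B a b) a * ((xu B a b) * (yu B a b)⁻¹ : (L1 B a b)ˣ).val ^ 4 *
      ((yu B a b) ^ 2 * (xu B a b)⁻¹ ^ 3 : (L1 B a b)ˣ).val ^ 2 +
    algebraMap B (L1 B a b) b * ((xu B a b) * (yu B a b)⁻¹ : (L1 B a b)ˣ).val ^ 6 *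
      ((yu B a b) ^ 2 * (xu B a b)⁻¹ ^ 3 : (L1 B a b)ˣ).val ^ 3 := by
  have h := congrArg (algebraMap (A1 B a b) (L1 B a b)) (rel1 B a b)
  simp only [map_add, map_mul, map_pow, ← xu_val, ← yu_val] at h
  have ha : algebraMap (A1 B a b) (L1 B a b) (algebraMap B _ a) = algebraMap B (L1 B a b) a := rfl
  have hb : algebraMap (A1 B a b) (L1 B a b) (algebraMap B _ b) = algebraMap B (L1 B a b) b := rfl
  rw [ha, hb] at h
  have hx : (xu B a b : L1 B a b) * ((xu B a b)⁻¹ : (L1 B a b)ˣ).val = 1 := Units.mul_inv _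
  have hy : (yu B a b : L1 B a b) * ((yu B a b)⁻¹ : (L1 B a b)ˣ).val = 1 := Units.mul_inv _
  push_cast
  generalize ((xu B a b)⁻¹ : (L1 B a b)ˣ).val = xi at *
  generalize ((yu B a b)⁻¹ : (L1 B a b)ˣ).val = yi at *
  generalize (xu B a b : L1 B a b) = x at *
  generalize (yu B a b : L1 B a b) = y at *
  generalize algebraMap B (L1 B a b) a = a' at *
  generalize algebraMap B (L1 B a b) b = b' at *
  have hx3 : x ^ 3 * xi ^ 3 = 1 := by rw [← mul_pow, hx, one_pow]
  have hx4 : x ^ 4 * xi ^ 4 = 1 := by rw [← mul_pow, hx, one_pow]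
  have hx6 : x ^ 6 * xi ^ 6 = 1 := by rw [← mul_pow, hx, one_pow]
  have hy4 : y ^ 4 * yi ^ 4 = 1 := by rw [← mul_pow, hy, one_pow]
  have hy6 : y ^ 6 * yi ^ 6 = 1 := by rw [← mul_pow, hy, one_pow]
  have e1 : a' * (x * yi) ^ 4 * (y ^ 2 * xi ^ 3) ^ 2 = a' * x * xi ^ 3 := by
    calc a' * (x * yi) ^ 4 * (y ^ 2 * xi ^ 3) ^ 2 =
        a' * xi ^ 2 * (x ^ 4 * xi ^ 4) * (y ^ 4 * yi ^ 4) := by ring
      _ = a' * xi ^ 2 * (x * xi) := by rw [hx4, hy4, hx]; ring
      _ = _ := by ring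
  have e2 : b' * (x * yi) ^ 6 * (y ^ 2 * xi ^ 3) ^ 3 = b' * xi ^ 3 := by
    calc b' * (x * yi) ^ 6 * (y ^ 2 * xi ^ 3) ^ 3 =
        b' * xi ^ 3 * (x ^ 6 * xi ^ 6) * (y ^ 6 * yi ^ 6) := by ring
      _ = _ := by rw [hx6, hy6]; ring
  rw [e1, e2, h]
  linear_combination hx3

/-- The inverse of the comparison. -/
noncomputable def cmpInv : A12 B a b →+* L1 B a b :=
  IsLocalization.Away.lift (z2 B a b) (g := lift2 (algebraMap B (L1 B a b))
    ((xu B a b) * (yu B a b)⁻¹ : (L1 B a b)ˣ).val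
    ((yu B a b) ^ 2 * (xu B a b)⁻¹ ^ 3 : (L1 B a b)ˣ).val (relL B a b)) (by
      rw [lift2_z]
      exact Units.isUnit _)

/-- The comparison. -/
noncomputable def cmp : L1 B a b →+* A12 B a b :=
  IsLocalization.Away.lift (x1 B a b * y1 B a b) (g := g1 B a b) (by
      rw [map_mul, g1_x, g1_y]
      exact (Units.isUnit _).mul (Units.isUnit _))

theorem cmp_alg (v : A1 B a b) : cmp B a b (algebraMap _ _ v) = g1 B a b v :=
  IsLocalization.Away.lift_eq _ _ _

theorem cmpInv_alg (v : A2 B a b) : cmpInv B a b (algebraMap _ _ v) =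
    lift2 (algebraMap B (L1 B a b)) ((xu B a b) * (yu B a b)⁻¹ : (L1 B a b)ˣ).val
    ((yu B a b) ^ 2 * (xu B a b)⁻¹ ^ 3 : (L1 B a b)ˣ).val (relL B a b) v :=
  IsLocalization.Away.lift_eq _ _ _

theorem cmp_xu : Units.map (cmp B a b : L1 B a b →* A12 B a b) (xu B a b) =
    (zu B a b)⁻¹ ^ 2 * (tu B a b)⁻¹ := by
  ext1
  change cmp B a b (algebraMap _ _ (x1 B a b)) = _
  rw [cmp_alg, g1_x]

theorem cmp_yu : Units.map (cmp B a b : L1 B a b →* A12 B a b) (yu B a b) =
    (zu B a b)⁻¹ ^ 3 * (tu B a b)⁻¹ := by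
  ext1
  change cmp B a b (algebraMap _ _ (y1 B a b)) = _
  rw [cmp_alg, g1_y]

theorem cmpInv_zu : Units.map (cmpInv B a b : A12 B a b →* L1 B a b) (zu B a b) =
    (xu B a b) * (yu B a b)⁻¹ := by
  ext1
  change cmpInv B a b (algebraMap _ _ (z2 B a b)) = _
  rw [cmpInv_alg, lift2_z]

theorem cmpInv_tu : Units.map (cmpInv B a b : A12 B a b →* L1 B a b) (tu B a b) =
    (yu B a b) ^ 2 * (xu B a b)⁻¹ ^ 3 := by
  ext1
  change cmpInv B a b (algebraMap _ _ (t2 B a b)) = _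
  rw [cmpInv_alg, lift2_t]

theorem cmp_cmpInv : (cmp B a b).comp (cmpInv B a b) = RingHom.id _ := by
  refine IsLocalization.ringHom_ext (Submonoid.powers (z2 B a b)) ?_
  refine hom2_ext ?_ ?_ ?_
  · intro c
    change cmp B a b (cmpInv B a b (algebraMap _ _ (algebraMap B _ c))) = _
    rw [cmpInv_alg, lift2_b]
    change cmp B a b (algebraMap (A1 B a b) _ (algebraMap B _ c)) = _
    rw [cmp_alg, g1_b]
    rfl
  · change cmp B a b (cmpInv B a b (algebraMap _ _ (z2 B a b))) = _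
    rw [cmpInv_alg, lift2_z]
    have : ((Units.map (cmp B a b : L1 B a b →* A12 B a b)) ((xu B a b) * (yu B a b)⁻¹)) =
        zu B a b := by
      rw [map_mul, map_inv, cmp_xu, cmp_yu]
      group
    exact congrArg Units.val this
  · change cmp B a b (cmpInv B a b (algebraMap _ _ (t2 B a b))) = _
    rw [cmpInv_alg, lift2_t]
    have : ((Units.map (cmp B a b : L1 B a b →* A12 B a b)) ((yu B a b) ^ 2 * (xu B a b)⁻¹ ^ 3)) =
        tu B a b := by
      rw [map_mul, map_pow, map_pow, map_inv, cmp_xu, cmp_yu]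
      have hc : Commute (zu B a b) (tu B a b) := Commute.all _ _
      simp only [mul_inv, inv_inv, mul_pow, ← pow_mul, inv_pow]
      rw [mul_mul_mul_comm]
      group
    exact congrArg Units.val this

theorem cmpInv_cmp : (cmpInv B a b).comp (cmp B a b) = RingHom.id _ := by
  refine IsLocalization.ringHom_ext (Submonoid.powers (x1 B a b * y1 B a b)) ?_
  refine hom1_ext ?_ ?_ ?_
  · intro c
    change cmpInv B a b (cmp B a b (algebraMap _ _ (algebraMap B _ c))) = _
    rw [cmp_alg, g1_b]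
    change cmpInv B a b (algebraMap (A2 B a b) _ (algebraMap B _ c)) = _
    rw [cmpInv_alg, lift2_b]
    rfl
  · change cmpInv B a b (cmp B a b (algebraMap _ _ (x1 B a b))) = _
    rw [cmp_alg, g1_x]
    have : ((Units.map (cmpInv B a b : A12 B a b →* L1 B a b))
        ((zu B a b)⁻¹ ^ 2 * (tu B a b)⁻¹)) = xu B a b := by
      rw [map_mul, map_pow, map_inv, map_inv, cmpInv_zu, cmpInv_tu]
      simp only [mul_inv, inv_inv, mul_pow, inv_pow]
      rw [mul_mul_mul_comm]
      group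
    exact congrArg Units.val this
  · change cmpInv B a b (cmp B a b (algebraMap _ _ (y1 B a b))) = _
    rw [cmp_alg, g1_y]
    have : ((Units.map (cmpInv B a b : A12 B a b →* L1 B a b))
        ((zu B a b)⁻¹ ^ 3 * (tu B a b)⁻¹)) = yu B a b := by
      rw [map_mul, map_pow, map_inv, map_inv, cmpInv_zu, cmpInv_tu]
      simp only [mul_inv, inv_inv, mul_pow, inv_pow]
      rw [mul_mul_mul_comm]
      group
      simp
    exact congrArg Units.val this

/-- The comparison isomorphism. -/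
noncomputable def cmpEquiv : L1 B a b ≃+* A12 B a b :=
  RingEquiv.ofRingHom (cmp B a b) (cmpInv B a b) (cmp_cmpInv B a b) (cmpInv_cmp B a b)

instance open1 : IsOpenImmersion (spMap (g1 B a b)) := by
  have h1 : g1 B a b = (cmpEquiv B a b : L1 B a b →+* A12 B a b).comp
      (algebraMap (A1 B a b) (L1 B a b)) := by
    exact RingHom.ext fun v => (cmp_alg B a b v).symm
  have h2 : spMap (g1 B a b) = spMap (cmpEquiv B a b : L1 B a b →+* A12 B a b) ≫
      spMap (algebraMap (A1 B a b) (L1 B a b)) := by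
    rw [h1]
    exact Spec.map_comp (CommRingCat.ofHom (algebraMap (A1 B a b) (L1 B a b)))
      (CommRingCat.ofHom (cmpEquiv B a b : L1 B a b →+* A12 B a b))
  have h3 : IsIso (spMap (cmpEquiv B a b : L1 B a b →+* A12 B a b)) := by
    have : IsIso (CommRingCat.ofHom (cmpEquiv B a b : L1 B a b →+* A12 B a b)) :=
      (RingEquiv.toCommRingCatIso (cmpEquiv B a b)).isIso_hom
    infer_instance
  rw [h2]
  infer_instance

instance open2 : IsOpenImmersion (spMap (g2 B a b)) := by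
  unfold g2
  infer_instance

end rings

/-! ## The scheme -/

/-- Weierstrass data over `B`: an equation `y² = x³ + a x + b` and `m` affine points. -/
structure WD (m : ℕ) (B : Type) [CommRing B] where
  /-- coefficient -/
  a : B
  /-- coefficient -/
  b : B
  /-- first coordinates -/
  x : Fin m → B
  /-- second coordinates -/
  y : Fin m → B
  eq : ∀ i, y i ^ 2 = x i ^ 3 + a * x i + b

section scheme

section

variable (B : Type) [CommRing B] (a b : B)

/-- The Weierstrass curve. -/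
noncomputable def WX : Scheme.{0} := pushout (spMap (g1 B a b)) (spMap (g2 B a b))

/-- The affine chart. -/
noncomputable def WX.in1 : Sp (A1 B a b) ⟶ WX B a b := pushout.inl _ _

/-- The chart at infinity. -/
noncomputable def WX.in2 : Sp (A2 B a b) ⟶ WX B a b := pushout.inr _ _

instance : IsOpenImmersion (WX.in1 B a b) :=
  inferInstanceAs (IsOpenImmersion (pushout.inl (spMap (g1 B a b)) (spMap (g2 B a b))))

instance : IsOpenImmersion (WX.in2 B a b) :=
  inferInstanceAs (IsOpenImmersion (pushout.inr (spMap (g1 B a b)) (spMap (g2 B a b))))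

/-- The projection. -/
noncomputable def WX.pr : WX B a b ⟶ Sp B :=
  pushout.desc (spMap (algebraMap B _)) (spMap (algebraMap B _)) (by
    rw [← Spec.map_comp, ← Spec.map_comp]
    congr 1
    ext c
    exact g1_b B a b c)

@[reassoc (attr := simp)]
theorem WX.in1_pr : WX.in1 B a b ≫ WX.pr B a b = spMap (algebraMap B _) :=
  pushout.inl_desc _ _ _

@[reassoc (attr := simp)]
theorem WX.in2_pr : WX.in2 B a b ≫ WX.pr B a b = spMap (algebraMap B _) :=
  pushout.inr_desc _ _ _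

/-- The point at infinity. -/
noncomputable def inf2 : A2 B a b →+* B :=
  lift2 (RingHom.id B) 0 1 (by simp)

end

variable {m : ℕ} {B : Type} [CommRing B] (P : WD m B)

/-- The affine points. -/
noncomputable def pt1 (i : Fin m) : A1 B P.a P.b →+* B :=
  lift1 (RingHom.id B) (P.x i) (P.y i) (P.eq i)

/-- The Weierstrass family with sections infinity and the affine points. -/
noncomputable def Wei : Fam (m + 1) B where
  X := WX B P.a P.b
  π := WX.pr B P.a P.b
  σ := Fin.cons (spMap (inf2 B P.a P.b) ≫ WX.in2 B P.a P.b)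
    (fun i => spMap (pt1 P i) ≫ WX.in1 B P.a P.b)
  sec i := by
    refine Fin.cases ?_ (fun i => ?_) i
    · rw [Fin.cons_zero, Category.assoc, WX.in2_pr, ← Spec.map_comp]
      rw [← Spec.map_id]
      congr 1
      ext c
      exact lift2_b (a := P.a) (b := P.b) (RingHom.id B) 0 1 (by simp) c
    · rw [Fin.cons_succ, Category.assoc, WX.in1_pr, ← Spec.map_comp]
      rw [← Spec.map_id]
      congr 1
      ext c
      exact lift1_b (a := P.a) (b := P.b) (RingHom.id B) (P.x i) (P.y i) (P.eq i) c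

end scheme

end Pool.Agent.MG.W
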