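import Pool.Agent.MG.W.All
import Pool.Agent.MG.End1b

/-!
# The values of a regular function at Weierstrass curves
-/

open CategoryTheory CategoryTheory.Limits AlgebraicGeometry TensorProduct

namespace Pool.Agent.MG.W

/-! ## Transport of covectors along isomorphisms -/

section

variable {g n : ℕ} {A : Type} [CommRing A]

theorem epsMap_id : epsMap (RingHom.id A) = RingHom.id (Eps A) := by
  refine RingHom.ext fun z => TrivSqZeroExt.ext ?_ ?_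
  · change (TrivSqZeroExt.inl z.fst + TrivSqZeroExt.inr z.snd : TrivSqZeroExt A A).fst = z.fst
    simp
  · change (TrivSqZeroExt.inl z.fst + TrivSqZeroExt.inr z.snd : TrivSqZeroExt A A).snd = z.snd
    simp

/-- The composite of an arrow over the identity and an arrow. -/
noncomputable def precomp {B : Type} [CommRing B] {φ : B →+* A} {x y : Fam n A} {z : Fam n B}
    (f : Arrow (RingHom.id A) y x) (r : Arrow φ x z) : Arrow φ y z where
  f := f.f ≫ r.f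
  cart := by
    have h := IsPullback.paste_vert f.cart.flip r.cart.flip
    have h2 : spMap (RingHom.id A) = 𝟙 (Sp A) := Spec.map_id _
    rw [h2, Category.id_comp] at h
    exact h.flip
  sec i := by
    have h2 : spMap (RingHom.id A) = 𝟙 (Sp A) := Spec.map_id _
    rw [← Category.assoc, f.sec, h2, Category.id_comp, r.sec]

/-- A deformation of `x` as a deformation of `y`. -/
noncomputable def Defo.pre {x y : Fam n A} (f : Arrow (RingHom.id A) y x) (d : Defo g x) :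
    Defo g y :=
  ⟨d.y, d.stable, precomp f d.r⟩

/-- The transport of a covector along an isomorphism. -/
noncomputable def covPre {x y : Fam n A} (f : Arrow (RingHom.id A) y x) (l : Cov g y) :
    Cov g x where
  l d := l.l (Defo.pre f d)
  iso d d' e he := l.iso _ _ e (by
    change (f.f ≫ d.r.f) ≫ e.f = f.f ≫ d'.r.f
    rw [Category.assoc, he])
  scale a d d' e he := l.scale a _ _ e (by
    change (f.f ≫ d'.r.f) ≫ e.f = f.f ≫ d.r.f
    rw [Category.assoc, he])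
  add z hz r d₁ d₂ d f₁ f₂ f₃ h₁ h₂ h₃ := l.add z hz (precomp f r) _ _ _ f₁ f₂ f₃
    (by
      change (f.f ≫ d₁.r.f) ≫ f₁.f = f.f ≫ r.f
      rw [Category.assoc, h₁])
    (by
      change (f.f ≫ d₂.r.f) ≫ f₂.f = f.f ≫ r.f
      rw [Category.assoc, h₂])
    (by
      change (f.f ≫ d.r.f) ≫ f₃.f = f.f ≫ r.f
      rw [Category.assoc, h₃])

theorem covPre_compat {x y : Fam n A} (f : Arrow (RingHom.id A) y x) (l : Cov g y) :
    Compat f l (covPre f l) := by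
  intro d' d e he
  have key : ∀ (φ : Eps A →+* Eps A) (_ : φ = RingHom.id (Eps A)) (e : Arrow φ d'.y d.y),
      d'.r.f ≫ e.f = f.f ≫ d.r.f → l.l d' = l.l (Defo.pre f d) := by
    intro φ hφ e he
    subst hφ
    exact l.iso d' (Defo.pre f d) e he
  exact key _ epsMap_id e he

theorem val_transport [Algebra ℂ A] (F : Reg g n) {x y : Fam n A}
    (f : Arrow (RingHom.id A) y x) (hx : IsStable g x) (hy : IsStable g y) (l : Cov g y) :
    F.F A y hy l = F.F A x hx (covPre f l) :=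
  F.nat A A (AlgHom.id ℂ A) x y hx hy f (covPre f l) l (covPre_compat f l)

end

/-! ## Values at Weierstrass curves -/

section

variable {k : Type} [Field k] [IsAlgClosed k] [CharZero k] {m : ℕ}

theorem six_ne : (6 : k) ≠ 0 := by
  exact_mod_cast (by norm_num : (6 : ℕ) ≠ 0)

theorem wei_stable (P : WD m k) (hD : 4 * P.a ^ 3 + 27 * P.b ^ 2 ≠ 0)
    (hP : ∀ i j, i ≠ j → P.x i ≠ P.x j ∨ P.y i ≠ P.y j) : IsStable 1 (Wei P) :=
  wst.2 P six_ne hD hP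

theorem wei_smooth (P : WD m k) (hD : 4 * P.a ^ 3 + 27 * P.b ^ 2 ≠ 0) :
    SmoothOfRelativeDimension 1 (Wei P).π :=
  t_WSM.1 k P.a P.b six_ne hD

variable [Algebra ℂ k]

/-- Values at Weierstrass curves with the same equation. -/
theorem wval (hm : 1 ≤ m) (F : Reg 1 (m + 1)) (a b : k) (hD : 4 * a ^ 3 + 27 * b ^ 2 ≠ 0)
    (x y x' y' : Fin m → k) (eq : ∀ i, y i ^ 2 = x i ^ 3 + a * x i + b)
    (eq' : ∀ i, y' i ^ 2 = x' i ^ 3 + a * x' i + b) (hs : IsStable 1 (Wei ⟨a, b, x, y, eq⟩))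
    (hs' : IsStable 1 (Wei ⟨a, b, x', y', eq'⟩)) (Φ : Flow (WX.pr k a b)) (hΦ : Φ.NV)
    (l : Cov 1 (Wei ⟨a, b, x, y, eq⟩)) (l' : Cov 1 (Wei ⟨a, b, x', y', eq'⟩)) (ν : Fin m → k)
    (hl : ∀ (i : Fin m) (d : Defo 1 (Wei ⟨a, b, x, y, eq⟩)),
      IsMv (C := Wei ⟨a, b, x, y, eq⟩) Φ i.succ d → l.l d = ν i)
    (hl' : ∀ (i : Fin m) (d : Defo 1 (Wei ⟨a, b, x', y', eq'⟩)),
      IsMv (C := Wei ⟨a, b, x', y', eq'⟩) Φ i.succ d → l'.l d = ν i) :
    F.F k (Wei ⟨a, b, x, y, eq⟩) hs l = F.F k (Wei ⟨a, b, x', y', eq'⟩) hs' l' := by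
  have hsm : SmoothOfRelativeDimension 1 (WX.pr k a b) := t_WSM.1 k a b six_ne hD
  let j₀ : Fin (m + 1) := (⟨0, hm⟩ : Fin m).succ
  have hj₀ : j₀ ≠ 0 := Fin.succ_ne_zero _
  -- the vector of all values
  let b₀ : Fin (m + 1) → k := Fin.cons (-∑ i, ν i) ν
  have key : ∀ (C : Fam (m + 1) k) (Q : E1.Cur C 1) (Φ : Flow C.π) (_ : Φ.NV) (l : Cov 1 C)
      (_ : ∀ (i : Fin m) (d : Defo 1 C), IsMv Φ i.succ d → l.l d = ν i), E1.HasMv Φ l b₀ := by
    intro C Q Φ hΦ l hl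
    obtain ⟨c, hc, hc0⟩ := E1.hasMv_ex Q Φ hΦ 0 j₀ hj₀ l
    have h1 : ∀ i : Fin m, c i.succ = ν i := by
      intro i
      obtain ⟨d, hd⟩ := E1.exists_mv Q i.succ 0 (Fin.succ_ne_zero i).symm Φ hΦ
      rw [← hc i.succ d hd, hl i d hd]
    have h2 : c = b₀ := by
      funext i
      refine Fin.cases ?_ (fun i => ?_) i
      · rw [Fin.sum_univ_succ] at hc0
        have h3 : ∑ i : Fin m, c i.succ = ∑ i, ν i := Finset.sum_congr rfl fun i _ => h1 i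
        rw [h3] at hc0
        change c 0 = -∑ i, ν i
        linear_combination hc0
      · exact h1 i
    rw [← h2]
    exact hc
  exact E1.move_all F (by omega) (WX k a b) (WX.pr k a b) hsm Φ hΦ
    (Wei ⟨a, b, x', y', eq'⟩).σ (Wei ⟨a, b, x', y', eq'⟩).sec hs' l' b₀
    (key (Wei ⟨a, b, x', y', eq'⟩) ⟨hs', hsm⟩ Φ hΦ l' hl') _
    (Wei ⟨a, b, x, y, eq⟩).σ (Wei ⟨a, b, x, y, eq⟩).sec rfl hs l
    (key (Wei ⟨a, b, x, y, eq⟩) ⟨hs, hsm⟩ Φ hΦ l hl)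

/-- `c` is the value at all smooth curves `y² = x³ + a x + b` and covectors with values `ν`. -/
def Gval (F : Reg 1 (m + 1)) (a b : k) (ν : Fin m → k) (c : k) : Prop :=
  ∀ (x y : Fin m → k) (eq : ∀ i, y i ^ 2 = x i ^ 3 + a * x i + b)
    (hs : IsStable 1 (Wei ⟨a, b, x, y, eq⟩)) (Φ : Flow (WX.pr k a b)) (_ : Φ.NV) (_ : IsWF Φ)
    (l : Cov 1 (Wei ⟨a, b, x, y, eq⟩))
    (_ : ∀ (i : Fin m) (d : Defo 1 (Wei ⟨a, b, x, y, eq⟩)),
      IsMv (C := Wei ⟨a, b, x, y, eq⟩) Φ i.succ d → l.l d = ν i),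
    F.F k (Wei ⟨a, b, x, y, eq⟩) hs l = c

/-- The value at one covector given by data. -/
theorem gval_of (hm : 1 ≤ m) (F : Reg 1 (m + 1)) (P : WD m k)
    (hD : 4 * P.a ^ 3 + 27 * P.b ^ 2 ≠ 0) (hs : IsStable 1 (Wei P)) (W : WCov P)
    (l : Cov 1 (Wei P)) (hl : IsWC W l) (ν : Fin m → k)
    (hν : ∀ i, ν i = W.γ i * (2 * P.y i) + W.ρ i * (3 * P.x i ^ 2 + P.a)) :
    Gval F P.a P.b ν (F.F k (Wei P) hs l) := by
  intro x y eq hs' Φ hΦ hW l' hl'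
  refine wval hm F P.a P.b hD x y P.x P.y eq P.eq hs' hs Φ hΦ l' l ν hl' ?_
  intro i d hd
  rw [hν i]
  exact wmv P six_ne Φ hW W l hl i d hd

/-- Existence of points. -/
theorem exists_pts (a b : k) : ∃ x y : Fin m → k, (∀ i, y i ^ 2 = x i ^ 3 + a * x i + b) ∧
    (∀ i, y i ≠ 0) ∧ Function.Injective x := by
  classical
  have hinf : Infinite k := IsAlgClosed.instInfinite
  let p : Polynomial k := Polynomial.X ^ 3 + Polynomial.C a * Polynomial.X + Polynomial.C b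
  have hp : p ≠ 0 := by
    intro h
    have h1 := congrArg (fun q => Polynomial.coeff q 3) h
    simp [p, Polynomial.coeff_X, Polynomial.coeff_C] at h1
  have hfin : (p.rootSet k).Finite := Polynomial.rootSet_finite p k
  have hinf2 : ((p.rootSet k)ᶜ).Infinite := Set.Finite.infinite_compl hfin
  have : Infinite ↥((p.rootSet k)ᶜ) := hinf2.to_subtype
  let e : ℕ ↪ ↥((p.rootSet k)ᶜ) := Infinite.natEmbedding _
  let x : Fin m → k := fun i => (e i.1).1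
  have hx : ∀ i, x i ^ 3 + a * x i + b ≠ 0 := by
    intro i h
    apply (e i.1).2
    rw [Polynomial.mem_rootSet]
    refine ⟨hp, ?_⟩
    simpa [p] using h
  have hy : ∀ i, ∃ y : k, y ^ 2 = x i ^ 3 + a * x i + b := fun i =>
    IsAlgClosed.exists_pow_nat_eq _ (by norm_num)
  choose y hy using hy
  refine ⟨x, y, hy, fun i h => hx i ?_, fun i j h => ?_⟩
  · rw [← hy i, h]
    ring
  · exact Fin.ext (e.injective (Subtype.ext h))

/-- Existence of curves and covectors with given values. -/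
theorem exists_inst (a b : k) (hab : a ≠ 0 ∨ b ≠ 0) (ν : Fin m → k) :
    ∃ (P : WD m k) (W : WCov P), P.a = a ∧ P.b = b ∧ (∀ i, P.y i ≠ 0) ∧
      Function.Injective P.x ∧ ∀ i, ν i = W.γ i * (2 * P.y i) + W.ρ i * (3 * P.x i ^ 2 + P.a) := by
  obtain ⟨x, y, eq, hy, hx⟩ := exists_pts (m := m) a b
  have h2 : (2 : k) ≠ 0 := two_ne_zero
  have h4 : (4 : k) ≠ 0 := by exact_mod_cast (by norm_num : (4 : ℕ) ≠ 0)
  let P : WD m k := ⟨a, b, x, y, eq⟩
  let γ : Fin m → k := fun i => ν i / (2 * y i)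
  let S : k := ∑ i, 2 * x i * γ i
  have hs : ∃ α β : k, 4 * a * α + 6 * b * β + S = 0 := by
    rcases hab with h | h
    · refine ⟨-S / (4 * a), 0, ?_⟩
      field_simp
      ring
    · refine ⟨0, -S / (6 * b), ?_⟩
      have h6 : (6 : k) ≠ 0 := six_ne
      field_simp
      ring
  obtain ⟨α, β, hαβ⟩ := hs
  let W : WCov P := ⟨α, β, γ, fun _ => 0, by
    change 4 * a * α + 6 * b * β + ∑ i, (2 * x i * γ i + 3 * y i * 0) = 0
    simp only [mul_zero, add_zero]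
    exact hαβ⟩
  refine ⟨P, W, rfl, rfl, hy, hx, fun i => ?_⟩
  change ν i = ν i / (2 * y i) * (2 * y i) + 0 * _
  rw [zero_mul, add_zero, div_mul_cancel₀ _ (mul_ne_zero h2 (hy i))]

theorem gval_unique (hm : 1 ≤ m) (F : Reg 1 (m + 1)) (a b : k) (hD : 4 * a ^ 3 + 27 * b ^ 2 ≠ 0)
    (ν : Fin m → k) (c c' : k) (h : Gval F a b ν c) (h' : Gval F a b ν c') : c = c' := by
  have hab : a ≠ 0 ∨ b ≠ 0 := by
    by_contra hh
    push Not at hh
    apply hD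
    rw [hh.1, hh.2]
    ring
  obtain ⟨P, W, rfl, rfl, hy, hx, hν⟩ := exists_inst a b hab ν
  have hs := wei_stable P hD (fun i j hij => Or.inl fun e => hij (hx e))
  obtain ⟨l, hl, -⟩ := wcv P (IsUnit.mk0 _ six_ne) W
  obtain ⟨Φ, hW, hΦ⟩ := wfl P.a P.b six_ne hD
  have hv : ∀ (i : Fin m) (d : Defo 1 (Wei P)), IsMv (C := Wei P) Φ i.succ d → l.l d = ν i := by
    intro i d hd
    rw [hν i]
    exact wmv P six_ne Φ hW W l hl i d hd
  have e1 := h P.x P.y P.eq hs Φ hΦ hW l hv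
  have e2 := h' P.x P.y P.eq hs Φ hΦ hW l hv
  rw [← e1, ← e2]

theorem ab_ne {a b : k} (hD : 4 * a ^ 3 + 27 * b ^ 2 ≠ 0) : a ≠ 0 ∨ b ≠ 0 := by
  by_contra hh
  push Not at hh
  apply hD
  rw [hh.1, hh.2]
  ring

/-- Scaling of the equation. -/
theorem gval_scale (hm : 1 ≤ m) (F : Reg 1 (m + 1)) (a b : k) (hD : 4 * a ^ 3 + 27 * b ^ 2 ≠ 0)
    (ν : Fin m → k) (c u : k) (hu : u ≠ 0) (h : Gval F a b ν c) :
    Gval F (u ^ 4 * a) (u ^ 6 * b) (fun i => u * ν i) c := by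
  obtain ⟨P, W, rfl, rfl, hy, hx, hν⟩ := exists_inst a b (ab_ne hD) ν
  have hs := wei_stable P hD (fun i j hij => Or.inl fun e => hij (hx e))
  obtain ⟨l, hl, -⟩ := wcv P (IsUnit.mk0 _ six_ne) W
  obtain ⟨Φ, hW, hΦ⟩ := wfl P.a P.b six_ne hD
  have e1 := h P.x P.y P.eq hs Φ hΦ hW l (by
    intro i d hd
    rw [hν i]
    exact wmv P six_ne Φ hW W l hl i d hd)
  -- the scaled data
  let P' : WD m k := ⟨u ^ 4 * P.a, u ^ 6 * P.b, fun i => u ^ 2 * P.x i, fun i => u ^ 3 * P.y i, by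
    intro i
    have := P.eq i
    rw [mul_pow, this]
    ring⟩
  have hSc : P.Sc u P' := ⟨rfl, rfl, fun _ => rfl, fun _ => rfl⟩
  have hD' : 4 * P'.a ^ 3 + 27 * P'.b ^ 2 ≠ 0 := by
    have : 4 * (u ^ 4 * P.a) ^ 3 + 27 * (u ^ 6 * P.b) ^ 2 =
        u ^ 12 * (4 * P.a ^ 3 + 27 * P.b ^ 2) := by ring
    change 4 * (u ^ 4 * P.a) ^ 3 + 27 * (u ^ 6 * P.b) ^ 2 ≠ 0
    rw [this]
    exact mul_ne_zero (pow_ne_zero _ hu) hD
  have hs' := wei_stable P' hD' (fun i j hij => Or.inl fun e => hij (hx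
    (mul_left_cancel₀ (pow_ne_zero 2 hu) e)))
  have hui : u * u⁻¹ = 1 := mul_inv_cancel₀ hu
  let W' : WCov P' := ⟨u⁻¹ ^ 4 * W.α, u⁻¹ ^ 6 * W.β, fun i => u⁻¹ ^ 2 * W.γ i,
    fun i => u⁻¹ ^ 3 * W.ρ i, by
      have h0 := W.eul
      change 4 * (u ^ 4 * P.a) * (u⁻¹ ^ 4 * W.α) + 6 * (u ^ 6 * P.b) * (u⁻¹ ^ 6 * W.β) +
        ∑ i, (2 * (u ^ 2 * P.x i) * (u⁻¹ ^ 2 * W.γ i) + 3 * (u ^ 3 * P.y i) *
          (u⁻¹ ^ 3 * W.ρ i)) = 0
      rw [← h0]
      have e4 : u ^ 4 * u⁻¹ ^ 4 = 1 := by rw [← mul_pow, hui, one_pow]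
      have e6 : u ^ 6 * u⁻¹ ^ 6 = 1 := by rw [← mul_pow, hui, one_pow]
      have e2 : u ^ 2 * u⁻¹ ^ 2 = 1 := by rw [← mul_pow, hui, one_pow]
      have e3 : u ^ 3 * u⁻¹ ^ 3 = 1 := by rw [← mul_pow, hui, one_pow]
      have hsum : ∑ i, (2 * (u ^ 2 * P.x i) * (u⁻¹ ^ 2 * W.γ i) + 3 * (u ^ 3 * P.y i) *
          (u⁻¹ ^ 3 * W.ρ i)) = ∑ i, (2 * P.x i * W.γ i + 3 * P.y i * W.ρ i) := by
        refine Finset.sum_congr rfl fun i _ => ?_
        linear_combination (2 * P.x i * W.γ i) * e2 + (3 * P.y i * W.ρ i) * e3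
      rw [hsum]
      linear_combination (4 * P.a * W.α) * e4 + (6 * P.b * W.β) * e6⟩
  obtain ⟨l', hl', -⟩ := wcv P' (IsUnit.mk0 _ six_ne) W'
  have hc : ∀ (j : ℕ) (z : k), u ^ j * (u⁻¹ ^ j * z) = z := by
    intro j z
    rw [← mul_assoc, ← mul_pow, hui, one_pow, one_mul]
  obtain ⟨f, hf⟩ := wna.2 u P P' W W' l l' (IsUnit.mk0 _ six_ne) (IsUnit.mk0 _ hu) hSc
    (hc 4 _) (hc 6 _) (fun i => hc 2 _) (fun i => hc 3 _) hl hl'
  have e2 : F.F k (Wei P') hs' l' = F.F k (Wei P) hs l :=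
    F.nat k k (AlgHom.id ℂ k) (Wei P) (Wei P') hs hs' f l l' hf
  have hg := gval_of hm F P' hD' hs' W' l' hl' (fun i => u * ν i) (by
    intro i
    change u * ν i = (u⁻¹ ^ 2 * W.γ i) * (2 * (u ^ 3 * P.y i)) + (u⁻¹ ^ 3 * W.ρ i) *
      (3 * (u ^ 2 * P.x i) ^ 2 + u ^ 4 * P.a)
    have e2 : u ^ 2 * u⁻¹ ^ 2 = 1 := by rw [← mul_pow, hui, one_pow]
    have e3 : u ^ 3 * u⁻¹ ^ 3 = 1 := by rw [← mul_pow, hui, one_pow]
    rw [hν i]
    linear_combination (-u * W.γ i * 2 * P.y i) * e2 - (u * W.ρ i * (3 * P.x i ^ 2 + P.a)) * e3)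
  rw [e2, e1] at hg
  exact hg

end

end Pool.Agent.MG.W
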