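import Pool.Agent.MG.W.EndA

/-!
# The values of a regular function at families of Weierstrass curves
-/

open CategoryTheory CategoryTheory.Limits AlgebraicGeometry TensorProduct

namespace Pool.Agent.MG.W

section

variable {k : Type} [Field k] [IsAlgClosed k] [CharZero k] {m : ℕ}

/-- The equation at `x = c`. -/
noncomputable def fc (A B : Polynomial k) (c : k) : Polynomial k :=
  Polynomial.C (c ^ 3) + A * Polynomial.C c + B

/-- The product of the equations at `x = c i`. -/
noncomputable def hc (A B : Polynomial k) (c : Fin m → k) : Polynomial k := ∏ i, fc A B (c i)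

section family

variable (A B : Polynomial k) (c : Fin m → k)

/-- The base ring. -/
abbrev RR : Type := Localization.Away (hN m (hc A B c))

/-- The parameter. -/
noncomputable def tt : RR A B c :=
  algebraMap (MvPolynomial (Option (Fin m)) k) (RR A B c) (MvPolynomial.X none)

/-- The weights. -/
noncomputable def nn (i : Fin m) : RR A B c :=
  algebraMap (MvPolynomial (Option (Fin m)) k) (RR A B c) (MvPolynomial.X (some i))

theorem fc_unit (i : Fin m) : IsUnit (Polynomial.aeval (tt A B c) (fc A B (c i))) := by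
  have h1 : IsUnit (algebraMap (MvPolynomial (Option (Fin m)) k) (RR A B c)
      (hN m (hc A B c))) := IsLocalization.Away.algebraMap_isUnit _
  have h2 : algebraMap (MvPolynomial (Option (Fin m)) k) (RR A B c) (hN m (hc A B c)) =
      Polynomial.aeval (tt A B c) (hc A B c) :=
    (Polynomial.aeval_algebraMap_apply (RR A B c) (MvPolynomial.X none) (hc A B c)).symm
  have h3 : Polynomial.aeval (tt A B c) (hc A B c) =
      ∏ i, Polynomial.aeval (tt A B c) (fc A B (c i)) := map_prod _ _ _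
  rw [h2, h3, IsUnit.prod_iff] at h1
  exact h1 i (Finset.mem_univ i)

variable [Algebra ℂ k]

/-- The value at the family. -/
theorem fam_val (hm : 1 ≤ m) (F : Reg 1 (m + 1)) (s t : Polynomial k)
    (hst : Polynomial.C 4 * A * s + Polynomial.C 6 * B * t = 1) (hinj : Function.Injective c) :
    ∃ v : RR A B c, ∀ ψ : RR A B c →ₐ[k] k,
      4 * A.eval (ψ (tt A B c)) ^ 3 + 27 * B.eval (ψ (tt A B c)) ^ 2 ≠ 0 →
      Gval F (A.eval (ψ (tt A B c))) (B.eval (ψ (tt A B c))) (fun i => ψ (nn A B c i)) (ψ v) := by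
  have h2 : (2 : k) ≠ 0 := two_ne_zero
  obtain ⟨R', _, _, ι, y, ρ, hy, hlift, hρ⟩ := t_ROOT h2
    (fun i => Polynomial.aeval (tt A B c) (fc A B (c i)))
  have h6k : IsUnit (6 : R') := by
    have h := (IsUnit.mk0 (6 : k) six_ne).map (algebraMap k R')
    rwa [map_ofNat] at h
  have h2k : IsUnit (2 : R') := by
    have h := (IsUnit.mk0 (2 : k) h2).map (algebraMap k R')
    rwa [map_ofNat] at h
  -- the family
  let a' : R' := ι (Polynomial.aeval (tt A B c) A)
  let b' : R' := ι (Polynomial.aeval (tt A B c) B)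
  let P : WD m R' := ⟨a', b', fun i => algebraMap k R' (c i), y, by
    intro i
    rw [hy i]
    unfold fc
    simp only [map_add, map_mul, Polynomial.aeval_C, AlgHom.commutes, map_pow]
    ring⟩
  have hyu : ∀ i, IsUnit (y i) := by
    intro i
    have h := (fc_unit A B c i).map ι
    rw [← hy i] at h
    exact (isUnit_pow_iff two_ne_zero).1 h
  have hbez : 4 * a' * ι (Polynomial.aeval (tt A B c) s) +
      6 * b' * ι (Polynomial.aeval (tt A B c) t) = 1 := by
    have h := congrArg (fun p => ι (Polynomial.aeval (tt A B c) p)) hst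
    simp only [map_add, map_mul, map_one, Polynomial.aeval_C, AlgHom.commutes] at h
    rw [map_ofNat, map_ofNat] at h
    exact h
  have hOk : P.Ok := by
    refine ⟨h6k, ?_, hyu, ?_⟩
    · rw [Ideal.eq_top_iff_one, Ideal.mem_span_pair]
      refine ⟨4 * ι (Polynomial.aeval (tt A B c) s), 6 * ι (Polynomial.aeval (tt A B c) t), ?_⟩
      change 4 * ι (Polynomial.aeval (tt A B c) s) * a' +
        6 * ι (Polynomial.aeval (tt A B c) t) * b' = 1
      linear_combination hbez
    · intro i j hij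
      change IsUnit (algebraMap k R' (c i) - algebraMap k R' (c j))
      rw [← map_sub]
      exact (IsUnit.mk0 _ (sub_ne_zero.2 fun e => hij (hinj e))).map _
  have hst' : IsStable 1 (Wei P) := wst.1 P hOk
  have hyi : ∀ i, ∃ z : R', 2 * y i * z = 1 := fun i => (h2k.mul (hyu i)).exists_right_inv
  choose yi hyi using hyi
  -- the covector
  let γ : Fin m → R' := fun i => ι (nn A B c i) * yi i
  let S : R' := ∑ i, 2 * algebraMap k R' (c i) * γ i
  let W : WCov P := ⟨-(ι (Polynomial.aeval (tt A B c) s) * S),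
    -(ι (Polynomial.aeval (tt A B c) t) * S), γ, fun _ => 0, by
      change 4 * a' * (-(ι (Polynomial.aeval (tt A B c) s) * S)) +
        6 * b' * (-(ι (Polynomial.aeval (tt A B c) t) * S)) +
        ∑ i, (2 * algebraMap k R' (c i) * γ i + 3 * y i * 0) = 0
      simp only [mul_zero, add_zero]
      change _ + S = 0
      linear_combination (-S) * hbez⟩
  obtain ⟨l, hl, -⟩ := wcv P h6k W
  let v' : R' := val (k := k) F (Wei P) hst' l
  refine ⟨ρ v', ?_⟩
  intro ψ hD
  -- the value at a point of `R'`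
  have key : ∀ ψ' : R' →ₐ[k] k, ψ'.comp ι = ψ → Gval F (A.eval (ψ (tt A B c)))
      (B.eval (ψ (tt A B c))) (fun i => ψ (nn A B c i)) (ψ' v') := by
    intro ψ' hψ'
    have hι : ∀ r, ψ' (ι r) = ψ r := fun r => congrArg (fun f : RR A B c →ₐ[k] k => f r) hψ'
    have hpol : ∀ p : Polynomial k, ψ' (ι (Polynomial.aeval (tt A B c) p)) =
        p.eval (ψ (tt A B c)) := by
      intro p
      rw [hι, ← Polynomial.aeval_algHom_apply, Polynomial.coe_aeval_eq_eval]
    have ha' : (P.map (ψ' : R' →+* k)).a = A.eval (ψ (tt A B c)) := hpol A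
    have hb' : (P.map (ψ' : R' →+* k)).b = B.eval (ψ (tt A B c)) := hpol B
    have hx' : ∀ i, (P.map (ψ' : R' →+* k)).x i = c i := fun i => ψ'.commutes (c i)
    have hD' : 4 * (P.map (ψ' : R' →+* k)).a ^ 3 + 27 * (P.map (ψ' : R' →+* k)).b ^ 2 ≠ 0 := by
      rw [ha', hb']
      exact hD
    have hs := wei_stable (P.map (ψ' : R' →+* k)) hD' (fun i j hij => Or.inl fun e => by
      rw [hx', hx'] at e
      exact hij (hinj e))
    let W' : WCov (P.map (ψ' : R' →+* k)) := ⟨ψ' W.α, ψ' W.β, fun i => ψ' (W.γ i),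
      fun i => ψ' (W.ρ i), by
        have h := congrArg ψ' W.eul
        rw [map_add, map_add, map_sum, map_zero] at h
        refine Eq.trans ?_ h
        change 4 * ψ' P.a * ψ' W.α + 6 * ψ' P.b * ψ' W.β +
          ∑ i, (2 * ψ' (P.x i) * ψ' (W.γ i) + 3 * ψ' (P.y i) * ψ' (W.ρ i)) = _
        simp only [map_mul, map_add, map_ofNat]⟩
    obtain ⟨l', hl', -⟩ := wcv (P.map (ψ' : R' →+* k)) (IsUnit.mk0 _ six_ne) W'
    obtain ⟨f, -, hf⟩ := wna.1 (ψ' : R' →+* k) P (P.map (ψ' : R' →+* k)) (P.map_bc _) W W' l l'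
      h6k rfl rfl (fun _ => rfl) (fun _ => rfl) hl hl'
    have e1 : F.F k (Wei (P.map (ψ' : R' →+* k))) hs l' = ψ' v' :=
      val_nat' F ψ' hst' hs f l l' hf
    have hg := gval_of hm F (P.map (ψ' : R' →+* k)) hD' hs W' l' hl'
      (fun i => ψ (nn A B c i)) (by
        intro i
        change ψ (nn A B c i) = ψ' (ι (nn A B c i) * yi i) * (2 * ψ' (y i)) + ψ' 0 * _
        have h := congrArg ψ' (hyi i)
        rw [map_mul, map_mul, map_one, map_ofNat] at h
        rw [map_mul, hι, map_zero, zero_mul, add_zero]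
        linear_combination (-ψ (nn A B c i)) * h)
    rw [e1, ha', hb'] at hg
    exact hg
  -- existence of a point of `R'`
  have hroot : ∃ y0 : Fin m → k, ∀ i, y0 i ^ 2 =
      ψ (Polynomial.aeval (tt A B c) (fc A B (c i))) := by
    have : ∀ i, ∃ y0 : k, y0 ^ 2 = ψ (Polynomial.aeval (tt A B c) (fc A B (c i))) := fun i =>
      IsAlgClosed.exists_pow_nat_eq _ (by norm_num)
    choose y0 hy0 using this
    exact ⟨y0, hy0⟩
  obtain ⟨y0, hy0⟩ := hroot
  obtain ⟨ψ₀, hψ₀, -⟩ := hlift ψ y0 hy0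
  have h0 := key ψ₀ hψ₀
  have h1 : ψ (ρ v') = ψ₀ v' := hρ v' ψ (ψ₀ v') (fun ψ' hψ' =>
    gval_unique hm F _ _ hD _ _ _ (key ψ' hψ') h0) ⟨y0, hy0⟩
  rw [h1]
  exact h0

end family

variable [Algebra ℂ k]

/-- The point of the base ring with given coordinates. -/
theorem exists_psi (A B : Polynomial k) (c : Fin m → k) (τ : k) (ν : Fin m → k)
    (h : (hc A B c).eval τ ≠ 0) : ∃ ψ : RR A B c →ₐ[k] k,
      ∀ p : MvPolynomial (Option (Fin m)) k, ψ (algebraMap _ _ p) =
        MvPolynomial.eval (fun o => o.elim τ ν) p := by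
  let θ : MvPolynomial (Option (Fin m)) k →ₐ[k] k :=
    MvPolynomial.aeval (fun o : Option (Fin m) => o.elim τ ν)
  have h1 : θ (hN m (hc A B c)) = (hc A B c).eval τ := by
    unfold hN
    rw [← Polynomial.aeval_algHom_apply]
    have : θ (MvPolynomial.X none) = τ := by simp [θ]
    rw [this, Polynomial.coe_aeval_eq_eval]
  refine ⟨IsLocalization.liftAlgHom (M := Submonoid.powers (hN m (hc A B c))) (f := θ) ?_, ?_⟩
  · rintro ⟨y, j, rfl⟩
    change IsUnit (θ ((hN m (hc A B c)) ^ j))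
    rw [map_pow, h1]
    exact (IsUnit.mk0 _ h).pow j
  · intro p
    rw [IsLocalization.liftAlgHom_apply, IsLocalization.lift_eq]
    exact RingHom.congr_fun (MvPolynomial.coe_aeval_eq_eval _) p

/-- The values at a family of equations are given by a polynomial. -/
theorem fam_poly (hm : 1 ≤ m) (F : Reg 1 (m + 1)) (A B s t : Polynomial k)
    (hst : Polynomial.C 4 * A * s + Polynomial.C 6 * B * t = 1)
    (hD : Polynomial.C 4 * A ^ 3 + Polynomial.C 27 * B ^ 2 ≠ 0)
    (c c' : Fin m → k) (hc1 : Function.Injective c) (hc2 : Function.Injective c')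
    (hn : ∀ i, fc A B (c i) ≠ 0) (hn' : ∀ i, fc A B (c' i) ≠ 0)
    (hcop : ∀ i j, IsCoprime (fc A B (c i)) (fc A B (c' j))) :
    ∃ q : MvPolynomial (Option (Fin m)) k, ∀ (τ : k) (ν : Fin m → k),
      4 * A.eval τ ^ 3 + 27 * B.eval τ ^ 2 ≠ 0 →
      Gval F (A.eval τ) (B.eval τ) ν (MvPolynomial.eval (fun o => o.elim τ ν) q) := by
  obtain ⟨v, hv⟩ := fam_val A B c hm F s t hst hc1
  obtain ⟨v', hv'⟩ := fam_val A B c' hm F s t hst hc2
  have hcop' : IsCoprime (hc A B c) (hc A B c') :=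
    IsCoprime.prod_left fun i _ => IsCoprime.prod_right fun j _ => hcop i j
  have hDe : ∀ τ : k, (Polynomial.C 4 * A ^ 3 + Polynomial.C 27 * B ^ 2).eval τ =
      4 * A.eval τ ^ 3 + 27 * B.eval τ ^ 2 := by
    intro τ
    simp
  have hν : ∀ (ψ : RR A B c →ₐ[k] k) (ψ' : RR A B c' →ₐ[k] k),
      (∀ p : MvPolynomial (Option (Fin m)) k, ψ (algebraMap _ _ p) = ψ' (algebraMap _ _ p)) →
      (fun i => ψ (nn A B c i)) = (fun i => ψ' (nn A B c' i)) := fun ψ ψ' h =>
    funext fun i => h _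
  obtain ⟨q, hq, hq'⟩ := t_DEN (hc A B c) (hc A B c')
    (Polynomial.C 4 * A ^ 3 + Polynomial.C 27 * B ^ 2) hcop'
    (Finset.prod_ne_zero_iff.2 fun i _ => hn i) (Finset.prod_ne_zero_iff.2 fun i _ => hn' i) hD
    v v' (by
      intro ψ ψ' h hne
      have e : ψ (tt A B c) = ψ' (tt A B c') := h _
      rw [hDe] at hne
      have g1 := hv ψ hne
      have hne' : 4 * A.eval (ψ' (tt A B c')) ^ 3 + 27 * B.eval (ψ' (tt A B c')) ^ 2 ≠ 0 := by
        rw [← e]
        exact hne
      have g2 := hv' ψ' hne'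
      rw [← e, ← hν ψ ψ' h] at g2
      exact gval_unique hm F _ _ hne _ _ _ g1 g2)
  refine ⟨q, ?_⟩
  intro τ ν hne
  by_cases h0 : (hc A B c).eval τ = 0
  · have h1 : (hc A B c').eval τ ≠ 0 := by
      obtain ⟨x, y, hxy⟩ := hcop'
      intro h1
      have := congrArg (Polynomial.eval τ) hxy
      simp [h0, h1] at this
    obtain ⟨ψ, hψ⟩ := exists_psi A B c' τ ν h1
    have e : ψ (tt A B c') = τ := by
      unfold tt
      rw [hψ]
      simp
    have eν : (fun i => ψ (nn A B c' i)) = ν := by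
      funext i
      unfold nn
      rw [hψ]
      simp
    have g := hv' ψ (by rw [e]; exact hne)
    rw [e, eν, hq', hψ] at g
    exact g
  · obtain ⟨ψ, hψ⟩ := exists_psi A B c τ ν h0
    have e : ψ (tt A B c) = τ := by
      unfold tt
      rw [hψ]
      simp
    have eν : (fun i => ψ (nn A B c i)) = ν := by
      funext i
      unfold nn
      rw [hψ]
      simp
    have g := hv ψ (by rw [e]; exact hne)
    rw [e, eν, hq, hψ] at g
    exact g

theorem cop_of_det (u w u' w' : k) (h : u * w' - u' * w ≠ 0) :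
    IsCoprime (Polynomial.C u * Polynomial.X + Polynomial.C w)
      (Polynomial.C u' * Polynomial.X + Polynomial.C w') := by
  refine ⟨-Polynomial.C (u' / (u * w' - u' * w)), Polynomial.C (u / (u * w' - u' * w)), ?_⟩
  have h1 : -(u' / (u * w' - u' * w)) * u + u / (u * w' - u' * w) * u' = 0 := by ring
  have h2 : -(u' / (u * w' - u' * w)) * w + u / (u * w' - u' * w) * w' = 1 := by
    field_simp
    ring
  have e : -Polynomial.C (u' / (u * w' - u' * w)) * (Polynomial.C u * Polynomial.X +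
      Polynomial.C w) + Polynomial.C (u / (u * w' - u' * w)) * (Polynomial.C u' * Polynomial.X +
      Polynomial.C w') = Polynomial.C (-(u' / (u * w' - u' * w)) * u +
        u / (u * w' - u' * w) * u') * Polynomial.X + Polynomial.C (-(u' / (u * w' - u' * w)) * w +
        u / (u * w' - u' * w) * w') := by
    simp only [map_add, map_mul, map_neg]
    ring
  rw [e, h1, h2]
  simp

theorem lin_ne_zero (u w : k) (h : u ≠ 0) : Polynomial.C u * Polynomial.X + Polynomial.C w ≠ 0 := by
  intro e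
  have := congrArg (fun p => Polynomial.coeff p 1) e
  simp at this
  exact h this

/-- The equations `y² = x³ + x + b`. -/
theorem poly1 (hm : 1 ≤ m) (F : Reg 1 (m + 1)) :
    ∃ q : MvPolynomial (Option (Fin m)) k, ∀ (τ : k) (ν : Fin m → k),
      4 * (1 : k) ^ 3 + 27 * τ ^ 2 ≠ 0 →
      Gval F 1 τ ν (MvPolynomial.eval (fun o => o.elim τ ν) q) := by
  have h4 : (4 : k) ≠ 0 := by exact_mod_cast (by norm_num : (4 : ℕ) ≠ 0)
  have hfc : ∀ c : k, fc 1 Polynomial.X c =
      Polynomial.C 1 * Polynomial.X + Polynomial.C (c ^ 3 + c) := by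
    intro c
    unfold fc
    rw [map_add, map_one]
    ring
  have hdet : ∀ i j : ℕ, i < j → (1 : k) * ((j : k) ^ 3 + j) - 1 * ((i : k) ^ 3 + i) ≠ 0 := by
    intro i j hij h
    have h1 : (i : k) ^ 3 + i = (j : k) ^ 3 + j := by linear_combination -h
    have h2 : i ^ 3 + i = j ^ 3 + j := by exact_mod_cast h1
    have h3 : i ^ 3 + i < j ^ 3 + j := by
      have := Nat.pow_lt_pow_left hij (n := 3) (by norm_num)
      omega
    omega
  have key := fam_poly hm F (1 : Polynomial k) Polynomial.X (Polynomial.C (1 / 4)) 0 (by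
      rw [mul_zero, add_zero, mul_one, ← Polynomial.C_mul]
      have : (4 : k) * (1 / 4) = 1 := by field_simp
      rw [this, map_one]) (by
      intro e
      have := congrArg (Polynomial.eval 0) e
      simp at this)
    (fun i => (i.1 : k)) (fun i => ((m + i.1 : ℕ) : k))
    (fun i j h => Fin.ext (by
      have h0 : ((i.1 : ℕ) : k) = ((j.1 : ℕ) : k) := h
      exact_mod_cast h0))
    (fun i j h => Fin.ext (by
      have h0 : ((m + i.1 : ℕ) : k) = ((m + j.1 : ℕ) : k) := h
      have h1 : m + i.1 = m + j.1 := by exact_mod_cast h0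
      omega))
    (fun i => by
      rw [hfc]
      exact lin_ne_zero _ _ one_ne_zero)
    (fun i => by
      rw [hfc]
      exact lin_ne_zero _ _ one_ne_zero)
    (fun i j => by
      rw [hfc, hfc]
      refine cop_of_det _ _ _ _ ?_
      exact hdet i.1 (m + j.1) (by omega))
  obtain ⟨q, hq⟩ := key
  refine ⟨q, fun τ ν h => ?_⟩
  have := hq τ ν (by simpa using h)
  simpa using this

/-- The equations `y² = x³ + a x + 1`. -/
theorem poly2 (hm : 1 ≤ m) (F : Reg 1 (m + 1)) :
    ∃ q : MvPolynomial (Option (Fin m)) k, ∀ (τ : k) (ν : Fin m → k),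
      4 * τ ^ 3 + 27 * (1 : k) ^ 2 ≠ 0 →
      Gval F τ 1 ν (MvPolynomial.eval (fun o => o.elim τ ν) q) := by
  have h6 : (6 : k) ≠ 0 := six_ne
  have h27 : (27 : k) ≠ 0 := by exact_mod_cast (by norm_num : (27 : ℕ) ≠ 0)
  have hfc : ∀ c : k, fc Polynomial.X 1 c =
      Polynomial.C c * Polynomial.X + Polynomial.C (c ^ 3 + 1) := by
    intro c
    unfold fc
    rw [map_add, map_one]
    ring
  have hdet : ∀ i j : ℕ, 1 ≤ i → i < j →
      (i : k) * ((j : k) ^ 3 + 1) - j * ((i : k) ^ 3 + 1) ≠ 0 := by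
    intro i j hi hij h
    have h1 : (i : k) * ((j : k) ^ 3 + 1) = (j : k) * ((i : k) ^ 3 + 1) := by
      linear_combination h
    have h2 : i * (j ^ 3 + 1) = j * (i ^ 3 + 1) := by exact_mod_cast h1
    have h3 : j * (i ^ 3 + 1) < i * (j ^ 3 + 1) := by
      obtain ⟨d, rfl⟩ := Nat.exists_eq_add_of_lt hij
      nlinarith [Nat.zero_le d, Nat.zero_le i, mul_pos (show 0 < i by omega) (show 0 < i by omega),
        Nat.zero_le (i * d), Nat.zero_le (i * i * d), Nat.zero_le (i * d * d),
        Nat.zero_le (i * i * d * d), Nat.zero_le (i * i * i * d), Nat.zero_le (i * d * d * d),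
        Nat.zero_le (i * i)]
    omega
  have key := fam_poly hm F (Polynomial.X : Polynomial k) 1 0 (Polynomial.C (1 / 6)) (by
      rw [mul_zero, zero_add, mul_one, ← Polynomial.C_mul]
      have : (6 : k) * (1 / 6) = 1 := by field_simp
      rw [this, map_one]) (by
      intro e
      have := congrArg (Polynomial.eval 0) e
      simp at this)
    (fun i => ((i.1 + 1 : ℕ) : k)) (fun i => ((m + i.1 + 1 : ℕ) : k))
    (fun i j h => Fin.ext (by
      have h0 : ((i.1 + 1 : ℕ) : k) = ((j.1 + 1 : ℕ) : k) := h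
      have h1 : i.1 + 1 = j.1 + 1 := by exact_mod_cast h0
      omega))
    (fun i j h => Fin.ext (by
      have h0 : ((m + i.1 + 1 : ℕ) : k) = ((m + j.1 + 1 : ℕ) : k) := h
      have h1 : m + i.1 + 1 = m + j.1 + 1 := by exact_mod_cast h0
      omega))
    (fun i => by
      rw [hfc]
      exact lin_ne_zero _ _ (by exact_mod_cast (by omega : i.1 + 1 ≠ 0)))
    (fun i => by
      rw [hfc]
      exact lin_ne_zero _ _ (by exact_mod_cast (by omega : m + i.1 + 1 ≠ 0)))
    (fun i j => by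
      rw [hfc, hfc]
      refine cop_of_det _ _ _ _ ?_
      exact hdet (i.1 + 1) (m + j.1 + 1) (by omega) (by omega))
  obtain ⟨q, hq⟩ := key
  refine ⟨q, fun τ ν h => ?_⟩
  have := hq τ ν (by simpa using h)
  simpa using this

/-- All values are equal. -/
theorem gval_const (hm : 1 ≤ m) (F : Reg 1 (m + 1)) :
    ∃ c : k, ∀ (a b : k) (ν : Fin m → k), 4 * a ^ 3 + 27 * b ^ 2 ≠ 0 → Gval F a b ν c := by
  obtain ⟨q, hq⟩ := poly1 (k := k) hm F
  obtain ⟨q', hq'⟩ := poly2 (k := k) hm F
  have h27 : (27 : k) ≠ 0 := by exact_mod_cast (by norm_num : (27 : ℕ) ≠ 0)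
  obtain ⟨c, hc, hc'⟩ := t_WTS q q'
    (Polynomial.C 4 * Polynomial.X ^ 12 + Polynomial.C 27 : Polynomial k) (by
      intro e
      have := congrArg (Polynomial.eval 0) e
      simp at this) (by
      intro u ν hu hD
      have hD1 : 4 * u ^ 12 + 27 ≠ 0 := by simpa using hD
      have hui : u * u⁻¹ = 1 := mul_inv_cancel₀ hu
      have hD2 : 4 * (1 : k) ^ 3 + 27 * (u⁻¹ ^ 6) ^ 2 ≠ 0 := by
        intro h
        apply hD1
        have e12 : u ^ 12 * u⁻¹ ^ 12 = 1 := by rw [← mul_pow, hui, one_pow]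
        linear_combination (u ^ 12) * h - 27 * e12
      have hD3 : 4 * (u ^ 4) ^ 3 + 27 * (1 : k) ^ 2 ≠ 0 := by
        intro h
        apply hD1
        linear_combination h
      have g1 := gval_scale hm F 1 (u⁻¹ ^ 6) hD2 ν _ u hu (hq (u⁻¹ ^ 6) ν hD2)
      have e6 : u ^ 6 * u⁻¹ ^ 6 = 1 := by rw [← mul_pow, hui, one_pow]
      rw [mul_one, e6] at g1
      exact gval_unique hm F _ _ hD3 _ _ _ g1 (hq' (u ^ 4) (fun i => u * ν i) hD3))
  refine ⟨c, ?_⟩
  intro a b ν hD
  -- reduction to `b = 1` or `a = 1`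
  have back : ∀ (u : k) (_ : u ≠ 0), Gval F (u ^ 4 * a) (u ^ 6 * b) (fun i => u * ν i) c →
      Gval F a b ν c := by
    intro u hu h
    have hui : u⁻¹ * u = 1 := inv_mul_cancel₀ hu
    have hD' : 4 * (u ^ 4 * a) ^ 3 + 27 * (u ^ 6 * b) ^ 2 ≠ 0 := by
      have : 4 * (u ^ 4 * a) ^ 3 + 27 * (u ^ 6 * b) ^ 2 =
        u ^ 12 * (4 * a ^ 3 + 27 * b ^ 2) := by ring
      rw [this]
      exact mul_ne_zero (pow_ne_zero _ hu) hD
    have g := gval_scale hm F _ _ hD' _ c u⁻¹ (inv_ne_zero hu) h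
    have e4 : u⁻¹ ^ 4 * (u ^ 4 * a) = a := by rw [← mul_assoc, ← mul_pow, hui, one_pow, one_mul]
    have e6 : u⁻¹ ^ 6 * (u ^ 6 * b) = b := by rw [← mul_assoc, ← mul_pow, hui, one_pow, one_mul]
    have e1 : (fun i => u⁻¹ * (u * ν i)) = ν := by
      funext i
      rw [← mul_assoc, hui, one_mul]
    rw [e4, e6, e1] at g
    exact g
  by_cases hb : b = 0
  · have ha : a ≠ 0 := (ab_ne hD).resolve_right fun h => h hb
    obtain ⟨u, hu⟩ : ∃ u : k, u ^ 4 = a⁻¹ := IsAlgClosed.exists_pow_nat_eq _ (by norm_num)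
    have hu0 : u ≠ 0 := by
      rintro rfl
      rw [zero_pow (by norm_num)] at hu
      exact inv_ne_zero ha hu.symm
    refine back u hu0 ?_
    rw [hu, inv_mul_cancel₀ ha, hb, mul_zero]
    have hD0 : 4 * (1 : k) ^ 3 + 27 * (0 : k) ^ 2 ≠ 0 := by
      have h4 : (4 : k) ≠ 0 := by exact_mod_cast (by norm_num : (4 : ℕ) ≠ 0)
      simpa using h4
    have g := hq 0 (fun i => u * ν i) hD0
    rw [hc, MvPolynomial.eval_C] at g
    exact g
  · obtain ⟨u, hu⟩ : ∃ u : k, u ^ 6 = b⁻¹ := IsAlgClosed.exists_pow_nat_eq _ (by norm_num)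
    have hu0 : u ≠ 0 := by
      rintro rfl
      rw [zero_pow (by norm_num)] at hu
      exact inv_ne_zero hb hu.symm
    refine back u hu0 ?_
    rw [hu, inv_mul_cancel₀ hb]
    have hD0 : 4 * (u ^ 4 * a) ^ 3 + 27 * (1 : k) ^ 2 ≠ 0 := by
      have : 4 * (u ^ 4 * a) ^ 3 + 27 * (u ^ 6 * b) ^ 2 =
        u ^ 12 * (4 * a ^ 3 + 27 * b ^ 2) := by ring
      rw [hu, inv_mul_cancel₀ hb] at this
      rw [this]
      exact mul_ne_zero (pow_ne_zero _ hu0) hD
    have g := hq' (u ^ 4 * a) (fun i => u * ν i) hD0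
    rw [hc', MvPolynomial.eval_C] at g
    exact g

end

end Pool.Agent.MG.W
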