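import Pool.Agent.MG.W.EndB
import Pool.Agent.MG.SmNod

/-!
# The theorem for pointed curves of genus one
-/

open CategoryTheory CategoryTheory.Limits AlgebraicGeometry TensorProduct

namespace Pool.Agent.MG.W

section

variable {k : Type} [Field k] [IsAlgClosed k] [Algebra ℂ k] {m : ℕ}

/-- All values of a regular function at the smooth curves over `k` are equal. -/
theorem genus_one_k [CharZero k] (hm : 1 ≤ m) (F : Reg 1 (m + 1)) :
    ∃ c : k, ∀ (C : Fam (m + 1) k) (hC : IsStable 1 C) (_ : SmoothOfRelativeDimension 1 C.π)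
      (l : Cov 1 C), F.F k C hC l = c := by
  obtain ⟨c, hc⟩ := gval_const (k := k) hm F
  refine ⟨c, ?_⟩
  intro C hC hsm l
  obtain ⟨P, hD, f, hf⟩ := t_W0 C hC hsm
  -- the points are distinct
  have hdist : ∀ i j, i ≠ j → P.x i ≠ P.x j ∨ P.y i ≠ P.y j := by
    intro i j hij
    by_contra h
    push Not at h
    have e1 : pt1 P i = pt1 P j := by
      refine hom1_ext ?_ ?_ ?_
      · intro r
        rw [pt1, lift1_b, pt1, lift1_b]
      · rw [pt1, lift1_x, pt1, lift1_x, h.1]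
      · rw [pt1, lift1_y, pt1, lift1_y, h.2]
    have e2 : (Wei P).σ i.succ = (Wei P).σ j.succ := by
      change spMap (pt1 P i) ≫ WX.in1 k P.a P.b = spMap (pt1 P j) ≫ WX.in1 k P.a P.b
      rw [e1]
    have e3 : C.σ i.succ ≫ f.f = C.σ j.succ ≫ f.f := by
      rw [f.sec, f.sec, e2]
    exact (CST.stableCurve hC).distinct i.succ j.succ
      (fun e => hij (Fin.succ_injective _ e)) ((cancel_mono f.f).1 e3)
  have hs := wei_stable P hD hdist
  rw [val_transport F f hs hC l]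
  obtain ⟨Φ, hW, hΦ⟩ := wfl P.a P.b six_ne hD
  have Q : E1.Cur (Wei P) 1 := ⟨hs, wei_smooth P hD⟩
  obtain ⟨b, hb, -⟩ := E1.hasMv_ex Q Φ hΦ 0 (⟨0, hm⟩ : Fin m).succ (Fin.succ_ne_zero _)
    (covPre f l)
  exact hc P.a P.b (fun i => b i.succ) hD P.x P.y P.eq hs Φ hΦ hW (covPre f l)
    (fun i d hd => hb i.succ d hd)

/-- Stable pointed curves of genus one over `ℂ` and the values at their base changes. -/
theorem base_change (hm : 1 ≤ m) (F : Reg 1 (m + 1)) (c : ℂ)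
    (hc : ∀ (C : Fam (m + 1) ℂ) (hC : IsStable 1 C) (_ : SmoothOfRelativeDimension 1 C.π)
      (l : Cov 1 C), F.F ℂ C hC l = c) [CharZero k] :
    ∃ (C : Fam (m + 1) k) (hC : IsStable 1 C) (_ : SmoothOfRelativeDimension 1 C.π)
      (l : Cov 1 C), F.F k C hC l = algebraMap ℂ k c := by
  obtain ⟨P, W, ha, hb, hy, hx, -⟩ := exists_inst (k := ℂ) (m := m) 1 0 (Or.inl one_ne_zero) 0
  have hD : 4 * P.a ^ 3 + 27 * P.b ^ 2 ≠ 0 := by
    rw [ha, hb]
    norm_num
  have hs := wei_stable P hD (fun i j hij => Or.inl fun e => hij (hx e))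
  obtain ⟨l, hl, -⟩ := wcv P (IsUnit.mk0 _ six_ne) W
  have hD' : 4 * (P.map (algebraMap ℂ k)).a ^ 3 + 27 * (P.map (algebraMap ℂ k)).b ^ 2 ≠ 0 := by
    change 4 * (algebraMap ℂ k P.a) ^ 3 + 27 * (algebraMap ℂ k P.b) ^ 2 ≠ 0
    rw [ha, hb, map_one, map_zero]
    have h4 : (4 : k) ≠ 0 := by exact_mod_cast (by norm_num : (4 : ℕ) ≠ 0)
    simpa using h4
  have hs' := wei_stable (P.map (algebraMap ℂ k)) hD' (fun i j hij => Or.inl fun e =>
    hij (hx ((algebraMap ℂ k).injective e)))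
  let W' : WCov (P.map (algebraMap ℂ k)) := ⟨algebraMap ℂ k W.α, algebraMap ℂ k W.β,
    fun i => algebraMap ℂ k (W.γ i), fun i => algebraMap ℂ k (W.ρ i), by
      have h := congrArg (algebraMap ℂ k) W.eul
      rw [map_add, map_add, map_sum, map_zero] at h
      refine Eq.trans ?_ h
      change 4 * algebraMap ℂ k P.a * algebraMap ℂ k W.α +
        6 * algebraMap ℂ k P.b * algebraMap ℂ k W.β +
        ∑ i, (2 * algebraMap ℂ k (P.x i) * algebraMap ℂ k (W.γ i) +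
          3 * algebraMap ℂ k (P.y i) * algebraMap ℂ k (W.ρ i)) = _
      simp only [map_mul, map_add, map_ofNat]⟩
  obtain ⟨l', hl', -⟩ := wcv (P.map (algebraMap ℂ k)) (IsUnit.mk0 _ six_ne) W'
  obtain ⟨f, -, hf⟩ := wna.1 (algebraMap ℂ k) P (P.map (algebraMap ℂ k)) (P.map_bc _) W W' l l'
    (IsUnit.mk0 _ six_ne) rfl rfl (fun _ => rfl) (fun _ => rfl) hl hl'
  refine ⟨Wei (P.map (algebraMap ℂ k)), hs', wei_smooth _ hD', l', ?_⟩
  rw [← hc (Wei P) hs (wei_smooth P hD) l]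
  exact F.nat ℂ k (Algebra.ofId ℂ k) (Wei P) (Wei (P.map (algebraMap ℂ k))) hs hs' f l l' hf

end

/-- Regular functions on `T^*M̄_{1,n}`, `n ≥ 2`, are constant on the locus of smooth curves. -/
theorem genus_one (n : ℕ) (hn : 2 ≤ n) (F : Reg 1 n) : ∃ c : ℂ, ∀ (k : Type) [Field k]
    [IsAlgClosed k] [Algebra ℂ k] (C : Fam n k) (hC : IsStable 1 C) (_ : Smooth C.π)
    (l : Cov 1 C), F.F k C hC l = algebraMap ℂ k c := by
  obtain ⟨m, rfl⟩ : ∃ m, n = m + 1 := ⟨n - 1, by omega⟩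
  have hm : 1 ≤ m := by omega
  obtain ⟨c, hc⟩ := genus_one_k (k := ℂ) hm F
  refine ⟨c, ?_⟩
  intro k _ _ _ C hC hs l
  have : CharZero k := charZero_of_injective_algebraMap (algebraMap ℂ k).injective
  have hs1 : SmoothOfRelativeDimension 1 C.π :=
    SmNod.smoothOfRelativeDimension_one C.π (CST.stableCurve hC).nodal
  obtain ⟨c', hc'⟩ := genus_one_k (k := k) hm F
  obtain ⟨C₀, hC₀, hs₀, l₀, h₀⟩ := base_change (k := k) hm F c hc
  rw [hc' C hC hs1 l, ← hc' C₀ hC₀ hs₀ l₀, h₀]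

end Pool.Agent.MG.W
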