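import Pool.Agent.MG.W.Bc
import Pool.Agent.MG.StmtsC

/-!
# Statements on Weierstrass families
-/

open CategoryTheory CategoryTheory.Limits AlgebraicGeometry TensorProduct

namespace Pool.Agent.MG.W

/-- The Weierstrass family `P` is stable: no cuspidal fibres, affine points with invertible
`y`-coordinates, and invertible differences of the `x`-coordinates. -/
structure WD.Ok {m : ℕ} {B : Type} [CommRing B] (P : WD m B) : Prop where
  six : IsUnit (6 : B)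
  ab : Ideal.span {P.a, P.b} = ⊤
  y : ∀ i, IsUnit (P.y i)
  x : ∀ i j, i ≠ j → IsUnit (P.x i - P.x j)

/-! ## Geometry of Weierstrass curves -/

/-- WBC: the base change square. -/
def Stmt_WBC : Prop :=
  ∀ {B B' : Type} [CommRing B] [CommRing B'] (φ : B →+* B') {a b : B} {a' b' : B'}
    (ha : a' = φ a) (hb : b' = φ b),
    IsPullback (WX.map φ ha hb) (WX.pr B' a' b') (WX.pr B a b) (spMap φ)

/-- WSC: scaling is an isomorphism and respects the sections. -/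
def Stmt_WSC : Prop :=
  (∀ {B : Type} [CommRing B] {a b a' b' u v : B} (huv : u * v = 1) (ha : a' = u ^ 4 * a)
    (hb : b' = u ^ 6 * b), IsIso (WX.sc huv ha hb)) ∧
  (∀ {m : ℕ} {B : Type} [CommRing B] {u v : B} (huv : u * v = 1) (P P' : WD m B)
    (h : P.Sc u P') (i : Fin (m + 1)),
    (Wei P').σ i ≫ WX.sc huv h.a h.b = (Wei P).σ i) ∧
  (∀ {B B' : Type} [CommRing B] [CommRing B'] (φ : B →+* B') {a b a' b' u v : B}
    (huv : u * v = 1) (ha : a' = u ^ 4 * a) (hb : b' = u ^ 6 * b) {c d c' d' w s : B'}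
    (hws : w * s = 1) (hc : c' = w ^ 4 * c) (hd : d' = w ^ 6 * d) (h1 : c = φ a) (h2 : d = φ b)
    (h3 : c' = φ a') (h4 : d' = φ b') (_ : w = φ u),
    WX.sc hws hc hd ≫ WX.map φ h1 h2 = WX.map φ h3 h4 ≫ WX.sc huv ha hb)

/-- WPR: Weierstrass curves are proper, flat and of finite presentation. -/
def Stmt_WPR : Prop :=
  ∀ (B : Type) [CommRing B] (a b : B), IsProper (WX.pr B a b) ∧ Flat (WX.pr B a b) ∧
    LocallyOfFinitePresentation (WX.pr B a b)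

/-- WRG: the cohomology of the Weierstrass curve from its charts: `A₁ = B[x] ⊕ B[x] y`,
`A₂/(z) = B`, `A₁₂ = (A₁ + A₂) ⊕ B z⁻¹`, `A₁ ∩ A₂ = B`; and `A₁ ∩ z⁻² A₂ = B ⊕ B x`,
`A₁ ∩ z⁻³ A₂ = B ⊕ B x ⊕ B y`. -/
def Stmt_WRG : Prop :=
  ∀ (B : Type) [CommRing B] (a b : B),
    (∀ v : A1 B a b, ∃! pq : Polynomial B × Polynomial B,
      v = Polynomial.aeval (x1 B a b) pq.1 + Polynomial.aeval (x1 B a b) pq.2 * y1 B a b) ∧
    (∀ v : A2 B a b, v - algebraMap B _ (inf2 B a b v) ∈ Ideal.span {z2 B a b}) ∧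
    Function.Injective (g2 B a b) ∧ Function.Injective (g1 B a b) ∧
    (∀ v : A12 B a b, ∃ (c : B) (v1 : A1 B a b) (v2 : A2 B a b),
      v = algebraMap B _ c * (zu B a b)⁻¹.val + g1 B a b v1 + g2 B a b v2) ∧
    (∀ (c : B) (v1 : A1 B a b) (v2 : A2 B a b),
      algebraMap B _ c * (zu B a b)⁻¹.val + g1 B a b v1 + g2 B a b v2 = 0 →
        c = 0 ∧ ∃ d : B, v1 = algebraMap B _ d ∧ v2 = - algebraMap B _ d) ∧
    (∀ (v1 : A1 B a b) (v2 : A2 B a b), (zu B a b).val ^ 2 * g1 B a b v1 = g2 B a b v2 →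
      ∃ c d : B, v1 = algebraMap B _ c + algebraMap B _ d * x1 B a b) ∧
    (∀ (v1 : A1 B a b) (v2 : A2 B a b), (zu B a b).val ^ 3 * g1 B a b v1 = g2 B a b v2 →
      ∃ c d e : B, v1 = algebraMap B _ c + algebraMap B _ d * x1 B a b +
        algebraMap B _ e * y1 B a b)

/-- WDM: Weierstrass curves over fields are integral. -/
def Stmt_WDM : Prop :=
  ∀ (K : Type) [Field K] (a b : K), IsDomain (A1 K a b) ∧ IsDomain (A2 K a b) ∧
    ConnectedSpace (WX K a b)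

/-- WND: Weierstrass curves without cusps are nodal. -/
def Stmt_WND : Prop :=
  ∀ (K : Type) [Field K] [IsAlgClosed K] (a b : K), (6 : K) ≠ 0 → (a ≠ 0 ∨ b ≠ 0) →
    Nodal (WX.pr K a b)

/-- WGN: the genus. -/
def Stmt_WGN : Prop := ∀ (K : Type) [Field K] (a b : K), HasGenus (WX.pr K a b) 1

/-- WRI: rigidity. -/
def Stmt_WRI : Prop :=
  ∀ {m : ℕ} {K : Type} [Field K] (P : WD m K), (6 : K) ≠ 0 → (P.a ≠ 0 ∨ P.b ≠ 0) →
    ∀ (v : VField (Wei P)) (U), v.D U = 0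

/-- WSM: smoothness. -/
def Stmt_WSM : Prop :=
  (∀ (K : Type) [Field K] (a b : K), (6 : K) ≠ 0 → 4 * a ^ 3 + 27 * b ^ 2 ≠ 0 →
    SmoothOfRelativeDimension 1 (WX.pr K a b)) ∧
  (∀ {m : ℕ} {K : Type} [Field K] (P : WD m K), (6 : K) ≠ 0 →
    (∀ s : Sp K, ∃ U : (Wei P).X.Opens, (Wei P).σ 0 s ∈ U ∧ Smooth (U.ι ≫ (Wei P).π)) ∧
    ∀ i : Fin m, P.y i ≠ 0 → ∀ s : Sp K, ∃ U : (Wei P).X.Opens,
      (Wei P).σ i.succ s ∈ U ∧ Smooth (U.ι ≫ (Wei P).π))

/-- WFI: the geometric fibres of Weierstrass families without cusps are stable. -/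
def Stmt_WFI : Prop :=
  ∀ {m : ℕ} {K : Type} [Field K] [IsAlgClosed K] (P : WD m K), (6 : K) ≠ 0 →
    (P.a ≠ 0 ∨ P.b ≠ 0) → (4 * P.a ^ 3 + 27 * P.b ^ 2 ≠ 0 ∨ ∀ i, P.y i ≠ 0) →
    (∀ i j, i ≠ j → P.x i ≠ P.x j ∨ P.y i ≠ P.y j) → StableCurve 1 (Wei P)

/-- WST: stable Weierstrass families. -/
def Stmt_WST : Prop :=
  (∀ {m : ℕ} {B : Type} [CommRing B] (P : WD m B), P.Ok → IsStable 1 (Wei P)) ∧
  (∀ {m : ℕ} {K : Type} [Field K] (P : WD m K), (6 : K) ≠ 0 →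
    4 * P.a ^ 3 + 27 * P.b ^ 2 ≠ 0 → (∀ i j, i ≠ j → P.x i ≠ P.x j ∨ P.y i ≠ P.y j) →
    IsStable 1 (Wei P))

/-! ## Deformations -/

/-- Ring data of a flat thickening over `E` of the Weierstrass curve over `B`. -/
structure WData {B E J : Type} [CommRing B] [CommRing E] [Fintype J] (S : SqE B E J)
    (a b : B) where
  /-- functions on the affine chart -/
  G1 : Type
  /-- functions on the chart at infinity -/
  G2 : Type
  /-- functions on the intersection -/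
  G12 : Type
  [c1 : CommRing G1]
  [c2 : CommRing G2]
  [c12 : CommRing G12]
  /-- structure map -/
  a1 : E →+* G1
  /-- structure map -/
  a2 : E →+* G2
  /-- structure map -/
  a12 : E →+* G12
  /-- restriction -/
  f1 : G1 →+* G12
  /-- restriction -/
  f2 : G2 →+* G12
  fa1 : ∀ z, f1 (a1 z) = a12 z
  fa2 : ∀ z, f2 (a2 z) = a12 z
  /-- reduction -/
  q1 : G1 →+* A1 B a b
  /-- reduction -/
  q2 : G2 →+* A2 B a b
  /-- reduction -/
  q12 : G12 →+* A12 B a b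
  qa1 : ∀ z, q1 (a1 z) = algebraMap B _ (S.p z)
  qa2 : ∀ z, q2 (a2 z) = algebraMap B _ (S.p z)
  qa12 : ∀ z, q12 (a12 z) = algebraMap B _ (S.p z)
  qf1 : ∀ v, q12 (f1 v) = g1 B a b (q1 v)
  qf2 : ∀ v, q12 (f2 v) = g2 B a b (q2 v)
  sur1 : Function.Surjective q1
  sur2 : Function.Surjective q2
  sur12 : Function.Surjective q12
  ker1 : ∀ v, q1 v = 0 → ∃ w : J → G1, v = ∑ j, a1 (S.ε j) * w j
  ker2 : ∀ v, q2 v = 0 → ∃ w : J → G2, v = ∑ j, a2 (S.ε j) * w j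
  ker12 : ∀ v, q12 v = 0 → ∃ w : J → G12, v = ∑ j, a12 (S.ε j) * w j
  un1 : ∀ w : J → G1, ∑ j, a1 (S.ε j) * w j = 0 → ∀ j, q1 (w j) = 0
  un2 : ∀ w : J → G2, ∑ j, a2 (S.ε j) * w j = 0 → ∀ j, q2 (w j) = 0
  un12 : ∀ w : J → G12, ∑ j, a12 (S.ε j) * w j = 0 → ∀ j, q12 (w j) = 0
  /-- the section at infinity -/
  inf : G2 →+* E
  infa : ∀ z, inf (a2 z) = z
  infq : ∀ v, S.p (inf v) = inf2 B a b (q2 v)

attribute [instance] WData.c1 WData.c2 WData.c12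

/-- WEA: ring data of thickenings of Weierstrass curves are Weierstrass curves. -/
def Stmt_WEA : Prop :=
  ∀ {B E J : Type} [CommRing B] [CommRing E] [Fintype J] (S : SqE B E J) (a b : B),
    IsUnit (6 : B) → ∀ D : WData S a b, ∃ (a' b' : E) (ha : a = S.p a') (hb : b = S.p b')
      (e1 : A1 E a' b' ≃+* D.G1) (e2 : A2 E a' b' ≃+* D.G2) (e12 : A12 E a' b' ≃+* D.G12),
      (∀ c, e1 (algebraMap E _ c) = D.a1 c) ∧ (∀ c, e2 (algebraMap E _ c) = D.a2 c) ∧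
      (∀ v, D.f1 (e1 v) = e12 (g1 E a' b' v)) ∧ (∀ v, D.f2 (e2 v) = e12 (g2 E a' b' v)) ∧
      (∀ v, D.q1 (e1 v) = bc1 S.p ha hb v) ∧ (∀ v, D.q2 (e2 v) = bc2 S.p ha hb v) ∧
      (∀ v, D.inf (e2 v) = inf2 E a' b' v)

/-- WE: every thickening of a Weierstrass family is a Weierstrass family. -/
def Stmt_WE : Prop :=
  ∀ {m : ℕ} {B E J : Type} [CommRing B] [CommRing E] [Fintype J] (S : SqE B E J) (P : WD m B),
    IsUnit (6 : B) → ∀ t : Thk S (Wei P), ∃ (P' : WD m E) (h : WD.Bc S.p P' P)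
      (f : Arrow (RingHom.id E) t.y (Wei P')), t.r.f ≫ f.f = wmap S.p h

/-- WUA: isomorphic thickenings differ by a scaling, algebra. -/
def Stmt_WUA : Prop :=
  ∀ {B E J : Type} [CommRing B] [CommRing E] [Fintype J] (S : SqE B E J) {a b : B}
    {a' b' a'' b'' : E} (ha : a = S.p a') (hb : b = S.p b') (ha' : a = S.p a'')
    (hb' : b = S.p b''), IsUnit (6 : B) → ∀ (h1 : A1 E a' b' →+* A1 E a'' b'')
    (h2 : A2 E a' b' →+* A2 E a'' b'') (h12 : A12 E a' b' →+* A12 E a'' b''),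
    (∀ c, h1 (algebraMap E _ c) = algebraMap E _ c) →
    (∀ c, h2 (algebraMap E _ c) = algebraMap E _ c) →
    (∀ v, h12 (g1 E a' b' v) = g1 E a'' b'' (h1 v)) →
    (∀ v, h12 (g2 E a' b' v) = g2 E a'' b'' (h2 v)) →
    (∀ v, bc1 S.p ha' hb' (h1 v) = bc1 S.p ha hb v) →
    (∀ v, bc2 S.p ha' hb' (h2 v) = bc2 S.p ha hb v) →
    (∀ v, inf2 E a'' b'' (h2 v) = inf2 E a' b' v) →
    ∃ u v : E, u * v = 1 ∧ S.p u = 1 ∧ a'' = u ^ 4 * a' ∧ b'' = u ^ 6 * b' ∧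
      h1 (x1 E a' b') = algebraMap E _ v ^ 2 * x1 E a'' b'' ∧
      h1 (y1 E a' b') = algebraMap E _ v ^ 3 * y1 E a'' b''

/-- WU: isomorphic thickenings differ by a scaling. -/
def Stmt_WU : Prop :=
  ∀ {m : ℕ} {B E J : Type} [CommRing B] [CommRing E] [Fintype J] (S : SqE B E J) (P : WD m B),
    IsUnit (6 : B) → ∀ (P' P'' : WD m E) (h' : WD.Bc S.p P' P) (h'' : WD.Bc S.p P'' P)
      (f : Arrow (RingHom.id E) (Wei P'') (Wei P')), wmap S.p h'' ≫ f.f = wmap S.p h' →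
        ∃ u : E, S.p u = 1 ∧ P'.Sc u P''

/-! ## Weierstrass classes and covectors -/

section

variable {m : ℕ} {B : Type} [CommRing B] {P : WD m B}

/-- `(da, db, dx, dy)` is a Weierstrass class of the deformation `d`. -/
def WCls (d : Defo 1 (Wei P)) (da db : B) (dx dy : Fin m → B) : Prop :=
  ∃ (P' : WD m (Eps B)) (h : WD.Bc (eps0 B) P' P), P'.a.snd = da ∧ P'.b.snd = db ∧
    (∀ i, (P'.x i).snd = dx i) ∧ (∀ i, (P'.y i).snd = dy i) ∧
    ∃ f : Arrow (RingHom.id (Eps B)) d.y (Wei P'), d.r.f ≫ f.f = wmap (eps0 B) h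

variable (P) in
/-- Covector data: functionals which vanish on the infinitesimal scaling. -/
structure WCov where
  /-- the coefficient of `da` -/
  α : B
  /-- the coefficient of `db` -/
  β : B
  /-- the coefficients of `dx i` -/
  γ : Fin m → B
  /-- the coefficients of `dy i` -/
  ρ : Fin m → B
  eul : 4 * P.a * α + 6 * P.b * β + ∑ i, (2 * P.x i * γ i + 3 * P.y i * ρ i) = 0

/-- `l` is the covector `α da + β db + ∑ (γ dx + ρ dy)`. -/
def IsWC (W : WCov P) (l : Cov 1 (Wei P)) : Prop :=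
  ∀ (d : Defo 1 (Wei P)) (da db : B) (dx dy : Fin m → B), WCls d da db dx dy →
    l.l d = W.α * da + W.β * db + ∑ i, (W.γ i * dx i + W.ρ i * dy i)

end

/-- WCV: covector data give a covector, which is determined by them. -/
def Stmt_WCV : Prop :=
  ∀ {m : ℕ} {B : Type} [CommRing B] (P : WD m B), IsUnit (6 : B) → ∀ W : WCov P,
    ∃ l : Cov 1 (Wei P), IsWC W l ∧ ∀ l' : Cov 1 (Wei P), IsWC W l' → l' = l

/-- WNA: base change and scaling of covectors. -/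
def Stmt_WNA : Prop :=
  (∀ {m : ℕ} {B B' : Type} [CommRing B] [CommRing B'] (φ : B →+* B') (P : WD m B)
    (P' : WD m B') (h : WD.Bc φ P P') (W : WCov P) (W' : WCov P') (l : Cov 1 (Wei P))
    (l' : Cov 1 (Wei P')), IsUnit (6 : B) →
    W'.α = φ W.α → W'.β = φ W.β → (∀ i, W'.γ i = φ (W.γ i)) → (∀ i, W'.ρ i = φ (W.ρ i)) →
    IsWC W l → IsWC W' l' →
    ∃ a : Arrow φ (Wei P') (Wei P), a.f = wmap φ h ∧ Compat a l' l) ∧
  (∀ {m : ℕ} {B : Type} [CommRing B] (u : B) (P P' : WD m B) (W : WCov P) (W' : WCov P')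
    (l : Cov 1 (Wei P)) (l' : Cov 1 (Wei P')), IsUnit (6 : B) → IsUnit u → P.Sc u P' →
    u ^ 4 * W'.α = W.α → u ^ 6 * W'.β = W.β → (∀ i, u ^ 2 * W'.γ i = W.γ i) →
    (∀ i, u ^ 3 * W'.ρ i = W.ρ i) → IsWC W l → IsWC W' l' →
    ∃ a : Arrow (RingHom.id B) (Wei P') (Wei P), Compat a l' l)

/-- W0: smooth pointed curves of genus one are Weierstrass curves. -/
def Stmt_W0 : Prop :=
  ∀ {m : ℕ} {k : Type} [Field k] [IsAlgClosed k] [CharZero k] (C : Fam (m + 1) k),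
    IsStable 1 C → SmoothOfRelativeDimension 1 C.π →
    ∃ P : WD m k, 4 * P.a ^ 3 + 27 * P.b ^ 2 ≠ 0 ∧
      ∃ f : Arrow (RingHom.id k) C (Wei P), IsIso f.f

/-! ## The vector field -/

/-- `Φ` is the vector field `2 y d/dx = (3 x² + a) d/dy`. -/
def IsWF {k : Type} [Field k] {a b : k} (Φ : Flow (WX.pr k a b)) : Prop :=
  ∃ h : A1 k a b →+* A1 (Eps k) (algebraMap k (Eps k) a) (algebraMap k (Eps k) b),
    (∀ c, h (algebraMap k _ c) = algebraMap (Eps k) _ (algebraMap k (Eps k) c)) ∧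
    h (x1 k a b) = x1 _ _ _ + algebraMap (Eps k) _ (TrivSqZeroExt.inr 1) * (2 * y1 _ _ _) ∧
    h (y1 k a b) = y1 _ _ _ + algebraMap (Eps k) _ (TrivSqZeroExt.inr 1) *
      (3 * x1 _ _ _ ^ 2 + algebraMap (Eps k) _ (algebraMap k (Eps k) a)) ∧
    ∀ e : Sp (A1 (Eps k) (algebraMap k (Eps k) a) (algebraMap k (Eps k) b)) ⟶ XE (WX.pr k a b),
      e ≫ pullback.fst _ _ = spMap (bc1 (algebraMap k (Eps k)) rfl rfl) ≫ WX.in1 k a b →
      e ≫ pullback.snd _ _ = spMap (algebraMap (Eps k) _) →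
      e ≫ Φ.θ = spMap h ≫ WX.in1 k a b

/-- WFL: the vector field on a smooth Weierstrass curve vanishes nowhere. -/
def Stmt_WFL : Prop :=
  ∀ {k : Type} [Field k] (a b : k), (6 : k) ≠ 0 → 4 * a ^ 3 + 27 * b ^ 2 ≠ 0 →
    ∃ Φ : Flow (WX.pr k a b), IsWF Φ ∧ Φ.NV

/-- WMV: the value of a covector at the deformation which moves an affine point. -/
def Stmt_WMV : Prop :=
  ∀ {m : ℕ} {k : Type} [Field k] (P : WD m k), (6 : k) ≠ 0 →
    ∀ (Φ : Flow (WX.pr k P.a P.b)), IsWF Φ → ∀ (W : WCov P) (l : Cov 1 (Wei P)), IsWC W l →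
    ∀ (i : Fin m) (d : Defo 1 (Wei P)), IsMv (C := Wei P) Φ i.succ d →
      l.l d = W.γ i * (2 * P.y i) + W.ρ i * (3 * P.x i ^ 2 + P.a)

/-! ## Algebra for the end of the proof -/

/-- ROOT: adjoining square roots, with a retraction. -/
def Stmt_ROOT : Prop :=
  ∀ {k : Type} [Field k] (_ : (2 : k) ≠ 0) {R : Type} [CommRing R] [Algebra k R] {m : ℕ}
    (f : Fin m → R), ∃ (R' : Type) (_ : CommRing R') (_ : Algebra k R') (ι : R →ₐ[k] R')
    (y : Fin m → R') (ρ : R' → R), (∀ i, y i ^ 2 = ι (f i)) ∧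
    (∀ (ψ : R →ₐ[k] k) (y0 : Fin m → k), (∀ i, y0 i ^ 2 = ψ (f i)) →
      ∃ ψ' : R' →ₐ[k] k, ψ'.comp ι = ψ ∧ ∀ i, ψ' (y i) = y0 i) ∧
    ∀ (g : R') (ψ : R →ₐ[k] k) (c : k), (∀ ψ' : R' →ₐ[k] k, ψ'.comp ι = ψ → ψ' g = c) →
      (∃ y0 : Fin m → k, ∀ i, y0 i ^ 2 = ψ (f i)) → ψ (ρ g) = c

/-- The polynomial `h` in the variable `none`. -/
noncomputable def hN {k : Type} [Field k] (m : ℕ) (h : Polynomial k) :
    MvPolynomial (Option (Fin m)) k :=
  Polynomial.aeval (MvPolynomial.X none) h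

/-- DEN: functions with coprime denominators which agree on a dense set are polynomials. -/
def Stmt_DEN : Prop :=
  ∀ {k : Type} [Field k] [IsAlgClosed k] {m : ℕ} (h h' D : Polynomial k), IsCoprime h h' →
    h ≠ 0 → h' ≠ 0 → D ≠ 0 → ∀ (v : Localization.Away (hN m h)) (v' : Localization.Away (hN m h')),
    (∀ (ψ : Localization.Away (hN m h) →ₐ[k] k) (ψ' : Localization.Away (hN m h') →ₐ[k] k),
      (∀ p : MvPolynomial (Option (Fin m)) k, ψ (algebraMap _ _ p) = ψ' (algebraMap _ _ p)) →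
      D.eval (ψ (algebraMap (MvPolynomial (Option (Fin m)) k) _ (MvPolynomial.X none))) ≠ 0 → ψ v = ψ' v') →
    ∃ q : MvPolynomial (Option (Fin m)) k, v = algebraMap _ _ q ∧ v' = algebraMap _ _ q

/-- WTS: the weights. -/
def Stmt_WTS : Prop :=
  ∀ {k : Type} [Field k] [IsAlgClosed k] {m : ℕ} (q q' : MvPolynomial (Option (Fin m)) k)
    (D : Polynomial k), D ≠ 0 →
    (∀ (u : k) (ν : Fin m → k), u ≠ 0 → D.eval u ≠ 0 →
      MvPolynomial.eval (fun o => o.elim (u⁻¹ ^ 6) ν) q =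
        MvPolynomial.eval (fun o => o.elim (u ^ 4) (fun i => u * ν i)) q') →
    ∃ c : k, q = MvPolynomial.C c ∧ q' = MvPolynomial.C c

end Pool.Agent.MG.W
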