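import Pool.Agent.MG.W.WRG

/-!
# Smooth curves of genus one: algebra of the functions with poles at one point
-/

open CategoryTheory CategoryTheory.Limits AlgebraicGeometry TensorProduct

namespace Pool.Agent.MG.W.W0

/-- Ring data of a curve of genus one: `R1` = functions away from the point `p`, `R2` = functions
near `p`, `z` = a coordinate at `p`, `R12` = `R2[1/z]`. -/
structure AD (k R1 R2 R12 : Type) [Field k] [CommRing R1] [CommRing R2] [CommRing R12] where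
  c1 : k →+* R1
  c2 : k →+* R2
  c12 : k →+* R12
  j1 : R1 →+* R12
  j2 : R2 →+* R12
  jc1 : ∀ c, j1 (c1 c) = c12 c
  jc2 : ∀ c, j2 (c2 c) = c12 c
  inj1 : Function.Injective j1
  inj2 : Function.Injective j2
  z : R2
  zi : R12
  hz : j2 z * zi = 1
  ev : R2 →+* k
  evc : ∀ c, ev (c2 c) = c
  evz : ev z = 0
  evk : ∀ r, ev r = 0 → ∃ s, r = z * s
  loc : ∀ r : R12, ∃ (n : ℕ) (s : R2), j2 z ^ n * r = j2 s
  h0 : ∀ a b, j1 a = j2 b → ∃ c, a = c1 c
  L : R12 → k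
  Ladd : ∀ r s, L (r + s) = L r + L s
  Lc : ∀ c r, L (c12 c * r) = c * L r
  L0 : ∀ r, L r = 0 ↔ ∃ a b, r = j1 a + j2 b
  Ls : ∃ r, L r ≠ 0

namespace AD

variable {k R1 R2 R12 : Type} [Field k] [CommRing R1] [CommRing R2] [CommRing R12]
  (D : AD k R1 R2 R12)

/-- `r` has a pole of order at most `n`, with leading coefficient `c`. -/
def Ord (n : ℕ) (r : R1) (c : k) : Prop := ∃ s, D.j2 D.z ^ n * D.j1 r = D.j2 s ∧ D.ev s = c

variable {D}

lemma zn (n : ℕ) : D.j2 D.z ^ n * D.zi ^ n = 1 := by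
  rw [← mul_pow, D.hz, one_pow]

lemma cancel {a b : R12} (h : D.j2 D.z * a = D.j2 D.z * b) : a = b := by
  have h1 : D.zi * D.j2 D.z = 1 := by rw [mul_comm, D.hz]
  calc a = D.zi * D.j2 D.z * a := by rw [h1, one_mul]
    _ = D.zi * D.j2 D.z * b := by rw [mul_assoc, h, mul_assoc]
    _ = b := by rw [h1, one_mul]

lemma Ord.uniq {n : ℕ} {r : R1} {c c' : k} (h : D.Ord n r c) (h' : D.Ord n r c') : c = c' := by
  obtain ⟨s, h1, h2⟩ := h
  obtain ⟨s', h1', h2'⟩ := h'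
  rw [← h2, ← h2', D.inj2 (h1.symm.trans h1')]

lemma Ord.add {n : ℕ} {r r' : R1} {c c' : k} (h : D.Ord n r c) (h' : D.Ord n r' c') :
    D.Ord n (r + r') (c + c') := by
  obtain ⟨s, h1, h2⟩ := h
  obtain ⟨s', h1', h2'⟩ := h'
  exact ⟨s + s', by rw [map_add, map_add, mul_add, h1, h1'], by rw [map_add, h2, h2']⟩

lemma Ord.mul {n m : ℕ} {r r' : R1} {c c' : k} (h : D.Ord n r c) (h' : D.Ord m r' c') :
    D.Ord (n + m) (r * r') (c * c') := by
  obtain ⟨s, h1, h2⟩ := h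
  obtain ⟨s', h1', h2'⟩ := h'
  exact ⟨s * s', by rw [map_mul, map_mul, ← h1, ← h1', pow_add]; ring, by rw [map_mul, h2, h2']⟩

lemma ord_const (c : k) : D.Ord 0 (D.c1 c) c :=
  ⟨D.c2 c, by rw [pow_zero, one_mul, D.jc1, D.jc2], D.evc c⟩

lemma ord_one : D.Ord 0 1 1 := by
  have := ord_const (D := D) 1
  rwa [map_one] at this

lemma Ord.smul {n : ℕ} {r : R1} {c : k} (h : D.Ord n r c) (d : k) :
    D.Ord n (D.c1 d * r) (d * c) := by
  have := (ord_const d).mul h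
  rwa [zero_add] at this

lemma Ord.neg {n : ℕ} {r : R1} {c : k} (h : D.Ord n r c) : D.Ord n (-r) (-c) := by
  have := h.smul (-1)
  rwa [map_neg, map_one, neg_one_mul, neg_one_mul] at this

lemma Ord.sub {n : ℕ} {r r' : R1} {c c' : k} (h : D.Ord n r c) (h' : D.Ord n r' c') :
    D.Ord n (r - r') (c - c') := by
  have := h.add h'.neg
  rwa [← sub_eq_add_neg, ← sub_eq_add_neg] at this

lemma Ord.pow {n : ℕ} {r : R1} {c : k} (h : D.Ord n r c) (m : ℕ) :
    D.Ord (n * m) (r ^ m) (c ^ m) := by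
  induction m with
  | zero => simpa using ord_one (D := D)
  | succ m ih =>
    rw [pow_succ, pow_succ, Nat.mul_succ]
    exact ih.mul h

lemma Ord.succ {n : ℕ} {r : R1} {c : k} (h : D.Ord n r c) : D.Ord (n + 1) r 0 := by
  obtain ⟨s, h1, h2⟩ := h
  exact ⟨D.z * s, by rw [pow_succ, map_mul, ← h1]; ring, by rw [map_mul, D.evz, zero_mul]⟩

lemma Ord.mono {n m : ℕ} {r : R1} {c : k} (h : D.Ord n r c) (hnm : n < m) : D.Ord m r 0 := by
  induction m, hnm using Nat.le_induction with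
  | base => exact h.succ
  | succ m _ ih => exact ih.succ

lemma Ord.pred {n : ℕ} {r : R1} (h : D.Ord (n + 1) r 0) : ∃ c, D.Ord n r c := by
  obtain ⟨s, h1, h2⟩ := h
  obtain ⟨s', rfl⟩ := D.evk s h2
  refine ⟨D.ev s', s', ?_, rfl⟩
  apply cancel (D := D)
  rw [← map_mul, ← h1, pow_succ]
  ring

lemma ord_exists (r : R1) : ∃ n c, D.Ord n r c := by
  obtain ⟨n, s, h⟩ := D.loc (D.j1 r)
  exact ⟨n, D.ev s, s, h, rfl⟩

lemma Ord.eq_const {r : R1} {c : k} (h : D.Ord 0 r c) : r = D.c1 c := by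
  obtain ⟨s, h1, h2⟩ := h
  rw [pow_zero, one_mul] at h1
  obtain ⟨d, rfl⟩ := D.h0 r s h1
  rw [D.jc1, ← D.jc2] at h1
  rw [← h2, ← D.inj2 h1, D.evc]

lemma exists_lead {r : R1} (hr : r ≠ 0) : ∃ n c, c ≠ 0 ∧ D.Ord n r c := by
  obtain ⟨n, c, h⟩ := ord_exists (D := D) r
  induction n generalizing c with
  | zero =>
    refine ⟨0, c, ?_, h⟩
    rintro rfl
    apply hr
    rw [h.eq_const, map_zero]
  | succ n ih =>
    by_cases hc : c = 0
    · subst hc
      obtain ⟨c', h'⟩ := h.pred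
      exact ih c' h'
    · exact ⟨n + 1, c, hc, h⟩

lemma Ord.lt {n m : ℕ} {r : R1} {c c' : k} (h : D.Ord n r c) (h' : D.Ord m r c') (hc' : c' ≠ 0) :
    m ≤ n := by
  by_contra hcon
  exact hc' (h'.uniq (h.mono (not_le.1 hcon)))

lemma Ord.eq {n m : ℕ} {r : R1} {c c' : k} (h : D.Ord n r c) (h' : D.Ord m r c') (hc : c ≠ 0)
    (hc' : c' ≠ 0) : n = m :=
  le_antisymm (h'.lt h hc) (h.lt h' hc')

lemma ord_zero (n : ℕ) : D.Ord n 0 0 := ⟨0, by simp, map_zero _⟩

/-- There are no functions with a simple pole. -/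
lemma no_one {r : R1} {c : k} (h : D.Ord 1 r c) : c = 0 := by
  by_contra hc
  have h1 : D.Ord 1 (D.c1 c⁻¹ * r) 1 := by
    have := h.smul c⁻¹
    rwa [inv_mul_cancel₀ hc] at this
  set f := D.c1 c⁻¹ * r with hf
  have key : ∀ (n : ℕ) (s : R2) (t : R12), D.j2 D.z ^ n * t = D.j2 s →
      ∃ a b, t = D.j1 a + D.j2 b := by
    intro n
    induction n with
    | zero =>
      intro s t ht
      exact ⟨0, s, by rw [pow_zero, one_mul] at ht; rw [map_zero, zero_add, ht]⟩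
    | succ n ih =>
      intro s t ht
      obtain ⟨u, hu1, hu2⟩ := h1.pow (n + 1)
      rw [one_mul] at hu1
      rw [one_pow] at hu2
      obtain ⟨s', hs'⟩ := D.evk (s - D.c2 (D.ev s) * u) (by
        rw [map_sub, map_mul, D.evc, hu2, mul_one, sub_self])
      obtain ⟨a, b, hab⟩ := ih s' (t - D.j1 (D.c1 (D.ev s) * f ^ (n + 1))) (by
        apply cancel (D := D)
        have e1 : D.j2 (D.c2 (D.ev s) * u) =
            D.c12 (D.ev s) * (D.j2 D.z ^ (n + 1) * D.j1 (f ^ (n + 1))) := by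
          rw [map_mul, D.jc2, hu1]
        have e2 : D.j1 (D.c1 (D.ev s) * f ^ (n + 1)) = D.c12 (D.ev s) * D.j1 (f ^ (n + 1)) := by
          rw [map_mul, D.jc1]
        rw [← map_mul, ← hs', map_sub, ← ht, e1, e2, pow_succ]
        ring)
      refine ⟨a + D.c1 (D.ev s) * f ^ (n + 1), b, ?_⟩
      rw [map_add]
      linear_combination hab
  obtain ⟨t, ht⟩ := D.Ls
  obtain ⟨n, s, hs⟩ := D.loc t
  exact ht ((D.L0 t).2 (key n s t hs))

/-- There are functions with a pole of order `n` for all `n ≥ 2`. -/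
lemma exists_ord (n : ℕ) : ∃ r, D.Ord (n + 2) r 1 := by
  have hw : D.L D.zi ≠ 0 := by
    intro h
    obtain ⟨a, b, hab⟩ := (D.L0 _).1 h
    have h1 : D.Ord 1 a 1 := by
      refine ⟨1 - D.z * b, ?_, by rw [map_sub, map_mul, D.evz, zero_mul, sub_zero, map_one]⟩
      have h2 : D.j1 a = D.zi - D.j2 b := by rw [hab]; ring
      rw [pow_one, h2, map_sub, map_one, map_mul, mul_sub, D.hz]
    exact one_ne_zero (no_one h1)
  have h1 : D.L (D.zi ^ (n + 2) + D.c12 (-(D.L (D.zi ^ (n + 2)) / D.L D.zi)) * D.zi) = 0 := by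
    rw [D.Ladd, D.Lc]
    field_simp
    ring
  obtain ⟨a, b, hab⟩ := (D.L0 _).1 h1
  set e := -(D.L (D.zi ^ (n + 2)) / D.L D.zi) with he
  refine ⟨a, 1 + D.c2 e * D.z ^ (n + 1) - D.z ^ (n + 2) * b, ?_, ?_⟩
  · have h2 : D.j1 a = D.zi ^ (n + 2) + D.c12 e * D.zi - D.j2 b := by rw [hab]; ring
    have h3 := zn (D := D) (n + 2)
    rw [h2, map_sub, map_add, map_one, map_mul, map_mul, map_pow, map_pow, D.jc2]
    have h4 := D.hz
    linear_combination h3 + D.c12 e * D.j2 D.z ^ (n + 1) * h4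
  · rw [map_sub, map_add, map_one, map_mul, map_mul, map_pow, map_pow, D.evz]
    simp

end AD

end Pool.Agent.MG.W.W0
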