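import Pool.Agent.MG.W.W0A

/-!
# Smooth curves of genus one: the Weierstrass equation
-/

open CategoryTheory CategoryTheory.Limits AlgebraicGeometry TensorProduct

namespace Pool.Agent.MG.W.W0

namespace AD

variable {k R1 R2 R12 : Type} [Field k] [CommRing R1] [CommRing R2] [CommRing R12]
  {D : AD k R1 R2 R12}

lemma Ord.cast {n m : ℕ} {r : R1} {c : k} (h : D.Ord n r c) (hn : n = m) : D.Ord m r c := hn ▸ h

lemma Ord.red {n : ℕ} {r m : R1} {c : k} (h : D.Ord (n + 1) r c) (hm : D.Ord (n + 1) m 1) :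
    ∃ c', D.Ord n (r - D.c1 c * m) c' := by
  have := h.sub (hm.smul c)
  rw [mul_one, sub_self] at this
  exact this.pred

lemma exists_eq0 {x y : R1} (hx : D.Ord 2 x 1) (hy : D.Ord 3 y 1) :
    ∃ a1 a2 a3 a4 a6 : k, y ^ 2 = x ^ 3 + D.c1 a1 * (x * y) + D.c1 a2 * x ^ 2 + D.c1 a3 * y +
      D.c1 a4 * x + D.c1 a6 := by
  have h6 : D.Ord (5 + 1) (y ^ 2 - x ^ 3) 0 := by
    have := ((hy.pow 2).cast (show 3 * 2 = 5 + 1 by norm_num)).sub
      ((hx.pow 3).cast (show 2 * 3 = 5 + 1 by norm_num))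
    simpa using this
  obtain ⟨c5, h5⟩ := h6.pred
  have m5 : D.Ord (4 + 1) (x * y) 1 := by
    have := (hx.mul hy).cast (show 2 + 3 = 4 + 1 by norm_num)
    rwa [mul_one] at this
  obtain ⟨c4, h4⟩ := h5.red m5
  have m4 : D.Ord (3 + 1) (x ^ 2) 1 := by
    have := (hx.pow 2).cast (show 2 * 2 = 3 + 1 by norm_num)
    rwa [one_pow] at this
  obtain ⟨c3, h3⟩ := h4.red m4
  obtain ⟨c2, h2⟩ := h3.red hy
  obtain ⟨c1, h1⟩ := h2.red hx
  have hc1 := no_one h1
  subst hc1
  obtain ⟨c0, h0⟩ := h1.pred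
  have e := h0.eq_const
  refine ⟨c5, c4, c3, c2, c0, ?_⟩
  linear_combination e

theorem exists_W [CharZero k] : ∃ (a b : k) (x y : R1), D.Ord 2 x 1 ∧ D.Ord 3 y 1 ∧
    y ^ 2 = x ^ 3 + D.c1 a * x + D.c1 b := by
  obtain ⟨x, hx⟩ := exists_ord (D := D) 0
  obtain ⟨y, hy⟩ := exists_ord (D := D) 1
  obtain ⟨a1, a2, a3, a4, a6, h⟩ := exists_eq0 hx hy
  have e2 : D.c1 2⁻¹ * 2 = 1 := by
    have : (2 : R1) = D.c1 2 := (map_ofNat D.c1 2).symm
    rw [this, ← map_mul, inv_mul_cancel₀ two_ne_zero, map_one]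
  have e3 : D.c1 3⁻¹ * 3 = 1 := by
    have : (3 : R1) = D.c1 3 := (map_ofNat D.c1 3).symm
    rw [this, ← map_mul, inv_mul_cancel₀ three_ne_zero, map_one]
  set h2 := D.c1 2⁻¹ with hh2
  set h3 := D.c1 3⁻¹ with hh3
  have two : (2⁻¹ : k) * 2 = 1 := inv_mul_cancel₀ two_ne_zero
  have three : (3⁻¹ : k) * 3 = 1 := inv_mul_cancel₀ three_ne_zero
  let b2 : k := a2 + a1 ^ 2 * 2⁻¹ ^ 2
  let b4 : k := a4 + a1 * a3 * 2⁻¹
  let b6 : k := a6 + a3 ^ 2 * 2⁻¹ ^ 2
  refine ⟨b4 - b2 ^ 2 * 3⁻¹, b6 - b2 * b4 * 3⁻¹ + 2 * b2 ^ 3 * 3⁻¹ ^ 3,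
    x + D.c1 (b2 * 3⁻¹), y - D.c1 (a1 * 2⁻¹) * x - D.c1 (a3 * 2⁻¹), ?_, ?_, ?_⟩
  · have := hx.add ((ord_const (D := D) (b2 * 3⁻¹)).mono (show 0 < 0 + 2 by norm_num))
    rwa [add_zero] at this
  · have h1 := (hx.smul (a1 * 2⁻¹)).mono (show 0 + 2 < 1 + 2 by norm_num)
    have h2 := (ord_const (D := D) (a3 * 2⁻¹)).mono (show 0 < 1 + 2 by norm_num)
    have := (hy.sub h1).sub h2
    simpa using this
  · simp only [b2, b4, b6, map_sub, map_add, map_mul, map_pow, ← hh2, ← hh3, map_ofNat]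
    generalize D.c1 a1 = A1 at *
    generalize D.c1 a2 = A2 at *
    generalize D.c1 a3 = A3 at *
    generalize D.c1 a4 = A4 at *
    generalize D.c1 a6 = A6 at *
    clear_value h2 h3
    clear hh2 hh3
    have k1 : A1 * x * y * (h2 * 2) = A1 * x * y := by rw [e2, mul_one]
    have k2 : A3 * y * (h2 * 2) = A3 * y := by rw [e2, mul_one]
    set B2 := A2 + A1 ^ 2 * h2 ^ 2 with hB2
    set B4 := A4 + A1 * A3 * h2 with hB4
    set B6 := A6 + A3 ^ 2 * h2 ^ 2 with hB6
    have s1 : (y - A1 * h2 * x - A3 * h2) ^ 2 = x ^ 3 + B2 * x ^ 2 + B4 * x + B6 := by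
      rw [hB2, hB4, hB6]
      linear_combination h - k1 - k2 + (A1 * A3 * h2 * x) * e2
    rw [s1]
    linear_combination (-B2 * x ^ 2 - B2 ^ 2 * h3 * x - B2 ^ 3 * h3 ^ 2) * e3

/-! ### The functions with poles at `p` are polynomials in `x` and `y` -/

open Polynomial

theorem span {x y : R1} (hx : D.Ord 2 x 1) (hy : D.Ord 3 y 1) (n : ℕ) :
    ∀ (r : R1) (c : k), D.Ord n r c → ∃ p q : k[X], r = p.eval₂ D.c1 x + q.eval₂ D.c1 x * y := by
  induction n using Nat.strong_induction_on with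
  | _ n ih =>
    intro r c h
    rcases n with _ | _ | n
    · refine ⟨C c, 0, ?_⟩
      rw [h.eq_const]
      simp
    · have hc := no_one h
      subst hc
      obtain ⟨c', h'⟩ := h.pred
      exact ih 0 (by omega) r c' h'
    · rcases Nat.even_or_odd' (n + 2) with ⟨i, hi | hi⟩
      · have hm : D.Ord (n + 1 + 1) (x ^ i) 1 := by
          have := (hx.pow i).cast (show 2 * i = n + 1 + 1 by omega)
          rwa [one_pow] at this
        obtain ⟨c', h'⟩ := Ord.red (n := n + 1) h hm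
        obtain ⟨p, q, hpq⟩ := ih (n + 1) (by omega) _ c' h'
        refine ⟨p + C c * X ^ i, q, ?_⟩
        simp only [eval₂_add, eval₂_mul, eval₂_C, eval₂_X_pow]
        linear_combination hpq
      · have hm : D.Ord (n + 1 + 1) (x ^ (i - 1) * y) 1 := by
          have := ((hx.pow (i - 1)).mul hy).cast (show 2 * (i - 1) + 3 = n + 1 + 1 by omega)
          rwa [one_pow, mul_one] at this
        obtain ⟨c', h'⟩ := Ord.red (n := n + 1) h hm
        obtain ⟨p, q, hpq⟩ := ih (n + 1) (by omega) _ c' h'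
        refine ⟨p, q + C c * X ^ (i - 1), ?_⟩
        simp only [eval₂_add, eval₂_mul, eval₂_C, eval₂_X_pow]
        linear_combination hpq

lemma ord_sum {n : ℕ} {ι : Type} (s : Finset ι) (f : ι → R1) (h : ∀ i ∈ s, D.Ord n (f i) 0) :
    D.Ord n (∑ i ∈ s, f i) 0 := by
  classical
  induction s using Finset.induction_on with
  | empty => simpa using ord_zero (D := D) n
  | insert a s ha ih =>
    rw [Finset.sum_insert ha]
    have := (h a (Finset.mem_insert_self _ _)).add (ih fun i hi => h i (Finset.mem_insert_of_mem hi))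
    rwa [add_zero] at this

lemma ord_poly {x : R1} (hx : D.Ord 2 x 1) (p : k[X]) :
    D.Ord (2 * p.natDegree) (p.eval₂ D.c1 x) p.leadingCoeff := by
  rw [Polynomial.eval₂_eq_sum_range, Finset.sum_range_succ]
  have h1 : ∀ i, D.Ord (2 * i) (D.c1 (p.coeff i) * x ^ i) (p.coeff i) := by
    intro i
    have := (hx.pow i).smul (p.coeff i)
    rwa [one_pow, mul_one] at this
  have := (ord_sum (Finset.range p.natDegree) (fun i => D.c1 (p.coeff i) * x ^ i)
    (fun i hi => (h1 i).mono (by rw [Finset.mem_range] at hi; omega))).add (h1 p.natDegree)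
  rwa [zero_add] at this

theorem indep {x y : R1} (hx : D.Ord 2 x 1) (hy : D.Ord 3 y 1) (p q : k[X])
    (h : p.eval₂ D.c1 x + q.eval₂ D.c1 x * y = 0) : p = 0 ∧ q = 0 := by
  have h1 := ord_poly hx p
  have h2 := (ord_poly hx q).mul hy
  rw [mul_one] at h2
  have hlp : p ≠ 0 → p.leadingCoeff ≠ 0 := fun h => Polynomial.leadingCoeff_ne_zero.2 h
  have hlq : q ≠ 0 → q.leadingCoeff ≠ 0 := fun h => Polynomial.leadingCoeff_ne_zero.2 h
  by_cases hp : p = 0
  · subst hp
    refine ⟨rfl, ?_⟩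
    by_contra hq
    rw [eval₂_zero, zero_add] at h
    rw [h] at h2
    exact hlq hq (h2.uniq (ord_zero _))
  · exfalso
    by_cases hq : q = 0
    · subst hq
      rw [eval₂_zero, zero_mul, add_zero] at h
      rw [h] at h1
      exact hlp hp (h1.uniq (ord_zero _))
    · have e : p.eval₂ D.c1 x = -(q.eval₂ D.c1 x * y) := by linear_combination h
      rw [e] at h1
      have := h1.eq h2.neg (hlp hp) (neg_ne_zero.2 (hlq hq))
      omega

theorem bij (hW : Stmt_WRG) {x y : R1} (hx : D.Ord 2 x 1) (hy : D.Ord 3 y 1) {a b : k}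
    (h : y ^ 2 = x ^ 3 + D.c1 a * x + D.c1 b) :
    Function.Bijective (lift1 (a := a) (b := b) D.c1 x y h) := by
  have hev : ∀ p : k[X], lift1 (a := a) (b := b) D.c1 x y h (aeval (x1 k a b) p) =
      p.eval₂ D.c1 x := by
    intro p
    rw [Polynomial.aeval_def, Polynomial.hom_eval₂, lift1_x]
    congr 1
    exact RingHom.ext fun c => lift1_b D.c1 x y h c
  have hv : ∀ p q : k[X], lift1 (a := a) (b := b) D.c1 x y h
      (aeval (x1 k a b) p + aeval (x1 k a b) q * y1 k a b) =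
      p.eval₂ D.c1 x + q.eval₂ D.c1 x * y := by
    intro p q
    rw [map_add, map_mul, hev, hev, lift1_y]
  constructor
  · rw [injective_iff_map_eq_zero]
    intro v hv0
    obtain ⟨⟨p, q⟩, rfl, -⟩ := (hW k a b).1 v
    rw [hv] at hv0
    obtain ⟨rfl, rfl⟩ := indep hx hy p q hv0
    simp
  · intro r
    obtain ⟨n, c, hn⟩ := ord_exists (D := D) r
    obtain ⟨p, q, hpq⟩ := span hx hy n r c hn
    exact ⟨aeval (x1 k a b) p + aeval (x1 k a b) q * y1 k a b, by rw [hv, hpq]⟩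

theorem disc [CharZero k] [IsDomain R1] [IsIntegrallyClosed R1] {x y : R1} (hx : D.Ord 2 x 1)
    (hy : D.Ord 3 y 1) {a b : k} (h : y ^ 2 = x ^ 3 + D.c1 a * x + D.c1 b) :
    4 * a ^ 3 + 27 * b ^ 2 ≠ 0 := by
  intro hd
  obtain ⟨e, ha, hb⟩ : ∃ e : k, a = -3 * e ^ 2 ∧ b = 2 * e ^ 3 := by
    by_cases ha : a = 0
    · subst ha
      have hb : b = 0 := by
        have h27 : (27 : k) ≠ 0 := by norm_num
        have : b ^ 2 = 0 := by
          have h1 : (27 : k) * b ^ 2 = 0 := by linear_combination hd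
          exact (mul_eq_zero.1 h1).resolve_left h27
        exact pow_eq_zero_iff (two_ne_zero) |>.1 this
      exact ⟨0, by simp, by simp [hb]⟩
    · refine ⟨-3 * b / (2 * a), ?_, ?_⟩
      · field_simp
        linear_combination hd
      · field_simp
        linear_combination b * hd
  have hfac : y ^ 2 = (x - D.c1 e) ^ 2 * (x + 2 * D.c1 e) := by
    rw [h, ha, hb]
    simp only [map_mul, map_neg, map_pow, map_ofNat]
    ring
  have hdvd : x - D.c1 e ∣ y := by
    rw [← IsIntegrallyClosed.pow_dvd_pow_iff (n := 2) two_ne_zero, hfac]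
    exact dvd_mul_right _ _
  obtain ⟨w, hw⟩ := hdvd
  have hxe : D.Ord 2 (x - D.c1 e) 1 := by
    have := hx.sub ((ord_const (D := D) e).mono (show 0 < 2 by norm_num))
    rwa [sub_zero] at this
  have hw0 : w ≠ 0 := by
    rintro rfl
    rw [mul_zero] at hw
    rw [hw] at hy
    exact one_ne_zero (hy.uniq (ord_zero _))
  obtain ⟨n, c, hc, hn⟩ := exists_lead (D := D) hw0
  have h3 := hxe.mul hn
  rw [← hw, one_mul] at h3
  have h4 := h3.eq hy hc one_ne_zero
  have : n = 1 := by omega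
  subst this
  exact hc (no_one hn)

end AD

end Pool.Agent.MG.W.W0
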