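import Pool.Agent.MG.W.Stmts
import Pool.Agent.MG.VFE

/-!
# The vector field on a smooth Weierstrass curve (module WFL)
-/

open CategoryTheory CategoryTheory.Limits AlgebraicGeometry TensorProduct

namespace Pool.Agent.MG.W

namespace WFL

/-! ## Algebra -/

theorem pow_eps {R : Type} [CommRing R] (u e v : R) (he : e * e = 0) (n : ℕ) :
    (u + e * v) ^ (n + 1) = u ^ (n + 1) + (n + 1) * (e * (u ^ n * v)) := by
  induction n with
  | zero => simp
  | succ n ih =>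
    rw [pow_succ, ih]
    push_cast
    linear_combination ((n : R) + 1) * u ^ n * v * v * he

section

variable {k : Type} [Field k] (a b : k)

/-- The constants of `k[ε]`. -/
noncomputable abbrev cst : k →+* Eps k := algebraMap k (Eps k)

/-- Infinitesimal of the affine chart. -/
noncomputable def e1 : A1 (Eps k) (cst a) (cst b) := algebraMap (Eps k) _ (TrivSqZeroExt.inr 1)

/-- Infinitesimal of the chart at infinity. -/
noncomputable def e2 : A2 (Eps k) (cst a) (cst b) := algebraMap (Eps k) _ (TrivSqZeroExt.inr 1)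

theorem e1_sq : e1 a b * e1 a b = 0 := by
  unfold e1
  rw [← map_mul, TrivSqZeroExt.inr_mul_inr, map_zero]

theorem e2_sq : e2 a b * e2 a b = 0 := by
  unfold e2
  rw [← map_mul, TrivSqZeroExt.inr_mul_inr, map_zero]

/-- The vector field on the affine chart. -/
noncomputable def h1 : A1 k a b →+* A1 (Eps k) (cst a) (cst b) :=
  lift1 ((algebraMap (Eps k) (A1 (Eps k) (cst a) (cst b))).comp cst)
    (x1 _ _ _ + e1 a b * (2 * y1 _ _ _))
    (y1 _ _ _ + e1 a b * (3 * x1 _ _ _ ^ 2 + algebraMap (Eps k) _ (cst a))) (by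
    have h := rel1 (Eps k) (cst a) (cst b)
    have he := e1_sq a b
    simp only [RingHom.comp_apply]
    generalize x1 (Eps k) (cst a) (cst b) = x at *
    generalize y1 (Eps k) (cst a) (cst b) = y at *
    generalize algebraMap (Eps k) (A1 (Eps k) (cst a) (cst b)) (cst a) = A at *
    generalize algebraMap (Eps k) (A1 (Eps k) (cst a) (cst b)) (cst b) = B at *
    generalize e1 a b = e at *
    linear_combination h + ((3 * x ^ 2 + A) ^ 2 - 12 * x * y ^ 2 - 8 * e * y ^ 3) * he)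

/-- The derivative of `z`. -/
noncomputable def dz {R : Type} [CommRing R] (A B z t : R) : R :=
  -1 + 2 * A * z ^ 4 * t + 3 * B * z ^ 6 * t ^ 2

/-- Minus the derivative of `t`. -/
noncomputable def dt {R : Type} [CommRing R] (A B z t : R) : R :=
  4 * A * z ^ 3 * t ^ 2 + 6 * B * z ^ 5 * t ^ 3

theorem relE {R : Type} [CommRing R] (A B z t e : R) (he : e * e = 0)
    (h : t = 1 + A * z ^ 4 * t ^ 2 + B * z ^ 6 * t ^ 3) :
    t + e * -dt A B z t = 1 + A * (z + e * dz A B z t) ^ 4 * (t + e * -dt A B z t) ^ 2 +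
      B * (z + e * dz A B z t) ^ 6 * (t + e * -dt A B z t) ^ 3 := by
  rw [pow_eps z e _ he 3, pow_eps z e _ he 5, pow_eps t e _ he 1, pow_eps t e _ he 2]
  have hD : dz A B z t = -1 + 2 * A * z ^ 4 * t + 3 * B * z ^ 6 * t ^ 2 := rfl
  have hW : dt A B z t = 4 * A * z ^ 3 * t ^ 2 + 6 * B * z ^ 5 * t ^ 3 := rfl
  push_cast
  generalize hDD : dz A B z t = D at *
  generalize hWW : dt A B z t = W at *
  have h3 : W * (1 + D - 2 * A * z ^ 4 * t - 3 * B * z ^ 6 * t ^ 2) = 0 := by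
    rw [hD]
    ring
  linear_combination h + (8 * A * z ^ 3 * t * D * W + 18 * B * z ^ 5 * t ^ 2 * D * W) * he -
    e * h3 + e * D * hW


/-- The vector field on the chart at infinity. -/
noncomputable def h2 : A2 k a b →+* A2 (Eps k) (cst a) (cst b) :=
  lift2 ((algebraMap (Eps k) (A2 (Eps k) (cst a) (cst b))).comp cst)
    (z2 _ _ _ + e2 a b * dz (algebraMap (Eps k) _ (cst a)) (algebraMap (Eps k) _ (cst b))
      (z2 _ _ _) (t2 _ _ _))
    (t2 _ _ _ + e2 a b * -dt (algebraMap (Eps k) _ (cst a)) (algebraMap (Eps k) _ (cst b))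
      (z2 _ _ _) (t2 _ _ _)) (relE _ _ _ _ _ (e2_sq a b) (rel2 (Eps k) (cst a) (cst b)))

theorem h1_x : h1 a b (x1 k a b) = x1 _ _ _ + e1 a b * (2 * y1 _ _ _) := lift1_x _ _ _ _

theorem h1_y : h1 a b (y1 k a b) =
    y1 _ _ _ + e1 a b * (3 * x1 _ _ _ ^ 2 + algebraMap (Eps k) _ (cst a)) := lift1_y _ _ _ _

theorem h1_b (c : k) : h1 a b (algebraMap k _ c) = algebraMap (Eps k) _ (cst c) :=
  lift1_b _ _ _ _ _

theorem h2_z : h2 a b (z2 k a b) = z2 _ _ _ + e2 a b * dz (algebraMap (Eps k) _ (cst a))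
    (algebraMap (Eps k) _ (cst b)) (z2 _ _ _) (t2 _ _ _) := lift2_z _ _ _ _

theorem h2_t : h2 a b (t2 k a b) = t2 _ _ _ + e2 a b * -dt (algebraMap (Eps k) _ (cst a))
    (algebraMap (Eps k) _ (cst b)) (z2 _ _ _) (t2 _ _ _) := lift2_t _ _ _ _

theorem h2_b (c : k) : h2 a b (algebraMap k _ c) = algebraMap (Eps k) _ (cst c) :=
  lift2_b _ _ _ _ _

/-- Infinitesimal of the intersection. -/
noncomputable def e12 : A12 (Eps k) (cst a) (cst b) := algebraMap (Eps k) _ (TrivSqZeroExt.inr 1)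

theorem e12_sq : e12 a b * e12 a b = 0 := by
  unfold e12
  rw [← map_mul, TrivSqZeroExt.inr_mul_inr, map_zero]

theorem g1_e : g1 _ _ _ (e1 a b) = e12 a b := g1_b _ _ _ _

theorem g2_e : g2 _ _ _ (e2 a b) = e12 a b := g2_b _ _ _ _

theorem g2_dz : g2 (Eps k) (cst a) (cst b) (dz (algebraMap (Eps k) _ (cst a))
    (algebraMap (Eps k) _ (cst b)) (z2 _ _ _) (t2 _ _ _)) =
    dz (algebraMap (Eps k) _ (cst a)) (algebraMap (Eps k) _ (cst b)) (zu _ _ _).val
      (tu _ _ _).val := by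
  unfold dz
  simp only [map_add, map_mul, map_pow, map_neg, map_one, map_ofNat, g2_b, ← zu_val, ← tu_val]

theorem g2_dt : g2 (Eps k) (cst a) (cst b) (dt (algebraMap (Eps k) _ (cst a))
    (algebraMap (Eps k) _ (cst b)) (z2 _ _ _) (t2 _ _ _)) =
    dt (algebraMap (Eps k) _ (cst a)) (algebraMap (Eps k) _ (cst b)) (zu _ _ _).val
      (tu _ _ _).val := by
  unfold dt
  simp only [map_add, map_mul, map_pow, map_ofNat, g2_b, ← zu_val, ← tu_val]

theorem g2h2_z : g2 _ _ _ (h2 a b (z2 k a b)) = (zu _ _ _).val + e12 a b *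
    dz (algebraMap (Eps k) _ (cst a)) (algebraMap (Eps k) _ (cst b)) (zu _ _ _).val
      (tu _ _ _).val := by
  rw [h2_z, map_add, map_mul, g2_e, g2_dz, ← zu_val]

theorem g2h2_t : g2 _ _ _ (h2 a b (t2 k a b)) = (tu _ _ _).val + e12 a b *
    -dt (algebraMap (Eps k) _ (cst a)) (algebraMap (Eps k) _ (cst b)) (zu _ _ _).val
      (tu _ _ _).val := by
  rw [h2_t, map_add, map_mul, map_neg, g2_e, g2_dt, ← tu_val]

theorem unit_z : IsUnit (((g2 _ _ _).comp (h2 a b)) (z2 k a b)) := by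
  rw [RingHom.comp_apply, g2h2_z]
  have he := e12_sq a b
  have hz : (zu (Eps k) (cst a) (cst b)).val * ((zu (Eps k) (cst a) (cst b))⁻¹).val = 1 :=
    Units.mul_inv _
  refine IsUnit.of_mul_eq_one (((zu (Eps k) (cst a) (cst b))⁻¹).val - e12 a b *
    dz (algebraMap (Eps k) _ (cst a)) (algebraMap (Eps k) _ (cst b)) (zu _ _ _).val
      (tu _ _ _).val * ((zu (Eps k) (cst a) (cst b))⁻¹).val ^ 2) ?_
  generalize dz (algebraMap (Eps k) _ (cst a)) (algebraMap (Eps k) _ (cst b))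
    (zu (Eps k) (cst a) (cst b)).val (tu (Eps k) (cst a) (cst b)).val = D at *
  generalize ((zu (Eps k) (cst a) (cst b))⁻¹).val = zi at *
  generalize (zu (Eps k) (cst a) (cst b)).val = z at *
  generalize e12 a b = e at *
  linear_combination (1 - e * D * zi) * hz - D * D * zi ^ 2 * he

/-- The vector field on the intersection. -/
noncomputable def h12 : A12 k a b →+* A12 (Eps k) (cst a) (cst b) :=
  IsLocalization.Away.lift (z2 k a b) (g := (g2 _ _ _).comp (h2 a b)) (unit_z a b)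

theorem h12_g2 (v : A2 k a b) : h12 a b (g2 k a b v) = g2 _ _ _ (h2 a b v) :=
  IsLocalization.Away.lift_eq _ _ _

theorem h12_b (c : k) : h12 a b (algebraMap k _ c) = algebraMap (Eps k) _ (cst c) := by
  rw [← g2_b k a b c, h12_g2, h2_b, g2_b]

theorem rel12' : (tu (Eps k) (cst a) (cst b)).val = 1 + algebraMap (Eps k) _ (cst a) *
    (zu _ _ _).val ^ 4 * (tu _ _ _).val ^ 2 + algebraMap (Eps k) _ (cst b) *
    (zu _ _ _).val ^ 6 * (tu _ _ _).val ^ 3 := by
  have h := congrArg (g2 (Eps k) (cst a) (cst b)) (rel2 (Eps k) (cst a) (cst b))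
  simp only [map_add, map_mul, map_pow, map_one, ← zu_val, ← tu_val, g2_b] at h
  exact h

theorem alg_x {R : Type} [CommRing R] (A B z t zi ti e : R) (hz : z * zi = 1) (ht : t * ti = 1)
    (he : e * e = 0) : z ^ 3 * t * (zi ^ 2 * ti + e * (2 * (zi ^ 3 * ti))) *
      ((z + e * dz A B z t) ^ 2 * (t + e * -dt A B z t)) = z ^ 3 * t := by
  have h1 : z ^ 3 * t * (zi ^ 2 * ti + e * (2 * (zi ^ 3 * ti))) = z + 2 * e := by
    calc z ^ 3 * t * (zi ^ 2 * ti + e * (2 * (zi ^ 3 * ti))) =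
        z * (z * zi) ^ 2 * (t * ti) + 2 * e * (z * zi) ^ 3 * (t * ti) := by ring
      _ = z + 2 * e := by rw [hz, ht]; ring
  rw [h1, pow_eps z e _ he 1]
  have hD : dz A B z t = -1 + 2 * A * z ^ 4 * t + 3 * B * z ^ 6 * t ^ 2 := rfl
  have hW : dt A B z t = 4 * A * z ^ 3 * t ^ 2 + 6 * B * z ^ 5 * t ^ 3 := rfl
  push_cast
  generalize dz A B z t = D at *
  generalize dt A B z t = W at *
  linear_combination (4 * z * D * t - 2 * z ^ 2 * W - 2 * z ^ 2 * D * W - 4 * e * z * D * W) * he +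
    2 * e * z ^ 2 * t * hD - e * z ^ 3 * hW

theorem alg_y {R : Type} [CommRing R] (A B z t zi ti e : R) (hz : z * zi = 1) (ht : t * ti = 1)
    (he : e * e = 0) (h : t = 1 + A * z ^ 4 * t ^ 2 + B * z ^ 6 * t ^ 3) :
    z ^ 4 * t ^ 2 * (zi ^ 3 * ti + e * (3 * (zi ^ 2 * ti) ^ 2 + A)) *
      ((z + e * dz A B z t) ^ 3 * (t + e * -dt A B z t)) = z ^ 4 * t ^ 2 := by
  have h1 : z ^ 4 * t ^ 2 * (zi ^ 3 * ti + e * (3 * (zi ^ 2 * ti) ^ 2 + A)) =
      z * t + e * (3 + A * z ^ 4 * t ^ 2) := by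
    calc z ^ 4 * t ^ 2 * (zi ^ 3 * ti + e * (3 * (zi ^ 2 * ti) ^ 2 + A)) =
        z * t * (z * zi) ^ 3 * (t * ti) + e * (3 * (z * zi) ^ 4 * (t * ti) ^ 2 +
          A * z ^ 4 * t ^ 2) := by ring
      _ = _ := by rw [hz, ht]; ring
  rw [h1, pow_eps z e _ he 2]
  have hD : dz A B z t = -1 + 2 * A * z ^ 4 * t + 3 * B * z ^ 6 * t ^ 2 := rfl
  have hW : dt A B z t = 4 * A * z ^ 3 * t ^ 2 + 6 * B * z ^ 5 * t ^ 3 := rfl
  push_cast
  generalize dz A B z t = D at *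
  generalize dt A B z t = W at *
  generalize hm : 3 + A * z ^ 4 * t ^ 2 = m
  linear_combination (3 * m * z ^ 2 * D * t - m * z ^ 3 * W - 3 * z ^ 3 * t * D * W -
    3 * e * m * z ^ 2 * D * W) * he + 3 * e * z ^ 3 * t ^ 2 * hD - e * z ^ 4 * t * hW -
    3 * e * z ^ 3 * t * h - e * z ^ 3 * t * hm

theorem uniq_inv {R : Type} [CommRing R] {v w c d : R} (h : v * c = 1) (h' : d * w * c = d)
    (hd : IsUnit d) : v = w := by
  have h3 : w * c = 1 := by
    apply hd.mul_left_cancel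
    rw [← mul_assoc, h', mul_one]
  calc v = v * (w * c) := by rw [h3, mul_one]
    _ = w * (v * c) := by ring
    _ = w := by rw [h, mul_one]

theorem h12_g1_x : h12 a b (g1 k a b (x1 k a b)) = g1 _ _ _ (h1 a b (x1 k a b)) := by
  have hu : ((zu k a b)⁻¹ ^ 2 * (tu k a b)⁻¹ : (A12 k a b)ˣ).val *
      ((zu k a b).val ^ 2 * (tu k a b).val) = 1 := by
    have : ((zu k a b)⁻¹ ^ 2 * (tu k a b)⁻¹ : (A12 k a b)ˣ) * ((zu k a b) ^ 2 * (tu k a b)) =
        1 := by
      rw [inv_pow, mul_mul_mul_comm, inv_mul_cancel, inv_mul_cancel, one_mul]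
    exact congrArg Units.val this
  have hu' := congrArg (h12 a b) hu
  rw [map_mul, map_one, map_mul, map_pow, zu_val, tu_val, h12_g2, h12_g2, g2h2_z, g2h2_t] at hu'
  rw [g1_x, h1_x, map_add, map_mul, map_mul, map_ofNat, g1_x, g1_y, g1_e]
  refine uniq_inv hu' (d := (zu (Eps k) (cst a) (cst b)).val ^ 3 *
    (tu (Eps k) (cst a) (cst b)).val) ?_ ?_
  swap
  · exact ((zu (Eps k) (cst a) (cst b)).isUnit.pow 3).mul (tu (Eps k) (cst a) (cst b)).isUnit
  have hz : (zu (Eps k) (cst a) (cst b)).val * ((zu (Eps k) (cst a) (cst b))⁻¹).val = 1 :=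
    Units.mul_inv _
  have ht : (tu (Eps k) (cst a) (cst b)).val * ((tu (Eps k) (cst a) (cst b))⁻¹).val = 1 :=
    Units.mul_inv _
  have he := e12_sq a b
  push_cast
  exact alg_x _ _ _ _ _ _ _ hz ht he

theorem h12_g1_y : h12 a b (g1 k a b (y1 k a b)) = g1 _ _ _ (h1 a b (y1 k a b)) := by
  have hu : ((zu k a b)⁻¹ ^ 3 * (tu k a b)⁻¹ : (A12 k a b)ˣ).val *
      ((zu k a b).val ^ 3 * (tu k a b).val) = 1 := by
    have : ((zu k a b)⁻¹ ^ 3 * (tu k a b)⁻¹ : (A12 k a b)ˣ) * ((zu k a b) ^ 3 * (tu k a b)) =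
        1 := by
      rw [inv_pow, mul_mul_mul_comm, inv_mul_cancel, inv_mul_cancel, one_mul]
    exact congrArg Units.val this
  have hu' := congrArg (h12 a b) hu
  rw [map_mul, map_one, map_mul, map_pow, zu_val, tu_val, h12_g2, h12_g2, g2h2_z, g2h2_t] at hu'
  rw [g1_y, h1_y, map_add, map_mul, map_add, map_mul, map_ofNat, map_pow, g1_x, g1_y, g1_e, g1_b]
  refine uniq_inv hu' (d := (zu (Eps k) (cst a) (cst b)).val ^ 4 *
    (tu (Eps k) (cst a) (cst b)).val ^ 2) ?_ ?_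
  swap
  · exact ((zu (Eps k) (cst a) (cst b)).isUnit.pow 4).mul
      ((tu (Eps k) (cst a) (cst b)).isUnit.pow 2)
  have hz : (zu (Eps k) (cst a) (cst b)).val * ((zu (Eps k) (cst a) (cst b))⁻¹).val = 1 :=
    Units.mul_inv _
  have ht : (tu (Eps k) (cst a) (cst b)).val * ((tu (Eps k) (cst a) (cst b))⁻¹).val = 1 :=
    Units.mul_inv _
  have he := e12_sq a b
  push_cast
  exact alg_y _ _ _ _ _ _ _ hz ht he (rel12' a b)

theorem h12_g1 (v : A1 k a b) : h12 a b (g1 k a b v) = g1 _ _ _ (h1 a b v) := by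
  have : (h12 a b).comp (g1 k a b) = (g1 _ _ _).comp (h1 a b) := by
    refine hom1_ext ?_ (h12_g1_x a b) (h12_g1_y a b)
    intro c
    rw [RingHom.comp_apply, RingHom.comp_apply, g1_b, h12_b, h1_b, g1_b]
  exact congrArg (fun f => f v) this

/-! ## The morphism -/

/-- The morphism from the curve over `k[ε]`. -/
noncomputable def th : WX (Eps k) (cst a) (cst b) ⟶ WX k a b :=
  pushout.desc (spMap (h1 a b) ≫ WX.in1 k a b) (spMap (h2 a b) ≫ WX.in2 k a b) (by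
    have e1 : (g1 (Eps k) (cst a) (cst b)).comp (h1 a b) = (h12 a b).comp (g1 k a b) :=
      RingHom.ext fun v => (h12_g1 a b v).symm
    have e2 : (g2 (Eps k) (cst a) (cst b)).comp (h2 a b) = (h12 a b).comp (g2 k a b) :=
      RingHom.ext fun v => (h12_g2 a b v).symm
    rw [← Category.assoc, ← Category.assoc, spMap_comp', spMap_comp', e1, e2, ← spMap_comp',
      ← spMap_comp', Category.assoc, Category.assoc]
    congr 1
    exact pushout.condition)

@[reassoc]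
theorem in1_th : WX.in1 _ _ _ ≫ th a b = spMap (h1 a b) ≫ WX.in1 k a b :=
  pushout.inl_desc _ _ _

@[reassoc]
theorem in2_th : WX.in2 _ _ _ ≫ th a b = spMap (h2 a b) ≫ WX.in2 k a b :=
  pushout.inr_desc _ _ _

theorem th_pr : th a b ≫ WX.pr k a b = WX.pr _ _ _ ≫ spMap cst := by
  refine WX.ext' ?_ ?_
  · rw [← Category.assoc, in1_th, Category.assoc, WX.in1_pr, ← Category.assoc, WX.in1_pr,
      spMap_comp', spMap_comp']
    exact congrArg (fun f => spMap f) (RingHom.ext fun c => h1_b a b c)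
  · rw [← Category.assoc, in2_th, Category.assoc, WX.in2_pr, ← Category.assoc, WX.in2_pr,
      spMap_comp', spMap_comp']
    exact congrArg (fun f => spMap f) (RingHom.ext fun c => h2_b a b c)

theorem eps0_cst : (eps0 k).comp cst = RingHom.id k := by
  ext c
  simp

theorem eps0_cst' (c : k) : c = eps0 k (cst c) := by
  simp

/-- The zero section of the curve over `k[ε]`. -/
noncomputable def zs : WX k a b ⟶ WX (Eps k) (cst a) (cst b) :=
  WX.map (eps0 k) (eps0_cst' a) (eps0_cst' b)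

theorem spMap_id' (A : Type) [CommRing A] : spMap (RingHom.id A) = 𝟙 (Sp A) := by
  exact Spec.map_id _

theorem eps_e1 : bc1 (eps0 k) (eps0_cst' a) (eps0_cst' b) (e1 a b) = 0 := by
  unfold e1
  rw [bc1_b]
  simp

theorem eps_e2 : bc2 (eps0 k) (eps0_cst' a) (eps0_cst' b) (e2 a b) = 0 := by
  unfold e2
  rw [bc2_b]
  simp

theorem bc1_h1 : (bc1 (eps0 k) (eps0_cst' a) (eps0_cst' b)).comp (h1 a b) = RingHom.id _ := by
  refine hom1_ext ?_ ?_ ?_
  · intro c
    rw [RingHom.comp_apply, h1_b, bc1_b, ← eps0_cst']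
    rfl
  · rw [RingHom.comp_apply, h1_x, map_add, map_mul, eps_e1, zero_mul, add_zero, bc1_x]
    rfl
  · rw [RingHom.comp_apply, h1_y, map_add, map_mul, eps_e1, zero_mul, add_zero, bc1_y]
    rfl

theorem bc2_h2 : (bc2 (eps0 k) (eps0_cst' a) (eps0_cst' b)).comp (h2 a b) = RingHom.id _ := by
  refine hom2_ext ?_ ?_ ?_
  · intro c
    rw [RingHom.comp_apply, h2_b, bc2_b, ← eps0_cst']
    rfl
  · rw [RingHom.comp_apply, h2_z, map_add, map_mul, eps_e2, zero_mul, add_zero, bc2_z]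
    rfl
  · rw [RingHom.comp_apply, h2_t, map_add, map_mul, eps_e2, zero_mul, add_zero, bc2_t]
    rfl

theorem zs_th : zs a b ≫ th a b = 𝟙 _ := by
  refine WX.ext' ?_ ?_
  · unfold zs
    rw [WX.in1_map_assoc, in1_th, ← Category.assoc, spMap_comp', bc1_h1, spMap_id',
      Category.id_comp, Category.comp_id]
  · unfold zs
    rw [WX.in2_map_assoc, in2_th, ← Category.assoc, spMap_comp', bc2_h2, spMap_id',
      Category.id_comp, Category.comp_id]

theorem bc1_bc1 : (bc1 (eps0 k) (eps0_cst' a) (eps0_cst' b)).comp (bc1 cst rfl rfl) =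
    RingHom.id (A1 k a b) := by
  refine hom1_ext ?_ ?_ ?_
  · intro c
    rw [RingHom.comp_apply, bc1_b, bc1_b, ← eps0_cst']
    rfl
  · rw [RingHom.comp_apply, bc1_x, bc1_x]
    rfl
  · rw [RingHom.comp_apply, bc1_y, bc1_y]
    rfl

theorem bc2_bc2 : (bc2 (eps0 k) (eps0_cst' a) (eps0_cst' b)).comp (bc2 cst rfl rfl) =
    RingHom.id (A2 k a b) := by
  refine hom2_ext ?_ ?_ ?_
  · intro c
    rw [RingHom.comp_apply, bc2_b, bc2_b, ← eps0_cst']
    rfl
  · rw [RingHom.comp_apply, bc2_z, bc2_z]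
    rfl
  · rw [RingHom.comp_apply, bc2_t, bc2_t]
    rfl

theorem zs_map : zs a b ≫ WX.map cst rfl rfl = 𝟙 (WX k a b) := by
  refine WX.ext' ?_ ?_
  · unfold zs
    rw [WX.in1_map_assoc, WX.in1_map, ← Category.assoc, spMap_comp', bc1_bc1, spMap_id',
      Category.id_comp, Category.comp_id]
  · unfold zs
    rw [WX.in2_map_assoc, WX.in2_map, ← Category.assoc, spMap_comp', bc2_bc2, spMap_id',
      Category.id_comp, Category.comp_id]

theorem zs_pr : zs a b ≫ WX.pr _ _ _ = WX.pr k a b ≫ spMap (eps0 k) := WX.map_pr _ _ _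

end

/-! ## Evaluation on charts -/

section

variable {X : Scheme.{0}}

/-- Evaluation of functions along a morphism from a spectrum. -/
noncomputable def ev {A : Type} [CommRing A] (i : Sp A ⟶ X) (U : X.Opens) (h : ⊤ ≤ i ⁻¹ᵁ U) :
    Γ(X, U) →+* A :=
  (Scheme.ΓSpecIso (CommRingCat.of A)).hom.hom.comp (i.appLE U ⊤ h).hom

theorem ev_eq {A : Type} [CommRing A] {i i' : Sp A ⟶ X} (e : i = i') (U : X.Opens)
    (h : ⊤ ≤ i ⁻¹ᵁ U) (h' : ⊤ ≤ i' ⁻¹ᵁ U) (s : Γ(X, U)) : ev i U h s = ev i' U h' s := by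
  subst e
  rfl

theorem ev_comp {Y : Scheme.{0}} {A : Type} [CommRing A] (j : Sp A ⟶ Y) (f : Y ⟶ X)
    (U : X.Opens) (V : Y.Opens) (hV : V ≤ f ⁻¹ᵁ U) (h : ⊤ ≤ j ⁻¹ᵁ V) (h' : ⊤ ≤ (j ≫ f) ⁻¹ᵁ U)
    (s : Γ(X, U)) : ev j V h ((f.appLE U V hV).hom s) = ev (j ≫ f) U h' s := by
  have h1 := Scheme.Hom.appLE_comp_appLE j f U V ⊤ hV h
  exact congrArg (Scheme.ΓSpecIso (CommRingCat.of A)).hom.hom (ConcreteCategory.congr_hom h1 s)

theorem ev_spMap {A A' : Type} [CommRing A] [CommRing A'] (φ : A →+* A') (i : Sp A ⟶ X)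
    (U : X.Opens) (h : ⊤ ≤ i ⁻¹ᵁ U) (h' : ⊤ ≤ (spMap φ ≫ i) ⁻¹ᵁ U) (s : Γ(X, U)) :
    ev (spMap φ ≫ i) U h' s = φ (ev i U h s) := by
  have h1 := Scheme.Hom.appLE_comp_appLE (spMap φ) i U ⊤ ⊤ h le_top
  have h2 : (spMap φ).appLE ⊤ ⊤ le_top = (spMap φ).appTop := Scheme.Hom.appLE_eq_app _
  have h3 : (Scheme.ΓSpecIso (CommRingCat.of A')).hom.hom
      ((spMap φ).appTop.hom ((i.appLE U ⊤ h).hom s)) = φ (ev i U h s) :=
    ConcreteCategory.congr_hom (Scheme.ΓSpecIso_naturality (CommRingCat.ofHom φ)) _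
  rw [← h3]
  refine congrArg (Scheme.ΓSpecIso (CommRingCat.of A')).hom.hom ?_
  rw [h2] at h1
  exact (ConcreteCategory.congr_hom h1 s).symm

theorem ev_coef {A B : Type} [CommRing A] [CommRing B] (i : Sp A ⟶ X) (U : X.Opens)
    (h : ⊤ ≤ i ⁻¹ᵁ U) (π : X ⟶ Sp B) (γ : B →+* A) (hγ : i ≫ π = spMap γ) (c : B) :
    ev i U h (coef π U c) = γ c := by
  change (Scheme.ΓSpecIso (CommRingCat.of A)).hom.hom ((i.appLE U ⊤ h).hom (coef π U c)) = _
  rw [coef_comp, hγ]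
  have h1 : spMap γ = 𝟙 (Sp A) ≫ spMap γ := (Category.id_comp _).symm
  rw [h1, coef_spMap, coef_eq]
  change ((Scheme.ΓSpecIso (CommRingCat.of A)).inv ≫ (𝟙 (Sp A) : Sp A ⟶ Sp A).appLE ⊤ ⊤ _ ≫
    (Scheme.ΓSpecIso (CommRingCat.of A)).hom) (γ c) = γ c
  have h2 : (𝟙 (Sp A) : Sp A ⟶ Sp A).appLE ⊤ ⊤ le_top = 𝟙 _ := Scheme.Hom.appLE_eq_app _
  rw [h2, Category.id_comp, Iso.inv_hom_id]
  rfl

theorem ev_bij {A : Type} [CommRing A] (i : Sp A ⟶ X) [IsOpenImmersion i] (U : X.Opens)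
    (h : ⊤ ≤ i ⁻¹ᵁ U) (hU : U ≤ i.opensRange) : Function.Bijective (ev i U h) := by
  have h1 : IsIso (i.app U) := i.isIso_app U hU
  have h2 : IsIso (homOfLE h) := ⟨homOfLE le_top, rfl, rfl⟩
  have h3 : IsIso (i.appLE U ⊤ h) := by
    unfold Scheme.Hom.appLE
    infer_instance
  have h4 : IsIso (i.appLE U ⊤ h ≫ (Scheme.ΓSpecIso (CommRingCat.of A)).hom) := inferInstance
  exact ConcreteCategory.bijective_of_isIso
    (i.appLE U ⊤ h ≫ (Scheme.ΓSpecIso (CommRingCat.of A)).hom)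

theorem top_le {A : Type} [CommRing A] (i : Sp A ⟶ X) [IsOpenImmersion i] :
    ⊤ ≤ i ⁻¹ᵁ i.opensRange := i.preimage_opensRange.ge

end

section

variable {k : Type} [Field k] {X : Scheme.{0}} {π : X ⟶ Sp k}

/-- The vector field in a chart. -/
theorem has_chart (Φ : Flow π) {A A' : Type} [CommRing A] [CommRing A'] (i : Sp A ⟶ X)
    [IsOpenImmersion i] (j : Sp A' ⟶ XE π) [IsOpenImmersion j] (β h : A →+* A')
    (γ : Eps k →+* A') (hf : j ≫ pullback.fst _ _ = spMap β ≫ i)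
    (hs : j ≫ pullback.snd _ _ = spMap γ) (ht : j ≫ Φ.θ = spMap h ≫ i)
    (hr : VFE.P π i.opensRange ≤ j.opensRange) (s w : Γ(X, i.opensRange))
    (hsw : h (ev i _ (top_le i) s) =
      β (ev i _ (top_le i) s) + γ (TrivSqZeroExt.inr 1) * β (ev i _ (top_le i) w)) :
    Φ.Has i.opensRange s w := by
  rw [VFE.has_iff]
  have hP : ⊤ ≤ j ⁻¹ᵁ (VFE.P π i.opensRange) := by
    change ⊤ ≤ (j ≫ pullback.fst _ _) ⁻¹ᵁ i.opensRange
    rw [hf]
    intro x _
    exact ⟨spMap β x, rfl⟩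
  apply (ev_bij j _ hP hr).1
  have hβ : ∀ v : Γ(X, i.opensRange), ev j _ hP (VFE.fs π i.opensRange v) =
      β (ev i _ (top_le i) v) := by
    intro v
    have h' : ⊤ ≤ (j ≫ pullback.fst π (spMap (algebraMap k (Eps k)))) ⁻¹ᵁ i.opensRange := hP
    have h'' : ⊤ ≤ (spMap β ≫ i) ⁻¹ᵁ i.opensRange := by rwa [hf] at h'
    refine (ev_comp j _ _ _ _ hP h' v).trans ?_
    rw [ev_eq hf _ h' h'' v, ev_spMap β i _ (top_le i) h'' v]
  have hθ : ev j _ hP (VFE.ts Φ i.opensRange s) = h (ev i _ (top_le i) s) := by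
    have h'' : ⊤ ≤ (spMap h ≫ i) ⁻¹ᵁ i.opensRange := fun x _ => ⟨spMap h x, rfl⟩
    have h' : ⊤ ≤ (j ≫ Φ.θ) ⁻¹ᵁ i.opensRange := by rwa [ht]
    refine (ev_comp j _ _ _ _ hP h' s).trans ?_
    rw [ev_eq ht _ h' h'' s, ev_spMap h i _ (top_le i) h'' s]
  have hε : ev j _ hP (VFE.ee π _) = γ (TrivSqZeroExt.inr 1) :=
    ev_coef j _ hP _ γ hs _
  rw [hθ, map_add, map_mul, hβ, hβ, hε, hsw]

/-- Points at which the vector field does not vanish. -/
theorem nv_chart (Φ : Flow π) {A : Type} [CommRing A] (i : Sp A ⟶ X) [IsOpenImmersion i]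
    (s w : Γ(X, i.opensRange)) (h : Φ.Has i.opensRange s w) (q : PrimeSpectrum A)
    (hq : ev i _ (top_le i) w ∉ q.asIdeal) :
    ∃ (U : X.Opens) (s w : Γ(X, U)), i q ∈ U ∧ IsUnit w ∧ Φ.Has U s w := by
  refine ⟨X.basicOpen w, rs X (X.basicOpen_le w) s, rs X (X.basicOpen_le w) w, ?_,
    X.toRingedSpace.isUnit_res_basicOpen w, VFE.has_res Φ _ h⟩
  have h1 := Scheme.basicOpen_appLE i ⊤ i.opensRange (top_le i) w
  have h2 : (q : Sp A) ∈ (Sp A).basicOpen (i.appLE i.opensRange ⊤ (top_le i) w) := by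
    have h3 : i.appLE i.opensRange ⊤ (top_le i) w =
        (Scheme.ΓSpecIso (CommRingCat.of A)).inv (ev i _ (top_le i) w) := by
      change _ = ((Scheme.ΓSpecIso (CommRingCat.of A)).hom ≫
        (Scheme.ΓSpecIso (CommRingCat.of A)).inv) (i.appLE i.opensRange ⊤ (top_le i) w)
      rw [Iso.hom_inv_id]
      rfl
    rw [h3, basicOpen_eq_of_affine]
    exact hq
  rw [h1] at h2
  exact h2.2

end

end WFL

end Pool.Agent.MG.W
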