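import Pool.Agent.MG.W.Stmts

/-!
# Base change and scaling of covectors (module WNA)
-/

open CategoryTheory CategoryTheory.Limits AlgebraicGeometry TensorProduct

namespace Pool.Agent.MG.W

namespace WNA

theorem spMap_id (A : Type) [CommRing A] : spMap (RingHom.id A) = 𝟙 (Sp A) := Spec.map_id _

theorem epsMap_id (A : Type) [CommRing A] : epsMap (RingHom.id A) = RingHom.id (Eps A) := by
  refine RingHom.ext fun z => ?_
  change TrivSqZeroExt.inl z.fst + TrivSqZeroExt.inr z.snd = z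
  exact TrivSqZeroExt.inl_fst_add_inr_snd_eq z

theorem epsMap_fst {A A' : Type} [CommRing A] [CommRing A'] (φ : A →+* A') (z : Eps A) :
    (epsMap φ z).fst = φ z.fst := by
  change (TrivSqZeroExt.inl (φ z.fst) + TrivSqZeroExt.inr (φ z.snd) : Eps A').fst = _
  simp

theorem epsMap_snd {A A' : Type} [CommRing A] [CommRing A'] (φ : A →+* A') (z : Eps A) :
    (epsMap φ z).snd = φ z.snd := by
  change (TrivSqZeroExt.inl (φ z.fst) + TrivSqZeroExt.inr (φ z.snd) : Eps A').snd = _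
  simp

theorem eps0_apply {A : Type} [CommRing A] (z : Eps A) : eps0 A z = z.fst := rfl

/-- Pull back of an isomorphism of families. -/
theorem transfer {n : ℕ} {E E' : Type} [CommRing E] [CommRing E'] (ψ : E →+* E')
    {x y : Fam n E} {x' y' : Fam n E'} (A : Arrow ψ x' x) (f : Arrow ψ y' y)
    (f1 : Arrow (RingHom.id E) y x) :
    ∃ g : Arrow (RingHom.id E') y' x', g.f ≫ A.f = f.f ≫ f1.f := by
  have hw : (f.f ≫ f1.f) ≫ x.π = y'.π ≫ spMap ψ := by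
    rw [Category.assoc, f1.cart.w, spMap_id, Category.comp_id, f.cart.w]
  have hg : A.cart.lift (f.f ≫ f1.f) y'.π hw ≫ A.f = f.f ≫ f1.f := A.cart.lift_fst _ _ _
  have hg' : A.cart.lift (f.f ≫ f1.f) y'.π hw ≫ x'.π = y'.π := A.cart.lift_snd _ _ _
  refine ⟨⟨A.cart.lift (f.f ≫ f1.f) y'.π hw, ?_, fun i => ?_⟩, hg⟩
  · refine IsPullback.of_right (h₁₂ := A.f) (h₂₂ := spMap ψ) (v₁₃ := x.π) ?_
      (by rw [hg', spMap_id, Category.comp_id]) A.cart
    rw [hg]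
    have h1 := f.cart.paste_horiz f1.cart
    rw [spMap_id, Category.comp_id] at h1
    rw [spMap_id, Category.id_comp]
    exact h1
  · refine A.cart.hom_ext ?_ ?_
    · rw [Category.assoc, hg, spMap_id, Category.id_comp, A.sec, ← Category.assoc, f.sec,
        Category.assoc, f1.sec, spMap_id, Category.id_comp]
    · rw [Category.assoc, hg', y'.sec, spMap_id, Category.id_comp, x'.sec]

section

variable {m : ℕ} {B : Type} [CommRing B] {P : WD m B}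

theorem val {W : WCov P} {l : Cov 1 (Wei P)} (hl : IsWC W l) (d : Defo 1 (Wei P))
    (P1 : WD m (Eps B)) (h : WD.Bc (eps0 B) P1 P) (f : Arrow (RingHom.id (Eps B)) d.y (Wei P1))
    (hf : d.r.f ≫ f.f = wmap (eps0 B) h) : l.l d = W.α * P1.a.snd + W.β * P1.b.snd +
      ∑ i, (W.γ i * (P1.x i).snd + W.ρ i * (P1.y i).snd) :=
  hl d _ _ _ _ ⟨P1, h, rfl, rfl, fun _ => rfl, fun _ => rfl, f, hf⟩

/-- The main step. -/
theorem step {B' : Type} [CommRing B'] {P' : WD m B'} (φ : B →+* B') (a : Arrow φ (Wei P') (Wei P))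
    {P1 : WD m (Eps B)} {P1' : WD m (Eps B')} (h : WD.Bc (eps0 B) P1 P)
    (h' : WD.Bc (eps0 B') P1' P') (A : Arrow (epsMap φ) (Wei P1') (Wei P1))
    (hA : a.f ≫ wmap (eps0 B) h = wmap (eps0 B') h' ≫ A.f)
    (d' : Defo 1 (Wei P')) (d : Defo 1 (Wei P)) (f : Arrow (epsMap φ) d'.y d.y)
    (hf : d'.r.f ≫ f.f = a.f ≫ d.r.f) (f1 : Arrow (RingHom.id (Eps B)) d.y (Wei P1))
    (hf1 : d.r.f ≫ f1.f = wmap (eps0 B) h) :
    ∃ g : Arrow (RingHom.id (Eps B')) d'.y (Wei P1'), d'.r.f ≫ g.f = wmap (eps0 B') h' := by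
  obtain ⟨g, hg⟩ := transfer (epsMap φ) A f f1
  refine ⟨g, A.cart.hom_ext ?_ ?_⟩
  · rw [Category.assoc, hg, ← Category.assoc, hf, Category.assoc, hf1, hA]
  · rw [Category.assoc, g.cart.w, spMap_id, Category.comp_id, d'.r.cart.w]
    exact (WX.map_pr (eps0 B') h'.a h'.b).symm

end

/-- Base change of base change. -/
theorem map_comm {A1 A2 A3 A4 : Type} [CommRing A1] [CommRing A2] [CommRing A3] [CommRing A4]
    (f12 : A1 →+* A2) (f24 : A2 →+* A4) (f13 : A1 →+* A3) (f34 : A3 →+* A4)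
    (hf : f24.comp f12 = f34.comp f13) {a1 b1 : A1} {a2 b2 : A2} {a3 b3 : A3} {a4 b4 : A4}
    (h12a : a2 = f12 a1) (h12b : b2 = f12 b1) (h24a : a4 = f24 a2) (h24b : b4 = f24 b2)
    (h13a : a3 = f13 a1) (h13b : b3 = f13 b1) (h34a : a4 = f34 a3) (h34b : b4 = f34 b3) :
    WX.map f24 h24a h24b ≫ WX.map f12 h12a h12b = WX.map f34 h34a h34b ≫ WX.map f13 h13a h13b := by
  have hc : ∀ c, f24 (f12 c) = f34 (f13 c) := fun c => congrArg (fun f => f c) hf
  refine WX.ext' ?_ ?_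
  · rw [WX.in1_map_assoc, WX.in1_map, WX.in1_map_assoc, WX.in1_map, ← Category.assoc,
      ← Category.assoc, spMap_comp', spMap_comp']
    congr 2
    refine hom1_ext (fun c => ?_) ?_ ?_
    · rw [RingHom.comp_apply, RingHom.comp_apply, bc1_b, bc1_b, bc1_b, bc1_b, hc]
    · rw [RingHom.comp_apply, RingHom.comp_apply, bc1_x, bc1_x, bc1_x, bc1_x]
    · rw [RingHom.comp_apply, RingHom.comp_apply, bc1_y, bc1_y, bc1_y, bc1_y]
  · rw [WX.in2_map_assoc, WX.in2_map, WX.in2_map_assoc, WX.in2_map, ← Category.assoc,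
      ← Category.assoc, spMap_comp', spMap_comp']
    congr 2
    refine hom2_ext (fun c => ?_) ?_ ?_
    · rw [RingHom.comp_apply, RingHom.comp_apply, bc2_b, bc2_b, bc2_b, bc2_b, hc]
    · rw [RingHom.comp_apply, RingHom.comp_apply, bc2_z, bc2_z, bc2_z, bc2_z]
    · rw [RingHom.comp_apply, RingHom.comp_apply, bc2_t, bc2_t, bc2_t, bc2_t]

/-- The base change arrow. -/
theorem exists_arrow (hWBC : Stmt_WBC) {m : ℕ} {B B' : Type} [CommRing B] [CommRing B']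
    (φ : B →+* B') {P : WD m B} {P' : WD m B'} (h : WD.Bc φ P P') :
    ∃ a : Arrow φ (Wei P') (Wei P), a.f = wmap φ h :=
  ⟨⟨wmap φ h, hWBC φ h.a h.b, fun i => wmap_sec φ h i⟩, rfl⟩

theorem one (hWE : Stmt_WE) (hWBC : Stmt_WBC) {m : ℕ} {B B' : Type} [CommRing B] [CommRing B']
    (φ : B →+* B') (P : WD m B) (P' : WD m B') (h : WD.Bc φ P P') (W : WCov P) (W' : WCov P')
    (l : Cov 1 (Wei P)) (l' : Cov 1 (Wei P')) (h6 : IsUnit (6 : B))
    (hα : W'.α = φ W.α) (hβ : W'.β = φ W.β) (hγ : ∀ i, W'.γ i = φ (W.γ i))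
    (hρ : ∀ i, W'.ρ i = φ (W.ρ i)) (hl : IsWC W l) (hl' : IsWC W' l') :
    ∃ a : Arrow φ (Wei P') (Wei P), a.f = wmap φ h ∧ Compat a l' l := by
  obtain ⟨a, ha⟩ := exists_arrow hWBC φ h
  refine ⟨a, ha, fun d' d f hf => ?_⟩
  obtain ⟨P1, hP1, f1, hf1⟩ := hWE (sqEps B) P h6 d.thk
  change WD.Bc (eps0 B) P1 P at hP1
  change d.r.f ≫ f1.f = wmap (eps0 B) hP1 at hf1
  obtain ⟨A, hA⟩ := exists_arrow hWBC (epsMap φ) (WD.map_bc (epsMap φ) P1)
  have hP1' : WD.Bc (eps0 B') (P1.map (epsMap φ)) P' := by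
    refine ⟨?_, ?_, fun i => ?_, fun i => ?_⟩
    · change P'.a = (epsMap φ P1.a).fst
      rw [epsMap_fst, h.a, hP1.a, eps0_apply]
    · change P'.b = (epsMap φ P1.b).fst
      rw [epsMap_fst, h.b, hP1.b, eps0_apply]
    · change P'.x i = (epsMap φ (P1.x i)).fst
      rw [epsMap_fst, h.x, hP1.x, eps0_apply]
    · change P'.y i = (epsMap φ (P1.y i)).fst
      rw [epsMap_fst, h.y, hP1.y, eps0_apply]
  have hc : a.f ≫ wmap (eps0 B) hP1 = wmap (eps0 B') hP1' ≫ A.f := by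
    rw [ha, hA]
    refine map_comm (eps0 B) φ (epsMap φ) (eps0 B') ?_ _ _ _ _ _ _ _ _
    refine RingHom.ext fun z => ?_
    change φ z.fst = (epsMap φ z).fst
    rw [epsMap_fst]
  obtain ⟨g, hg⟩ := step φ a hP1 hP1' A hc d' d f hf f1 hf1
  rw [val hl' d' _ hP1' g hg, val hl d P1 hP1 f1 hf1, map_add, map_add, map_mul, map_mul, map_sum,
    hα, hβ]
  congr 1
  · change φ W.α * (epsMap φ P1.a).snd + φ W.β * (epsMap φ P1.b).snd = _
    rw [epsMap_snd, epsMap_snd]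
  · refine Finset.sum_congr rfl fun i _ => ?_
    change W'.γ i * (epsMap φ (P1.x i)).snd + W'.ρ i * (epsMap φ (P1.y i)).snd = _
    rw [epsMap_snd, epsMap_snd, hγ, hρ, map_add, map_mul, map_mul]

/-- The scaled Weierstrass data. -/
def scale {m : ℕ} {B : Type} [CommRing B] (u : B) (P : WD m B) : WD m B where
  a := u ^ 4 * P.a
  b := u ^ 6 * P.b
  x i := u ^ 2 * P.x i
  y i := u ^ 3 * P.y i
  eq i := by
    have := P.eq i
    calc (u ^ 3 * P.y i) ^ 2 = u ^ 6 * P.y i ^ 2 := by ring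
      _ = _ := by rw [this]; ring

theorem scale_sc {m : ℕ} {B : Type} [CommRing B] (u : B) (P : WD m B) : P.Sc u (scale u P) :=
  ⟨rfl, rfl, fun _ => rfl, fun _ => rfl⟩

/-- The scaling arrow. -/
theorem exists_scale (hWSC : Stmt_WSC) {m : ℕ} {B : Type} [CommRing B] {u v : B}
    (huv : u * v = 1) {P P' : WD m B} (h : P.Sc u P') (ψ : B →+* B) (hψ : ψ = RingHom.id B) :
    ∃ a : Arrow ψ (Wei P') (Wei P), a.f = WX.sc huv h.a h.b := by
  subst hψ
  have : IsIso (WX.sc huv h.a h.b) := hWSC.1 huv h.a h.b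
  refine ⟨⟨WX.sc huv h.a h.b, ?_, fun i => ?_⟩, rfl⟩
  · rw [spMap_id]
    have hp : IsPullback (WX.sc huv h.a h.b) (WX.pr B P'.a P'.b) (WX.pr B P.a P.b) (𝟙 (Sp B)) :=
      IsPullback.of_horiz_isIso ⟨by rw [Category.comp_id]; exact WX.sc_pr huv h.a h.b⟩
    exact hp
  · rw [spMap_id, Category.id_comp]
    exact hWSC.2.1 huv P P' h i

theorem two (hWE : Stmt_WE) (hWSC : Stmt_WSC) {m : ℕ} {B : Type} [CommRing B] (u : B)
    (P P' : WD m B) (W : WCov P) (W' : WCov P')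
    (l : Cov 1 (Wei P)) (l' : Cov 1 (Wei P')) (h6 : IsUnit (6 : B)) (hu : IsUnit u)
    (h : P.Sc u P') (hα : u ^ 4 * W'.α = W.α) (hβ : u ^ 6 * W'.β = W.β)
    (hγ : ∀ i, u ^ 2 * W'.γ i = W.γ i) (hρ : ∀ i, u ^ 3 * W'.ρ i = W.ρ i)
    (hl : IsWC W l) (hl' : IsWC W' l') :
    ∃ a : Arrow (RingHom.id B) (Wei P') (Wei P), Compat a l' l := by
  obtain ⟨v, huv⟩ := hu.exists_right_inv
  obtain ⟨a, ha⟩ := exists_scale hWSC huv h (RingHom.id B) rfl
  refine ⟨a, fun d' d f hf => ?_⟩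
  obtain ⟨P1, hP1, f1, hf1⟩ := hWE (sqEps B) P h6 d.thk
  change WD.Bc (eps0 B) P1 P at hP1
  change d.r.f ≫ f1.f = wmap (eps0 B) hP1 at hf1
  have hUV : (TrivSqZeroExt.inl u : Eps B) * TrivSqZeroExt.inl v = 1 := by
    rw [← TrivSqZeroExt.inl_mul, huv, TrivSqZeroExt.inl_one]
  obtain ⟨A, hA⟩ := exists_scale hWSC hUV (scale_sc (TrivSqZeroExt.inl u : Eps B) P1)
    (epsMap (RingHom.id B)) (epsMap_id B)
  have hP1' : WD.Bc (eps0 B) (scale (TrivSqZeroExt.inl u : Eps B) P1) P' := by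
    refine ⟨?_, ?_, fun i => ?_, fun i => ?_⟩
    · change P'.a = eps0 B ((TrivSqZeroExt.inl u : Eps B) ^ 4 * P1.a)
      rw [h.a, hP1.a, map_mul, map_pow]
      rfl
    · change P'.b = eps0 B ((TrivSqZeroExt.inl u : Eps B) ^ 6 * P1.b)
      rw [h.b, hP1.b, map_mul, map_pow]
      rfl
    · change P'.x i = eps0 B ((TrivSqZeroExt.inl u : Eps B) ^ 2 * P1.x i)
      rw [h.x, hP1.x, map_mul, map_pow]
      rfl
    · change P'.y i = eps0 B ((TrivSqZeroExt.inl u : Eps B) ^ 3 * P1.y i)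
      rw [h.y, hP1.y, map_mul, map_pow]
      rfl
  have hc : a.f ≫ wmap (eps0 B) hP1 = wmap (eps0 B) hP1' ≫ A.f := by
    rw [ha, hA]
    exact hWSC.2.2 (eps0 B) hUV _ _ huv _ _ _ _ _ _ rfl
  obtain ⟨g, hg⟩ := step (RingHom.id B) a hP1 hP1' A hc d' d f hf f1 hf1
  rw [val hl' d' _ hP1' g hg, RingHom.id_apply, val hl d P1 hP1 f1 hf1, ← hα, ← hβ]
  have key : ∀ (n : ℕ) (z : Eps B), ((TrivSqZeroExt.inl u : Eps B) ^ n * z).snd = u ^ n * z.snd := by
    intro n z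
    rw [TrivSqZeroExt.inl_pow, TrivSqZeroExt.snd_mul]
    simp
  congr 1
  · change W'.α * ((TrivSqZeroExt.inl u : Eps B) ^ 4 * P1.a).snd +
      W'.β * ((TrivSqZeroExt.inl u : Eps B) ^ 6 * P1.b).snd = _
    rw [key, key]
    ring
  · refine Finset.sum_congr rfl fun i _ => ?_
    change W'.γ i * ((TrivSqZeroExt.inl u : Eps B) ^ 2 * P1.x i).snd +
      W'.ρ i * ((TrivSqZeroExt.inl u : Eps B) ^ 3 * P1.y i).snd = _
    rw [key, key, ← hγ, ← hρ]
    ring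

end WNA

theorem t_WNA (hWE : Stmt_WE) (_hWU : Stmt_WU) (hWBC : Stmt_WBC) (hWSC : Stmt_WSC) :
    Stmt_WNA := by
  refine ⟨?_, ?_⟩
  · intro m B B' _ _ φ P P' h W W' l l' h6 hα hβ hγ hρ hl hl'
    exact WNA.one hWE hWBC φ P P' h W W' l l' h6 hα hβ hγ hρ hl hl'
  · intro m B _ u P P' W W' l l' h6 hu h hα hβ hγ hρ hl hl'
    exact WNA.two hWE hWSC u P P' W W' l l' h6 hu h hα hβ hγ hρ hl hl'

end Pool.Agent.MG.W
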